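import Pool.Agent.Helper75.Xi.Tr

set_option autoImplicit false
set_option maxHeartbeats 1000000

open Filter Topology MeasureTheory Complex Metric
open Pool.Agent.H21.Xi (cnt cnt_mono)
open Pool.Agent.Helper75.Jen (fx Gx LB fx_diff fx_conj)
open scoped ENNReal

namespace Pool.Agent.Helper75.Xi

noncomputable section

/-- the small windows -/
def Jw (T δ : ℝ) (k : ℕ) : Set ℝ := Set.Icc (T + k * δ) (T + (k + 1) * δ)

open Classical in
lemma card_le {E : Set ℝ} {T δ V : ℝ} {N : ℕ} (hδ : 0 < δ) (hN : N * δ ≤ T)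
    (hE : volume (E ∩ Set.Icc T (2 * T)) ≤ ENNReal.ofReal V) (hV : 0 ≤ V) :
    ((((Finset.range N).filter (fun k => Jw T δ k ⊆ E)).card : ℕ) : ℝ) * δ ≤ V := by
  set F := (Finset.range N).filter (fun k => Jw T δ k ⊆ E) with hF
  set B : ℕ → Set ℝ := fun k => Set.Ioo (T + k * δ) (T + (k + 1) * δ) with hB
  have hdisj : (F : Set ℕ).PairwiseDisjoint B := by
    intro i _ j _ hij
    rw [Function.onFun, Set.disjoint_left]
    intro x hx hx'
    simp only [hB, Set.mem_Ioo] at hx hx'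
    rcases Nat.lt_or_gt_of_ne hij with h | h
    · have h1 : (i : ℝ) + 1 ≤ j := by exact_mod_cast h
      have h2 : ((i : ℝ) + 1) * δ ≤ j * δ := by gcongr
      linarith [hx.2, hx'.1]
    · have h1 : (j : ℝ) + 1 ≤ i := by exact_mod_cast h
      have h2 : ((j : ℝ) + 1) * δ ≤ i * δ := by gcongr
      linarith [hx.1, hx'.2]
  have hm := measure_biUnion_finset (μ := volume) hdisj (fun i _ => measurableSet_Ioo)
  have hsub : (⋃ i ∈ F, B i) ⊆ E ∩ Set.Icc T (2 * T) := by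
    intro x hx
    simp only [Set.mem_iUnion] at hx
    obtain ⟨i, hi, hxi⟩ := hx
    rw [hF, Finset.mem_filter, Finset.mem_range] at hi
    simp only [hB, Set.mem_Ioo] at hxi
    refine ⟨hi.2 ⟨hxi.1.le, hxi.2.le⟩, ?_, ?_⟩
    · have : 0 ≤ (i : ℝ) * δ := by positivity
      linarith [hxi.1]
    · have h1 : (i : ℝ) + 1 ≤ N := by exact_mod_cast hi.1
      have h2 : ((i : ℝ) + 1) * δ ≤ N * δ := by gcongr
      linarith [hxi.2]
  have h1 := (measure_mono hsub).trans hE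
  rw [hm] at h1
  have h2 : ∀ i ∈ F, volume (B i) = ENNReal.ofReal δ := by
    intro i _
    simp only [hB]
    rw [Real.volume_Ioo]
    congr 1
    ring
  rw [Finset.sum_congr rfl h2, Finset.sum_const, nsmul_eq_mul] at h1
  have h3 : ((F.card : ℕ) : ℝ≥0∞) = ENNReal.ofReal (F.card : ℝ) := by simp
  rw [h3, ← ENNReal.ofReal_mul (by positivity)] at h1
  exact (ENNReal.ofReal_le_ofReal_iff hV).1 h1

/-- the zeros in a union of windows -/
lemma cnt_union (f : ℂ → ℂ) {S : Set ℂ} {N : ℕ} {Sk : ℕ → Set ℂ}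
    (h : ∀ w ∈ S, ∃ k < N, w ∈ Sk k) : cnt f S ≤ ∑ k ∈ Finset.range N, cnt f (Sk k) := by
  have h1 : S ⊆ ⋃ k ∈ Finset.range N, Sk k := by
    intro w hw
    obtain ⟨k, hk, hwk⟩ := h w hw
    simp only [Set.mem_iUnion, Finset.mem_range]
    exact ⟨k, hk, hwk⟩
  refine (cnt_mono f h1).trans ?_
  unfold cnt
  exact ENNReal.tsum_biUnion_le (fun z => ((analyticOrderAt f z : ℕ∞) : ℝ≥0∞)) _ _

lemma cnt_zero {f : ℂ → ℂ} (hf : Differentiable ℂ f) {S : Set ℂ} (h : ∀ z ∈ S, f z ≠ 0) :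
    cnt f S = 0 := by
  have h1 := cnt_le_of_zeros hf (S := S) (T := ∅) (fun z hz h0 => absurd h0 (h z hz))
  have h2 : cnt f ∅ = 0 := by
    unfold cnt
    simp
  rw [h2] at h1
  exact le_antisymm h1 bot_le

/-- the windows cover -/
lemma cover {T δ y : ℝ} {N : ℕ} (hδ : 0 < δ) (hN : N * δ = T) (hT : 0 < T) (h1 : T ≤ y)
    (h2 : y ≤ 2 * T) : ∃ k < N, y ∈ Jw T δ k := by
  have hN0 : 0 < N := by
    rcases Nat.eq_zero_or_pos N with h | h
    · rw [h] at hN; simp at hN; linarith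
    · exact h
  set k := ⌊(y - T) / δ⌋₊ with hk
  have hy0 : 0 ≤ (y - T) / δ := div_nonneg (by linarith) hδ.le
  have hk1 : (k : ℝ) ≤ (y - T) / δ := Nat.floor_le hy0
  have hk2 : (y - T) / δ < k + 1 := Nat.lt_floor_add_one _
  rw [le_div_iff₀ hδ] at hk1
  rw [div_lt_iff₀ hδ] at hk2
  rcases Nat.lt_or_ge k N with h | h
  · exact ⟨k, h, by linarith, by linarith⟩
  · refine ⟨N - 1, by omega, ?_, ?_⟩
    · have h3 : ((N - 1 : ℕ) : ℝ) ≤ k := by exact_mod_cast (by omega : N - 1 ≤ k)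
      have h4 : ((N - 1 : ℕ) : ℝ) * δ ≤ k * δ := by gcongr
      linarith
    · have h3 : ((N - 1 : ℕ) : ℝ) + 1 = N := by
        rw [Nat.cast_sub (by omega)]; simp
      rw [h3, hN]
      linarith

lemma y_exp {y c : ℝ} (hc : 0 < c) : y * Real.exp (-(c * y)) ≤ 2 / c * Real.exp (-(c / 2 * y)) := by
  have h1 : c / 2 * y ≤ Real.exp (c / 2 * y) := by
    have := Real.add_one_le_exp (c / 2 * y)
    linarith
  have h2 : y ≤ 2 / c * Real.exp (c / 2 * y) := by
    rw [div_mul_eq_mul_div, le_div_iff₀ hc]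
    linarith
  calc y * Real.exp (-(c * y)) ≤ 2 / c * Real.exp (c / 2 * y) * Real.exp (-(c * y)) := by gcongr
    _ = _ := by
      rw [mul_assoc, ← Real.exp_add]; congr 2; ring

open Classical in
/-- one dyadic block -/
theorem block {C1 C0 : ℝ} (hLB : LB C1) (hZR : 1 ≤ C0 ∧ ∀ s : ℂ, 5 / 4 ≤ s.re →
    riemannZeta s ≠ 0 ∧ ‖logDeriv riemannZeta s‖ ≤ C0 ∧ ‖riemannZeta s‖ ≤ C0 ∧
      1 ≤ C0 * ‖riemannZeta s‖) :
    ∃ C c : ℝ, 0 ≤ C ∧ 0 < c ∧ ∀ᶠ T : ℝ in atTop, ∀ P : ℝ, P = Real.log T / 2 → ∀ m : ℕ,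
      (10 : ℝ) ^ 12 ≤ m → m < 10000 * P →
      cnt (iteratedDeriv m fx) {w : ℂ | T ≤ w.im ∧ w.im ≤ 2 * T ∧ |w.re| ≤ 1 / 2 ∧ w ∈ Bad m} ≤
        ENNReal.ofReal (C * Real.exp (-(c * m)) * (P * T)) := by
  obtain ⟨C, c, hC, hc, hgood⟩ := good_sets hLB hZR
  have hκ0 : 0 < c / 2 := by positivity
  have hg1 : Real.exp (-(c / 2)) < 1 := by
    rw [Real.exp_lt_one_iff]; linarith
  have hg2 : 0 < 1 / (1 - Real.exp (-(c / 2))) := by
    apply one_div_pos.2; linarith
  refine ⟨102 * 2 * C * (2 / c) * (1 / (1 - Real.exp (-(c / 2)))), c / 2, by positivity, hκ0, ?_⟩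
  filter_upwards [hgood] with T hT
  intro P hP m hm hmP
  obtain ⟨henv, hsets⟩ := hT P hP
  have hP9 := henv.P9
  have hP0 : 0 < P := by linarith
  have hTP := henv.TP
  have hT18 := henv.T18
  have hT0 := henv.T0
  have hm0 : (0 : ℝ) < m := by linarith
  -- the windows
  set N : ℕ := ⌈T * P⌉₊ with hN
  have hN1 : T * P ≤ N := Nat.le_ceil _
  have hN2 : (N : ℝ) < T * P + 1 := Nat.ceil_lt_add_one (by positivity)
  have hTP1 : 1 ≤ T * P := by nlinarith
  have hN0 : (0 : ℝ) < N := by linarith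
  set δ : ℝ := T / N with hδdef
  have hδ0 : 0 < δ := by positivity
  have hNδ : N * δ = T := by rw [hδdef]; field_simp
  have hδ1 : δ ≤ 1 / P := by
    rw [hδdef, div_le_div_iff₀ hN0 hP0]; linarith
  have hδ2 : 1 / (2 * P) ≤ δ := by
    rw [hδdef, div_le_div_iff₀ (by positivity) hN0]; linarith
  -- the scales
  have hex : ∃ J : ℕ, 10000 * P ≤ 2 ^ J * (m : ℝ) := by
    refine ⟨⌈10000 * P⌉₊, ?_⟩
    have h1 : 10000 * P ≤ (⌈10000 * P⌉₊ : ℝ) := Nat.le_ceil _
    have h2 : (⌈10000 * P⌉₊ : ℝ) ≤ 2 ^ ⌈10000 * P⌉₊ := by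
      exact_mod_cast (Nat.lt_two_pow_self (n := ⌈10000 * P⌉₊)).le
    have h3 : (2 : ℝ) ^ ⌈10000 * P⌉₊ * 1 ≤ 2 ^ ⌈10000 * P⌉₊ * m := by
      gcongr; linarith
    linarith
  set J := Nat.find hex with hJ
  have hJ1 : 10000 * P ≤ 2 ^ J * (m : ℝ) := Nat.find_spec hex
  have hJlt : ∀ j < J, 2 ^ j * (m : ℝ) < 10000 * P := by
    intro j hj
    have := Nat.find_min hex hj
    linarith
  have hJpos : 0 < J := by
    rcases Nat.eq_zero_or_pos J with h | h
    · rw [h] at hJ1; simp at hJ1; linarith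
    · exact h
  have hJ2 : 2 ^ J * (m : ℝ) ≤ 20000 * P := by
    have h1 := hJlt (J - 1) (by omega)
    have h2 : (2 : ℝ) ^ J = 2 * 2 ^ (J - 1) := by
      rw [← pow_succ']; congr 1; omega
    rw [h2]; linarith
  have hMj : ∀ j : ℕ, (m : ℝ) ≤ 2 ^ j * m := fun j =>
    le_mul_of_one_le_left hm0.le (one_le_pow₀ (by norm_num))
  have hEx : ∀ j : ℕ, ∃ E : Set ℝ, j < J → (
      volume (E ∩ Set.Icc T (2 * T)) ≤ ENNReal.ofReal (C * Real.exp (-(c * (2 ^ j * m))) * T) ∧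
      ∀ t ∈ Set.Icc T (2 * T), t ∉ E → Cone (Gp t P) (2 ^ j * m) (400000 * P) ee ∧
          Low (Gp t P) (2 ^ j * m) (1 / 1000)) := by
    intro j
    by_cases h : j < J
    · obtain ⟨E, h1, h2, h3⟩ := hsets (2 ^ j * m) (hm.trans (hMj j)) (hJlt j h)
      exact ⟨E, fun _ => ⟨h2, h3⟩⟩
    · exact ⟨∅, fun h' => absurd h' h⟩
  choose E hE using hEx
  have hH : 200 * (400000 * P / P) ≤ T / 8 := by
    rw [mul_div_cancel_right₀ _ hP0.ne']
    linarith
  have htop : ∀ t ∈ Set.Icc T (2 * T), Cone (Gp t P) (2 ^ J * m) (400000 * P) ee ∧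
          Low (Gp t P) (2 ^ J * m) (1 / 1000) := by
    intro t ht
    refine ⟨henv.cone_det ht (by linarith) hH, henv.low_det ht hJ1 ?_⟩
    have : 2 ^ J * (m : ℝ) / P ≤ 20000 := by
      rw [div_le_iff₀ hP0]; exact hJ2
    linarith
  -- the zeros in one window
  set Sk : ℕ → Set ℂ := fun k => {w : ℂ | w.im ∈ Jw T δ k ∧ |w.re| ≤ 1 / 2 ∧ w ∈ Bad m} with hSk
  have hJsub : ∀ k < N, Jw T δ k ⊆ Set.Icc T (2 * T) := by
    intro k hk x hx
    have h1 : (k : ℝ) + 1 ≤ N := by exact_mod_cast hk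
    have h2 : ((k : ℝ) + 1) * δ ≤ N * δ := by gcongr
    have h3 : 0 ≤ (k : ℝ) * δ := by positivity
    exact ⟨by linarith [hx.1], by linarith [hx.2]⟩
  have hwin : ∀ k < N, cnt (iteratedDeriv m fx) (Sk k) ≤
      ∑ j ∈ Finset.range J, if Jw T δ k ⊆ E j then ENNReal.ofReal (102 * (2 ^ j * m)) else 0 := by
    intro k hk
    have hexg : ∃ j : ℕ, ∃ t ∈ Jw T δ k, Cone (Gp t P) (2 ^ j * m) (400000 * P) ee ∧
          Low (Gp t P) (2 ^ j * m) (1 / 1000) := by
      have hmem : T + k * δ ∈ Jw T δ k := by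
        refine ⟨le_rfl, ?_⟩
        linarith
      exact ⟨J, T + k * δ, hmem, htop _ (hJsub k hk hmem)⟩
    set j0 := Nat.find hexg with hj0
    obtain ⟨t, htJ, htc, htl⟩ := Nat.find_spec hexg
    rw [← hj0] at htc htl
    have hj0J : j0 ≤ J := by
      have hmem : T + k * δ ∈ Jw T δ k := by
        refine ⟨le_rfl, ?_⟩
        linarith
      exact Nat.find_min' hexg ⟨T + k * δ, hmem, htop _ (hJsub k hk hmem)⟩
    have hmin : ∀ j < j0, Jw T δ k ⊆ E j := by
      intro j hj t ht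
      by_contra hcon
      have h1 := Nat.find_min hexg hj
      apply h1
      exact ⟨t, ht, (hE j (by omega)).2 t (hJsub k hk ht) hcon⟩
    have hwt : ∀ w ∈ Sk k, |w.im - t| ≤ 1 / P := by
      intro w hw
      have h1 := hw.1.1
      have h2 := hw.1.2
      have h3 := htJ.1
      have h4 := htJ.2
      rw [abs_le]
      constructor <;> linarith
    have hPre : ∀ w ∈ Sk k, P * |w.re| ≤ P / 2 := by
      intro w hw
      have := mul_le_mul_of_nonneg_left hw.2.1 hP0.le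
      linarith
    rcases Nat.eq_zero_or_pos j0 with h0 | h0
    · rw [h0, pow_zero, one_mul] at htc htl
      have hz : cnt (iteratedDeriv m fx) (Sk k) = 0 := by
        refine cnt_zero (fx_iter_diff m) ?_
        intro w hw h00
        obtain ⟨a1, a2⟩ := no_bad hP0 (by linarith) (by linarith) htc htl (hwt w hw)
          (by linarith [hPre w hw]) h00
        rcases hw.2.2 with h | h
        · exact h a1
        · exact a2 h
      rw [hz]
      exact bot_le
    · obtain ⟨j', hj'⟩ : ∃ j', j0 = j' + 1 := ⟨j0 - 1, by omega⟩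
      have hcount : cnt (iteratedDeriv m fx) (Sk k) ≤
          ENNReal.ofReal ((50 + 2 * (1 / 1000)) * (2 ^ j0 * m)) := by
        have hle : 2 ^ j0 * (m : ℝ) ≤ 2 ^ J * m := by
          gcongr
          norm_num
        refine win_count hP0 (by linarith) (hMj j0) (by linarith) (by norm_num) htc htl ?_
        intro w hw
        refine ⟨hwt w hw, ?_⟩
        linarith [hPre w hw]
      refine hcount.trans ?_
      have hterm : ENNReal.ofReal ((50 + 2 * (1 / 1000)) * (2 ^ j0 * m)) ≤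
          (if Jw T δ k ⊆ E j' then ENNReal.ofReal (102 * (2 ^ j' * m)) else 0) := by
        rw [if_pos (hmin j' (by omega))]
        apply ENNReal.ofReal_le_ofReal
        rw [hj', pow_succ]
        have : 0 ≤ 2 ^ j' * (m : ℝ) := by positivity
        linarith
      refine hterm.trans ?_
      exact Finset.single_le_sum (f := fun j => if Jw T δ k ⊆ E j then
        ENNReal.ofReal (102 * (2 ^ j * (m : ℝ))) else 0) (fun j _ => bot_le)
        (Finset.mem_range.2 (by omega))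
  -- all windows
  have hall : cnt (iteratedDeriv m fx) {w : ℂ | T ≤ w.im ∧ w.im ≤ 2 * T ∧ |w.re| ≤ 1 / 2 ∧ w ∈ Bad m} ≤
      ∑ k ∈ Finset.range N, cnt (iteratedDeriv m fx) (Sk k) := by
    apply cnt_union
    intro w hw
    obtain ⟨k, hk, hkw⟩ := cover hδ0 hNδ hT0 hw.1 hw.2.1
    exact ⟨k, hk, hkw, hw.2.2⟩
  refine hall.trans ?_
  refine (Finset.sum_le_sum fun k hk => hwin k (Finset.mem_range.1 hk)).trans ?_
  rw [Finset.sum_comm]
  have hj : ∀ j ∈ Finset.range J, ∑ k ∈ Finset.range N, (if Jw T δ k ⊆ E j then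
      ENNReal.ofReal (102 * (2 ^ j * m)) else 0) ≤
      ENNReal.ofReal (102 * 2 * C * (P * T) * (2 / c) * Real.exp (-(2 ^ j * (c / 2 * m)))) := by
    intro j hj
    rw [← Finset.sum_filter, Finset.sum_const, nsmul_eq_mul]
    set F := (Finset.range N).filter (fun k => Jw T δ k ⊆ E j) with hF
    have hcard : ((F.card : ℕ) : ℝ) * δ ≤ C * Real.exp (-(c * (2 ^ j * m))) * T :=
      card_le hδ0 hNδ.le (hE j (Finset.mem_range.1 hj)).1 (by positivity)
    have hcard2 : ((F.card : ℕ) : ℝ) ≤ 2 * P * (C * Real.exp (-(c * (2 ^ j * m))) * T) := by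
      have h1 : ((F.card : ℕ) : ℝ) * (1 / (2 * P)) ≤ F.card * δ := by gcongr
      have h2 := h1.trans hcard
      rw [mul_one_div, div_le_iff₀ (by positivity)] at h2
      linarith
    have h3 : ((F.card : ℕ) : ℝ≥0∞) = ENNReal.ofReal (F.card : ℝ) := by simp
    rw [h3, ← ENNReal.ofReal_mul (by positivity)]
    apply ENNReal.ofReal_le_ofReal
    have h4 := y_exp (y := 2 ^ j * (m : ℝ)) hc
    calc (F.card : ℝ) * (102 * (2 ^ j * m)) ≤
        (2 * P * (C * Real.exp (-(c * (2 ^ j * m))) * T)) * (102 * (2 ^ j * m)) := by gcongr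
      _ = 102 * 2 * C * (P * T) * ((2 ^ j * m) * Real.exp (-(c * (2 ^ j * m)))) := by ring
      _ ≤ 102 * 2 * C * (P * T) * (2 / c * Real.exp (-(c / 2 * (2 ^ j * m)))) := by gcongr
      _ = _ := by
        rw [show c / 2 * (2 ^ j * (m : ℝ)) = 2 ^ j * (c / 2 * m) by ring]
        ring
  refine (Finset.sum_le_sum hj).trans ?_
  rw [← ENNReal.ofReal_sum_of_nonneg (fun i _ => by positivity)]
  apply ENNReal.ofReal_le_ofReal
  rw [← Finset.mul_sum]
  have hgeo := geo_sum (a := c / 2 * m) (by positivity) J hκ0 (by nlinarith)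
  calc 102 * 2 * C * (P * T) * (2 / c) * ∑ i ∈ Finset.range J, Real.exp (-(2 ^ i * (c / 2 * m))) ≤
      102 * 2 * C * (P * T) * (2 / c) * (Real.exp (-(c / 2 * m)) *
        (1 / (1 - Real.exp (-(c / 2))))) := by gcongr
    _ = _ := by ring

end

end Pool.Agent.Helper75.Xi
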