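import Pool.Agent.Helper75.Xi.RegC2
import Pool.Agent.Helper75.Xi.Blk

set_option autoImplicit false
set_option maxHeartbeats 1000000

open Filter Topology MeasureTheory Complex Metric
open Pool.Agent.H21.Xi (cnt cnt_mono)
open Pool.Agent.Helper75.Jen (fx Gx LB fx_diff fx_conj logDeriv_Gx)
open scoped ENNReal

namespace Pool.Agent.Helper75.Xi

noncomputable section

/-- middle heights -/
theorem regB {C1 C0 T P : ℝ} (h : Env C1 C0 T P) {m : ℕ} (hm : 10000 * P ≤ m)
    (hm2 : 25600 * m ≤ T * P) {w : ℂ} (h1 : T ≤ w.im) (h2 : w.im ≤ 2 * T)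
    (hz : iteratedDeriv m fx w = 0) : w.re = 0 ∧ iteratedDeriv (m + 1) fx w ≠ 0 := by
  have hP9 := h.P9
  have hP0 : 0 < P := by linarith
  have hm0 : (0 : ℝ) < m := by linarith
  have ht : w.im ∈ Set.Icc T (2 * T) := ⟨h1, h2⟩
  have hmP : (m : ℝ) / P ≤ T / 25600 := by
    rw [div_le_div_iff₀ hP0 (by norm_num)]
    linarith
  have hT0 := h.T0
  have hc := h.cone_det ht (M := m) (H := 16 * m) (by linarith) (by
    rw [mul_div_assoc]; linarith)
  have hl := h.low_det ht (M := m) hm (by linarith)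
  refine no_bad hP0 (by linarith) (by linarith) hc hl (by rw [sub_self, abs_zero]; positivity) ?_ hz
  have := strip_zero m hz
  have h3 : P * |w.re| ≤ P * (1 / 2) := mul_le_mul_of_nonneg_left this hP0.le
  linarith

lemma dyadic {T y : ℝ} (hy : 0 < y) (hyT : y ≤ T) :
    ∃ i : ℕ, T / 2 ^ (i + 1) ≤ y ∧ y ≤ 2 * (T / 2 ^ (i + 1)) := by
  have hT : 0 < T := by linarith
  have hex : ∃ i : ℕ, T / 2 ^ (i + 1) ≤ y := by
    obtain ⟨n, hn⟩ := pow_unbounded_of_one_lt (T / y) (by norm_num : (1 : ℝ) < 2)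
    refine ⟨n, ?_⟩
    rw [div_lt_iff₀ hy] at hn
    rw [div_le_iff₀ (by positivity), pow_succ]
    nlinarith [pow_pos (show (0 : ℝ) < 2 by norm_num) n]
  classical
  refine ⟨Nat.find hex, Nat.find_spec hex, ?_⟩
  rcases Nat.eq_zero_or_pos (Nat.find hex) with h0 | h0
  · rw [h0]; norm_num; linarith
  · have h1 := Nat.find_min hex (m := Nat.find hex - 1) (by omega)
    rw [show Nat.find hex - 1 + 1 = Nat.find hex by omega, not_le] at h1
    rw [pow_succ]
    have e : ∀ n : ℕ, 2 * (T / (2 ^ n * 2)) = T / 2 ^ n := by intro n; field_simp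
    rw [e]; exact h1.le

lemma half_sum (N : ℕ) : ∑ i ∈ Finset.range N, 1 / (2 : ℝ) ^ (i + 1) ≤ 1 := by
  have h : ∀ N : ℕ, ∑ i ∈ Finset.range N, 1 / (2 : ℝ) ^ (i + 1) = 1 - 1 / 2 ^ N := by
    intro N
    induction N with
    | zero => simp
    | succ N ih =>
      rw [Finset.sum_range_succ, ih, pow_succ]
      field_simp
      ring
  rw [h N]
  have : (0 : ℝ) < 1 / 2 ^ N := by positivity
  linarith

/-- the main theorem for the even entire function `fx` -/
theorem main_fx : ∃ C c : ℝ, ∃ m₀ : ℕ, 0 < C ∧ 0 < c ∧ ∀ m : ℕ, m₀ ≤ m →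
    (∀ w : ℂ, 0 ≤ w.im → w.im ≤ Real.exp (c * m) → iteratedDeriv m fx w = 0 →
      w.re = 0 ∧ iteratedDeriv (m + 1) fx w ≠ 0) ∧
    ∀ T : ℝ, 1 ≤ T → cnt (iteratedDeriv m fx) {w : ℂ | 0 < w.im ∧ w.im ≤ T ∧ w ∈ Bad m} ≤
      ENNReal.ofReal (C * Real.exp (-(c * m)) * (T * Real.log T)) := by
  obtain ⟨C0, hC0, hZ⟩ := zeta_right
  obtain ⟨K, hK1, hK⟩ := dig_right
  obtain ⟨C1, hC1, hL1⟩ := logDeriv_Gx
  have hLB : LB (C1 + K) := by
    refine ⟨by linarith, ?_⟩
    intro w h1 h2
    obtain ⟨a1, a2, a3⟩ := hL1 w h1 h2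
    exact ⟨a1, a2, by linarith⟩
  obtain ⟨C, c, hC, hc, hblk⟩ := block hLB ⟨hC0, hZ⟩
  obtain ⟨CG, cG, -, -, hgs⟩ := good_sets hLB ⟨hC0, hZ⟩
  obtain ⟨m₁, hm₁⟩ := regC hK1 hK ⟨hC0, hZ⟩
  obtain ⟨T₁, hT₁⟩ := eventually_atTop.1 (hblk.and hgs)
  have hθ : 0 < 1 / (16000 * K) := by positivity
  set m₀ : ℕ := ⌈max (max m₁ (10 ^ 12)) (16000 * K * max T₁ 1)⌉₊ with hm₀
  refine ⟨C + 1, min c (1 / 10000), m₀, by linarith, lt_min hc (by norm_num), ?_⟩
  intro m hm
  have hmR : max (max m₁ (10 ^ 12)) (16000 * K * max T₁ 1) ≤ (m : ℝ) :=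
    (Nat.le_ceil _).trans (Nat.cast_le.2 hm)
  have hm1 : m₁ ≤ m := ((le_max_left _ _).trans (le_max_left _ _)).trans hmR
  have hm12 : (10 : ℝ) ^ 12 ≤ m := ((le_max_right _ _).trans (le_max_left _ _)).trans hmR
  have hmT : 16000 * K * max T₁ 1 ≤ m := (le_max_right _ _).trans hmR
  have hm0 : (0 : ℝ) < m := by linarith
  have hlowT : ∀ T : ℝ, m / (16000 * K) ≤ T → T₁ ≤ T ∧ 1 ≤ T := by
    intro T hT
    have h1 : max T₁ 1 ≤ m / (16000 * K) := by
      rw [le_div_iff₀ (by positivity)]; linarith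
    exact ⟨((le_max_left _ _).trans h1).trans hT, ((le_max_right _ _).trans h1).trans hT⟩
  have henvT : ∀ T : ℝ, m / (16000 * K) ≤ T →
      Env (C1 + K) C0 T (Real.log T / 2) ∧ 25600 * m ≤ T * (Real.log T / 2) := by
    intro T hT
    obtain ⟨h1, h2⟩ := hlowT T hT
    have henv := ((hT₁ T h1).2 _ rfl).1
    refine ⟨henv, ?_⟩
    have hP := henv.P0
    have h3 : 10 ^ 9 * K ≤ Real.log T / 2 := by
      have : 10 ^ 9 * K ≤ 10 ^ 9 * (C1 + K + C0) := by nlinarith
      linarith
    calc 25600 * (m : ℝ) ≤ (m / (16000 * K)) * (10 ^ 9 * K) := by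
          have e : (m / (16000 * K)) * (10 ^ 9 * K) = 62500 * m := by
            field_simp
            norm_num
          rw [e]; linarith
      _ ≤ T * (Real.log T / 2) := by gcongr
  have e16 : m / (16000 * K) ≤ m / (8000 * K) :=
    div_le_div_of_nonneg_left hm0.le (by positivity) (by nlinarith)
  constructor
  · intro w hw0 hw1 hz
    rcases le_total w.im (m / (8000 * K)) with h1 | h1
    · exact hm₁ m hm1 w hw0 h1 hz
    · obtain ⟨henv, h2⟩ := henvT w.im (e16.trans h1)
      have hT0 := henv.T0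
      refine regB henv ?_ h2 le_rfl (by linarith) hz
      have h3 : Real.log w.im ≤ min c (1 / 10000) * m := by
        rw [Real.log_le_iff_le_exp hT0]; exact hw1
      have h4 : min c (1 / 10000) * m ≤ 1 / 10000 * m := by
        gcongr; exact min_le_right _ _
      linarith
  · intro T hT1
    have hT0 : 0 < T := by linarith
    have hlogT : 0 ≤ Real.log T := Real.log_nonneg hT1
    classical
    have hex : ∃ I : ℕ, T / 2 ^ I < m / (8000 * K) := by
      obtain ⟨n, hn⟩ := pow_unbounded_of_one_lt (T / (m / (8000 * K))) (by norm_num : (1 : ℝ) < 2)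
      refine ⟨n, ?_⟩
      rw [div_lt_iff₀ (by positivity)] at hn ⊢
      linarith
    set N := Nat.find hex with hN
    have hNlt : ∀ i < N, m / (8000 * K) ≤ T / 2 ^ i := by
      intro i hi
      exact not_lt.1 (Nat.find_min hex hi)
    have hNs : T / 2 ^ N < m / (8000 * K) := Nat.find_spec hex
    set Si : ℕ → Set ℂ := fun i => if i < N then
      {w : ℂ | T / 2 ^ (i + 1) ≤ w.im ∧ w.im ≤ 2 * (T / 2 ^ (i + 1)) ∧ w ∈ Bad m} else
      {w : ℂ | 0 ≤ w.im ∧ w.im ≤ m / (8000 * K) ∧ w ∈ Bad m} with hSi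
    have hcov : cnt (iteratedDeriv m fx) {w : ℂ | 0 < w.im ∧ w.im ≤ T ∧ w ∈ Bad m} ≤
        ∑ i ∈ Finset.range (N + 1), cnt (iteratedDeriv m fx) (Si i) := by
      apply cnt_union
      intro w hw
      obtain ⟨h1, h2, h3⟩ := hw
      rcases le_total w.im (m / (8000 * K)) with h4 | h4
      · refine ⟨N, by omega, ?_⟩
        simp only [hSi, lt_irrefl, if_false]
        exact ⟨h1.le, h4, h3⟩
      · obtain ⟨i, hi1, hi2⟩ := dyadic h1 h2
        have hiN : i < N := by
          by_contra hcon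
          push Not at hcon
          have h5 : 2 * (T / 2 ^ (i + 1)) ≤ T / 2 ^ N := by
            rw [pow_succ]
            have e : 2 * (T / (2 ^ i * 2)) = T / 2 ^ i := by field_simp
            rw [e]
            apply div_le_div_of_nonneg_left hT0.le (by positivity)
            exact pow_le_pow_right₀ (by norm_num) hcon
          linarith
        refine ⟨i, by omega, ?_⟩
        simp only [hSi, hiN, if_true]
        exact ⟨hi1, hi2, h3⟩
    refine hcov.trans ?_
    have hterm : ∀ i ∈ Finset.range (N + 1), cnt (iteratedDeriv m fx) (Si i) ≤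
        ENNReal.ofReal (C * Real.exp (-(c * m)) * (T * Real.log T) * (1 / 2 ^ (i + 1))) := by
      intro i hi
      rcases Nat.lt_or_ge i N with h1 | h1
      · have hTi : m / (16000 * K) ≤ T / 2 ^ (i + 1) := by
          have h2 := hNlt i h1
          have e1 : m / (16000 * K) = m / (8000 * K) / 2 := by field_simp; norm_num
          have e2 : T / 2 ^ (i + 1) = T / 2 ^ i / 2 := by rw [pow_succ]; field_simp
          rw [e1, e2]; linarith
        obtain ⟨henv, h25⟩ := henvT _ hTi
        obtain ⟨hTi1, hTi2⟩ := hlowT _ hTi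
        set Ti := T / 2 ^ (i + 1) with hTidef
        have hTi0 : 0 < Ti := by positivity
        simp only [hSi, h1, if_true]
        rcases le_or_gt (10000 * (Real.log Ti / 2)) (m : ℝ) with h3 | h3
        · have hz : cnt (iteratedDeriv m fx)
              {w : ℂ | Ti ≤ w.im ∧ w.im ≤ 2 * Ti ∧ w ∈ Bad m} = 0 := by
            refine cnt_zero (fx_iter_diff m) ?_
            intro w hw h0
            obtain ⟨a1, a2⟩ := regB henv h3 h25 hw.1 hw.2.1 h0
            rcases hw.2.2 with h | h
            · exact h a1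
            · exact a2 h
          rw [hz]
          exact bot_le
        · have hb := (hT₁ Ti hTi1).1 _ rfl m hm12 h3
          have hsub : cnt (iteratedDeriv m fx) {w : ℂ | Ti ≤ w.im ∧ w.im ≤ 2 * Ti ∧ w ∈ Bad m} ≤
              cnt (iteratedDeriv m fx)
                {w : ℂ | Ti ≤ w.im ∧ w.im ≤ 2 * Ti ∧ |w.re| ≤ 1 / 2 ∧ w ∈ Bad m} := by
            refine cnt_le_of_zeros (fx_iter_diff m) ?_
            intro w hw h0
            exact ⟨hw.1, hw.2.1, strip_zero m h0, hw.2.2⟩
          refine (hsub.trans hb).trans (ENNReal.ofReal_le_ofReal ?_)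
          have h5 : Real.log Ti ≤ Real.log T := by
            apply Real.log_le_log hTi0
            rw [hTidef]
            exact div_le_self hT0.le (one_le_pow₀ (by norm_num))
          have h6 : 0 ≤ Real.log Ti := Real.log_nonneg hTi2
          calc C * Real.exp (-(c * m)) * (Real.log Ti / 2 * Ti) ≤
              C * Real.exp (-(c * m)) * (Real.log T * Ti) := by
                gcongr
                linarith
            _ = _ := by rw [hTidef]; ring
      · have hi' : i = N := by
          have := Finset.mem_range.1 hi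
          omega
        have hnot : ¬ i < N := by omega
        simp only [hSi, hnot, if_false]
        have hz : cnt (iteratedDeriv m fx)
            {w : ℂ | 0 ≤ w.im ∧ w.im ≤ m / (8000 * K) ∧ w ∈ Bad m} = 0 := by
          refine cnt_zero (fx_iter_diff m) ?_
          intro w hw h0
          obtain ⟨a1, a2⟩ := hm₁ m hm1 w hw.1 hw.2.1 h0
          rcases hw.2.2 with h | h
          · exact h a1
          · exact a2 h
        rw [hz]
        exact bot_le
    refine (Finset.sum_le_sum hterm).trans ?_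
    rw [← ENNReal.ofReal_sum_of_nonneg (fun i _ => by positivity)]
    apply ENNReal.ofReal_le_ofReal
    rw [← Finset.mul_sum]
    have h7 : Real.exp (-(c * m)) ≤ Real.exp (-(min c (1 / 10000) * m)) := by
      apply Real.exp_le_exp.2
      have := mul_le_mul_of_nonneg_right (min_le_left c (1 / 10000)) hm0.le
      linarith
    calc C * Real.exp (-(c * m)) * (T * Real.log T) * ∑ i ∈ Finset.range (N + 1), 1 / (2 : ℝ) ^ (i + 1) ≤
        C * Real.exp (-(c * m)) * (T * Real.log T) * 1 := by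
          gcongr
          exact half_sum (N + 1)
      _ ≤ (C + 1) * Real.exp (-(min c (1 / 10000) * m)) * (T * Real.log T) * 1 := by
          gcongr
          linarith
      _ = _ := by ring

end

end Pool.Agent.Helper75.Xi
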