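import Pool.Agent.Helper75.Jen.XiG
import Pool.Agent.Helper75.Jen.Approx2

set_option autoImplicit false
set_option maxHeartbeats 1000000

open Polynomial Complex Filter Topology Metric
open Pool.Agent.Helper75.Jen

namespace Pool.Agent.Helper75.Xi

/-- Gauss-Lucas for a convex set -/
lemma gl_step' {K : Set ℂ} (hK : Convex ℝ K) {p : ℂ[X]} (hdeg : 0 < p.natDegree)
    (h : ∀ z, p.eval z = 0 → z ∈ K) : ∀ z, (derivative p).eval z = 0 → z ∈ K := by
  intro z hz
  have hp : p ≠ 0 := by rintro rfl; simp at hdeg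
  have hdp : derivative p ≠ 0 := by
    intro h0
    have := derivative_eq_zero.1 h0
    omega
  have h1 : z ∈ (derivative p).rootSet ℂ := by
    rw [mem_rootSet]
    exact ⟨hdp, by simpa using hz⟩
  have h2 := rootSet_derivative_subset_convexHull_rootSet (P := p)
    (natDegree_pos_iff_degree_pos.1 hdeg) h1
  refine convexHull_min ?_ hK h2
  intro w hw
  rw [mem_rootSet] at hw
  exact h w (by simpa using hw.2)

lemma gl' {K : Set ℂ} (hK : Convex ℝ K) {p : ℂ[X]} (h : ∀ z, p.eval z = 0 → z ∈ K) :
    ∀ n : ℕ, n ≤ p.natDegree → ∀ z, (derivative^[n] p).eval z = 0 → z ∈ K := by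
  intro n
  induction n with
  | zero => intro _; exact h
  | succ n ih =>
    intro hn z hz
    rw [Function.iterate_succ_apply'] at hz
    refine gl_step' hK ?_ (ih (by omega)) z hz
    rw [natDegree_iter]
    omega

lemma conv_iter {F : ℂ → ℂ} {Q : ℕ → ℂ[X]}
    (h : TendstoLocallyUniformlyOn (fun N z => (Q N).eval z) F atTop Set.univ) (j : ℕ) :
    TendstoLocallyUniformlyOn (fun N z => (derivative^[j] (Q N)).eval z) (iteratedDeriv j F)
      atTop Set.univ := by
  induction j with
  | zero => simpa using h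
  | succ j ih =>
    have h1 := ih.deriv (Eventually.of_forall fun N =>
      ((derivative^[j] (Q N)).differentiable.differentiableOn)) isOpen_univ
    rw [iteratedDeriv_succ]
    refine h1.congr fun N z _ => ?_
    show deriv (fun z => (derivative^[j] (Q N)).eval z) z = _
    rw [Function.iterate_succ_apply']
    exact Polynomial.deriv _

lemma iter_diff {F : ℂ → ℂ} (hF : Differentiable ℂ F) (j : ℕ) :
    Differentiable ℂ (iteratedDeriv j F) := by
  induction j with
  | zero => simpa using hF
  | succ j ih =>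
    rw [iteratedDeriv_succ]
    intro z
    exact (ih.analyticAt z).deriv.differentiableAt

lemma iter_add (F : ℂ → ℂ) (m k : ℕ) (z : ℂ) :
    iteratedDeriv k (iteratedDeriv m F) z = iteratedDeriv (k + m) F z := by
  rw [iteratedDeriv_eq_iterate, iteratedDeriv_eq_iterate, iteratedDeriv_eq_iterate,
    Function.iterate_add_apply]

/-- no derivative of the xi function vanishes identically -/
theorem fx_np (m : ℕ) : ∃ z, iteratedDeriv m fx z ≠ 0 := by
  by_contra hcon
  push Not at hcon
  have h0 : iteratedDeriv m fx = fun _ => 0 := funext hcon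
  have h1 : ∀ k, iteratedDeriv (k + m) fx 0 = 0 := by
    intro k
    rw [← iter_add, h0]
    simp
  have h2 : ∀ k, iteratedDeriv (k + m) FF 0 = 0 := by
    intro k
    rw [FF_taylor, show 2 * (k + m) = (2 * k + m) + m by ring, h1]
    simp
  obtain ⟨z, hz⟩ := FF_np m
  apply hz
  have h3 := Complex.taylorSeries_eq_of_entire' (c := 0) (z := z) (iter_diff FF_diff m)
  rw [← h3]
  have h4 : ∀ k : ℕ, (k.factorial : ℂ)⁻¹ * iteratedDeriv k (iteratedDeriv m FF) 0 * (z - 0) ^ k = 0 := by
    intro k
    rw [iter_add, h2]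
    simp
  simp only [h4, tsum_zero]

/-- the closed strip -/
def SS : Set ℂ := {z : ℂ | |z.re| ≤ 1 / 2}

lemma SS_convex : Convex ℝ SS := by
  intro x hx y hy a b ha hb hab
  simp only [SS, Set.mem_ofPred_eq, add_re, real_smul, re_ofReal_mul] at *
  rw [abs_le] at *
  constructor <;> nlinarith

/-- the zeros of the derivatives are in the strip -/
theorem strip_zero (m : ℕ) {w : ℂ} (h : iteratedDeriv m fx w = 0) : |w.re| ≤ 1 / 2 := by
  obtain ⟨C, hC, hgr⟩ := FF_growth
  obtain ⟨P, hP1, hP2⟩ := approx FF_diff FF_conj FF_one FF_roots hC hgr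
  have hconv : Conv FF P := ⟨FF_diff, hP1, hP2, FF_one, FF_np⟩
  set Q : ℕ → ℂ[X] := fun N => (P N).comp (X ^ 2) with hQ
  have hQc : TendstoLocallyUniformlyOn (fun N z => (Q N).eval z) fx atTop Set.univ := by
    have h1 := hP2.comp (t := Set.univ) (fun w : ℂ => w ^ 2) (Set.mapsTo_univ _ _) (by fun_prop)
    refine (h1.congr ?_).congr_right ?_
    · intro N z _
      simp [hQ]
    · intro z _
      exact FF_sq z
  have hconvm := conv_iter hQc m
  have hroots : ∀ N z, (Q N).eval z = 0 → z ∈ SS := by
    intro N z hz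
    simp only [hQ, eval_comp, eval_pow, eval_X] at hz
    have h1 := (hP1 N).roots _ hz
    simp only [KK, Set.mem_ofPred_eq, sq, mul_re, mul_im] at h1
    simp only [SS, Set.mem_ofPred_eq]
    have h2 : (z.re ^ 2 - 1 / 4) * (1 + 4 * z.im ^ 2) ≤ 0 := by nlinarith
    have h3 : z.re ^ 2 ≤ 1 / 4 := by
      by_contra hcon
      push Not at hcon
      have : 0 < (z.re ^ 2 - 1 / 4) * (1 + 4 * z.im ^ 2) := by
        apply mul_pos (by linarith) (by positivity)
      linarith
    exact abs_le_of_sq_le_sq (by linarith) (by norm_num)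
  by_contra hcon
  push Not at hcon
  set f := iteratedDeriv m fx with hf
  have hfd : Differentiable ℂ f := iter_diff fx_diff m
  obtain ⟨z0, hz0⟩ := fx_np m
  -- a ball in the complement
  have hopen : IsOpen {z : ℂ | 1 / 2 < |z.re|} :=
    isOpen_lt continuous_const (continuous_abs.comp Complex.continuous_re)
  obtain ⟨r0, hr0, hball⟩ := Metric.isOpen_iff.1 hopen w hcon
  -- isolated zero
  have hiso : ∀ᶠ z in 𝓝[≠] w, f z ≠ 0 := by
    rcases (hfd.analyticAt w).eventually_eq_zero_or_eventually_ne_zero with h1 | h1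
    · exfalso
      have h2 : AnalyticOnNhd ℂ f Set.univ := fun z _ => hfd.analyticAt z
      have h3 := h2.eqOn_zero_of_preconnected_of_eventuallyEq_zero isPreconnected_univ
        (Set.mem_univ w) h1
      exact hz0 (h3 (Set.mem_univ z0))
    · exact h1
  rw [eventually_nhdsWithin_iff, Metric.eventually_nhds_iff_ball] at hiso
  obtain ⟨r1, hr1, hiso⟩ := hiso
  set r := min r0 r1 / 2 with hr
  have hrp : 0 < r := by positivity
  have hrr0 : r < r0 := by
    have := min_le_left r0 r1
    have h0 : 0 < min r0 r1 := lt_min hr0 hr1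
    rw [hr]; linarith
  have hrr1 : r < r1 := by
    have := min_le_right r0 r1
    have h0 : 0 < min r0 r1 := lt_min hr0 hr1
    rw [hr]; linarith
  have hsne : ∀ z ∈ sphere w r, f z ≠ 0 := by
    intro z hz
    rw [mem_sphere] at hz
    refine hiso z (by rw [mem_ball]; linarith) ?_
    rintro rfl
    rw [dist_self] at hz
    linarith
  -- lower bound on the sphere
  have hcomp : IsCompact (sphere w r) := isCompact_sphere w r
  have hne : (sphere w r).Nonempty := (NormedSpace.sphere_nonempty).2 hrp.le
  obtain ⟨zm, hzm, hmin⟩ := hcomp.exists_isMinOn hne (hfd.continuous.norm.continuousOn)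
  set δ := ‖f zm‖ with hδ
  have hδ0 : 0 < δ := norm_pos_iff.2 (hsne zm hzm)
  have hunif := (tendstoLocallyUniformlyOn_iff_tendstoUniformlyOn_of_compact
    (isCompact_closedBall w r)).1 (hconvm.mono (Set.subset_univ (closedBall w r)))
  rw [Metric.tendstoUniformlyOn_iff] at hunif
  obtain ⟨N, hN1, hN2⟩ := ((hunif (δ / 4) (by positivity)).and (hconv.deg m)).exists
  set q := derivative^[m] (Q N) with hq
  have hdegQ : m ≤ (Q N).natDegree := by
    simp only [hQ]
    rw [natDegree_comp, natDegree_X_pow]
    omega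
  have hq0 : ∀ z ∈ closedBall w r, q.eval z ≠ 0 := by
    intro z hz h0
    have h1 := gl' SS_convex (hroots N) m hdegQ z h0
    have h2 := hball (show z ∈ ball w r0 by
      rw [mem_ball]; rw [mem_closedBall] at hz; linarith)
    simp only [SS, Set.mem_ofPred_eq] at h1 h2
    linarith
  -- minimum modulus
  have hinv : DifferentiableOn ℂ (fun z => (q.eval z)⁻¹) (closedBall w r) := by
    intro z hz
    exact ((q.differentiable z).inv (hq0 z hz)).differentiableWithinAt
  have hdc : DiffContOnCl ℂ (fun z => (q.eval z)⁻¹) (ball w r) := by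
    apply DifferentiableOn.diffContOnCl
    rwa [closure_ball _ hrp.ne']
  have hbd : ∀ z ∈ frontier (ball w r), ‖(q.eval z)⁻¹‖ ≤ (3 * δ / 4)⁻¹ := by
    intro z hz
    rw [frontier_ball _ hrp.ne'] at hz
    have h1 := hN1 z (sphere_subset_closedBall hz)
    rw [dist_eq_norm] at h1
    have h2 : δ ≤ ‖f z‖ := hmin hz
    rw [norm_inv]
    apply inv_anti₀ (by positivity)
    have h3 := norm_sub_norm_le (f z) (q.eval z)
    linarith
  have hmax := Complex.norm_le_of_forall_mem_frontier_norm_le (isBounded_ball) hdc hbd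
    (subset_closure (mem_ball_self hrp))
  rw [norm_inv] at hmax
  have h4 := hN1 w (mem_closedBall_self hrp.le)
  rw [show f w = 0 from h, dist_eq_norm, zero_sub, norm_neg] at h4
  have h5 : 0 < ‖q.eval w‖ := norm_pos_iff.2 (hq0 w (mem_closedBall_self hrp.le))
  have h6 := (inv_le_inv₀ h5 (by positivity)).1 hmax
  linarith

end Pool.Agent.Helper75.Xi
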