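import Pool.Agent.Helper75.Xi.Gs

set_option autoImplicit false
set_option maxHeartbeats 1000000

open Filter Topology MeasureTheory Complex Metric
open Pool.Agent.H21.Xi (cnt)
open Pool.Agent.Helper75.Jen (fx Gx LB fx_diff fx_conj)
open scoped ENNReal

namespace Pool.Agent.Helper75.Xi

noncomputable section

lemma fx_iter_diff (m : ℕ) : Differentiable ℂ (iteratedDeriv m fx) :=
  (iter_conj fx_diff fx_conj m).1

lemma iter_Gp (t P : ℝ) (m : ℕ) :
    iteratedDeriv m (Gp t P) = fun p => (-I / P) ^ m * iteratedDeriv m fx (wp t P p) := by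
  induction m with
  | zero =>
    funext p
    simp [Gp]
  | succ m ih =>
    rw [iteratedDeriv_succ, ih]
    funext p
    have h1 : HasDerivAt (fun p => iteratedDeriv m fx (wp t P p))
        (deriv (iteratedDeriv m fx) (wp t P p) * (-I / P)) p :=
      (fx_iter_diff m (wp t P p)).hasDerivAt.comp p (wp_deriv t P p)
    rw [(h1.const_mul ((-I / P : ℂ) ^ m)).deriv, iteratedDeriv_succ, pow_succ]
    ring

/-- the inverse substitution -/
def wq (t P : ℝ) (w : ℂ) : ℂ := I * P * (w - t * I)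

lemma wp_wq {t P : ℝ} (hP : P ≠ 0) (w : ℂ) : wp t P (wq t P w) = w := by
  unfold wp wq
  have hPc : (P : ℂ) ≠ 0 := by exact_mod_cast hP
  have : I * (I * P * (w - t * I)) / P = -(w - t * I) := by
    rw [← mul_assoc, ← mul_assoc, I_mul_I]
    field_simp
  rw [this]; ring

lemma wq_wp {t P : ℝ} (hP : P ≠ 0) (p : ℂ) : wq t P (wp t P p) = p := by
  unfold wp wq
  have hPc : (P : ℂ) ≠ 0 := by exact_mod_cast hP
  have : I * P * (t * I - I * p / P - t * I) = -(I * I) * p := by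
    field_simp
    ring
  rw [this, I_mul_I]; ring

lemma wq_im (t P : ℝ) (w : ℂ) : (wq t P w).im = P * w.re := by
  unfold wq
  simp [mul_re, mul_im]

lemma wq_re (t P : ℝ) (w : ℂ) : (wq t P w).re = -(P * (w.im - t)) := by
  unfold wq
  simp [mul_re, mul_im]

/-- the substitution as a bijection -/
def wpe {t P : ℝ} (hP : P ≠ 0) : ℂ ≃ ℂ := ⟨wp t P, wq t P, wq_wp hP, wp_wq hP⟩

lemma cnt_tr {t P : ℝ} (hP : P ≠ 0) (m : ℕ) (S : Set ℂ) :
    cnt (iteratedDeriv m fx) S = cnt (iteratedDeriv m (Gp t P)) (wp t P ⁻¹' S) := by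
  classical
  have hPc : (P : ℂ) ≠ 0 := by exact_mod_cast hP
  have hc : (-I / P : ℂ) ^ m ≠ 0 := pow_ne_zero _ (div_ne_zero (neg_ne_zero.2 I_ne_zero) hPc)
  have hd : Differentiable ℂ (fun p => iteratedDeriv m fx (wp t P p)) :=
    (fx_iter_diff m).comp (wp_diff t P)
  rw [iter_Gp, cnt_const_mul hd hc]
  unfold cnt
  rw [tsum_subtype S (fun z => ((analyticOrderAt (iteratedDeriv m fx) z : ℕ∞) : ℝ≥0∞)),
    tsum_subtype (wp t P ⁻¹' S)
      (fun z => ((analyticOrderAt (fun p => iteratedDeriv m fx (wp t P p)) z : ℕ∞) : ℝ≥0∞)),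
    ← (wpe (t := t) hP).tsum_eq]
  refine tsum_congr fun p => ?_
  have e0 : (wpe (t := t) hP) p = wp t P p := rfl
  rw [e0]
  by_cases h : wp t P p ∈ S
  · rw [Set.indicator_of_mem h, Set.indicator_of_mem (show p ∈ wp t P ⁻¹' S from h)]
    have h1 : AnalyticAt ℂ (wp t P) p := (wp_diff t P).analyticAt p
    have h2 : deriv (wp t P) p ≠ 0 := by
      rw [(wp_deriv t P p).deriv]
      exact div_ne_zero (neg_ne_zero.2 I_ne_zero) hPc
    have h3 := analyticOrderAt_comp_of_deriv_ne_zero (f := iteratedDeriv m fx) h1 h2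
    have h4 : (fun p => iteratedDeriv m fx (wp t P p)) = iteratedDeriv m fx ∘ wp t P := rfl
    rw [h4, h3]
  · rw [Set.indicator_of_notMem h, Set.indicator_of_notMem (show p ∉ wp t P ⁻¹' S from h)]

/-- bad zeros -/
def Bad (m : ℕ) : Set ℂ := {w : ℂ | w.re ≠ 0 ∨ iteratedDeriv (m + 1) fx w = 0}

/-- good windows contain no bad zeros -/
lemma no_bad {t P H : ℝ} (hP : 0 < P) {m : ℕ} (hm : (10 : ℝ) ^ 9 ≤ m) (hH : 8 * m ≤ H)
    (h : Cone (Gp t P) m H ee) (hlow : Low (Gp t P) m (1 / 1000)) {w : ℂ}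
    (h1 : |w.im - t| ≤ 1 / P) (h2 : P * |w.re| + 2 * m ≤ H) (hz : iteratedDeriv m fx w = 0) :
    w.re = 0 ∧ iteratedDeriv (m + 1) fx w ≠ 0 := by
  have hPc : (P : ℂ) ≠ 0 := by exact_mod_cast hP.ne'
  have hc : ∀ k : ℕ, (-I / P : ℂ) ^ k ≠ 0 := fun k =>
    pow_ne_zero _ (div_ne_zero (neg_ne_zero.2 I_ne_zero) hPc)
  have e1 := wp_wq (t := t) hP.ne' w
  obtain ⟨k1, k2⟩ := det_main (Gp_diff t P) (Gp_conj t P) hm hH h hlow (z := wq t P w)
    (by
      rw [wq_re, abs_neg, abs_mul, abs_of_pos hP]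
      rw [le_div_iff₀ hP] at h1
      linarith)
    (by
      rw [wq_im, abs_mul, abs_of_pos hP]; exact h2)
    (by
      rw [iter_Gp]
      simp only [e1, hz, mul_zero])
  constructor
  · rw [wq_im] at k1
    rcases mul_eq_zero.1 k1 with h | h
    · exact absurd h hP.ne'
    · exact h
  · intro h0
    apply k2
    rw [iter_Gp]
    simp only [e1, h0, mul_zero]

/-- the number of zeros in a window -/
lemma win_count {t P H κ M : ℝ} (hP : 0 < P) {m : ℕ} (hm : (10 : ℝ) ^ 9 ≤ m) (hmM : m ≤ M)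
    (hH : 20 * M ≤ H) (hκ : 0 ≤ κ) (h : Cone (Gp t P) M H ee) (hlow : Low (Gp t P) M κ)
    {S : Set ℂ} (hS : ∀ w ∈ S, |w.im - t| ≤ 1 / P ∧ P * |w.re| ≤ H - 2 * M) :
    cnt (iteratedDeriv m fx) S ≤ ENNReal.ofReal ((50 + 2 * κ) * M) := by
  rw [cnt_tr (t := t) hP.ne']
  refine le_trans ?_ (det_count (Gp_diff t P) (Gp_conj t P) hm hmM hH hκ h hlow)
  refine Pool.Agent.H21.Xi.cnt_mono _ ?_
  intro p hp
  obtain ⟨h1, h2⟩ := hS _ hp
  rw [wp_im] at h1
  rw [wp_re] at h2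
  constructor
  · rw [show t - p.re / P - t = -(p.re / P) by ring, abs_neg, abs_div, abs_of_pos hP] at h1
    rwa [div_le_div_iff_of_pos_right hP] at h1
  · rw [abs_div, abs_of_pos hP, mul_div_cancel₀ _ hP.ne'] at h2
    exact h2

end

end Pool.Agent.Helper75.Xi
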