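import Pool.Agent.Helper75.Xi.RegC1
import Pool.Agent.Helper75.Xi.Tr
import Pool.Agent.Helper75.Xi.Strip

set_option autoImplicit false
set_option maxHeartbeats 1000000

open Complex Filter Topology Metric
open Pool.Agent.Helper75.Jen

namespace Pool.Agent.Helper75.Xi

/-- upper bound in the right half plane -/
lemma fx_upper : ∃ C2 : ℝ, 0 ≤ C2 ∧ ∀ w : ℂ, 0 ≤ w.re → ‖fx w‖ ≤ Real.exp (C2 +
    4 * Real.log (‖w‖ + 3) + (w.re / 2 + 9 / 4) * Real.log (w.re / 2 + 9 / 4)) := by
  obtain ⟨B, hB⟩ := (isCompact_closedBall (0 : ℂ) 2).exists_bound_of_continuousOn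
    fx_diff.continuous.continuousOn
  refine ⟨5 + |B|, by positivity, ?_⟩
  intro w hw
  have hlog1 : 0 ≤ Real.log (‖w‖ + 3) := Real.log_nonneg (by linarith [norm_nonneg w])
  have hlog2 : 0 ≤ Real.log (w.re / 2 + 9 / 4) := Real.log_nonneg (by linarith)
  have hy0 : 0 < w.re / 2 + 9 / 4 := by linarith
  rcases le_total ‖w‖ 2 with h2 | h2
  · have h1 := hB w (by rw [mem_closedBall, dist_zero_right]; exact h2)
    have h3 : B ≤ Real.exp (5 + |B|) := by
      have := Real.add_one_le_exp (5 + |B|)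
      have := le_abs_self B
      linarith
    refine (h1.trans h3).trans (Real.exp_le_exp.2 ?_)
    have : 0 ≤ (w.re / 2 + 9 / 4) * Real.log (w.re / 2 + 9 / 4) := by positivity
    linarith
  · have hne : w ≠ 1 / 2 := by
      rintro rfl
      norm_num at h2
    rw [fx_eq (by linarith) hne, norm_mul, Gx, norm_mul]
    set a := ‖w‖ with ha
    set y : ℝ := a + 3 with hy
    have hyp : 0 < y := by linarith
    have hre : (1 / 2 + w).re = 1 / 2 + w.re := by simp
    have z1 : ‖riemannZeta (1 / 2 + w)‖ ≤ 6 * y ^ 2 := by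
      have := Pool.Agent.H306R2.zeta_norm_le (s := 1 / 2 + w) (by rw [hre]; linarith) (by
        have : (1 / 2 + w - 1 : ℂ) = w - 1 / 2 := by ring
        rw [this]
        have h3 := norm_sub_norm_le w (1 / 2)
        have h4 : ‖(1 / 2 : ℂ)‖ = 1 / 2 := by norm_num
        rw [h4] at h3
        linarith)
      refine this.trans ?_
      have h3 : ‖(1 / 2 : ℂ) + w‖ ≤ 1 / 2 + a := by
        refine (norm_add_le _ _).trans ?_
        norm_num
        linarith
      have h4 : ‖(1 / 2 : ℂ) + w‖ + 1 ≤ y := by linarith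
      gcongr
    have z2 : ‖(4 * w ^ 2 - 1 : ℂ)‖ ≤ 4 * y ^ 2 := by
      refine (norm_sub_le _ _).trans ?_
      rw [norm_mul, norm_pow, ← ha, norm_one]
      norm_num
      nlinarith
    have z3 : ‖Gammaℝ (1 / 2 + w)‖ ≤ 4 * (w.re / 2 + 9 / 4) ^ (w.re / 2 + 9 / 4) := by
      refine (norm_GammaR_le (by rw [hre]; linarith)).trans ?_
      rw [hre]
      have h5 := Gamma_le_rpow (x := (1 / 2 + w.re) / 2) (by linarith)
      rw [show (1 / 2 + w.re) / 2 + 2 = w.re / 2 + 9 / 4 by ring] at h5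
      exact h5
    have hprod : ‖(4 * w ^ 2 - 1 : ℂ)‖ * ‖Gammaℝ (1 / 2 + w)‖ * ‖riemannZeta (1 / 2 + w)‖ ≤
        (4 * y ^ 2) * (4 * (w.re / 2 + 9 / 4) ^ (w.re / 2 + 9 / 4)) * (6 * y ^ 2) := by gcongr
    refine hprod.trans ?_
    have e1 : (4 * y ^ 2) * (4 * (w.re / 2 + 9 / 4) ^ (w.re / 2 + 9 / 4)) * (6 * y ^ 2) =
        96 * (y ^ 4 * (w.re / 2 + 9 / 4) ^ (w.re / 2 + 9 / 4)) := by ring
    have e2 : (w.re / 2 + 9 / 4) ^ (w.re / 2 + 9 / 4) =
        Real.exp ((w.re / 2 + 9 / 4) * Real.log (w.re / 2 + 9 / 4)) := by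
      rw [Real.rpow_def_of_pos hy0]; congr 1; ring
    have e3 : y ^ 4 = Real.exp (4 * Real.log y) := by
      rw [show (4 : ℝ) = ((4 : ℕ) : ℝ) by norm_num, Real.exp_nat_mul, Real.exp_log hyp]
    have e4 : (96 : ℝ) ≤ Real.exp (5 + |B|) := by
      have h1 : (2.7 : ℝ) ≤ Real.exp 1 := by linarith [Real.exp_one_gt_d9]
      have h2 : Real.exp 5 = Real.exp 1 ^ 5 := by rw [← Real.exp_nat_mul]; norm_num
      have h3 : (96 : ℝ) ≤ Real.exp 5 := by
        rw [h2]
        calc (96 : ℝ) ≤ 2.7 ^ 5 := by norm_num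
          _ ≤ _ := by gcongr
      exact h3.trans (Real.exp_le_exp.2 (by linarith [abs_nonneg B]))
    rw [e1, e2, e3, Real.exp_add, Real.exp_add (5 + |B|)]
    calc 96 * (Real.exp (4 * Real.log y) * Real.exp ((w.re / 2 + 9 / 4) * Real.log (w.re / 2 + 9 / 4))) ≤
        Real.exp (5 + |B|) * (Real.exp (4 * Real.log y) *
          Real.exp ((w.re / 2 + 9 / 4) * Real.log (w.re / 2 + 9 / 4))) := by gcongr
      _ = _ := by ring

/-- lower bound for the real gamma function -/
lemma Gamma_lower {x : ℝ} (hx : 5 ≤ x) :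
    Real.exp ((x - 2) * (Real.log (x - 2) - 1)) ≤ Real.Gamma x := by
  set k : ℕ := ⌊x⌋₊ - 1 with hk
  have h1 : (⌊x⌋₊ : ℝ) ≤ x := Nat.floor_le (by linarith)
  have h2 : x < ⌊x⌋₊ + 1 := Nat.lt_floor_add_one x
  have h5 : 5 ≤ ⌊x⌋₊ := Nat.le_floor (by exact_mod_cast hx)
  have hkc : ((k : ℕ) : ℝ) = ⌊x⌋₊ - 1 := by
    rw [hk, Nat.cast_sub (by omega)]; simp
  have hk2 : x - 2 ≤ k := by rw [hkc]; linarith
  have hk0 : (0 : ℝ) < k := by linarith
  have h3 : Real.Gamma (k + 1) ≤ Real.Gamma x := by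
    refine Real.Gamma_strictMonoOn_Ici.monotoneOn ?_ ?_ ?_
    · simp only [Set.mem_Ici]; linarith
    · simp only [Set.mem_Ici]; linarith
    · rw [hkc]; linarith
  rw [Real.Gamma_nat_eq_factorial] at h3
  refine le_trans ?_ h3
  have h4 := Real.pow_div_factorial_le_exp (k : ℝ) hk0.le k
  have hf : (0 : ℝ) < k.factorial := by exact_mod_cast k.factorial_pos
  rw [div_le_iff₀ hf] at h4
  have h6 : (k : ℝ) ^ k = Real.exp (k * Real.log k) := by
    rw [← Real.rpow_natCast, Real.rpow_def_of_pos hk0]; congr 1; ring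
  rw [h6] at h4
  have h7 : Real.exp (k * Real.log k - k) ≤ k.factorial := by
    rw [Real.exp_sub, div_le_iff₀ (Real.exp_pos _)]
    linarith
  refine le_trans (Real.exp_le_exp.2 ?_) h7
  have h8 : Real.log (x - 2) ≤ Real.log k := Real.log_le_log (by linarith) hk2
  have h9 : 1 ≤ Real.log (x - 2) := by
    rw [Real.le_log_iff_exp_le (by linarith)]
    have := Real.exp_one_lt_d9
    linarith
  calc (x - 2) * (Real.log (x - 2) - 1) ≤ k * (Real.log k - 1) := by
        apply mul_le_mul hk2 (by linarith) (by linarith) hk0.le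
    _ = _ := by ring

/-- lower bound for the xi function to the right -/
lemma fx_low {K C0 : ℝ} (hK : ∀ s : ℂ, 0 < s.re → 1 ≤ ‖s‖ →
    ‖logDeriv Complex.Gamma s - Real.log ‖s‖‖ ≤ K) (hC0 : 1 ≤ C0)
    (hZ : ∀ s : ℂ, 5 / 4 ≤ s.re → 1 ≤ C0 * ‖riemannZeta s‖) {a t : ℝ} (ha : 12 ≤ a) (ht : 0 ≤ t) :
    Real.exp (-Real.log C0 - 3 * (1 / 4 + a / 2) - K * (t / 2) +
      (1 / 4 + a / 2 - 2) * (Real.log (1 / 4 + a / 2 - 2) - 1)) ≤ ‖fx (a + t * I)‖ := by
  set w : ℂ := a + t * I with hw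
  have hwre : w.re = a := by rw [hw]; simp
  have hne : w ≠ 1 / 2 := by
    intro h
    have := congrArg Complex.re h
    rw [hwre] at this
    norm_num at this
    linarith
  rw [fx_eq (by rw [hwre]; linarith) hne, norm_mul, Gx, norm_mul, Gammaℝ_def, norm_mul]
  set x : ℝ := 1 / 4 + a / 2 with hx
  have e1 : (1 / 2 + w) / 2 = (x : ℂ) + ((t / 2 : ℝ) : ℂ) * I := by
    rw [hw, hx]; push_cast; ring
  have h1 : Real.Gamma x * Real.exp (-(K * (t / 2))) ≤ ‖Complex.Gamma ((1 / 2 + w) / 2)‖ := by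
    rw [e1]
    exact Gamma_vert hK (by rw [hx]; linarith) (by linarith)
  have h2 := Gamma_lower (x := x) (by rw [hx]; linarith)
  have h3 : Real.exp (-(3 * x)) ≤ ‖(Real.pi : ℂ) ^ (-(1 / 2 + w) / 2)‖ := by
    rw [Complex.norm_cpow_eq_rpow_re_of_pos Real.pi_pos, Real.rpow_def_of_pos Real.pi_pos]
    apply Real.exp_le_exp.2
    have e2 : (-(1 / 2 + w) / 2).re = -x := by
      rw [show -(1 / 2 + w) / 2 = -((1 / 2 + w) / 2) by ring, e1, neg_re]
      simp
    rw [e2]
    have hlogpi : Real.log Real.pi ≤ 3 := by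
      have := Real.log_le_sub_one_of_pos Real.pi_pos
      have := Real.pi_lt_d2
      linarith
    have hx0 : 0 ≤ x := by rw [hx]; linarith
    nlinarith
  have h4 : 1 ≤ ‖(4 * w ^ 2 - 1 : ℂ)‖ := by
    have h5 : ‖(4 : ℂ) * w ^ 2‖ - ‖(1 : ℂ)‖ ≤ ‖4 * w ^ 2 - 1‖ := norm_sub_norm_le _ _
    rw [norm_mul, norm_pow, norm_one] at h5
    have h6 : 12 ≤ ‖w‖ := by
      have := Complex.re_le_norm w
      rw [hwre] at this; linarith
    norm_num at h5
    nlinarith
  have h5 : 1 / C0 ≤ ‖riemannZeta (1 / 2 + w)‖ := by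
    have := hZ (1 / 2 + w) (by
      have : (1 / 2 + w).re = 1 / 2 + w.re := by simp
      rw [this, hwre]; linarith)
    rw [div_le_iff₀ (by linarith)]
    linarith
  have e6 : Real.exp (-Real.log C0 - 3 * x - K * (t / 2) + (x - 2) * (Real.log (x - 2) - 1)) =
      1 * (Real.exp (-(3 * x)) * (Real.exp ((x - 2) * (Real.log (x - 2) - 1)) *
        Real.exp (-(K * (t / 2))))) * (1 / C0) := by
    have e7 : 1 / C0 = Real.exp (-Real.log C0) := by
      rw [Real.exp_neg, Real.exp_log (by linarith), one_div]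
    rw [e7, one_mul, ← Real.exp_add, ← Real.exp_add, ← Real.exp_add]
    congr 1
    ring
  rw [e6]
  have h7 : 0 < Real.exp ((x - 2) * (Real.log (x - 2) - 1)) * Real.exp (-(K * (t / 2))) := by positivity
  calc 1 * (Real.exp (-(3 * x)) * (Real.exp ((x - 2) * (Real.log (x - 2) - 1)) *
        Real.exp (-(K * (t / 2))))) * (1 / C0) ≤
      ‖(4 * w ^ 2 - 1 : ℂ)‖ * (‖(Real.pi : ℂ) ^ (-(1 / 2 + w) / 2)‖ *
        (Real.Gamma x * Real.exp (-(K * (t / 2))))) * ‖riemannZeta (1 / 2 + w)‖ := by gcongr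
    _ ≤ _ := by gcongr

lemma log_small {P : ℝ} (hP : 10 ^ 20 ≤ P) : Real.log (32 * P) ≤ P / 10 ^ 8 := by
  have hP0 : 0 < P := by linarith
  have h1 : Real.log (Real.sqrt (32 * P)) ≤ Real.sqrt (32 * P) := by
    have := Real.log_le_sub_one_of_pos (Real.sqrt_pos.2 (by positivity : 0 < 32 * P))
    linarith
  rw [Real.log_sqrt (by positivity)] at h1
  have h2 : 2 * Real.sqrt (32 * P) ≤ P / 10 ^ 8 := by
    have h3 : (2 * Real.sqrt (32 * P)) ^ 2 ≤ (P / 10 ^ 8) ^ 2 := by
      rw [mul_pow, Real.sq_sqrt (by positivity)]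
      nlinarith
    exact le_of_sq_le_sq h3 (by positivity)
  linarith

/-- the cone condition from the logarithmic derivative -/
lemma cone_of_ld {t P M H : ℝ} (hP0 : 0 < P)
    (key : ∀ p ∈ Kc M H, fx (wp t P p) ≠ 0 ∧ ‖logDeriv fx (wp t P p) - P‖ ≤ 1 / 10 ^ 6 * P) :
    Cone (Gp t P) M H ee := by
  have hPc : (P : ℂ) ≠ 0 := by exact_mod_cast hP0.ne'
  refine ⟨fun p hp => (key p hp).1, fun p hp => ?_⟩
  rw [logDeriv_Gp]
  have e : -I / P * logDeriv fx (wp t P p) + I = -I / P * (logDeriv fx (wp t P p) - P) := by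
    field_simp
    ring
  rw [e, norm_mul, norm_div, norm_neg, norm_I, Complex.norm_real, Real.norm_of_nonneg hP0.le]
  have := (key p hp).2
  rw [one_div, inv_mul_le_iff₀ hP0]
  unfold ee
  linarith

lemma logDeriv_fx' {w : ℂ} (hw : 1 / 2 < w.re) (g1 : Gx w ≠ 0) (g2 : DifferentiableAt ℂ Gx w)
    (hz : riemannZeta (1 / 2 + w) ≠ 0) :
    fx w ≠ 0 ∧ logDeriv fx w = logDeriv Gx w + logDeriv riemannZeta (1 / 2 + w) := by
  have hne : (1 / 2 + w : ℂ) ≠ 1 := by
    intro h
    have := congrArg Complex.re h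
    simp at this
    norm_num at this
    linarith
  have hd : DifferentiableAt ℂ (fun z : ℂ => riemannZeta (1 / 2 + z)) w :=
    DifferentiableAt.comp (g := riemannZeta) (f := fun z : ℂ => 1 / 2 + z) w
      (differentiableAt_riemannZeta hne) (by fun_prop)
  have hev : fx =ᶠ[𝓝 w] fun z => Gx z * riemannZeta (1 / 2 + z) := by
    have hopen : IsOpen {z : ℂ | 1 / 2 < z.re} := isOpen_lt continuous_const Complex.continuous_re
    filter_upwards [hopen.mem_nhds hw] with z hz
    have hz' : 1 / 2 < z.re := hz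
    refine fx_eq (by linarith) ?_
    rintro rfl
    norm_num at hz'
  constructor
  · rw [hev.self_of_nhds]
    exact mul_ne_zero g1 hz
  · have e1 : logDeriv fx w = logDeriv (fun z => Gx z * riemannZeta (1 / 2 + z)) w := by
      rw [logDeriv_apply, logDeriv_apply, hev.deriv_eq, hev.self_of_nhds]
    rw [e1, logDeriv_mul w g1 hz g2 hd]
    congr 1
    rw [logDeriv_apply, logDeriv_apply]
    congr 1
    exact deriv_comp_const_add (f := riemannZeta) (1 / 2 : ℂ) w

/-- low heights -/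
theorem regC {K C0 : ℝ} (hK1 : 1 ≤ K) (hK : ∀ s : ℂ, 0 < s.re → 1 ≤ ‖s‖ →
    ‖logDeriv Complex.Gamma s - Real.log ‖s‖‖ ≤ K) (hZR : 1 ≤ C0 ∧ ∀ s : ℂ, 5 / 4 ≤ s.re →
    riemannZeta s ≠ 0 ∧ ‖logDeriv riemannZeta s‖ ≤ C0 ∧ ‖riemannZeta s‖ ≤ C0 ∧
      1 ≤ C0 * ‖riemannZeta s‖) :
    ∃ m₀ : ℝ, ∀ m : ℕ, m₀ ≤ m → ∀ w : ℂ, 0 ≤ w.im → w.im ≤ m / (8000 * K) →
      iteratedDeriv m fx w = 0 → w.re = 0 ∧ iteratedDeriv (m + 1) fx w ≠ 0 := by
  obtain ⟨C2, hC2, hup⟩ := fx_upper
  obtain ⟨hC0, hZ⟩ := hZR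
  refine ⟨Real.exp (2 * (10 ^ 20 * (K + C0 + C2))), ?_⟩
  intro m hm w hw0 hwt hz
  set P : ℝ := Real.log m / 2 with hP
  have hm0 : (0 : ℝ) < m := (Real.exp_pos _).trans_le hm
  have hPbig : 10 ^ 20 * (K + C0 + C2) ≤ P := by
    have := (Real.le_log_iff_exp_le hm0).2 hm
    rw [hP]; linarith
  have hP20 : 10 ^ 20 ≤ P := by nlinarith
  have hP0 : 0 < P := by linarith
  have hmP : (m : ℝ) = Real.exp (2 * P) := by
    rw [hP, show 2 * (Real.log m / 2) = Real.log m by ring, Real.exp_log hm0]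
  have hmbig : 10 ^ 20 * P ≤ m := by
    rw [hmP]
    have := Real.quadratic_le_exp_of_nonneg (x := 2 * P) (by linarith)
    nlinarith
  have hlogm : Real.log m = 2 * P := by rw [hP]; ring
  have hls := log_small hP20
  have h8P : Real.log (8 * P) ≤ P / 10 ^ 8 :=
    (Real.log_le_log (by positivity) (by linarith)).trans hls
  set t := w.im with ht
  have htm : t ≤ m / 8000 := by
    refine hwt.trans ?_
    exact div_le_div_of_nonneg_left hm0.le (by norm_num) (by linarith)
  -- the cone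
  have hcone : Cone (Gp t P) m (16 * m) ee := by
    apply cone_of_ld hP0
    intro p hp
    obtain ⟨p1, p2, p3⟩ := hp
    have hre := wp_re t P p
    have him := wp_im t P p
    set z := wp t P p with hzdef
    have him0 : 0 < p.im := by linarith
    have hre1 : m / (8 * P) ≤ z.re := by
      rw [hre, div_le_div_iff₀ (by positivity) hP0]
      nlinarith
    have hre2 : z.re ≤ 16 * m / P := by rw [hre]; gcongr
    have himt : |z.im - t| ≤ 200 * z.re := by
      rw [him, hre, show t - p.re / P - t = -(p.re / P) by ring, abs_neg, abs_div, abs_of_pos hP0,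
        mul_div_assoc']
      gcongr
    have hbig8 : 10 ^ 19 ≤ m / (8 * P) := by
      rw [le_div_iff₀ (by positivity)]
      linarith
    have hzre0 : 0 ≤ z.re := by linarith
    have hzn1 : m / (8 * P) ≤ ‖z‖ := hre1.trans (Complex.re_le_norm z)
    have hzn2 : ‖z‖ ≤ m := by
      have h1 := Complex.norm_le_abs_re_add_abs_im z
      rw [abs_of_nonneg hzre0] at h1
      have h2 := abs_le.1 himt
      have h3 : |z.im| ≤ t + 200 * z.re := by
        rw [abs_le]; constructor <;> linarith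
      have h4 : 16 * (m : ℝ) / P ≤ m / 10 ^ 18 := by
        rw [div_le_div_iff₀ hP0 (by norm_num)]
        nlinarith
      have h5 : (m : ℝ) / 10 ^ 18 * 201 ≤ m / 2 := by
        have : (0 : ℝ) ≤ m := hm0.le
        linarith
      linarith
    obtain ⟨g1, g2, g3⟩ := Gx_right hK hzre0 (by linarith)
    have hsre : (1 / 2 + z : ℂ).re = 1 / 2 + z.re := by simp
    obtain ⟨d1, d2, -, -⟩ := hZ (1 / 2 + z) (by rw [hsre]; linarith)
    obtain ⟨f1, f2⟩ := logDeriv_fx' (by linarith) g1 g2 d1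
    refine ⟨f1, ?_⟩
    rw [f2]
    have e : logDeriv Gx z + logDeriv riemannZeta (1 / 2 + z) - P =
        (logDeriv Gx z - ((1 / 2 * Real.log ‖z‖ : ℝ) : ℂ)) +
        ((1 / 2 * Real.log ‖z‖ - P : ℝ) : ℂ) + logDeriv riemannZeta (1 / 2 + z) := by
      push_cast; ring
    rw [e]
    refine (norm_add_le _ _).trans ?_
    refine (add_le_add (norm_add_le _ _) le_rfl).trans ?_
    rw [Complex.norm_real, Real.norm_eq_abs]
    have h6 : |1 / 2 * Real.log ‖z‖ - P| ≤ P / 10 ^ 8 := by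
      have a1 : Real.log ‖z‖ ≤ 2 * P := by
        rw [← hlogm]; exact Real.log_le_log (by linarith) hzn2
      have a2 : Real.log (m / (8 * P)) ≤ Real.log ‖z‖ := Real.log_le_log (by linarith) hzn1
      rw [Real.log_div hm0.ne' (by positivity), hlogm] at a2
      rw [abs_le]
      constructor <;> linarith
    have h7 : K + C0 ≤ P / 10 ^ 20 := by
      rw [le_div_iff₀ (by norm_num)]; nlinarith
    linarith
  -- the lower region
  have hlow : Low (Gp t P) m (1 / 1000) := by
    intro p p1 p2 p3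
    have hre := wp_re t P p
    have him := wp_im t P p
    set z := wp t P p with hzdef
    have hwref : wp t P ((m / 8 : ℝ) * I) = ((m / (8 * P) : ℝ) : ℂ) + t * I := by
      unfold wp
      have : I * (((m / 8 : ℝ) : ℂ) * I) = -((m / 8 : ℝ) : ℂ) := by
        rw [mul_comm ((m / 8 : ℝ) : ℂ) I, ← mul_assoc, I_mul_I]; ring
      have hPc : (P : ℂ) ≠ 0 := by exact_mod_cast hP0.ne'
      rw [this]
      push_cast
      field_simp
      ring
    set a : ℝ := m / (8 * P) with ha
    have ha19 : 10 ^ 19 ≤ a := by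
      rw [ha, le_div_iff₀ (by positivity)]
      linarith
    have haP : a * P = m / 8 := by rw [ha]; field_simp
    have hre0 : 0 ≤ z.re := by rw [hre]; positivity
    have hreP : z.re * P = p.im := by rw [hre]; field_simp
    have hrea : z.re ≤ a := by
      rw [hre, ha, div_le_div_iff₀ hP0 (by positivity)]
      nlinarith
    have ham : a ≤ m / 10 ^ 19 := by
      rw [ha]
      exact div_le_div_of_nonneg_left hm0.le (by norm_num) (by linarith)
    have himt : |z.im| ≤ t + m / 10 ^ 18 := by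
      have h1 : |p.re / P| ≤ m / 10 ^ 18 := by
        rw [abs_div, abs_of_pos hP0, div_le_div_iff₀ hP0 (by norm_num)]
        nlinarith
      rw [him]
      have h2 := abs_sub t (p.re / P)
      rw [abs_of_nonneg hw0] at h2
      linarith
    have hzn : ‖z‖ + 3 ≤ m := by
      have h1 := Complex.norm_le_abs_re_add_abs_im z
      rw [abs_of_nonneg hre0] at h1
      have : (10 : ℝ) ^ 20 ≤ m := by nlinarith
      linarith
    have h1 := hup z hre0
    have h2 := fx_low hK hC0 (fun s hs => (hZ s hs).2.2.2) (a := a) (t := t) (by linarith) hw0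
    unfold Gp
    rw [← hzdef, hwref]
    refine h1.trans ?_
    refine le_trans ?_ (mul_le_mul_of_nonneg_right h2 (Real.exp_pos _).le)
    rw [← Real.exp_add]
    apply Real.exp_le_exp.2
    -- arithmetic
    have b1 : Real.log (‖z‖ + 3) ≤ 2 * P := by
      rw [← hlogm]; exact Real.log_le_log (by positivity) hzn
    have b2 : (z.re / 2 + 9 / 4) * Real.log (z.re / 2 + 9 / 4) ≤ (z.re / 2 + 9 / 4) * (2 * P) := by
      refine mul_le_mul_of_nonneg_left ?_ (by linarith)
      rw [← hlogm]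
      exact Real.log_le_log (by linarith) (by linarith)
    have b3 : 2 * P - Real.log (32 * P) ≤ Real.log (1 / 4 + a / 2 - 2) := by
      have c1 : Real.log (a / 4) ≤ Real.log (1 / 4 + a / 2 - 2) :=
        Real.log_le_log (by positivity) (by linarith)
      have c2 : Real.log (a / 4) = 2 * P - Real.log (32 * P) := by
        rw [ha, show (m : ℝ) / (8 * P) / 4 = m / (32 * P) by field_simp; ring,
          Real.log_div hm0.ne' (by positivity), hlogm]
      linarith
    have b4 : (a / 2 - 7 / 4) * (2 * P - Real.log (32 * P) - 1) ≤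
        (1 / 4 + a / 2 - 2) * (Real.log (1 / 4 + a / 2 - 2) - 1) := by
      rw [show 1 / 4 + a / 2 - 2 = a / 2 - 7 / 4 by ring] at b3 ⊢
      refine mul_le_mul_of_nonneg_left ?_ (by linarith)
      linarith
    have b5 : Real.log C0 ≤ C0 := by
      have := Real.log_le_sub_one_of_pos (show 0 < C0 by linarith)
      linarith
    have b6 : K * (t / 2) ≤ m / 16000 := by
      have : K * t ≤ K * (m / (8000 * K)) := mul_le_mul_of_nonneg_left hwt (by linarith)
      have e : K * (m / (8000 * K)) = m / 8000 := by field_simp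
      linarith
    have b7 : a * (Real.log (32 * P) + 1) ≤ 2 * (m / 8 / 10 ^ 8) := by
      have c1 : Real.log (32 * P) + 1 ≤ 2 * (P / 10 ^ 8) := by linarith
      calc a * (Real.log (32 * P) + 1) ≤ a * (2 * (P / 10 ^ 8)) := by gcongr
        _ = 2 * (a * P / 10 ^ 8) := by ring
        _ = _ := by rw [haP]
    have hlog32 : 0 ≤ Real.log (32 * P) := Real.log_nonneg (by linarith)
    have b8 : C0 + C2 ≤ P / 10 ^ 20 := by
      rw [le_div_iff₀ (by norm_num)]; nlinarith
    have b9 : (a / 2 - 7 / 4) * (2 * P - Real.log (32 * P) - 1) =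
        a * P - a * (Real.log (32 * P) + 1) / 2 - 7 / 2 * P + 7 / 4 * (Real.log (32 * P) + 1) := by
      ring
    have b10 : (z.re / 2 + 9 / 4) * (2 * P) = z.re * P + 9 / 2 * P := by ring
    rw [b10] at b2
    rw [b9] at b4
    rw [hreP] at b2
    rw [haP] at b4
    linarith
  exact no_bad hP0 (by linarith) (by linarith) hcone hlow
    (by rw [sub_self, abs_zero]; positivity)
    (by
      have := strip_zero m hz
      have h1 : P * |w.re| ≤ P * (1 / 2) := mul_le_mul_of_nonneg_left this hP0.le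
      linarith) hz

end Pool.Agent.Helper75.Xi
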