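import Pool.Agent.Helper75.Xi.Ant7

set_option autoImplicit false
set_option maxHeartbeats 1000000

open Filter Topology MeasureTheory Complex
open Pool.Agent.Q97.UM
open Pool.Agent.Q175.UM (et_til_norm)

namespace Pool.Agent.Helper75.Xi

noncomputable section

lemma cube_sum (N : ℕ) : ∑ n ∈ Finset.Icc 2 (N + 1), 1 / (n : ℝ) ^ 3 ≤
    1 / 4 - 1 / (2 * ((N + 1 : ℝ) * (N + 2))) := by
  induction N with
  | zero => norm_num
  | succ N ih =>
    rw [Finset.sum_Icc_succ_top (by omega)]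
    have h1 : 1 / ((N + 1 + 1 : ℕ) : ℝ) ^ 3 ≤ 1 / (2 * ((N + 1 : ℝ) * (N + 2))) -
        1 / (2 * ((N + 2 : ℝ) * (N + 3))) := by
      have hN : (0 : ℝ) ≤ N := Nat.cast_nonneg N
      have e : 1 / (2 * ((N + 1 : ℝ) * (N + 2))) - 1 / (2 * ((N + 2 : ℝ) * (N + 3))) =
          1 / ((N + 1) * (N + 2) * (N + 3)) := by
        field_simp
        ring
      rw [e]
      apply one_div_le_one_div_of_le (by positivity)
      push_cast
      nlinarith
    push_cast at *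
    have e2 : ((N : ℝ) + 1 + 1) = N + 2 := by ring
    have e3 : ((N : ℝ) + 1 + 2) = N + 3 := by ring
    rw [e2] at h1 ⊢
    rw [e3]
    linarith

lemma al_one : al 1 = 1 := by
  unfold al
  rw [Nat.factorization_one]
  simp

lemma dq_low {P q : ℝ → ℝ} {c C₀ : ℝ} (hG : Gev P q c C₀) {Y : ℕ} (hY : 1 ≤ Y) {s : ℂ}
    (hs : 3 ≤ s.re) : 1 / 2 ≤ ‖dq Y (et P Y) s‖ := by
  have hA : S_AL := Pool.Agent.Q208.UM.t_AL
  unfold dq
  rw [← Finset.add_sum_Ioc_eq_sum_Icc hY]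
  have e1 : et P Y 1 * ((1 : ℕ) : ℂ) ^ (-s) = 1 := by
    unfold et
    rw [al_one, Nat.cast_one, Real.log_one, zero_div, hG.flat 0 (by norm_num)]
    simp
  rw [e1]
  have h2 : ‖∑ n ∈ Finset.Ioc 1 Y, et P Y n * (n : ℂ) ^ (-s)‖ ≤ 1 / 4 := by
    refine (norm_sum_le _ _).trans ?_
    have h3 : ∀ n ∈ Finset.Ioc 1 Y, ‖et P Y n * (n : ℂ) ^ (-s)‖ ≤ 1 / (n : ℝ) ^ 3 := by
      intro n hn
      have hn1 := (Finset.mem_Ioc.1 hn).1
      have hn0 : (0 : ℝ) < n := by exact_mod_cast (by omega : 0 < n)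
      have hn1' : (1 : ℝ) ≤ n := by exact_mod_cast (by omega : 1 ≤ n)
      have he := et_til_norm hG hA 0 Y n
      have htil : til P 0 = P := by
        funext u
        unfold til
        simp
      rw [htil, abs_zero, Real.exp_zero] at he
      rw [norm_mul, Complex.norm_natCast_cpow_of_pos (by omega), neg_re]
      have h4 : (n : ℝ) ^ (-s.re) ≤ 1 / (n : ℝ) ^ 3 := by
        rw [Real.rpow_neg hn0.le, one_div]
        apply inv_anti₀ (by positivity)
        calc (n : ℝ) ^ 3 = (n : ℝ) ^ (3 : ℝ) := by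
              rw [← Real.rpow_natCast]; norm_num
          _ ≤ _ := Real.rpow_le_rpow_of_exponent_le hn1' hs
      calc ‖et P Y n‖ * (n : ℝ) ^ (-s.re) ≤ 1 * (1 / (n : ℝ) ^ 3) := by gcongr
        _ = _ := one_mul _
    refine (Finset.sum_le_sum h3).trans ?_
    have h4 : Finset.Ioc 1 Y ⊆ Finset.Icc 2 (Y + 1) := by
      intro n hn
      rw [Finset.mem_Ioc] at hn
      rw [Finset.mem_Icc]
      omega
    refine (Finset.sum_le_sum_of_subset_of_nonneg h4 (fun n _ _ => by positivity)).trans ?_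
    have h5 := cube_sum Y
    have h6 : 0 ≤ 1 / (2 * ((Y + 1 : ℝ) * (Y + 2))) := by positivity
    linarith
  have h7 : ‖(1 : ℂ)‖ ≤ ‖1 + ∑ n ∈ Finset.Ioc 1 Y, et P Y n * (n : ℂ) ^ (-s)‖ +
      ‖∑ n ∈ Finset.Ioc 1 Y, et P Y n * (n : ℂ) ^ (-s)‖ := by
    calc ‖(1 : ℂ)‖ = ‖(1 + ∑ n ∈ Finset.Ioc 1 Y, et P Y n * (n : ℂ) ^ (-s)) -
        ∑ n ∈ Finset.Ioc 1 Y, et P Y n * (n : ℂ) ^ (-s)‖ := by congr 1; ring
      _ ≤ _ := norm_sub_le _ _
  rw [norm_one] at h7
  linarith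

/-- from the right of the line to the left of the line -/
lemma left_bd {V : ℝ → ℝ} (hVc : Continuous V) (hV0 : ∀ t, 0 ≤ V t) {CF T L r σ y w D : ℝ}
    (hCF : 1 ≤ CF)
    (hFE : ∀ a t : ℝ, 0 ≤ a → a ≤ 1 / 4 → CF ≤ t →
      ‖riemannZeta (((1 / 2 - a : ℝ) : ℂ) + t * I)‖ ≤ CF * t ^ a * ‖riemannZeta (((1 / 2 + a : ℝ) : ℂ) + t * I)‖)
    (hL : L = Real.log T) (hL1 : 2 ≤ L) (hr : r = 1 / (2 * L)) (h1 : 1 / 2 - r ≤ σ) (h2 : σ ≤ 1 / 2)
    (h3 : |y| ≤ w) (hTw : w + 10 ≤ T / 8) (hTF : 2 * CF ≤ T) (hT3 : 4 ≤ T)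
    (h4 : ∫ t in T..(2 * T), V t * ‖riemannZeta (((1 - σ : ℝ) : ℂ) + (t + y : ℝ) * I)‖ ^ 2 ≤ D) :
    ∫ t in T..(2 * T), V t * ‖riemannZeta (σ + (t + y : ℝ) * I)‖ ^ 2 ≤ CF ^ 2 * Real.exp 2 * D := by
  have hT0 : 0 < T := by linarith
  have hr4 : r ≤ 1 / 4 := by
    rw [hr]
    exact one_div_le_one_div_of_le (by norm_num) (by linarith)
  have hpt : ∀ t ∈ Set.Icc T (2 * T), V t * ‖riemannZeta (σ + (t + y : ℝ) * I)‖ ^ 2 ≤
      CF ^ 2 * Real.exp 2 * (V t * ‖riemannZeta (((1 - σ : ℝ) : ℂ) + (t + y : ℝ) * I)‖ ^ 2) := by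
    intro t ht
    have hyw := abs_le.1 h3
    have h5 := hFE (1 / 2 - σ) (t + y) (by linarith) (by linarith) (by linarith [ht.1])
    rw [show (1 / 2 - (1 / 2 - σ) : ℝ) = σ by ring,
      show (1 / 2 + (1 / 2 - σ) : ℝ) = 1 - σ by ring] at h5
    have hpos : 0 < t + y := by linarith [ht.1]
    have h6 : ((t + y) ^ (1 / 2 - σ)) ^ 2 ≤ Real.exp 2 := by
      have h7 : (t + y) ^ (1 / 2 - σ) ≤ Real.exp 1 := by
        rw [Real.rpow_def_of_pos hpos]
        apply Real.exp_le_exp.2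
        have h8 : Real.log (t + y) ≤ 2 * L := by
          have h9 : t + y ≤ T ^ 2 := by nlinarith [ht.2]
          calc Real.log (t + y) ≤ Real.log (T ^ 2) := Real.log_le_log hpos h9
            _ = 2 * L := by rw [Real.log_pow, hL]; push_cast; ring
        have h10 : 1 / 2 - σ ≤ r := by linarith
        have h11 : 0 ≤ 1 / 2 - σ := by linarith
        calc Real.log (t + y) * (1 / 2 - σ) ≤ (2 * L) * (1 / 2 - σ) := by gcongr
          _ ≤ (2 * L) * r := by gcongr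
          _ = 1 := by rw [hr]; field_simp
      calc ((t + y) ^ (1 / 2 - σ)) ^ 2 ≤ (Real.exp 1) ^ 2 := by gcongr
        _ = Real.exp 2 := by rw [← Real.exp_nat_mul]; norm_num
    have h7 : ‖riemannZeta (σ + (t + y : ℝ) * I)‖ ^ 2 ≤
        CF ^ 2 * Real.exp 2 * ‖riemannZeta (((1 - σ : ℝ) : ℂ) + (t + y : ℝ) * I)‖ ^ 2 := by
      calc ‖riemannZeta (σ + (t + y : ℝ) * I)‖ ^ 2 ≤
          (CF * (t + y) ^ (1 / 2 - σ) * ‖riemannZeta (((1 - σ : ℝ) : ℂ) + (t + y : ℝ) * I)‖) ^ 2 := by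
            gcongr
        _ = CF ^ 2 * ((t + y) ^ (1 / 2 - σ)) ^ 2 *
            ‖riemannZeta (((1 - σ : ℝ) : ℂ) + (t + y : ℝ) * I)‖ ^ 2 := by ring
        _ ≤ _ := by gcongr
    have hV0 := hV0 t
    calc _ ≤ V t * (CF ^ 2 * Real.exp 2 *
          ‖riemannZeta (((1 - σ : ℝ) : ℂ) + (t + y : ℝ) * I)‖ ^ 2) := by gcongr
      _ = _ := by ring
  have hci : ∀ ρ : ℝ, IntervalIntegrable
      (fun t : ℝ => V t * ‖riemannZeta (ρ + (t + y : ℝ) * I)‖ ^ 2) volume T (2 * T) := by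
    intro ρ
    apply ContinuousOn.intervalIntegrable
    intro t ht
    rw [Set.uIcc_of_le (by linarith)] at ht
    have hyw := abs_le.1 h3
    have hne : (ρ + (t + y : ℝ) * I : ℂ) ≠ 1 := by
      intro h
      have := congrArg Complex.im h
      simp at this
      linarith [ht.1]
    have h3 : ContinuousAt (fun t : ℝ => riemannZeta (ρ + (t + y : ℝ) * I)) t :=
      ContinuousAt.comp (f := fun t : ℝ => (ρ + (t + y : ℝ) * I : ℂ))
        (differentiableAt_riemannZeta hne).continuousAt (by fun_prop)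
    exact (hVc.continuousAt.mul (h3.norm.pow 2)).continuousWithinAt
  have hint := intervalIntegral.integral_mono_on (by linarith : T ≤ 2 * T)
    (hci σ) ((hci (1 - σ)).const_mul (CF ^ 2 * Real.exp 2)) hpt
  rw [intervalIntegral.integral_const_mul] at hint
  refine hint.trans ?_
  gcongr

/-- large values of the zeta function are rare -/
theorem w_bound : ∃ C' : ℝ, 0 ≤ C' ∧ ∀ᶠ T : ℝ in atTop, ∃ E : Set ℝ, MeasurableSet E ∧
      volume (E ∩ Set.Icc T (2 * T)) ≤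
        ENNReal.ofReal (C' * Real.exp (-(1 / 1000 * Real.log T)) * T) ∧
      ∀ t ∈ Set.Icc T (2 * T), t ∉ E → ∀ s : ℂ, 1 / 2 ≤ s.re → s.re ≤ 2 → |s.im - t| ≤ 400000 →
        ‖riemannZeta s‖ ≤ Real.exp (1 / 500 * Real.log T) := by
  obtain ⟨P, q, c, C₀, D, hG, hD, hM⟩ := windows
  obtain ⟨ϑ₀, C, T₁, hϑ₀, hϑ₀4, hC, hTS⟩ := ts_small
  obtain ⟨CF, hCF, hFE⟩ := Pool.Agent.Q277.UM.t_FE
  have hc := hG.cpos
  obtain ⟨ϑ, hϑ, h1, h8⟩ : ∃ ϑ : ℝ, 0 < ϑ ∧ ϑ ≤ ϑ₀ ∧ ϑ ≤ 1 / 500 :=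
    ⟨min ϑ₀ (1 / 500), by positivity, min_le_left _ _, min_le_right _ _⟩
  have hϑ4 : ϑ ≤ 1 / 4 := h1.trans hϑ₀4
  have hTSϑ := hTS ϑ hϑ h1
  obtain ⟨K, hK, hS⟩ := strip hG hD hM hϑ hϑ4 hC hTSϑ
  set B : ℝ := CF ^ 2 * Real.exp 2 * (16 * K) with hB
  have hB0 : 0 ≤ B := by positivity
  refine ⟨3 * (2 * 400001) * B * 4 * (2 * 1000 ^ 2), by positivity, ?_⟩
  have hlog : Tendsto Real.log atTop atTop := Real.tendsto_log_atTop
  filter_upwards [hS, sizes hϑ hϑ4, hlog.eventually_ge_atTop 100,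
    eventually_ge_atTop (8 * 400020 : ℝ), eventually_ge_atTop (2 * CF)] with T hST hsz hL100 hT8 hTCF
  have hT0 : 0 < T := by linarith
  obtain ⟨hT2, hY, hY3, hY6, hY5, hY4, hYT, hNs⟩ := hsz
  have hSB : SB P ϑ c K T := hST
  obtain ⟨L, hL⟩ : ∃ L : ℝ, L = Real.log T := ⟨_, rfl⟩
  rw [← hL] at hL100 hY6 ⊢
  have hL0 : 0 < L := by linarith
  obtain ⟨r, hr⟩ : ∃ r : ℝ, r = 1 / (2 * L) := ⟨_, rfl⟩
  have hr0 : 0 < r := by rw [hr]; positivity
  have hr2 : r ≤ 1 / 200 := by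
    rw [hr]; exact one_div_le_one_div_of_le (by norm_num) (by linarith)
  have hY1 : (1 : ℝ) ≤ YY ϑ T := by exact_mod_cast (by omega : 1 ≤ YY ϑ T)
  have hY0 : 0 ≤ Real.log (YY ϑ T) := Real.log_nonneg hY1
  set D1 : ℝ := 16 * K * T * Real.exp (1 / 1000 * L) with hD1
  have hD10 : 0 ≤ D1 := by positivity
  -- the right side
  have hright : ∀ σ y : ℝ, 1 / 2 ≤ σ → σ ≤ 3 → |y| ≤ 400001 →
      ∫ t in T..(2 * T), 1 * ‖riemannZeta (σ + (t + y : ℝ) * I)‖ ^ 2 ≤ D1 := by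
    intro σ y hσ1 hσ2 hy
    have h3 := hSB σ (5 / 2) 0 y hσ1 hσ2 (by rw [abs_of_pos (by norm_num)])
      (by linarith)
    have h4 : EE c (5 / 2) 0 (Real.log (YY ϑ T)) ≤ Real.exp (1 / 1000 * L) := by
      unfold EE
      apply Real.exp_le_exp.2
      rw [abs_zero, zero_mul, Real.zero_rpow (by norm_num), mul_zero, mul_zero, add_zero,
        abs_of_pos (by norm_num : (0 : ℝ) < 5 / 2)]
      nlinarith
    have hyT := abs_le.1 hy
    have hc1 : IntervalIntegrable (fun t : ℝ => 1 * ‖riemannZeta (σ + (t + y : ℝ) * I)‖ ^ 2)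
        volume T (2 * T) := by
      apply ContinuousOn.intervalIntegrable
      intro t ht
      rw [Set.uIcc_of_le (by linarith)] at ht
      have hne : (σ + (t + y : ℝ) * I : ℂ) ≠ 1 := by
        intro h
        have := congrArg Complex.im h
        simp at this
        linarith [ht.1]
      have h3 : ContinuousAt (fun t : ℝ => riemannZeta (σ + (t + y : ℝ) * I)) t :=
        ContinuousAt.comp (f := fun t : ℝ => (σ + (t + y : ℝ) * I : ℂ))
          (differentiableAt_riemannZeta hne).continuousAt (by fun_prop)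
      exact ((h3.norm.pow 2).const_mul 1).continuousWithinAt
    have hc2 : IntervalIntegrable (fun t : ℝ => ‖riemannZeta (σ + (t + y : ℝ) * I)‖ ^ 2 *
        ‖dq (YY ϑ T) (et P (YY ϑ T)) (σ + (5 / 2 : ℝ) + (t + y + 0 : ℝ) * I)‖ ^ 4)
        volume T (2 * T) := by
      apply ContinuousOn.intervalIntegrable
      intro t ht
      rw [Set.uIcc_of_le (by linarith)] at ht
      have hne : (σ + (t + y : ℝ) * I : ℂ) ≠ 1 := by
        intro h
        have := congrArg Complex.im h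
        simp at this
        linarith [ht.1]
      have h3 : ContinuousAt (fun t : ℝ => riemannZeta (σ + (t + y : ℝ) * I)) t :=
        ContinuousAt.comp (f := fun t : ℝ => (σ + (t + y : ℝ) * I : ℂ))
          (differentiableAt_riemannZeta hne).continuousAt (by fun_prop)
      have h4 : Continuous (fun t : ℝ => dq (YY ϑ T) (et P (YY ϑ T))
          (σ + (5 / 2 : ℝ) + (t + y + 0 : ℝ) * I)) :=
        (Pool.Agent.Q16.UM.dq_diff (YY ϑ T) (et P (YY ϑ T))).continuous.comp (by fun_prop)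
      exact ((h3.norm.pow 2).mul (h4.norm.pow 4).continuousAt).continuousWithinAt
    have hpt : ∀ t ∈ Set.Icc T (2 * T), 1 * ‖riemannZeta (σ + (t + y : ℝ) * I)‖ ^ 2 ≤
        16 * (‖riemannZeta (σ + (t + y : ℝ) * I)‖ ^ 2 *
        ‖dq (YY ϑ T) (et P (YY ϑ T)) (σ + (5 / 2 : ℝ) + (t + y + 0 : ℝ) * I)‖ ^ 4) := by
      intro t _
      have h5 := dq_low hG (Y := YY ϑ T) (by omega) (s := σ + (5 / 2 : ℝ) + (t + y + 0 : ℝ) * I)
        (by simp; linarith)
      have h6 : (1 / 2 : ℝ) ^ 4 ≤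
        ‖dq (YY ϑ T) (et P (YY ϑ T)) (σ + (5 / 2 : ℝ) + (t + y + 0 : ℝ) * I)‖ ^ 4 := by gcongr
      have h7 : 0 ≤ ‖riemannZeta (σ + (t + y : ℝ) * I)‖ ^ 2 := by positivity
      nlinarith
    have h5 := intervalIntegral.integral_mono_on (by linarith : T ≤ 2 * T) hc1
      (hc2.const_mul 16) hpt
    rw [intervalIntegral.integral_const_mul (16 : ℝ)] at h5
    refine h5.trans ?_
    rw [hD1]
    have h6 : K * T * EE c (5 / 2) 0 (Real.log (YY ϑ T)) ≤ K * T * Real.exp (1 / 1000 * L) := by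
      gcongr
    calc _ ≤ 16 * (K * T * Real.exp (1 / 1000 * L)) := by
          refine mul_le_mul_of_nonneg_left (h3.trans h6) (by norm_num)
      _ = _ := by ring
  have hone : 1 ≤ CF ^ 2 * Real.exp 2 := by
    have h1 : 1 ≤ CF ^ 2 := one_le_pow₀ hCF
    have h2 : 1 ≤ Real.exp 2 := Real.one_le_exp (by norm_num)
    nlinarith
  set D2 : ℝ := CF ^ 2 * Real.exp 2 * D1 with hD2
  have hfd : DifferentiableOn ℂ riemannZeta {s : ℂ | s ≠ 1} := fun s hs =>
    (differentiableAt_riemannZeta hs).differentiableWithinAt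
  obtain ⟨E, hE1, hE2, hE3⟩ := sup_gen hfd (V := fun _ => 1) continuous_const (fun _ => zero_le_one)
    (T := T) (a := 1 / 2 - r) (b := 2 + r) (w := 400001) (D := D2) (r := r)
    (lam := Real.exp (1 / 250 * L))
    (by linarith) (by norm_num) (by linarith) hr0 (by positivity) (Real.exp_pos _) (by
      intro σ y h1 h2 h3
      rcases le_total (1 / 2) σ with hσ | hσ
      · exact (hright σ y hσ (by linarith) h3).trans (le_mul_of_one_le_left hD10 hone)
      · have h4 := hright (1 - σ) y (by linarith) (by linarith) h3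
        exact left_bd continuous_const (fun _ => zero_le_one) hCF hFE hL (by linarith) hr h1 hσ h3
          (by linarith) hTCF (by linarith) h4)
  refine ⟨E, hE1, hE2.trans (ENNReal.ofReal_le_ofReal ?_), ?_⟩
  · have hpi := Real.pi_gt_three
    rw [div_le_iff₀ (by positivity)]
    have e1 : D2 = B * T * Real.exp (1 / 1000 * L) := by rw [hD2, hD1, hB]; ring
    have hLsq : L ^ 2 ≤ 2 * 1000 ^ 2 * Real.exp (1 / 1000 * L) := by
      have h3 : (1 / 1000 * L) ^ 2 / 2 ≤ Real.exp (1 / 1000 * L) := by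
        have := Real.quadratic_le_exp_of_nonneg (x := 1 / 1000 * L) (by positivity)
        have h0 : 0 ≤ 1 / 1000 * L := by positivity
        linarith
      nlinarith
    have e2 : Real.exp (1 / 1000 * L) * Real.exp (1 / 1000 * L) =
        Real.exp (-(1 / 1000 * L)) * Real.exp (3 / 1000 * L) := by
      rw [← Real.exp_add, ← Real.exp_add]; congr 1; ring
    have e3 : Real.exp (3 / 1000 * L) ≤ Real.exp (1 / 250 * L) := by
      apply Real.exp_le_exp.2; linarith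
    have hba : (2 + r - (1 / 2 - r)) ≤ 3 := by linarith
    have hba0 : 0 ≤ (2 + r - (1 / 2 - r)) := by linarith
    calc (2 + r - (1 / 2 - r)) * (2 * 400001) * D2 ≤ 3 * (2 * 400001) * D2 := by
          gcongr
      _ = 3 * (2 * 400001) * B * T * Real.exp (1 / 1000 * L) * (4 * r ^ 2 * L ^ 2) := by
          rw [e1, hr]; field_simp
          ring
      _ ≤ 3 * (2 * 400001) * B * T * Real.exp (1 / 1000 * L) *
          (4 * r ^ 2 * (2 * 1000 ^ 2 * Real.exp (1 / 1000 * L))) := by gcongr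
      _ = 3 * (2 * 400001) * B * 4 * (2 * 1000 ^ 2) *
          (Real.exp (1 / 1000 * L) * Real.exp (1 / 1000 * L)) * T * r ^ 2 := by ring
      _ = 3 * (2 * 400001) * B * 4 * (2 * 1000 ^ 2) *
          (Real.exp (-(1 / 1000 * L)) * Real.exp (3 / 1000 * L)) * T * r ^ 2 := by rw [e2]
      _ ≤ 3 * (2 * 400001) * B * 4 * (2 * 1000 ^ 2) *
          (Real.exp (-(1 / 1000 * L)) * Real.exp (1 / 250 * L)) * T * r ^ 2 := by gcongr
      _ = 3 * (2 * 400001) * B * 4 * (2 * 1000 ^ 2) * Real.exp (-(1 / 1000 * L)) * T *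
          (1 * r ^ 2 * Real.exp (1 / 250 * L)) := by ring
      _ ≤ 3 * (2 * 400001) * B * 4 * (2 * 1000 ^ 2) * Real.exp (-(1 / 1000 * L)) * T *
          (Real.pi * r ^ 2 * Real.exp (1 / 250 * L)) := by gcongr; linarith
  · intro t ht htE s hs1 hs2 hs3
    have h1 := hE3 t ht htE s (by linarith) (by linarith) (by linarith)
    rw [one_mul] at h1
    have e3 : Real.exp (1 / 250 * L) = Real.exp (1 / 500 * L) ^ 2 := by
      rw [← Real.exp_nat_mul]; congr 1; push_cast; ring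
    rw [e3] at h1
    exact le_of_sq_le_sq h1 (Real.exp_pos _).le

end

end Pool.Agent.Helper75.Xi
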