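import Mathlib

set_option autoImplicit false
set_option maxHeartbeats 1000000

open Filter Topology Complex LSeries

namespace Pool.Agent.Helper75.Xi

lemma L_le {f : ℕ → ℂ} (hf : LSeriesSummable f (5 / 4 : ℂ)) {s : ℂ} (hs : 5 / 4 ≤ s.re) :
    ‖LSeries f s‖ ≤ ∑' n, ‖LSeries.term f (5 / 4 : ℂ) n‖ := by
  have hre : (5 / 4 : ℂ).re ≤ s.re := by norm_num; linarith
  have hterm : ∀ n, ‖LSeries.term f s n‖ ≤ ‖LSeries.term f (5 / 4 : ℂ) n‖ := fun n =>
    LSeries.norm_term_le_of_re_le_re f hre n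
  have hsum : Summable (fun n => ‖LSeries.term f (5 / 4 : ℂ) n‖) := hf.norm
  have hsum2 : Summable (fun n => ‖LSeries.term f s n‖) :=
    Summable.of_nonneg_of_le (fun n => norm_nonneg _) hterm hsum
  unfold LSeries
  exact (norm_tsum_le_tsum_norm hsum2).trans (hsum2.tsum_le_tsum hterm hsum)

theorem zeta_right : ∃ C₀ : ℝ, 1 ≤ C₀ ∧ ∀ s : ℂ, 5 / 4 ≤ s.re → riemannZeta s ≠ 0 ∧
    ‖logDeriv riemannZeta s‖ ≤ C₀ ∧ ‖riemannZeta s‖ ≤ C₀ ∧ 1 ≤ C₀ * ‖riemannZeta s‖ := by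
  have h54 : (1 : ℝ) < (5 / 4 : ℂ).re := by norm_num
  set A := ∑' n, ‖LSeries.term (fun n => (ArithmeticFunction.vonMangoldt n : ℂ)) (5 / 4 : ℂ) n‖ with hA
  set B := ∑' n, ‖LSeries.term 1 (5 / 4 : ℂ) n‖ with hB
  set D := ∑' n, ‖LSeries.term (fun n => (ArithmeticFunction.moebius n : ℂ)) (5 / 4 : ℂ) n‖ with hD
  have hA0 : 0 ≤ A := tsum_nonneg fun n => norm_nonneg _
  have hB0 : 0 ≤ B := tsum_nonneg fun n => norm_nonneg _
  have hD0 : 0 ≤ D := tsum_nonneg fun n => norm_nonneg _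
  refine ⟨1 + A + B + D, by linarith, ?_⟩
  intro s hs
  have hs1 : 1 < s.re := by linarith
  have hne := riemannZeta_ne_zero_of_one_lt_re hs1
  refine ⟨hne, ?_, ?_, ?_⟩
  · have h1 := ArithmeticFunction.LSeries_vonMangoldt_eq_deriv_riemannZeta_div hs1
    have h2 := L_le (f := fun n => (ArithmeticFunction.vonMangoldt n : ℂ))
      (ArithmeticFunction.LSeriesSummable_vonMangoldt h54) hs
    rw [h1] at h2
    rw [logDeriv_apply]
    rw [neg_div, norm_neg] at h2
    linarith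
  · have h1 := LSeries_one_eq_riemannZeta hs1
    have h2 := L_le (f := 1) (LSeriesSummable_one_iff.2 h54) hs
    rw [h1] at h2
    linarith
  · have h1 := ArithmeticFunction.LSeries_zeta_mul_Lseries_moebius hs1
    have h2 := L_le (f := fun n => (ArithmeticFunction.moebius n : ℂ))
      (ArithmeticFunction.LSeriesSummable_moebius_iff.2 h54) hs
    rw [ArithmeticFunction.LSeries_zeta_eq_riemannZeta hs1] at h1
    have h3 : ‖riemannZeta s‖ * ‖LSeries (fun n => (ArithmeticFunction.moebius n : ℂ)) s‖ = 1 := by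
      rw [← norm_mul, h1, norm_one]
    have h4 := norm_nonneg (riemannZeta s)
    calc (1 : ℝ) = ‖riemannZeta s‖ * ‖LSeries (fun n => (ArithmeticFunction.moebius n : ℂ)) s‖ := h3.symm
      _ ≤ ‖riemannZeta s‖ * (1 + A + B + D) := by
        refine mul_le_mul_of_nonneg_left ?_ h4
        linarith
      _ = _ := by ring

end Pool.Agent.Helper75.Xi
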