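import Pool.Agent.Helper75.Xi.Det5
import Pool.Agent.Helper75.Xi.Ant8
import Pool.Agent.Helper75.Xi.Zr
import Pool.Agent.Helper75.Jen.Ver2

set_option autoImplicit false
set_option maxHeartbeats 1000000

open Filter Topology MeasureTheory Complex Metric
open Pool.Agent.Helper75.Jen (fx Gx LB fx_diff fx_even fx_conj fx_eq ratio_exp)

namespace Pool.Agent.Helper75.Xi

noncomputable section

/-- the rotated and rescaled variable -/
def wp (t P : ℝ) (p : ℂ) : ℂ := t * I - I * p / P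

/-- the xi function near height `t`, rotated and rescaled -/
def Gp (t P : ℝ) (p : ℂ) : ℂ := fx (wp t P p)

lemma wp_re (t P : ℝ) (p : ℂ) : (wp t P p).re = p.im / P := by
  unfold wp
  rw [sub_re, Complex.div_ofReal_re, mul_re, mul_re]
  simp
  ring

lemma wp_im (t P : ℝ) (p : ℂ) : (wp t P p).im = t - p.re / P := by
  unfold wp
  rw [sub_im, Complex.div_ofReal_im, mul_im, mul_im]
  simp

lemma wp_diff (t P : ℝ) : Differentiable ℂ (wp t P) := by
  unfold wp
  fun_prop

lemma wp_deriv (t P : ℝ) (p : ℂ) : HasDerivAt (wp t P) (-I / P) p := by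
  have h := (((hasDerivAt_id p).const_mul I).div_const (P : ℂ)).const_sub (t * I : ℂ)
  refine h.congr_deriv ?_
  rw [mul_one, neg_div]

lemma Gp_diff (t P : ℝ) : Differentiable ℂ (Gp t P) := fx_diff.comp (wp_diff t P)

lemma Gp_conj (t P : ℝ) (z : ℂ) :
    Gp t P (starRingEnd ℂ z) = starRingEnd ℂ (Gp t P z) := by
  unfold Gp
  rw [← fx_conj]
  have e : starRingEnd ℂ (wp t P z) = -wp t P (starRingEnd ℂ z) := by
    unfold wp
    simp only [map_sub, map_mul, map_div₀, conj_I, conj_ofReal]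
    ring
  rw [e, fx_even]

lemma fx_near {w : ℂ} (h1 : 4 ≤ w.im) (h0 : -(1 / 2) < w.re) :
    fx =ᶠ[𝓝 w] fun z => Gx z * riemannZeta (1 / 2 + z) := by
  have hopen : IsOpen {z : ℂ | -(1 / 2) < z.re ∧ 0 < z.im} :=
    (isOpen_lt continuous_const Complex.continuous_re).inter
      (isOpen_lt continuous_const Complex.continuous_im)
  filter_upwards [hopen.mem_nhds ⟨h0, by linarith⟩] with z hz
  refine fx_eq hz.1 ?_
  rintro rfl
  have := hz.2
  simp at this

lemma logDeriv_fx {C1 : ℝ} (hC : LB C1) {w : ℂ} (h1 : 4 ≤ w.im) (h2 : |w.re| ≤ w.im / 2)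
    (h0 : -(1 / 2) < w.re) (hz : riemannZeta (1 / 2 + w) ≠ 0) :
    fx w ≠ 0 ∧ logDeriv fx w = logDeriv Gx w + logDeriv riemannZeta (1 / 2 + w) := by
  obtain ⟨g1, g2, g3⟩ := hC.2 w h1 h2
  have hne : (1 / 2 + w : ℂ) ≠ 1 := by
    intro h
    have := congrArg Complex.im h
    simp at this
    linarith
  have hd : DifferentiableAt ℂ (fun z : ℂ => riemannZeta (1 / 2 + z)) w :=
    DifferentiableAt.comp (g := riemannZeta) (f := fun z : ℂ => 1 / 2 + z) w
      (differentiableAt_riemannZeta hne) (by fun_prop)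
  have hev := fx_near h1 h0
  constructor
  · rw [hev.self_of_nhds]
    exact mul_ne_zero g1 hz
  · have e1 : logDeriv fx w = logDeriv (fun z => Gx z * riemannZeta (1 / 2 + z)) w := by
      rw [logDeriv_apply, logDeriv_apply, hev.deriv_eq, hev.self_of_nhds]
    rw [e1, logDeriv_mul w g1 hz g2 hd]
    congr 1
    rw [logDeriv_apply, logDeriv_apply]
    congr 1
    exact deriv_comp_const_add (f := riemannZeta) (1 / 2 : ℂ) w

lemma logDeriv_Gp {t P : ℝ} (p : ℂ) :
    logDeriv (Gp t P) p = -I / P * logDeriv fx (wp t P p) := by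
  rw [logDeriv_apply, logDeriv_apply]
  have h := (fx_diff (wp t P p)).hasDerivAt.comp p (wp_deriv t P p)
  have h2 : deriv (Gp t P) p = deriv fx (wp t P p) * (-I / P) := h.deriv
  rw [h2]
  unfold Gp
  ring

/-- the standing assumptions -/
structure Env (C1 C0 T P : ℝ) : Prop where
  T0 : 0 < T
  hP : P = Real.log T / 2
  P0 : 10 ^ 9 * (C1 + C0) ≤ P
  lb : LB C1
  zr : 1 ≤ C0 ∧ ∀ s : ℂ, 5 / 4 ≤ s.re → riemannZeta s ≠ 0 ∧
    ‖logDeriv riemannZeta s‖ ≤ C0 ∧ ‖riemannZeta s‖ ≤ C0 ∧ 1 ≤ C0 * ‖riemannZeta s‖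

variable {C1 C0 T P t : ℝ}

lemma Env.P9 (h : Env C1 C0 T P) : 10 ^ 9 ≤ P := by
  have h1 := h.lb.1
  have h2 := h.zr.1
  have h3 := h.P0
  nlinarith

lemma Env.T_eq (h : Env C1 C0 T P) : T = Real.exp (2 * P) := by
  have h2 := h.hP
  rw [show 2 * P = Real.log T by linarith, Real.exp_log h.T0]

lemma Env.TP (h : Env C1 C0 T P) : 10 ^ 9 * P ≤ T := by
  have h1 := h.P9
  rw [h.T_eq]
  have := Real.quadratic_le_exp_of_nonneg (x := 2 * P) (by linarith)
  nlinarith

lemma Env.T18 (h : Env C1 C0 T P) : 10 ^ 18 ≤ T := by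
  have h1 := h.P9
  have h2 := h.TP
  linarith

/-- geometry of the comparison region -/
lemma Env.wgeo (h : Env C1 C0 T P) (ht : t ∈ Set.Icc T (2 * T)) {w : ℂ} (h1 : |w.re| ≤ T / 4)
    (h2 : |w.im - t| ≤ T / 4) :
    4 ≤ w.im ∧ |w.re| ≤ w.im / 2 ∧ |1 / 2 * Real.log w.im - P| ≤ 1 / 2 := by
  have hT := h.T18
  have h3 := abs_le.1 h2
  obtain ⟨t1, t2⟩ := ht
  have hlo : 3 / 4 * T ≤ w.im := by linarith
  have hhi : w.im ≤ 9 / 4 * T := by linarith
  refine ⟨by linarith, by linarith, ?_⟩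
  have hT0 := h.T0
  have hw0 : 0 < w.im := by linarith
  have e1 : 1 / 2 * Real.log w.im - P = 1 / 2 * Real.log (w.im / T) := by
    rw [Real.log_div hw0.ne' hT0.ne', h.hP]; ring
  rw [e1]
  have a1 : 3 / 4 ≤ w.im / T := by rw [le_div_iff₀ hT0]; exact hlo
  have a2 : w.im / T ≤ 9 / 4 := by rw [div_le_iff₀ hT0]; exact hhi
  have a0 : 0 < w.im / T := by positivity
  rw [abs_le]
  constructor
  · have := Real.one_sub_inv_le_log_of_pos a0
    have h5 : (w.im / T)⁻¹ ≤ 4 / 3 := by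
      rw [inv_le_comm₀ a0 (by norm_num)]
      norm_num at a1 ⊢
      exact a1
    linarith
  · have h6 : Real.log (w.im / T) ≤ Real.log (9 / 4) := Real.log_le_log a0 a2
    have h7 : Real.log (9 / 4) ≤ 1 := by
      rw [Real.log_le_iff_le_exp (by norm_num)]
      have := Real.exp_one_gt_d9
      linarith
    linarith

/-- comparison of the gamma factors -/
lemma Env.Hcmp (h : Env C1 C0 T P) (ht : t ∈ Set.Icc T (2 * T)) {w w' : ℂ} (h1 : |w.re| ≤ T / 8)
    (h2 : |w.im - t| ≤ T / 8) (h3 : |w'.re| ≤ T / 8) (h4 : |w'.im - t| ≤ T / 8) :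
    ‖Gx w‖ ≤ ‖Gx w'‖ * Real.exp (P * (w.re - w'.re) + (C1 + 1 / 2) * ‖w - w'‖) := by
  have hT := h.T18
  have hball : ∀ z ∈ ball (t * I : ℂ) (T / 4), |z.re| ≤ T / 4 ∧ |z.im - t| ≤ T / 4 := by
    intro z hz
    rw [mem_ball, dist_eq_norm] at hz
    have a1 := (Complex.abs_re_le_norm (z - t * I)).trans hz.le
    have a2 := (Complex.abs_im_le_norm (z - t * I)).trans hz.le
    simp only [sub_re, sub_im, re_ofReal_mul, im_ofReal_mul, I_re, I_im, mul_zero, mul_one,
      sub_zero] at a1 a2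
    exact ⟨a1, a2⟩
  have hin : ∀ z : ℂ, |z.re| ≤ T / 8 → |z.im - t| ≤ T / 8 → z ∈ ball (t * I : ℂ) (T / 4) := by
    intro z b1 b2
    rw [mem_ball, dist_eq_norm]
    have hn := Complex.norm_le_sqrt_two_mul_max (z - t * I)
    simp only [sub_re, sub_im, re_ofReal_mul, im_ofReal_mul, I_re, I_im, mul_zero, mul_one,
      sub_zero] at hn
    refine hn.trans_lt ?_
    have hmax : max |z.re| |z.im - t| ≤ T / 8 := max_le b1 b2
    have hs : Real.sqrt 2 < 3 / 2 := by
      rw [Real.sqrt_lt' (by norm_num)]; norm_num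
    have h0 : 0 ≤ Real.sqrt 2 := Real.sqrt_nonneg 2
    calc Real.sqrt 2 * max |z.re| |z.im - t| ≤ Real.sqrt 2 * (T / 8) := by gcongr
      _ < 2 * (T / 8) := by
        apply mul_lt_mul_of_pos_right _ (by linarith)
        linarith
      _ = T / 4 := by ring
  set g : ℂ → ℂ := fun z => Gx z * cexp (-(P * z)) with hg
  have hde : ∀ z : ℂ, DifferentiableAt ℂ (fun z : ℂ => cexp (-(P * z))) z := by
    intro z; fun_prop
  have hfacts : ∀ z ∈ ball (t * I : ℂ) (T / 4), Gx z ≠ 0 ∧ DifferentiableAt ℂ Gx z ∧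
      ‖logDeriv Gx z - P‖ ≤ C1 + 1 / 2 := by
    intro z hz
    obtain ⟨b1, b2⟩ := hball z hz
    obtain ⟨c1, c2, c3⟩ := h.wgeo ht b1 b2
    obtain ⟨g1, g2, g3⟩ := h.lb.2 z c1 c2
    refine ⟨g1, g2, ?_⟩
    have e : logDeriv Gx z - P = (logDeriv Gx z - ((1 / 2 * Real.log z.im : ℝ) : ℂ)) +
        ((1 / 2 * Real.log z.im - P : ℝ) : ℂ) := by push_cast; ring
    rw [e]
    refine (norm_add_le _ _).trans (add_le_add g3 ?_)
    rw [Complex.norm_real, Real.norm_eq_abs]
    exact c3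
  obtain ⟨k, hk1, hk2⟩ := ratio_exp (g := g) (c := t * I) (r := T / 4) (ε := C1 + 1 / 2)
    (fun z hz => (((hfacts z hz).2.1).mul (hde z)).differentiableWithinAt)
    (fun z hz => mul_ne_zero (hfacts z hz).1 (Complex.exp_ne_zero _))
    (fun z hz => by
      obtain ⟨g1, g2, g3⟩ := hfacts z hz
      have e : logDeriv g z = logDeriv Gx z - P := by
        have hlm := logDeriv_mul (f := Gx) (g := fun z : ℂ => cexp (-(P * z))) z g1
          (Complex.exp_ne_zero _) g2 (hde z)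
        rw [hg, hlm]
        have e2 : logDeriv (fun z : ℂ => cexp (-(P * z))) z = -P := by
          rw [logDeriv_apply]
          have e3 : HasDerivAt (fun z : ℂ => cexp (-(P * z))) (cexp (-(P * z)) * (-(P * 1))) z :=
            (((hasDerivAt_id z).const_mul (P : ℂ)).neg).cexp
          rw [e3.deriv]
          have := Complex.exp_ne_zero (-(P * z) : ℂ)
          field_simp
        rw [e2]; ring
      rw [e]; exact g3)
    (z := w') (w := w) (hin w' h3 h4) (hin w h1 h2)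
  have e1 : Gx w = Gx w' * cexp (P * (w - w') + k) := by
    have h5 : Gx w * cexp (-(P * w)) = Gx w' * cexp (-(P * w')) * cexp k := hk1
    have h6 : Gx w = Gx w * cexp (-(P * w)) * cexp (P * w) := by
      rw [mul_assoc, ← Complex.exp_add]; simp
    rw [h6, h5, mul_assoc, mul_assoc, ← Complex.exp_add, ← Complex.exp_add]
    congr 2
    ring
  rw [e1, norm_mul, Complex.norm_exp]
  refine mul_le_mul_of_nonneg_left (Real.exp_le_exp.2 ?_) (norm_nonneg _)
  rw [add_re, re_ofReal_mul, sub_re]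
  have := (Complex.re_le_norm k).trans hk2
  linarith

/-- the cone condition -/
lemma Env.cone (h : Env C1 C0 T P) (ht : t ∈ Set.Icc T (2 * T)) {M H : ℝ} (hM : 0 < M)
    (hH : 200 * (H / P) ≤ T / 8)
    (hz : ∀ s : ℂ, 1 / 2 + M / (8 * P) ≤ s.re → |s.im - t| ≤ 200 * (s.re - 1 / 2) → s.re < 5 / 4 →
      riemannZeta s ≠ 0 ∧ ‖logDeriv riemannZeta s‖ ≤ 5 / 10 ^ 7 * P) :
    Cone (Gp t P) M H ee := by
  have hP9 := h.P9
  have hP0 : 0 < P := by linarith
  have hC1 := h.lb.1
  have hC0 := h.zr.1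
  have hPP := h.P0
  have hPc : (P : ℂ) ≠ 0 := by exact_mod_cast hP0.ne'
  have key : ∀ p ∈ Kc M H, fx (wp t P p) ≠ 0 ∧ ‖logDeriv fx (wp t P p) - P‖ ≤ 9 / 10 ^ 7 * P := by
    intro p hp
    obtain ⟨p1, p2, p3⟩ := hp
    have hre := wp_re t P p
    have him := wp_im t P p
    set w := wp t P p with hw
    have him0 : 0 < p.im := by linarith
    have hre0 : 0 < w.re := by rw [hre]; positivity
    have hre1 : w.re ≤ H / P := by rw [hre]; gcongr
    have hreM : M / (8 * P) ≤ w.re := by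
      rw [hre, div_le_div_iff₀ (by positivity) hP0]
      nlinarith
    have himt : |w.im - t| ≤ 200 * w.re := by
      rw [him, hre, show t - p.re / P - t = -(p.re / P) by ring, abs_neg, abs_div, abs_of_pos hP0,
        mul_div_assoc']
      gcongr
    have hwre : |w.re| ≤ T / 4 := by
      rw [abs_of_pos hre0]
      have : 0 < T := h.T0
      linarith
    have hwim : |w.im - t| ≤ T / 4 := by
      have : 0 < T := h.T0
      linarith
    obtain ⟨c1, c2, c3⟩ := h.wgeo ht hwre hwim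
    have hsre : (1 / 2 + w : ℂ).re = 1 / 2 + w.re := by simp
    have hsim : (1 / 2 + w : ℂ).im = w.im := by simp
    have hzz : riemannZeta (1 / 2 + w) ≠ 0 ∧ ‖logDeriv riemannZeta (1 / 2 + w)‖ ≤
        C0 + 5 / 10 ^ 7 * P := by
      rcases lt_or_ge (1 / 2 + w : ℂ).re (5 / 4) with h5 | h5
      · obtain ⟨d1, d2⟩ := hz (1 / 2 + w) (by rw [hsre]; linarith)
          (by rw [hsim, hsre]; linarith) h5
        exact ⟨d1, by linarith⟩
      · obtain ⟨d1, d2, d3, d4⟩ := h.zr.2 (1 / 2 + w) h5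
        refine ⟨d1, ?_⟩
        have : 0 ≤ 5 / 10 ^ 7 * P := by positivity
        linarith
    obtain ⟨f1, f2⟩ := logDeriv_fx h.lb c1 c2 (by linarith) hzz.1
    obtain ⟨g1, g2, g3⟩ := h.lb.2 w c1 c2
    refine ⟨f1, ?_⟩
    rw [f2]
    have e : logDeriv Gx w + logDeriv riemannZeta (1 / 2 + w) - P =
        (logDeriv Gx w - ((1 / 2 * Real.log w.im : ℝ) : ℂ)) +
        ((1 / 2 * Real.log w.im - P : ℝ) : ℂ) + logDeriv riemannZeta (1 / 2 + w) := by
      push_cast; ring
    rw [e]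
    refine (norm_add_le _ _).trans ?_
    refine (add_le_add (norm_add_le _ _) le_rfl).trans ?_
    rw [Complex.norm_real, Real.norm_eq_abs]
    have := hzz.2
    nlinarith
  refine ⟨fun p hp => (key p hp).1, fun p hp => ?_⟩
  rw [logDeriv_Gp]
  have e : -I / P * logDeriv fx (wp t P p) + I = -I / P * (logDeriv fx (wp t P p) - P) := by
    field_simp
    ring
  rw [e, norm_mul, norm_div, norm_neg, norm_I, Complex.norm_real, Real.norm_of_nonneg hP0.le]
  have := (key p hp).2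
  rw [one_div, inv_mul_le_iff₀ hP0]
  unfold ee
  linarith

/-- the lower region -/
lemma Env.low (h : Env C1 C0 T P) (ht : t ∈ Set.Icc T (2 * T)) {M A κ : ℝ} (hM : 0 < M)
    (hH : 20 * (M / P) ≤ T / 8) (hA : 0 < A)
    (hz : ∀ s : ℂ, 1 / 2 ≤ s.re → s.re ≤ 1 / 2 + M / (8 * P) → |s.im - t| ≤ 20 * (M / P) →
      ‖riemannZeta s‖ ≤ A * ‖riemannZeta (1 / 2 + (M / (8 * P) : ℝ) + t * I)‖)
    (hκ : Real.log A + 1 / 10 ^ 7 * M ≤ κ * M) :
    Low (Gp t P) M κ := by
  have hP9 := h.P9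
  have hP0 : 0 < P := by linarith
  have hC1 := h.lb.1
  have hC0 := h.zr.1
  have hPP := h.P0
  have hT18 := h.T18
  have hMP : 0 < M / P := by positivity
  have hPc : (P : ℂ) ≠ 0 := by exact_mod_cast hP0.ne'
  intro p p1 p2 p3
  have hre := wp_re t P p
  have him := wp_im t P p
  set w := wp t P p with hw
  have hwref : wp t P ((M / 8 : ℝ) * I) = ((M / (8 * P) : ℝ) : ℂ) + t * I := by
    unfold wp
    have : I * (((M / 8 : ℝ) : ℂ) * I) = -((M / 8 : ℝ) : ℂ) := by
      rw [mul_comm ((M / 8 : ℝ) : ℂ) I, ← mul_assoc, I_mul_I]; ring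
    rw [this]
    push_cast
    field_simp
    ring
  set w0 : ℂ := ((M / (8 * P) : ℝ) : ℂ) + t * I with hw0
  have hw0re : w0.re = M / (8 * P) := by
    rw [hw0, add_re, ofReal_re, re_ofReal_mul, I_re, mul_zero, add_zero]
  have hw0im : w0.im = t := by
    rw [hw0, add_im, ofReal_im, im_ofReal_mul, I_im, mul_one, zero_add]
  have hx : M / (8 * P) = M / P / 8 := by field_simp
  have hre0 : 0 ≤ w.re := by rw [hre]; positivity
  have hre1 : w.re ≤ M / (8 * P) := by
    rw [hre, div_le_div_iff₀ hP0 (by positivity)]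
    nlinarith
  have himt : |w.im - t| ≤ 20 * (M / P) := by
    rw [him, show t - p.re / P - t = -(p.re / P) by ring, abs_neg, abs_div, abs_of_pos hP0,
      mul_div_assoc']
    gcongr
  have hcm := h.Hcmp ht (w := w) (w' := w0) (by rw [abs_of_nonneg hre0]; linarith) (by linarith)
    (by rw [hw0re, abs_of_pos (by positivity)]; linarith)
    (by rw [hw0im, sub_self, abs_zero]; linarith)
  have hdist : ‖w - w0‖ ≤ 21 * (M / P) := by
    refine (Complex.norm_le_abs_re_add_abs_im _).trans ?_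
    rw [sub_re, sub_im, hw0re, hw0im]
    have : |w.re - M / (8 * P)| ≤ M / (8 * P) := by
      rw [abs_le]; constructor <;> linarith
    linarith
  -- the values of fx
  have f1 : fx w = Gx w * riemannZeta (1 / 2 + w) := by
    obtain ⟨c1, c2, c3⟩ := h.wgeo ht (w := w) (by rw [abs_of_nonneg hre0]; linarith) (by linarith)
    exact (fx_near c1 (by linarith)).self_of_nhds
  have f2 : fx w0 = Gx w0 * riemannZeta (1 / 2 + w0) := by
    obtain ⟨c1, c2, c3⟩ := h.wgeo ht (w := w0) (by rw [hw0re, abs_of_pos (by positivity)]; linarith)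
      (by rw [hw0im, sub_self, abs_zero]; linarith)
    exact (fx_near c1 (by rw [hw0re]; have : 0 < M / (8 * P) := by positivity
                          linarith)).self_of_nhds
  have hsre : (1 / 2 + w : ℂ).re = 1 / 2 + w.re := by simp
  have hsim : (1 / 2 + w : ℂ).im = w.im := by simp
  have hzw := hz (1 / 2 + w) (by rw [hsre]; linarith) (by rw [hsre]; linarith) (by rw [hsim]; exact himt)
  have e0 : (1 / 2 + (M / (8 * P) : ℝ) + t * I : ℂ) = 1 / 2 + w0 := by rw [hw0]; ring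
  rw [e0] at hzw
  unfold Gp
  rw [← hw, hwref, f1, f2, norm_mul, norm_mul]
  calc ‖Gx w‖ * ‖riemannZeta (1 / 2 + w)‖ ≤
      (‖Gx w0‖ * Real.exp (P * (w.re - w0.re) + (C1 + 1 / 2) * ‖w - w0‖)) *
        (A * ‖riemannZeta (1 / 2 + w0)‖) := by gcongr
    _ = (‖Gx w0‖ * ‖riemannZeta (1 / 2 + w0)‖) *
        Real.exp (P * (w.re - w0.re) + (C1 + 1 / 2) * ‖w - w0‖ + Real.log A) := by
        rw [Real.exp_add _ (Real.log A), Real.exp_log hA]; ring
    _ ≤ _ := by
        refine mul_le_mul_of_nonneg_left (Real.exp_le_exp.2 ?_) (by positivity)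
        rw [hw0re, hre]
        have e1 : P * (p.im / P - M / (8 * P)) = p.im - M / 8 := by field_simp
        rw [e1]
        have e2 : (C1 + 1 / 2) * ‖w - w0‖ ≤ 1 / 10 ^ 7 * M := by
          calc (C1 + 1 / 2) * ‖w - w0‖ ≤ (C1 + 1 / 2) * (21 * (M / P)) := by gcongr
            _ = (21 * (C1 + 1 / 2) / P) * M := by ring
            _ ≤ 1 / 10 ^ 7 * M := by
              refine mul_le_mul_of_nonneg_right ?_ hM.le
              rw [div_le_iff₀ hP0]
              nlinarith
        linarith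

end

end Pool.Agent.Helper75.Xi
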