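import Pool.Agent.Helper75.Xi.Tr
import Pool.Agent.Helper75.Xi.Strip

set_option autoImplicit false
set_option maxHeartbeats 1000000

open Filter Topology Complex
open Pool.Agent.Helper75.Jen (fx fx_diff fx_conj fx_even)

namespace Pool.Agent.Helper75.Xi

noncomputable section

/-- Rolle's theorem for a finite set of zeros -/
lemma rolle_one {f f' : ℝ → ℝ} (hf : ∀ x, HasDerivAt f (f' x) x) {a b : ℝ} {n : ℕ} {Z : Finset ℝ}
    (hZ : Z.card = n + 1) (hab : ∀ z ∈ Z, a ≤ z ∧ z ≤ b) (h0 : ∀ z ∈ Z, f z = 0) :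
    ∃ Z' : Finset ℝ, Z'.card = n ∧ (∀ z ∈ Z', a ≤ z ∧ z ≤ b) ∧ ∀ z ∈ Z', f' z = 0 := by
  classical
  set e := Z.orderEmbOfFin hZ with he
  have hmem : ∀ i, e i ∈ Z := fun i => Z.orderEmbOfFin_mem hZ i
  have hex : ∀ i : Fin n, ∃ c, e i.castSucc < c ∧ c < e i.succ ∧ f' c = 0 := by
    intro i
    have hlt : e i.castSucc < e i.succ := e.strictMono Fin.castSucc_lt_succ
    obtain ⟨c, hc, hc0⟩ := exists_hasDerivAt_eq_zero (f := f) (f' := f') hlt
      (fun x _ => (hf x).continuousAt.continuousWithinAt)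
      (by rw [h0 _ (hmem _), h0 _ (hmem _)]) (fun x _ => hf x)
    exact ⟨c, hc.1, hc.2, hc0⟩
  choose c hc1 hc2 hc3 using hex
  have hmono : StrictMono c := by
    intro i j hij
    have h1 : e i.succ ≤ e j.castSucc := by
      apply e.monotone
      rw [Fin.le_def]
      simp only [Fin.val_succ, Fin.val_castSucc]
      omega
    exact (hc2 i).trans_le (h1.trans (hc1 j).le)
  refine ⟨Finset.univ.image c, ?_, ?_, ?_⟩
  · rw [Finset.card_image_of_injective _ hmono.injective, Finset.card_univ, Fintype.card_fin]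
  · intro z hz
    obtain ⟨i, -, rfl⟩ := Finset.mem_image.1 hz
    exact ⟨(hab _ (hmem i.castSucc)).1.trans (hc1 i).le, (hc2 i).le.trans (hab _ (hmem i.succ)).2⟩
  · intro z hz
    obtain ⟨i, -, rfl⟩ := Finset.mem_image.1 hz
    exact hc3 i

/-- the real function on the line -/
def fr (m : ℕ) (y : ℝ) : ℝ := (I ^ m * iteratedDeriv m fx (y * I)).re

lemma fr_deriv (m : ℕ) (y : ℝ) : HasDerivAt (fr m) (fr (m + 1) y) y := by
  have h1 : HasDerivAt (fun y : ℝ => ((y : ℂ) * I)) I y := by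
    have := (Complex.ofRealCLM.hasDerivAt (x := y)).mul_const I
    simpa using this
  have h2 : HasDerivAt (iteratedDeriv m fx) (iteratedDeriv (m + 1) fx (y * I)) (y * I) := by
    rw [iteratedDeriv_succ]
    exact (fx_iter_diff m _).hasDerivAt
  have h3 : HasDerivAt (fun y : ℝ => I ^ m * iteratedDeriv m fx (y * I))
      (I ^ m * (iteratedDeriv (m + 1) fx (y * I) * I)) y :=
    (h2.comp y h1).const_mul (I ^ m)
  have h4 := (Complex.reCLM.hasFDerivAt.comp_hasDerivAt y h3)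
  have e : fr (m + 1) y = Complex.reCLM (I ^ m * (iteratedDeriv (m + 1) fx (y * I) * I)) := by
    unfold fr
    rw [Complex.reCLM_apply, pow_succ]
    congr 1
    ring
  rw [e]
  exact h4

lemma fr_real (m : ℕ) (y : ℝ) : I ^ m * iteratedDeriv m fx (y * I) = fr m y := by
  have h1 := (iter_conj fx_diff fx_conj m).2 (y * I)
  have h2 : starRingEnd ℂ ((y : ℂ) * I) = -((y : ℂ) * I) := by
    rw [map_mul, conj_ofReal, conj_I]; ring
  rw [h2] at h1
  have h3 : iteratedDeriv m fx (-((y : ℂ) * I)) = (-1) ^ m * iteratedDeriv m fx (y * I) := by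
    have h4 := iteratedDeriv_comp_neg m fx (-((y : ℂ) * I))
    have h5 : (fun x => fx (-x)) = fx := funext fx_even
    rw [h5, neg_neg] at h4
    rw [h4, smul_eq_mul]
  rw [h3] at h1
  have h6 : starRingEnd ℂ (I ^ m * iteratedDeriv m fx (y * I)) =
      I ^ m * iteratedDeriv m fx (y * I) := by
    rw [map_mul, map_pow, conj_I, ← h1, ← mul_assoc, ← mul_pow]
    congr 2
    ring
  have h7 := Complex.conj_eq_iff_re.1 h6
  unfold fr
  exact h7.symm

lemma fr_zero (m : ℕ) (y : ℝ) : fr m y = 0 ↔ iteratedDeriv m fx (y * I) = 0 := by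
  have h := fr_real m y
  constructor
  · intro h0
    rw [h0, ofReal_zero] at h
    rcases mul_eq_zero.1 h with h1 | h1
    · exact absurd h1 (pow_ne_zero _ I_ne_zero)
    · exact h1
  · intro h0
    rw [h0, mul_zero] at h
    exact_mod_cast h.symm

/-- the number of zeros on the line drops by at most one -/
theorem rolle_many {a b : ℝ} {n : ℕ} {Z : Finset ℝ} (hZ : n ≤ Z.card)
    (hab : ∀ z ∈ Z, a ≤ z ∧ z ≤ b) (h0 : ∀ z ∈ Z, fx (z * I) = 0) (m : ℕ) :
    ∃ Z' : Finset ℝ, n ≤ Z'.card + m ∧ (∀ z ∈ Z', a ≤ z ∧ z ≤ b) ∧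
      ∀ z ∈ Z', iteratedDeriv m fx (z * I) = 0 := by
  induction m with
  | zero => exact ⟨Z, by omega, hab, by simpa using h0⟩
  | succ m ih =>
    obtain ⟨Z1, h1, h2, h3⟩ := ih
    rcases Nat.eq_zero_or_pos Z1.card with h4 | h4
    · exact ⟨∅, by simp; omega, by simp, by simp⟩
    · obtain ⟨Z2, k1, k2, k3⟩ := rolle_one (fr_deriv m) (n := Z1.card - 1) (Z := Z1) (by omega) h2
        (fun z hz => (fr_zero m z).2 (h3 z hz))
      exact ⟨Z2, by omega, k2, fun z hz => (fr_zero (m + 1) z).1 (k3 z hz)⟩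

end

end Pool.Agent.Helper75.Xi
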