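import Pool.Graph.R_pool_sql_team_seeded_3997aac3.Q97.UM.Base2

set_option autoImplicit false
set_option maxHeartbeats 1000000

open Filter Topology MeasureTheory Complex
open Pool.Agent.Q97.UM

namespace Pool.Agent.Helper75.Xi

noncomputable section

/-- modulated windows -/
def wc (P : ℝ → ℝ) (τ : ℝ) (u : ℝ) : ℝ := P u * Real.cos (τ * u)
def ws (P : ℝ → ℝ) (τ : ℝ) (u : ℝ) : ℝ := P u * Real.sin (τ * u)

lemma rpow_sub {x y : ℝ} : |y| ^ (2 / 3 : ℝ) ≤ |y - x| ^ (2 / 3 : ℝ) + |x| ^ (2 / 3 : ℝ) := by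
  have h1 : |y| ≤ |y - x| + |x| := by
    have := abs_add_le (y - x) x
    simpa using this
  calc |y| ^ (2 / 3 : ℝ) ≤ (|y - x| + |x|) ^ (2 / 3 : ℝ) :=
        Real.rpow_le_rpow (abs_nonneg _) h1 (by norm_num)
    _ ≤ _ := Real.rpow_add_le_add_rpow (abs_nonneg _) (abs_nonneg _) (by norm_num) (by norm_num)

lemma dec_shift {q : ℝ → ℂ} {c C : ℝ} (hc : 0 < c)
    (hdec : ∀ y : ℝ, ‖q y‖ ≤ C * Real.exp (-(c * |y| ^ (2 / 3 : ℝ)))) (τ y : ℝ) :
    ‖q (y - τ)‖ ≤ C * Real.exp (c * |τ| ^ (2 / 3 : ℝ)) * Real.exp (-(c * |y| ^ (2 / 3 : ℝ))) := by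
  have hC : 0 ≤ C := by
    have := hdec 0
    have h2 := (norm_nonneg _).trans this
    exact nonneg_of_mul_nonneg_left h2 (Real.exp_pos _)
  refine (hdec _).trans ?_
  rw [mul_assoc, ← Real.exp_add]
  refine mul_le_mul_of_nonneg_left (Real.exp_le_exp.2 ?_) hC
  have := mul_le_mul_of_nonneg_left (rpow_sub (x := τ) (y := y)) hc.le
  linarith

lemma mod_int {P : ℝ → ℝ} {q : ℝ → ℂ} {c C : ℝ} (hG : Win P q c C) (τ u : ℝ) :
    Integrable (fun y : ℝ => q (y - τ) * cexp (I * (u * y : ℝ))) ∧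
    ∫ y : ℝ, q (y - τ) * cexp (I * (u * y : ℝ)) = (P u : ℂ) * cexp (I * (τ * u : ℝ)) := by
  have hq : Integrable q := Pool.Agent.Q97.UM.W.q_int0 hG
  have hcont : Continuous (fun y : ℝ => cexp (I * (u * y : ℝ))) := by fun_prop
  constructor
  · refine (hq.comp_sub_right τ).mul_bdd (c := 1) hcont.aestronglyMeasurable ?_
    refine Eventually.of_forall fun y => ?_
    rw [mul_comm, Complex.norm_exp_ofReal_mul_I]
  · have h1 : ∀ y : ℝ, q (y - τ) * cexp (I * (u * y : ℝ)) =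
        (fun x : ℝ => q x * cexp (I * (u * x : ℝ)) * cexp (I * (τ * u : ℝ))) (y - τ) := by
      intro y
      simp only
      rw [mul_assoc, ← Complex.exp_add]
      congr 2
      push_cast
      ring
    simp only [h1]
    rw [integral_sub_right_eq_self (fun x : ℝ => q x * cexp (I * (u * x : ℝ)) * cexp (I * (τ * u : ℝ))) τ,
      integral_mul_const, ← hG.rep u]

lemma win_cos {P : ℝ → ℝ} {q : ℝ → ℂ} {c C : ℝ} (hG : Win P q c C) (τ : ℝ) :
    ∃ q' : ℝ → ℂ, Win (wc P τ) q' c (C * Real.exp (c * |τ| ^ (2 / 3 : ℝ))) := by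
  refine ⟨fun y => (q (y - τ) + q (y - -τ)) / 2, hG.cpos, ?_, ?_, ?_, ?_⟩
  · intro u hu
    unfold wc
    rw [hG.supp u hu, zero_mul]
  · have := hG.cont
    fun_prop
  · intro y
    have h1 := dec_shift hG.cpos hG.dec τ y
    have h2 := dec_shift hG.cpos hG.dec (-τ) y
    rw [abs_neg] at h2
    rw [norm_div, Complex.norm_ofNat]
    have := norm_add_le (q (y - τ)) (q (y - -τ))
    linarith
  · intro u
    obtain ⟨i1, e1⟩ := mod_int hG τ u
    obtain ⟨i2, e2⟩ := mod_int hG (-τ) u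
    have e3 : ∀ y : ℝ, (q (y - τ) + q (y - -τ)) / 2 * cexp (I * (u * y : ℝ)) =
        (q (y - τ) * cexp (I * (u * y : ℝ)) + q (y - -τ) * cexp (I * (u * y : ℝ))) / 2 := by
      intro y; ring
    simp only [e3]
    rw [integral_div, integral_add i1 i2, e1, e2]
    unfold wc
    push_cast
    rw [Complex.cos]
    have e4 : I * (-(τ : ℂ) * u) = -(τ * u) * I := by ring
    have e5 : I * ((τ : ℂ) * u) = τ * u * I := by ring
    rw [e4, e5]
    ring

lemma win_sin {P : ℝ → ℝ} {q : ℝ → ℂ} {c C : ℝ} (hG : Win P q c C) (τ : ℝ) :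
    ∃ q' : ℝ → ℂ, Win (ws P τ) q' c (C * Real.exp (c * |τ| ^ (2 / 3 : ℝ))) := by
  refine ⟨fun y => (q (y - -τ) - q (y - τ)) * I / 2, hG.cpos, ?_, ?_, ?_, ?_⟩
  · intro u hu
    unfold ws
    rw [hG.supp u hu, zero_mul]
  · have := hG.cont
    fun_prop
  · intro y
    have h1 := dec_shift hG.cpos hG.dec τ y
    have h2 := dec_shift hG.cpos hG.dec (-τ) y
    rw [abs_neg] at h2
    rw [norm_div, norm_mul, norm_I, mul_one, Complex.norm_ofNat]
    have := norm_sub_le (q (y - -τ)) (q (y - τ))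
    linarith
  · intro u
    obtain ⟨i1, e1⟩ := mod_int hG τ u
    obtain ⟨i2, e2⟩ := mod_int hG (-τ) u
    have e3 : ∀ y : ℝ, (q (y - -τ) - q (y - τ)) * I / 2 * cexp (I * (u * y : ℝ)) =
        (q (y - -τ) * cexp (I * (u * y : ℝ)) - q (y - τ) * cexp (I * (u * y : ℝ))) * (I / 2) := by
      intro y; ring
    simp only [e3]
    rw [integral_mul_const, integral_sub i2 i1, e1, e2]
    unfold ws
    push_cast
    rw [Complex.sin]
    have e4 : I * (-(τ : ℂ) * u) = -(τ * u) * I := by ring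
    have e5 : I * ((τ : ℂ) * u) = τ * u * I := by ring
    rw [e4, e5]
    ring

/-- all the data of the mollifier -/
theorem windows : ∃ (P q : ℝ → ℝ) (c C D : ℝ), Gev P q c C ∧ 0 ≤ D ∧ ∀ κ τ : ℝ,
    Moll (wc (til P κ) τ) (D * Real.exp (4 * |κ|) * Real.exp (4 * (c * |τ| ^ (2 / 3 : ℝ)))) ∧
    Moll (ws (til P κ) τ) (D * Real.exp (4 * |κ|) * Real.exp (4 * (c * |τ| ^ (2 / 3 : ℝ)))) := by
  obtain ⟨P, q, c₀, C₀, hG, hW⟩ := Pool.Agent.Q175.UM.t_GEV2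
  obtain ⟨D, hD, hM⟩ := b_MOLL2 c₀ hG.cpos
  refine ⟨P, q, c₀, C₀, D * C₀ ^ 4, hG, by positivity, ?_⟩
  intro κ τ
  obtain ⟨qκ, hq⟩ := hW κ
  have e : D * (C₀ * Real.exp |κ| * Real.exp (c₀ * |τ| ^ (2 / 3 : ℝ))) ^ 4 =
      D * C₀ ^ 4 * Real.exp (4 * |κ|) * Real.exp (4 * (c₀ * |τ| ^ (2 / 3 : ℝ))) := by
    rw [mul_pow, mul_pow, ← Real.exp_nat_mul, ← Real.exp_nat_mul]
    push_cast
    ring
  obtain ⟨q1, h1⟩ := win_cos hq τ
  obtain ⟨q2, h2⟩ := win_sin hq τ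
  have m1 := hM _ _ _ h1
  have m2 := hM _ _ _ h2
  rw [e] at m1 m2
  exact ⟨m1, m2⟩

end

end Pool.Agent.Helper75.Xi
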