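import Pool.Agent.Helper75.Xi.Ant1

set_option autoImplicit false
set_option maxHeartbeats 1000000

open Filter Topology MeasureTheory Complex
open Pool.Agent.Q97.UM
open Pool.Agent.Q175.UM (smallK largeK et_til_norm et_til_supp eta_til_norm)
open Pool.Agent.Q84.UM (zt_cont zt_norm dp_cont N2_nonneg)

namespace Pool.Agent.Helper75.Xi

noncomputable section

/-- twisted second moment -/
def TSs (ϑ C T₁ : ℝ) : Prop := ∀ T' : ℝ, T₁ ≤ T' → ∀ M : ℕ, (M : ℝ) ≤ T' ^ ϑ → ∀ (c : ℕ → ℂ) (lam : ℝ),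
  (∀ n, ‖c n‖ ≤ lam) →
  ∫ t in (T' / 2)..(3 * T'), ‖riemannZeta (1 / 2 + t * I)‖ ^ 2 *
    ‖∑ n ∈ Finset.Icc 1 M, c n * (n : ℂ) ^ (-(1 / 2 + t * I))‖ ^ 2 ≤
  C * T' * (Real.log T' * (QF M c).re + T' ^ (-ϑ) * lam ^ 2)

lemma ts_small : ∃ ϑ₀ C T₁ : ℝ, 0 < ϑ₀ ∧ ϑ₀ ≤ 1 / 4 ∧ 1 ≤ C ∧
    ∀ ϑ, 0 < ϑ → ϑ ≤ ϑ₀ → TSs ϑ C T₁ := by
  obtain ⟨ϑ₀, C, hϑ, hϑ4, hC, hev⟩ := b_TS
  obtain ⟨T₁, hT₁⟩ := eventually_atTop.1 hev
  refine ⟨ϑ₀, C, max T₁ 1, hϑ, hϑ4, hC, ?_⟩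
  intro ϑ h1 h2 T' hT' M hM c lam hc
  have hT1 : 1 ≤ T' := (le_max_right _ _).trans hT'
  have h3 := hT₁ T' ((le_max_left _ _).trans hT') M
    (hM.trans (Real.rpow_le_rpow_of_exponent_le hT1 h2)) c lam hc
  refine h3.trans ?_
  have h4 : T' ^ (-ϑ₀) ≤ T' ^ (-ϑ) := Real.rpow_le_rpow_of_exponent_le hT1 (by linarith)
  gcongr

/-- length of the mollifier -/
def YY (ϑ T : ℝ) : ℕ := ⌊T ^ (ϑ / 20)⌋₊

lemma sizes {ϑ : ℝ} (hϑ : 0 < ϑ) (hϑ4 : ϑ ≤ 1 / 4) : ∀ᶠ T : ℝ in atTop, 64 ≤ T ∧ 2 ≤ YY ϑ T ∧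
    ϑ / 40 * Real.log T ≤ Real.log (YY ϑ T) ∧ Real.log (YY ϑ T) ≤ ϑ / 20 * Real.log T ∧
    (YY ϑ T : ℝ) ^ 5 ≤ (T / 4) ^ ϑ ∧ (YY ϑ T : ℝ) ^ 4 ≤ T / 4 ∧ (YY ϑ T : ℝ) ≤ T ∧
    ∀ N : ℕ, (N : ℝ) ≤ T ^ (ϑ / 20) → N ≤ YY ϑ T ∧ (N : ℝ) ≤ (T / 4) ^ (1 / 4 : ℝ) := by
  have hinf : Tendsto (fun T : ℝ => T ^ (ϑ / 20)) atTop atTop := tendsto_rpow_atTop (by positivity)
  filter_upwards [eventually_ge_atTop 64, hinf.eventually_ge_atTop 4] with T hT2 hT3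
  have hT0 : 0 < T := by linarith
  have h4ϑ : (4 : ℝ) ^ ϑ ≤ T ^ (ϑ / 2) := by
    have h1 : (4 : ℝ) ≤ T ^ (1 / 2 : ℝ) := by
      have h2 : (4 : ℝ) = (16 : ℝ) ^ (1 / 2 : ℝ) := by
        rw [← Real.sqrt_eq_rpow, show (16 : ℝ) = 4 ^ 2 by norm_num,
          Real.sqrt_sq (by norm_num)]
      rw [h2]
      exact Real.rpow_le_rpow (by norm_num) (by linarith) (by norm_num)
    calc (4 : ℝ) ^ ϑ ≤ (T ^ (1 / 2 : ℝ)) ^ ϑ := Real.rpow_le_rpow (by norm_num) h1 hϑ.le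
      _ = T ^ (ϑ / 2) := by rw [← Real.rpow_mul hT0.le]; congr 1; ring
  obtain ⟨Y, hYdef⟩ : ∃ Y : ℕ, Y = YY ϑ T := ⟨_, rfl⟩
  rw [← hYdef]
  have hYd : Y = ⌊T ^ (ϑ / 20)⌋₊ := hYdef
  have hY2 : (Y : ℝ) ≤ T ^ (ϑ / 20) := by rw [hYd]; exact Nat.floor_le (by positivity)
  have hY : 2 ≤ Y := by rw [hYd]; exact Nat.le_floor (by push_cast; linarith)
  have hY0 : (0 : ℝ) < Y := by exact_mod_cast (by omega : 0 < Y)
  have hY3 : ϑ / 40 * Real.log T ≤ Real.log Y := by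
    have h1 : Real.sqrt (T ^ (ϑ / 20)) ≤ (Y : ℕ) := by
      have h2 : T ^ (ϑ / 20) < (Y : ℕ) + 1 := by rw [hYd]; exact Nat.lt_floor_add_one _
      have h3 : Real.sqrt (T ^ (ϑ / 20)) ≤ T ^ (ϑ / 20) / 2 := by
        rw [Real.sqrt_le_left (by linarith)]
        nlinarith
      linarith
    have h2 : Real.log (Real.sqrt (T ^ (ϑ / 20))) = ϑ / 40 * Real.log T := by
      rw [Real.log_sqrt (by linarith), Real.log_rpow hT0]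
      ring
    rw [← h2]
    exact Real.log_le_log (Real.sqrt_pos.2 (by linarith)) h1
  have hY6 : Real.log Y ≤ ϑ / 20 * Real.log T := by
    rw [← Real.log_rpow hT0]
    exact Real.log_le_log hY0 hY2
  have hhalf : T ^ (1 / 2 : ℝ) ≤ T / 4 := by
    rw [← Real.sqrt_eq_rpow, Real.sqrt_le_left (by linarith)]
    nlinarith
  have hY5 : (Y : ℝ) ^ 5 ≤ (T / 4) ^ ϑ := by
    rw [Real.div_rpow hT0.le (by norm_num), le_div_iff₀ (by positivity)]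
    calc (Y : ℝ) ^ 5 * 4 ^ ϑ ≤ (T ^ (ϑ / 20)) ^ 5 * T ^ (ϑ / 2) :=
          mul_le_mul (pow_le_pow_left₀ (Nat.cast_nonneg Y) hY2 5) h4ϑ (by positivity) (by positivity)
      _ = T ^ (ϑ / 20 * 5 + ϑ / 2) := by
          rw [← Real.rpow_natCast, ← Real.rpow_mul hT0.le, ← Real.rpow_add hT0]
          norm_num
      _ ≤ T ^ ϑ := Real.rpow_le_rpow_of_exponent_le (by linarith) (by linarith)
  have hY4 : (Y : ℝ) ^ 4 ≤ T / 4 := by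
    calc (Y : ℝ) ^ 4 ≤ (T ^ (ϑ / 20)) ^ 4 := pow_le_pow_left₀ (Nat.cast_nonneg Y) hY2 4
      _ = T ^ (ϑ / 20 * 4) := by rw [← Real.rpow_natCast, ← Real.rpow_mul hT0.le]; norm_num
      _ ≤ T ^ (1 / 2 : ℝ) := Real.rpow_le_rpow_of_exponent_le (by linarith) (by linarith)
      _ ≤ T / 4 := hhalf
  refine ⟨hT2, hY, hY3, hY6, hY5, hY4, ?_, ?_⟩
  · calc (Y : ℝ) ≤ T ^ (ϑ / 20) := hY2
      _ ≤ T ^ (1 : ℝ) := Real.rpow_le_rpow_of_exponent_le (by linarith) (by linarith)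
      _ = T := Real.rpow_one T
  · intro N hN
    refine ⟨by rw [hYd]; exact Nat.le_floor hN, ?_⟩
    calc (N : ℝ) ≤ T ^ (ϑ / 20) := hN
      _ ≤ T ^ (1 / 2 * (1 / 4) : ℝ) := Real.rpow_le_rpow_of_exponent_le (by linarith) (by linarith)
      _ = (T ^ (1 / 2 : ℝ)) ^ (1 / 4 : ℝ) := by rw [Real.rpow_mul hT0.le]
      _ ≤ (T / 4) ^ (1 / 4 : ℝ) := Real.rpow_le_rpow (by positivity) hhalf (by norm_num)

/-- the second moment for all tilts and all small exponents -/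
theorem r2k {Pw q : ℝ → ℝ} {c₀ C₀ D ϑ C T₁ : ℝ} (hG : Gev Pw q c₀ C₀) (hD : 0 ≤ D)
    (hM : ∀ κ : ℝ, Moll (til Pw κ) (D * Real.exp (4 * |κ|))) (hϑ : 0 < ϑ) (hϑ4 : ϑ ≤ 1 / 4)
    (hC : 1 ≤ C) (hTS : TSs ϑ C T₁) : R2K Pw (ϑ / 20) (max (C * 2 * (80 * D / ϑ + 1)) (16 * 180 ^ 2 * 33 ^ 4)) := by
  have hA : S_AL := Pool.Agent.Q208.UM.t_AL
  unfold R2K
  filter_upwards [eventually_ge_atTop (4 * T₁), sizes hϑ hϑ4] with T hT1 hsz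
  obtain ⟨hT2, hY, hY3, hY6, hY5, hY4, hYT, hNs⟩ := hsz
  intro N hN b κ y
  have hT0 : 0 < T := by linarith
  obtain ⟨Y, hYdef⟩ : ∃ Y : ℕ, Y = YY ϑ T := ⟨_, rfl⟩
  have hYd : Y = ⌊T ^ (ϑ / 20)⌋₊ := hYdef
  rw [← hYd]
  rw [← hYdef] at hY hY3 hY6 hY5 hY4 hYT hNs
  obtain ⟨hNY, hN4⟩ := hNs N hN
  -- reduction to supported coefficients
  obtain ⟨b₀, hb₀⟩ : ∃ b₀ : ℕ → ℂ, b₀ = fun n => if 1 ≤ n ∧ n ≤ N then b n else 0 := ⟨_, rfl⟩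
  have hb₀s : ∀ n, b₀ n ≠ 0 → 1 ≤ n ∧ n ≤ N := by
    intro n hn
    by_contra h
    apply hn
    rw [hb₀]
    simp only [if_neg h]
  have hb₀e : ∀ n ∈ Finset.Icc 1 N, b₀ n = b n := by
    intro n hn
    rw [hb₀]
    simp only [if_pos (Finset.mem_Icc.1 hn)]
  have hdp : ∀ t, dp N b t = dp N b₀ t := by
    intro t
    unfold dp
    refine Finset.sum_congr rfl fun n hn => ?_
    rw [hb₀e n hn]
  have hN2 : N2 N b = N2 N b₀ := by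
    unfold N2
    refine Finset.sum_congr rfl fun n hn => ?_
    rw [hb₀e n hn]
  have hn0 := N2_nonneg N b₀
  simp only [hdp, hN2]
  have he1 : ∀ n, ‖et (til Pw κ) Y n‖ ≤ Real.exp |κ| := fun n => et_til_norm hG hA κ Y n
  have he2 : ∀ n, Y < n → et (til Pw κ) Y n = 0 := fun n hn => et_til_supp hG κ hY n hn
  have hexp4 : Real.exp |κ| ^ 4 = Real.exp (4 * |κ|) := by
    rw [← Real.exp_nat_mul]; norm_num
  have hmax1 : C * 2 * (80 * D / ϑ + 1) ≤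
      max (C * 2 * (80 * D / ϑ + 1)) (16 * 180 ^ 2 * 33 ^ 4) := le_max_left _ _
  have hmax2 : (16 * 180 ^ 2 * 33 ^ 4 : ℝ) ≤
      max (C * 2 * (80 * D / ϑ + 1)) (16 * 180 ^ 2 * 33 ^ 4) := le_max_right _ _
  have hmax0 : 0 ≤ max (C * 2 * (80 * D / ϑ + 1)) (16 * 180 ^ 2 * 33 ^ 4) := by positivity
  generalize max (C * 2 * (80 * D / ϑ + 1)) (16 * 180 ^ 2 * 33 ^ 4) = A at hmax1 hmax2 hmax0
  have hTN : 0 ≤ Real.exp (4 * |κ|) * T * N2 N b₀ := by positivity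
  have hsm : |y| ≤ T / 8 → ∫ t in (T / 4)..(4 * T), ‖dp N b₀ t‖ ^ 2 *
      (‖zt (t + y)‖ * ‖eta (til Pw κ) Y (t + y)‖ ^ 2) ^ 2 ≤
      A * Real.exp (4 * |κ|) * T * N2 N b₀ := by
    intro hy
    have h1 := smallK (β := Real.exp |κ|) (hM κ) (by positivity) hC hϑ hT2 (Real.exp_pos _).le
      (fun T' hT' => hTS T' (by linarith)) hY hY5 hY3 he1 he2 hNY b₀ hb₀s y hy
    refine h1.trans ?_
    rw [hexp4]
    calc C * 2 * (80 * (D * Real.exp (4 * |κ|)) / ϑ + Real.exp (4 * |κ|)) * T * N2 N b₀ =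
          (C * 2 * (80 * D / ϑ + 1)) * (Real.exp (4 * |κ|) * T * N2 N b₀) := by ring
      _ ≤ A * (Real.exp (4 * |κ|) * T * N2 N b₀) := mul_le_mul_of_nonneg_right hmax1 hTN
      _ = A * Real.exp (4 * |κ|) * T * N2 N b₀ := by ring
  refine ⟨hsm, ?_⟩
  have h6 : (1 : ℝ) ≤ (1 + |y|) ^ 6 := one_le_pow₀ (by linarith [abs_nonneg y])
  rcases le_or_gt |y| (T / 8) with hy | hy
  · refine (hsm hy).trans ?_
    calc A * Real.exp (4 * |κ|) * T * N2 N b₀ = (A * (Real.exp (4 * |κ|) * T * N2 N b₀)) * 1 := by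
          ring
      _ ≤ (A * (Real.exp (4 * |κ|) * T * N2 N b₀)) * (1 + |y|) ^ 6 :=
          mul_le_mul_of_nonneg_left h6 (mul_nonneg hmax0 hTN)
      _ = A * Real.exp (4 * |κ|) * T * (1 + |y|) ^ 6 * N2 N b₀ := by ring
  · have h1 := largeK (W := til Pw κ) (β := Real.exp |κ|) hT2 hY4 hN4
      (eta_til_norm hG hA κ Y) b₀ y hy
    refine h1.trans ?_
    rw [hexp4]
    calc 16 * 180 ^ 2 * 33 ^ 4 * Real.exp (4 * |κ|) * T * (1 + |y|) ^ 6 * N2 N b₀ =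
          (16 * 180 ^ 2 * 33 ^ 4) * ((Real.exp (4 * |κ|) * T * N2 N b₀) * (1 + |y|) ^ 6) := by ring
      _ ≤ A * ((Real.exp (4 * |κ|) * T * N2 N b₀) * (1 + |y|) ^ 6) :=
          mul_le_mul_of_nonneg_right hmax2 (by positivity)
      _ = A * Real.exp (4 * |κ|) * T * (1 + |y|) ^ 6 * N2 N b₀ := by ring

/-- the constant polynomial -/
def b1 (n : ℕ) : ℂ := if n = 1 then 1 else 0

lemma b1_supp (n : ℕ) (h : b1 n ≠ 0) : 1 ≤ n ∧ n ≤ 1 := by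
  unfold b1 at h
  have : n = 1 := by
    by_contra hne
    rw [if_neg hne] at h
    exact h rfl
  omega

lemma dp_b1 (t : ℝ) : dp 1 b1 t = 1 := by
  unfold dp b1
  simp

lemma N2_b1 : N2 1 b1 = 1 := by
  unfold N2 b1
  simp

/-- moments on the critical line for the modulated windows -/
theorem mod_line {W : ℝ → ℝ} {C₁ ϑ C T₁ T β : ℝ} (hW : Moll W C₁) (hC₁ : 0 ≤ C₁) (hC : 1 ≤ C)
    (hϑ : 0 < ϑ) (hTS : TSs ϑ C T₁) (hT1 : 4 * T₁ ≤ T) (hT2 : 64 ≤ T) (hβ : 0 ≤ β) {Y : ℕ}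
    (hY : 2 ≤ Y) (hY5 : (Y : ℝ) ^ 5 ≤ (T / 4) ^ ϑ) (hY3 : ϑ / 40 * Real.log T ≤ Real.log Y)
    (he1 : ∀ n, ‖et W Y n‖ ≤ β) (he2 : ∀ n, Y < n → et W Y n = 0) {y : ℝ} (hy : |y| ≤ T / 8) :
    ∫ t in (T / 4)..(4 * T), (‖zt (t + y)‖ * ‖eta W Y (t + y)‖ ^ 2) ^ 2 ≤
      C * 2 * (80 * C₁ / ϑ + β ^ 4) * T := by
  have h := smallK (β := β) hW hC₁ hC hϑ hT2 hβ (fun T' hT' => hTS T' (by linarith)) hY hY5 hY3 he1
    he2 (N := 1) (by omega) b1 b1_supp y hy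
  simp only [dp_b1, N2_b1, norm_one, one_pow, one_mul, mul_one] at h
  exact h

end

end Pool.Agent.Helper75.Xi
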