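import Pool.Agent.Helper75.Xi.Ant2

set_option autoImplicit false
set_option maxHeartbeats 1000000

open Filter Topology MeasureTheory Complex
open Pool.Agent.Q97.UM
open Pool.Agent.Q175.UM (et_til_norm et_til_supp)
open Pool.Agent.Q84.UM (N2_nonneg)
open Pool.Agent.Q16.UM (Gz Gz_diff Gz_ne Gz_bd dq_diff dq_triv dq_three zeta_three pow_kill)

namespace Pool.Agent.Helper75.Xi

noncomputable section

lemma dq_til (P : ℝ → ℝ) {Y : ℕ} (hY : 2 ≤ Y) (ω : ℝ) (s : ℂ) :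
    dq Y (et P Y) (s + ω) = dq Y (et (til P (-ω * Real.log Y)) Y) s := by
  unfold dq
  refine Finset.sum_congr rfl fun n hn => ?_
  have hn1 := (Finset.mem_Icc.1 hn).1
  have hn0 : (0 : ℝ) < n := by exact_mod_cast hn1
  have hnc : (n : ℂ) ≠ 0 := by exact_mod_cast (by omega : n ≠ 0)
  have hlY : 0 < Real.log Y := Real.log_pos (by exact_mod_cast (by omega : 1 < Y))
  have e1 : (n : ℂ) ^ (-(s + ω)) = (n : ℂ) ^ (-s) * ((Real.exp (-ω * Real.log n) : ℝ) : ℂ) := by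
    rw [show -(s + (ω : ℂ)) = -s + ((-ω : ℝ) : ℂ) by push_cast; ring, cpow_add _ _ hnc]
    congr 1
    have : Real.exp (-ω * Real.log n) = (n : ℝ) ^ (-ω) := by
      rw [Real.rpow_def_of_pos hn0, mul_comm]
    rw [this, ofReal_cpow hn0.le]
    push_cast
    rfl
  have e2 : Real.exp (-ω * Real.log n) =
      Real.exp (-ω * Real.log Y * (Real.log n / Real.log Y)) := by
    congr 1
    field_simp
  rw [e1, e2]
  unfold et til
  push_cast
  ring

lemma dq_mod (P : ℝ → ℝ) {Y : ℕ} (hY : 2 ≤ Y) (d t : ℝ) :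
    dq Y (et P Y) (1 / 2 + (t + d : ℝ) * I) = dp Y (et (wc P (d * Real.log Y)) Y) t -
      I * dp Y (et (ws P (d * Real.log Y)) Y) t := by
  unfold dq dp
  rw [Finset.mul_sum, ← Finset.sum_sub_distrib]
  refine Finset.sum_congr rfl fun n hn => ?_
  have hn1 := (Finset.mem_Icc.1 hn).1
  have hn0 : (0 : ℝ) < n := by exact_mod_cast hn1
  have hnc : (n : ℂ) ≠ 0 := by exact_mod_cast (by omega : n ≠ 0)
  have hlY : 0 < Real.log Y := Real.log_pos (by exact_mod_cast (by omega : 1 < Y))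
  have e1 : (n : ℂ) ^ (-(1 / 2 + (t + d : ℝ) * I)) = (n : ℂ) ^ (-(1 / 2 + t * I)) *
      (((Real.cos (d * Real.log n) : ℝ) : ℂ) - I * ((Real.sin (d * Real.log n) : ℝ) : ℂ)) := by
    rw [show (-(1 / 2 + (t + d : ℝ) * I) : ℂ) = -(1 / 2 + t * I) + -(d * I) by push_cast; ring,
      cpow_add _ _ hnc]
    congr 1
    rw [cpow_def_of_ne_zero hnc, ← natCast_log]
    rw [show ((Real.log n : ℝ) : ℂ) * -(d * I) = ((-(d * Real.log n) : ℝ) : ℂ) * I by push_cast; ring,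
      exp_mul_I, ← ofReal_cos, ← ofReal_sin, Real.cos_neg, Real.sin_neg]
    push_cast
    ring
  have e2 : d * Real.log n = d * Real.log Y * (Real.log n / Real.log Y) := by field_simp
  rw [e1, e2]
  unfold et wc ws
  push_cast
  ring

lemma four_bd (a b : ℂ) : ‖a - I * b‖ ^ 4 ≤ 8 * (‖a‖ ^ 4 + ‖b‖ ^ 4) := by
  have h1 : ‖a - I * b‖ ≤ ‖a‖ + ‖b‖ := by
    refine (norm_sub_le _ _).trans ?_
    rw [norm_mul, norm_I, one_mul]
  have h2 := pow_le_pow_left₀ (norm_nonneg _) h1 4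
  have ha := norm_nonneg a
  have hb := norm_nonneg b
  nlinarith [sq_nonneg (‖a‖ - ‖b‖), sq_nonneg (‖a‖ ^ 2 - ‖b‖ ^ 2), mul_nonneg ha hb]

/-- the exponential cost of a shift -/
def EE (c ω d ℓ : ℝ) : ℝ := Real.exp (4 * (|ω| * ℓ) + 4 * (c * (|d| * ℓ) ^ (2 / 3 : ℝ)))

lemma one_le_EE {c ω d ℓ : ℝ} (hc : 0 ≤ c) (hℓ : 0 ≤ ℓ) : 1 ≤ EE c ω d ℓ := by
  unfold EE
  apply Real.one_le_exp
  positivity

theorem line2 {P q : ℝ → ℝ} {c C₀ D ϑ C T₁ : ℝ} (hG : Gev P q c C₀) (hD : 0 ≤ D)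
    (hM : ∀ κ τ : ℝ, Moll (wc (til P κ) τ) (D * Real.exp (4 * |κ|) * Real.exp (4 * (c * |τ| ^ (2 / 3 : ℝ)))) ∧
      Moll (ws (til P κ) τ) (D * Real.exp (4 * |κ|) * Real.exp (4 * (c * |τ| ^ (2 / 3 : ℝ)))))
    (hϑ : 0 < ϑ) (hϑ4 : ϑ ≤ 1 / 4) (hC : 1 ≤ C) (hTS : TSs ϑ C T₁) :
    ∀ᶠ T : ℝ in atTop, ∀ ω d y : ℝ, |y| ≤ T / 8 →
      ∫ t in (T / 4)..(4 * T), ‖zt (t + y)‖ ^ 2 *
        ‖dq (YY ϑ T) (et P (YY ϑ T)) (1 / 2 + ω + (t + y + d : ℝ) * I)‖ ^ 4 ≤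
      32 * C * (80 * D / ϑ + 1) * T * EE c ω d (Real.log (YY ϑ T)) := by
  have hA : S_AL := Pool.Agent.Q208.UM.t_AL
  filter_upwards [eventually_ge_atTop (4 * T₁), sizes hϑ hϑ4] with T hT1 hsz
  obtain ⟨hT2, hY, hY3, hY6, hY5, hY4, hYT, hNs⟩ := hsz
  intro ω d y hy
  have hT0 : 0 < T := by linarith
  obtain ⟨Y, hYdef⟩ : ∃ Y : ℕ, Y = YY ϑ T := ⟨_, rfl⟩
  rw [← hYdef] at hY hY3 hY6 hY5 hY4 hYT hNs ⊢
  have hlY : 0 < Real.log Y := Real.log_pos (by exact_mod_cast (by omega : 1 < Y))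
  set κ : ℝ := -ω * Real.log Y with hκ
  set τ : ℝ := d * Real.log Y with hτ
  have hκa : |κ| = |ω| * Real.log Y := by rw [hκ, abs_mul, abs_neg, abs_of_pos hlY]
  have hτa : |τ| = |d| * Real.log Y := by rw [hτ, abs_mul, abs_of_pos hlY]
  set E := EE c ω d (Real.log Y) with hE
  have hEe : Real.exp (4 * |κ|) * Real.exp (4 * (c * |τ| ^ (2 / 3 : ℝ))) = E := by
    rw [hE, EE, ← Real.exp_add, hκa, hτa]
  have hE1 : Real.exp |κ| ^ 4 ≤ E := by
    rw [← hEe, ← Real.exp_nat_mul]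
    have : 1 ≤ Real.exp (4 * (c * |τ| ^ (2 / 3 : ℝ))) := by
      apply Real.one_le_exp
      have := hG.cpos
      positivity
    push_cast
    nlinarith [Real.exp_pos (4 * |κ|)]
  have hwb : ∀ (n : ℕ), ‖et (wc (til P κ) τ) Y n‖ ≤ Real.exp |κ| ∧
      ‖et (ws (til P κ) τ) Y n‖ ≤ Real.exp |κ| := by
    intro n
    have h1 := et_til_norm hG hA κ Y n
    have e1 : et (wc (til P κ) τ) Y n = et (til P κ) Y n * ((Real.cos (τ * (Real.log n / Real.log Y)) : ℝ) : ℂ) := by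
      unfold et wc; push_cast; ring
    have e2 : et (ws (til P κ) τ) Y n = et (til P κ) Y n * ((Real.sin (τ * (Real.log n / Real.log Y)) : ℝ) : ℂ) := by
      unfold et ws; push_cast; ring
    rw [e1, e2, norm_mul, norm_mul, norm_real, norm_real, Real.norm_eq_abs, Real.norm_eq_abs]
    have c1 := Real.abs_cos_le_one (τ * (Real.log n / Real.log Y))
    have c2 := Real.abs_sin_le_one (τ * (Real.log n / Real.log Y))
    have h0 := norm_nonneg (et (til P κ) Y n)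
    constructor <;> nlinarith
  have hws : ∀ (n : ℕ), Y < n → et (wc (til P κ) τ) Y n = 0 ∧ et (ws (til P κ) τ) Y n = 0 := by
    intro n hn
    have h1 := et_til_supp hG κ hY n hn
    have e1 : et (wc (til P κ) τ) Y n = et (til P κ) Y n * ((Real.cos (τ * (Real.log n / Real.log Y)) : ℝ) : ℂ) := by
      unfold et wc; push_cast; ring
    have e2 : et (ws (til P κ) τ) Y n = et (til P κ) Y n * ((Real.sin (τ * (Real.log n / Real.log Y)) : ℝ) : ℂ) := by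
      unfold et ws; push_cast; ring
    rw [e1, e2, h1, zero_mul, zero_mul]
    exact ⟨rfl, rfl⟩
  have hc0 := hG.cpos
  have m1 := mod_line (hM κ τ).1 (by positivity) hC hϑ hTS hT1 hT2 (Real.exp_pos |κ|).le hY hY5 hY3
    (fun n => (hwb n).1) (fun n hn => (hws n hn).1) hy
  have m2 := mod_line (hM κ τ).2 (by positivity) hC hϑ hTS hT1 hT2 (Real.exp_pos |κ|).le hY hY5 hY3
    (fun n => (hwb n).2) (fun n hn => (hws n hn).2) hy
  have hK : C * 2 * (80 * (D * Real.exp (4 * |κ|) * Real.exp (4 * (c * |τ| ^ (2 / 3 : ℝ)))) / ϑ +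
      Real.exp |κ| ^ 4) * T ≤ 2 * C * (80 * D / ϑ + 1) * T * E := by
    have e1 : D * Real.exp (4 * |κ|) * Real.exp (4 * (c * |τ| ^ (2 / 3 : ℝ))) = D * E := by
      rw [← hEe]; ring
    rw [e1]
    calc C * 2 * (80 * (D * E) / ϑ + Real.exp |κ| ^ 4) * T ≤ C * 2 * (80 * (D * E) / ϑ + E) * T := by
          gcongr
      _ = _ := by ring
  have k1 := m1.trans hK
  have k2 := m2.trans hK
  have hcont : ∀ W : ℝ → ℝ, Continuous fun t : ℝ => (‖zt (t + y)‖ * ‖eta W Y (t + y)‖ ^ 2) ^ 2 := by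
    intro W
    have h1 := Pool.Agent.Q84.UM.zt_cont
    have h2 : Continuous (eta W Y) := Pool.Agent.Q84.UM.dp_cont Y (et W Y)
    fun_prop
  have hcont2 : Continuous fun t : ℝ => ‖zt (t + y)‖ ^ 2 *
        ‖dq Y (et P Y) (1 / 2 + ω + (t + y + d : ℝ) * I)‖ ^ 4 := by
    have h1 := Pool.Agent.Q84.UM.zt_cont
    have h2 : Continuous (dq Y (et P Y)) := (dq_diff Y (et P Y)).continuous
    fun_prop
  have hpt : ∀ t ∈ Set.Icc (T / 4) (4 * T), ‖zt (t + y)‖ ^ 2 *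
        ‖dq Y (et P Y) (1 / 2 + ω + (t + y + d : ℝ) * I)‖ ^ 4 ≤
      8 * ((‖zt (t + y)‖ * ‖eta (wc (til P κ) τ) Y (t + y)‖ ^ 2) ^ 2 +
        (‖zt (t + y)‖ * ‖eta (ws (til P κ) τ) Y (t + y)‖ ^ 2) ^ 2) := by
    intro t _
    have e1 : dq Y (et P Y) (1 / 2 + ω + (t + y + d : ℝ) * I) =
        eta (wc (til P κ) τ) Y (t + y) - I * eta (ws (til P κ) τ) Y (t + y) := by
      have e2 : (1 / 2 + ω + (t + y + d : ℝ) * I : ℂ) = (1 / 2 + (t + y + d : ℝ) * I) + ω := by ring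
      rw [e2, dq_til P hY ω, dq_mod _ hY d (t + y)]
      rfl
    rw [e1]
    have h1 := four_bd (eta (wc (til P κ) τ) Y (t + y)) (eta (ws (til P κ) τ) Y (t + y))
    have h2 := mul_le_mul_of_nonneg_left h1 (sq_nonneg ‖zt (t + y)‖)
    calc _ ≤ _ := h2
      _ = _ := by ring
  have i0 : ∀ W : ℝ → ℝ, IntervalIntegrable
      (fun t : ℝ => (‖zt (t + y)‖ * ‖eta W Y (t + y)‖ ^ 2) ^ 2) volume (T / 4) (4 * T) :=
    fun W => (hcont W).intervalIntegrable _ _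
  have i2 : IntervalIntegrable (fun t : ℝ => ‖zt (t + y)‖ ^ 2 *
        ‖dq Y (et P Y) (1 / 2 + ω + (t + y + d : ℝ) * I)‖ ^ 4) volume (T / 4) (4 * T) :=
    hcont2.intervalIntegrable _ _
  have hint := intervalIntegral.integral_mono_on (by linarith : T / 4 ≤ 4 * T)
    i2 (((i0 (wc (til P κ) τ)).add (i0 (ws (til P κ) τ))).const_mul 8) hpt
  refine hint.trans ?_
  rw [intervalIntegral.integral_const_mul, intervalIntegral.integral_add (i0 _) (i0 _)]
  linarith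

/-- the second moment in the strip -/
theorem strip {P q : ℝ → ℝ} {c C₀ D ϑ C T₁ : ℝ} (hG : Gev P q c C₀) (hD : 0 ≤ D)
    (hM : ∀ κ τ : ℝ, Moll (wc (til P κ) τ) (D * Real.exp (4 * |κ|) * Real.exp (4 * (c * |τ| ^ (2 / 3 : ℝ)))) ∧
      Moll (ws (til P κ) τ) (D * Real.exp (4 * |κ|) * Real.exp (4 * (c * |τ| ^ (2 / 3 : ℝ)))))
    (hϑ : 0 < ϑ) (hϑ4 : ϑ ≤ 1 / 4) (hC : 1 ≤ C) (hTS : TSs ϑ C T₁) :
    ∃ K : ℝ, 0 ≤ K ∧ ∀ᶠ T : ℝ in atTop, ∀ σ ω d y : ℝ, 1 / 2 ≤ σ → σ ≤ 3 → |ω| ≤ 5 / 2 → |y| ≤ T / 8 →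
      ∫ t in T..(2 * T), ‖riemannZeta (σ + (t + y : ℝ) * I)‖ ^ 2 *
        ‖dq (YY ϑ T) (et P (YY ϑ T)) (σ + ω + (t + y + d : ℝ) * I)‖ ^ 4 ≤
      K * T * EE c ω d (Real.log (YY ϑ T)) := by
  have hA : S_AL := Pool.Agent.Q208.UM.t_AL
  obtain ⟨CT, hCT, hTL⟩ := Pool.Agent.Q277.UM.TL.t_TL
  set K0 : ℝ := 16 * (32 * C * (80 * D / ϑ + 1)) + 1 + 2561 with hK0
  have hK0pos : 0 ≤ K0 := by positivity
  refine ⟨4 * (CT * K0), by positivity, ?_⟩
  filter_upwards [sizes hϑ hϑ4, line2 hG hD hM hϑ hϑ4 hC hTS, pow_kill hCT, eventually_ge_atTop CT,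
    eventually_ge_atTop (100 : ℝ)] with T hsz hline hkill hTC hT100
  obtain ⟨hT2, hY, hY3, hY6, hY5, hY4, hYT, hNs⟩ := hsz
  intro σ ω d y hσ1 hσ2 hω hy
  have hT0 : 0 < T := by linarith
  obtain ⟨Y, hYdef⟩ : ∃ Y : ℕ, Y = YY ϑ T := ⟨_, rfl⟩
  rw [← hYdef] at hY hY3 hY6 hY5 hY4 hYT hNs hline ⊢
  have hlY : 0 < Real.log Y := Real.log_pos (by exact_mod_cast (by omega : 1 < Y))
  have hY0 : (0 : ℝ) ≤ Y := Nat.cast_nonneg Y
  have hY1 : (1 : ℝ) ≤ Y := by exact_mod_cast (by omega : 1 ≤ Y)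
  have hc0 := hG.cpos
  set E := EE c ω d (Real.log Y) with hE
  have hE1 : 1 ≤ E := one_le_EE hc0.le hlY.le
  have hE0 : 0 ≤ E := by linarith
  have hyT := abs_le.1 hy
  set e : ℕ → ℂ := et P Y with he
  set F : ℂ → ℂ := fun s => Gz (s + y * I) * dq Y e (s + ω + (y + d : ℝ) * I) ^ 2 with hF
  have hFd : Differentiable ℂ F :=
    (Gz_diff.comp (differentiable_id.add_const _)).mul
      (((dq_diff Y e).comp ((differentiable_id.add_const _).add_const _)).pow 2)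
  have hen : ∀ n, ‖e n‖ ≤ 1 := fun n => Pool.Agent.Q84.UM.et_norm hG hA Y n
  have hN2 : N2 Y e ≤ Y := by
    unfold N2
    calc ∑ n ∈ Finset.Icc 1 Y, ‖e n‖ ^ 2 / n ≤ ∑ n ∈ Finset.Icc 1 Y, (1 : ℝ) := by
          refine Finset.sum_le_sum fun n hn => ?_
          have hn1 := (Finset.mem_Icc.1 hn).1
          have hn0 : (1 : ℝ) ≤ n := by exact_mod_cast hn1
          rw [div_le_one (by linarith)]
          have := hen n
          have h0 := norm_nonneg (e n)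
          nlinarith
      _ = Y := by simp
  set A : ℝ := 15 * (1 + |y|) ^ 2 * ((Y : ℝ) ^ 4) ^ 2 with hAdef
  have hA0 : 0 ≤ A := by positivity
  have hdqb : ∀ s : ℂ, -2 ≤ s.re → ‖dq Y e s‖ ≤ (Y : ℝ) ^ 4 := by
    intro s hs
    refine (dq_triv hs).trans ?_
    have h1 : Real.sqrt (N2 Y e) ≤ Y := by
      rw [Real.sqrt_le_left hY0]
      nlinarith
    calc (Y : ℝ) ^ 3 * Real.sqrt (N2 Y e) ≤ (Y : ℝ) ^ 3 * Y := by gcongr
      _ = (Y : ℝ) ^ 4 := by ring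
  have hω' := abs_le.1 hω
  have hFb : ∀ s : ℂ, 1 / 2 ≤ s.re → s.re ≤ 3 → ‖F s‖ ≤ A * (1 + |s.im|) ^ 4 := by
    intro s hs1 hs2
    rw [hF]
    simp only
    rw [norm_mul, norm_pow]
    have r1 : (s + y * I).re = s.re := by simp
    have r2 : (s + y * I).im = s.im + y := by simp
    have a1 := Gz_bd (s := s + y * I) (by rw [r1]; exact hs1) (by rw [r1]; exact hs2)
    rw [r2] at a1
    have a2 := hdqb (s + ω + (y + d : ℝ) * I) (by simp; linarith)
    have a3 : (1 + |s.im + y|) ^ 2 ≤ (1 + |y|) ^ 2 * (1 + |s.im|) ^ 4 := by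
      have b1 : 1 + |s.im + y| ≤ (1 + |y|) * (1 + |s.im|) := by
        have := abs_add_le s.im y
        nlinarith [abs_nonneg s.im, abs_nonneg y]
      have b2 : (1 + |s.im|) ^ 2 ≤ (1 + |s.im|) ^ 4 :=
        pow_le_pow_right₀ (by linarith [abs_nonneg s.im]) (by norm_num)
      calc (1 + |s.im + y|) ^ 2 ≤ ((1 + |y|) * (1 + |s.im|)) ^ 2 :=
            pow_le_pow_left₀ (by positivity) b1 2
        _ = (1 + |y|) ^ 2 * (1 + |s.im|) ^ 2 := by ring
        _ ≤ (1 + |y|) ^ 2 * (1 + |s.im|) ^ 4 := by gcongr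
    calc ‖Gz (s + y * I)‖ * ‖dq Y e (s + ω + (y + d : ℝ) * I)‖ ^ 2
        ≤ (15 * (1 + |s.im + y|) ^ 2) * ((Y : ℝ) ^ 4) ^ 2 := by gcongr
      _ ≤ (15 * ((1 + |y|) ^ 2 * (1 + |s.im|) ^ 4)) * ((Y : ℝ) ^ 4) ^ 2 := by gcongr
      _ = A * (1 + |s.im|) ^ 4 := by rw [hAdef]; ring
  have hmain := hTL T hTC F A hFd hA0 hFb σ hσ1 hσ2
  -- the error
  set R : ℝ := A ^ 2 * Real.exp (-(Real.log T) ^ 2 / CT) with hR
  have hR0 : 0 ≤ R := by positivity
  have hR1 : R ≤ 1 := by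
    have h1 : A ≤ 34 * T ^ 9 := by
      have h2 : 1 + |y| ≤ T := by linarith
      have h3 : ((Y : ℝ) ^ 4) ^ 2 ≤ T ^ 2 := by
        have : (Y : ℝ) ^ 4 ≤ T := by linarith
        gcongr
      calc A ≤ 15 * T ^ 2 * T ^ 2 := by rw [hAdef]; gcongr
        _ = 15 * T ^ 4 := by ring
        _ ≤ 34 * T ^ 9 := by
          have : T ^ 4 ≤ T ^ 9 := pow_le_pow_right₀ (by linarith) (by norm_num)
          nlinarith [pow_pos hT0 4]
    have h2 : A ^ 2 ≤ 1156 * T ^ 18 := by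
      calc A ^ 2 ≤ (34 * T ^ 9) ^ 2 := by gcongr
        _ = 1156 * T ^ 18 := by ring
    calc R ≤ 1156 * T ^ 18 * Real.exp (-(Real.log T) ^ 2 / CT) := by rw [hR]; gcongr
      _ ≤ 1 / T := hkill
      _ ≤ 1 := by rw [div_le_one hT0]; linarith
  -- continuity
  have hFc : Continuous F := hFd.continuous
  -- the line 1/2
  have hU : (∫ t in (T / 2)..(3 * T), ‖F (1 / 2 + t * I)‖ ^ 2) + R ≤ K0 * T ^ 3 * E := by
    have hc2 : Continuous fun t : ℝ => ‖zt (t + y)‖ ^ 2 *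
        ‖dq Y (et P Y) (1 / 2 + ω + (t + y + d : ℝ) * I)‖ ^ 4 := by
      have h1 := Pool.Agent.Q84.UM.zt_cont
      have h2 : Continuous (dq Y (et P Y)) := (dq_diff Y (et P Y)).continuous
      fun_prop
    have hc1 : Continuous fun t : ℝ => ‖F (1 / 2 + t * I)‖ ^ 2 := by fun_prop
    have hpt : ∀ t ∈ Set.Icc (T / 2) (3 * T), ‖F (1 / 2 + t * I)‖ ^ 2 ≤ 16 * T ^ 2 * (‖zt (t + y)‖ ^ 2 *
        ‖dq Y (et P Y) (1 / 2 + ω + (t + y + d : ℝ) * I)‖ ^ 4) := by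
      intro t ht
      rw [hF]
      simp only
      have e1 : (1 / 2 + t * I + y * I : ℂ) = 1 / 2 + (t + y : ℝ) * I := by push_cast; ring
      have e2 : (1 / 2 + t * I + ω + (y + d : ℝ) * I : ℂ) = 1 / 2 + ω + (t + y + d : ℝ) * I := by
        push_cast; ring
      have hne : (1 / 2 + (t + y : ℝ) * I : ℂ) ≠ 1 := by
        intro h
        have := congrArg Complex.re h
        simp at this
      rw [e1, e2, Gz_ne hne, norm_mul, norm_mul, norm_pow]
      have h1 : ‖(1 / 2 + (t + y : ℝ) * I - 1 : ℂ)‖ ≤ 4 * T := by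
        have e3 : (1 / 2 + (t + y : ℝ) * I - 1 : ℂ) = ((-(1 / 2) : ℝ) : ℂ) + ((t + y : ℝ) : ℂ) * I := by
          push_cast; ring
        rw [e3]
        refine (norm_add_le _ _).trans ?_
        rw [norm_mul, norm_I, mul_one, norm_real, norm_real, Real.norm_eq_abs, Real.norm_eq_abs]
        have : |t + y| ≤ 3 * T + T / 8 := by
          rw [abs_le]; constructor <;> linarith [ht.1, ht.2]
        have h2 : |(-(1 / 2) : ℝ)| = 1 / 2 := by rw [abs_neg]; norm_num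
        rw [h2]
        linarith
      have h2 : zt (t + y) = riemannZeta (1 / 2 + (t + y : ℝ) * I) := rfl
      rw [h2]
      calc (‖(1 / 2 + (t + y : ℝ) * I - 1 : ℂ)‖ * ‖riemannZeta (1 / 2 + (t + y : ℝ) * I)‖ *
            ‖dq Y e (1 / 2 + ω + (t + y + d : ℝ) * I)‖ ^ 2) ^ 2 ≤
            (4 * T * ‖riemannZeta (1 / 2 + (t + y : ℝ) * I)‖ *
            ‖dq Y e (1 / 2 + ω + (t + y + d : ℝ) * I)‖ ^ 2) ^ 2 := by gcongr
        _ = _ := by ring
    have j1 : IntervalIntegrable (fun t : ℝ => ‖F (1 / 2 + t * I)‖ ^ 2) volume (T / 2) (3 * T) :=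
      hc1.intervalIntegrable _ _
    have j2 : IntervalIntegrable (fun t : ℝ => ‖zt (t + y)‖ ^ 2 *
        ‖dq Y (et P Y) (1 / 2 + ω + (t + y + d : ℝ) * I)‖ ^ 4) volume (T / 2) (3 * T) :=
      hc2.intervalIntegrable _ _
    have h1 := intervalIntegral.integral_mono_on (by linarith : T / 2 ≤ 3 * T)
      j1 (j2.const_mul (16 * T ^ 2)) hpt
    rw [intervalIntegral.integral_const_mul] at h1
    have h2 : ∫ t in (T / 2)..(3 * T), ‖zt (t + y)‖ ^ 2 *
        ‖dq Y (et P Y) (1 / 2 + ω + (t + y + d : ℝ) * I)‖ ^ 4 ≤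
        32 * C * (80 * D / ϑ + 1) * T * E := by
      refine le_trans ?_ (hline ω d y hy)
      exact intervalIntegral.integral_mono_interval (by linarith) (by linarith) (by linarith)
        (Eventually.of_forall fun t => by positivity) (hc2.intervalIntegrable _ _)
    have h3 : (∫ t in (T / 2)..(3 * T), ‖F (1 / 2 + t * I)‖ ^ 2) ≤
        16 * T ^ 2 * (32 * C * (80 * D / ϑ + 1) * T * E) :=
      h1.trans (by gcongr)
    have h4 : (1 : ℝ) ≤ T ^ 3 * E := by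
      have : (1 : ℝ) ≤ T ^ 3 := one_le_pow₀ (by linarith)
      nlinarith
    have h5 : 0 ≤ T ^ 3 * E := by positivity
    calc (∫ t in (T / 2)..(3 * T), ‖F (1 / 2 + t * I)‖ ^ 2) + R ≤
        16 * T ^ 2 * (32 * C * (80 * D / ϑ + 1) * T * E) + T ^ 3 * E := by linarith
      _ ≤ K0 * T ^ 3 * E := by
          rw [hK0]
          nlinarith
  -- the line 3
  have hV : (∫ t in (T / 2)..(3 * T), ‖F (3 + t * I)‖ ^ 2) + R ≤ K0 * T ^ 3 * E := by
    have hc1 : Continuous fun t : ℝ => ‖F (3 + t * I)‖ ^ 2 := by fun_prop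
    have hpt : ∀ t ∈ Set.Icc (T / 2) (3 * T), ‖F (3 + t * I)‖ ^ 2 ≤ 1024 * T ^ 2 * E := by
      intro t ht
      rw [hF]
      simp only
      have e1 : (3 + t * I + y * I : ℂ) = 3 + (t + y : ℝ) * I := by push_cast; ring
      have e2 : (3 + t * I + ω + (y + d : ℝ) * I : ℂ) = (3 + (t + y + d : ℝ) * I) + ω := by
        push_cast; ring
      have hne : (3 + (t + y : ℝ) * I : ℂ) ≠ 1 := by
        intro h
        have := congrArg Complex.re h
        simp at this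
      rw [e1, e2, Gz_ne hne, norm_mul, norm_mul, norm_pow, he, dq_til P hY ω]
      have h1 : ‖(3 + (t + y : ℝ) * I - 1 : ℂ)‖ ≤ 4 * T := by
        have e3 : (3 + (t + y : ℝ) * I - 1 : ℂ) = ((2 : ℝ) : ℂ) + ((t + y : ℝ) : ℂ) * I := by
          push_cast; ring
        rw [e3]
        refine (norm_add_le _ _).trans ?_
        rw [norm_mul, norm_I, mul_one, norm_real, norm_real, Real.norm_eq_abs, Real.norm_eq_abs]
        have : |t + y| ≤ 3 * T + T / 8 := by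
          rw [abs_le]; constructor <;> linarith [ht.1, ht.2]
        rw [abs_of_pos (by norm_num : (0 : ℝ) < 2)]
        linarith
      have h2 : ‖riemannZeta (3 + (t + y : ℝ) * I)‖ ≤ 2 := zeta_three (by simp)
      have h3 : ‖dq Y (et (til P (-ω * Real.log Y)) Y) (3 + (t + y + d : ℝ) * I)‖ ≤
          2 * Real.exp |(-ω * Real.log Y)| :=
        dq_three (Real.exp_pos _).le (fun n _ => et_til_norm hG hA _ Y n) (by simp)
      have h4 : Real.exp |(-ω * Real.log Y)| ^ 4 ≤ E := by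
        rw [hE, EE, ← Real.exp_nat_mul]
        apply Real.exp_le_exp.2
        rw [abs_mul, abs_neg, abs_of_pos hlY]
        have : 0 ≤ c * (|d| * Real.log Y) ^ (2 / 3 : ℝ) := by positivity
        push_cast
        linarith
      calc (‖(3 + (t + y : ℝ) * I - 1 : ℂ)‖ * ‖riemannZeta (3 + (t + y : ℝ) * I)‖ *
            ‖dq Y (et (til P (-ω * Real.log Y)) Y) (3 + (t + y + d : ℝ) * I)‖ ^ 2) ^ 2 ≤
            (4 * T * 2 * (2 * Real.exp |(-ω * Real.log Y)|) ^ 2) ^ 2 := by gcongr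
        _ = 1024 * T ^ 2 * Real.exp |(-ω * Real.log Y)| ^ 4 := by ring
        _ ≤ 1024 * T ^ 2 * E := by gcongr
    have j1 : IntervalIntegrable (fun t : ℝ => ‖F (3 + t * I)‖ ^ 2) volume (T / 2) (3 * T) :=
      hc1.intervalIntegrable _ _
    have h1 := intervalIntegral.integral_mono_on (by linarith : T / 2 ≤ 3 * T)
      j1 (intervalIntegrable_const (μ := volume)) hpt
    rw [intervalIntegral.integral_const, smul_eq_mul] at h1
    have h4 : (1 : ℝ) ≤ T ^ 3 * E := by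
      have : (1 : ℝ) ≤ T ^ 3 := one_le_pow₀ (by linarith)
      nlinarith
    have h5 : 0 ≤ T ^ 3 * E := by positivity
    have h6 : 0 ≤ C * (80 * D / ϑ + 1) := by positivity
    calc (∫ t in (T / 2)..(3 * T), ‖F (3 + t * I)‖ ^ 2) + R ≤
        (3 * T - T / 2) * (1024 * T ^ 2 * E) + T ^ 3 * E := by linarith
      _ = 2561 * (T ^ 3 * E) := by ring
      _ ≤ K0 * T ^ 3 * E := by
          rw [hK0]
          nlinarith [mul_nonneg h6 h5]
  -- combination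
  have hU0 : 0 ≤ (∫ t in (T / 2)..(3 * T), ‖F (1 / 2 + t * I)‖ ^ 2) + R :=
    add_nonneg (intervalIntegral.integral_nonneg (by linarith) fun t _ => by positivity) hR0
  have hV0 : 0 ≤ (∫ t in (T / 2)..(3 * T), ‖F (3 + t * I)‖ ^ 2) + R :=
    add_nonneg (intervalIntegral.integral_nonneg (by linarith) fun t _ => by positivity) hR0
  set lam := (σ - 1 / 2) / (5 / 2) with hlam
  have hl0 : 0 ≤ lam := by
    have : 0 ≤ σ - 1 / 2 := by linarith
    positivity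
  have hl1 : lam ≤ 1 := by rw [hlam, div_le_one (by norm_num)]; linarith
  have hB0 : 0 ≤ K0 * T ^ 3 * E := by positivity
  have hcomb : ∫ t in T..(2 * T), ‖F (σ + t * I)‖ ^ 2 ≤ CT * (K0 * T ^ 3 * E) := by
    refine hmain.trans ?_
    have h1 := Real.rpow_le_rpow hU0 hU (by linarith : 0 ≤ 1 - lam)
    have h2 := Real.rpow_le_rpow hV0 hV hl0
    have h3 : (K0 * T ^ 3 * E) ^ (1 - lam) * (K0 * T ^ 3 * E) ^ lam = K0 * T ^ 3 * E := by
      have hpos : 0 < K0 * T ^ 3 * E := by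
        have : 0 < K0 := by rw [hK0]; positivity
        have : 0 < E := by linarith
        positivity
      rw [← Real.rpow_add hpos]
      simp
    calc _ ≤ CT * (K0 * T ^ 3 * E) ^ (1 - lam) * (K0 * T ^ 3 * E) ^ lam := by
          gcongr
      _ = CT * ((K0 * T ^ 3 * E) ^ (1 - lam) * (K0 * T ^ 3 * E) ^ lam) := by ring
      _ = _ := by rw [h3]
  -- the lower bound
  have hcont3 : ContinuousOn (fun t : ℝ => ‖riemannZeta (σ + (t + y : ℝ) * I)‖ ^ 2 *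
        ‖dq Y e (σ + ω + (t + y + d : ℝ) * I)‖ ^ 4) (Set.uIcc T (2 * T)) := by
    intro t ht
    rw [Set.uIcc_of_le (by linarith)] at ht
    have hne : (σ + (t + y : ℝ) * I : ℂ) ≠ 1 := by
      intro h
      have := congrArg Complex.im h
      simp at this
      linarith [ht.1]
    have h2 : Continuous (dq Y e) := (dq_diff Y e).continuous
    have h3 : ContinuousAt (fun t : ℝ => riemannZeta (σ + (t + y : ℝ) * I)) t :=
      ContinuousAt.comp (f := fun t : ℝ => (σ + (t + y : ℝ) * I : ℂ))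
        (differentiableAt_riemannZeta hne).continuousAt (by fun_prop)
    have h4 : ContinuousAt (fun t : ℝ => dq Y e (σ + ω + (t + y + d : ℝ) * I)) t := by fun_prop
    exact ((h3.norm.pow 2).mul (h4.norm.pow 4)).continuousWithinAt
  have hc4 : Continuous fun t : ℝ => ‖F (σ + t * I)‖ ^ 2 := by fun_prop
  have hpt : ∀ t ∈ Set.Icc T (2 * T), ‖riemannZeta (σ + (t + y : ℝ) * I)‖ ^ 2 *
        ‖dq Y e (σ + ω + (t + y + d : ℝ) * I)‖ ^ 4 ≤ 4 / T ^ 2 * ‖F (σ + t * I)‖ ^ 2 := by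
    intro t ht
    rw [hF]
    simp only
    have e1 : (σ + t * I + y * I : ℂ) = σ + (t + y : ℝ) * I := by push_cast; ring
    have e2 : (σ + t * I + ω + (y + d : ℝ) * I : ℂ) = σ + ω + (t + y + d : ℝ) * I := by
      push_cast; ring
    have hne : (σ + (t + y : ℝ) * I : ℂ) ≠ 1 := by
      intro h
      have := congrArg Complex.im h
      simp at this
      linarith [ht.1]
    rw [e1, e2, Gz_ne hne, norm_mul, norm_mul, norm_pow]
    have h1 : T / 2 ≤ ‖(σ + (t + y : ℝ) * I - 1 : ℂ)‖ := by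
      have h2 := Complex.abs_im_le_norm (σ + (t + y : ℝ) * I - 1 : ℂ)
      have h3 : (σ + (t + y : ℝ) * I - 1 : ℂ).im = t + y := by simp
      rw [h3] at h2
      have := le_abs_self (t + y)
      linarith [ht.1]
    rw [div_mul_eq_mul_div, le_div_iff₀ (by positivity)]
    have h5 : T ^ 2 ≤ 4 * ‖(σ + (t + y : ℝ) * I - 1 : ℂ)‖ ^ 2 := by nlinarith
    have h6 : 0 ≤ ‖riemannZeta (σ + (t + y : ℝ) * I)‖ ^ 2 * ‖dq Y e (σ + ω + (t + y + d : ℝ) * I)‖ ^ 4 := by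
      positivity
    calc _ ≤ ‖riemannZeta (σ + (t + y : ℝ) * I)‖ ^ 2 * ‖dq Y e (σ + ω + (t + y + d : ℝ) * I)‖ ^ 4 *
          (4 * ‖(σ + (t + y : ℝ) * I - 1 : ℂ)‖ ^ 2) := by gcongr
      _ = _ := by ring
  have j1 : IntervalIntegrable (fun t : ℝ => ‖riemannZeta (σ + (t + y : ℝ) * I)‖ ^ 2 *
        ‖dq Y e (σ + ω + (t + y + d : ℝ) * I)‖ ^ 4) volume T (2 * T) := hcont3.intervalIntegrable
  have j2 : IntervalIntegrable (fun t : ℝ => ‖F (σ + t * I)‖ ^ 2) volume T (2 * T) :=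
    hc4.intervalIntegrable _ _
  have hint := intervalIntegral.integral_mono_on (by linarith : T ≤ 2 * T) j1
    (j2.const_mul (4 / T ^ 2)) hpt
  rw [intervalIntegral.integral_const_mul] at hint
  refine hint.trans ?_
  calc 4 / T ^ 2 * ∫ t in T..(2 * T), ‖F (σ + t * I)‖ ^ 2 ≤ 4 / T ^ 2 * (CT * (K0 * T ^ 3 * E)) := by
        gcongr
    _ = 4 * (CT * K0) * T * E := by field_simp

end

end Pool.Agent.Helper75.Xi
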