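import Pool.Graph.R_seed8.Split938.J4

set_option autoImplicit false
set_option maxHeartbeats 1000000

open Complex MeasureTheory Filter Topology Set Metric

namespace Pool.Agent.Helper75.Xi

noncomputable section

/-- the square of the modulus, cut off below height `8` -/
def kk (f : ℂ → ℂ) (p : ℝ × ℝ) : ℝ := ‖f (p.1 + ((max p.2 8 : ℝ) : ℂ) * I)‖ ^ 2

theorem kk_cont {f : ℂ → ℂ} (hf : DifferentiableOn ℂ f {s : ℂ | s ≠ 1}) : Continuous (kk f) := by
  have h1 : Continuous (fun p : ℝ × ℝ => (p.1 : ℂ) + ((max p.2 8 : ℝ) : ℂ) * I) := by fun_prop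
  have h2 : ∀ p : ℝ × ℝ, (p.1 : ℂ) + ((max p.2 8 : ℝ) : ℂ) * I ∈ {s : ℂ | s ≠ 1} := by
    intro p h
    have := congrArg Complex.im h
    simp at this
    have h3 := le_max_right p.2 (8 : ℝ)
    linarith
  have h3 : Continuous (fun p : ℝ × ℝ => f ((p.1 : ℂ) + ((max p.2 8 : ℝ) : ℂ) * I)) :=
    hf.continuousOn.comp_continuous h1 h2
  exact (h3.norm).pow 2

theorem kk_nonneg (f : ℂ → ℂ) (p : ℝ × ℝ) : 0 ≤ kk f p := by
  unfold kk
  positivity

theorem kk_eq (f : ℂ → ℂ) {x u : ℝ} (hu : 8 ≤ u) : kk f (x, u) = ‖f (x + u * I)‖ ^ 2 := by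
  unfold kk
  simp only [max_eq_left hu]

/-- the change of variables `(x, y) ↦ x + i (t + y)` -/
def cvar (t : ℝ) : ℝ × ℝ ≃ᵐ ℂ :=
  ((MeasurableEquiv.refl ℝ).prodCongr (MeasurableEquiv.addLeft t)).trans
    Complex.measurableEquivRealProd.symm

theorem cvar_apply (t : ℝ) (p : ℝ × ℝ) : cvar t p = ⟨p.1, t + p.2⟩ := rfl

theorem cvar_mp (t : ℝ) : MeasurePreserving (cvar t) (volume : Measure (ℝ × ℝ)) volume := by
  have h1 : MeasurePreserving (Prod.map (id : ℝ → ℝ) (fun y : ℝ => t + y))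
      ((volume : Measure ℝ).prod volume) ((volume : Measure ℝ).prod volume) :=
    (MeasurePreserving.id volume).prod (measurePreserving_add_left volume t)
  exact (Complex.volume_preserving_equiv_real_prod.symm).comp h1

/-- the local mean -/
def hh (f : ℂ → ℂ) (S : Set (ℝ × ℝ)) (t : ℝ) : ENNReal :=
  ∫⁻ p in S, ENNReal.ofReal (kk f (p.1, t + p.2))

theorem hh_meas {f : ℂ → ℂ} (hf : DifferentiableOn ℂ f {s : ℂ | s ≠ 1}) (S : Set (ℝ × ℝ)) :
    Measurable (hh f S) := by
  have h1 : Continuous (fun q : ℝ × (ℝ × ℝ) => kk f (q.2.1, q.1 + q.2.2)) :=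
    (kk_cont hf).comp (by fun_prop)
  exact (h1.measurable.ennreal_ofReal).lintegral_prod_right'

/-- the sub-mean value property -/
theorem submean {f : ℂ → ℂ} (hf : DifferentiableOn ℂ f {s : ℂ | s ≠ 1}) {a b w r t : ℝ} {s : ℂ}
    (hr : 0 < r) (ht : w + 10 ≤ t) (h1 : a + r ≤ s.re) (h2 : s.re + r ≤ b)
    (h3 : |s.im - t| + r ≤ w) :
    ENNReal.ofReal (Real.pi * r ^ 2 * ‖f s‖ ^ 2) ≤ hh f (Icc a b ×ˢ Icc (-w) w) t := by
  have hsub : ∀ z ∈ ball s r, a ≤ z.re ∧ z.re ≤ b ∧ |z.im - t| ≤ w := by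
    intro z hz
    rw [mem_ball, dist_eq_norm] at hz
    have e1 := (Complex.abs_re_le_norm (z - s)).trans hz.le
    have e2 := (Complex.abs_im_le_norm (z - s)).trans hz.le
    rw [Complex.sub_re] at e1
    rw [Complex.sub_im] at e2
    rw [abs_le] at e1
    refine ⟨by linarith [e1.1], by linarith [e1.2], ?_⟩
    have : z.im - t = (z.im - s.im) + (s.im - t) := by ring
    rw [this]
    exact (abs_add_le _ _).trans (by linarith)
  have him : ∀ z ∈ ball s r, 8 ≤ z.im := by
    intro z hz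
    have := (abs_le.1 (hsub z hz).2.2).1
    linarith
  have hH : DifferentiableOn ℂ (fun z => (f z) ^ 2) (ball s r) := by
    have h4 : DifferentiableOn ℂ f (ball s r) := hf.mono fun z hz h => by
      have h5 := him z hz
      rw [h] at h5
      simp at h5
      linarith
    exact h4.pow 2
  have h6 := Pool.Agent.Split938.J4.mean_disc' (fun z => (f z) ^ 2) s r hr hH
  rw [norm_pow] at h6
  refine h6.trans ?_
  rw [← lintegral_indicator measurableSet_ball, ← (cvar_mp t).lintegral_comp_emb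
    (cvar t).measurableEmbedding, hh, ← lintegral_indicator
      (measurableSet_Icc.prod measurableSet_Icc)]
  refine lintegral_mono fun p => ?_
  by_cases hp : cvar t p ∈ ball s r
  · have e3 := hsub _ hp
    have e4 := him _ hp
    rw [cvar_apply] at e3 e4
    simp only at e3 e4
    have e5 : p ∈ Icc a b ×ˢ Icc (-w) w := by
      refine ⟨⟨e3.1, e3.2.1⟩, ?_⟩
      rw [add_sub_cancel_left, abs_le] at e3
      exact e3.2.2
    have e6 : (cvar t p : ℂ) = (p.1 : ℂ) + ((t + p.2 : ℝ) : ℂ) * I := by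
      rw [cvar_apply]
      apply Complex.ext <;> simp
    rw [indicator_of_mem hp, indicator_of_mem e5, kk_eq f e4, norm_pow, e6]
  · rw [indicator_of_notMem hp]
    exact bot_le

/-- the supremum over a window, outside a small exceptional set -/
theorem sup_gen {f : ℂ → ℂ} (hf : DifferentiableOn ℂ f {s : ℂ | s ≠ 1}) {V : ℝ → ℝ}
    (hV : Continuous V) (hV0 : ∀ t, 0 ≤ V t) {T a b w D r lam : ℝ} (hT : w + 10 ≤ T) (hw : 0 < w)
    (hab : a ≤ b) (hr : 0 < r) (hD : 0 ≤ D) (hlam : 0 < lam)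
    (hmean : ∀ σ y : ℝ, a ≤ σ → σ ≤ b → |y| ≤ w →
      ∫ t in T..(2 * T), V t * ‖f (σ + (t + y : ℝ) * I)‖ ^ 2 ≤ D) :
    ∃ E : Set ℝ, MeasurableSet E ∧
      volume (E ∩ Icc T (2 * T)) ≤
        ENNReal.ofReal ((b - a) * (2 * w) * D / (Real.pi * r ^ 2 * lam)) ∧
      ∀ t ∈ Icc T (2 * T), t ∉ E → ∀ s : ℂ, a + r ≤ s.re → s.re + r ≤ b → |s.im - t| + r ≤ w →
        V t * ‖f s‖ ^ 2 ≤ lam := by
  have hT0 : 0 < T := by linarith
  have hπ := Real.pi_pos
  have hk := kk_cont hf
  set S : Set (ℝ × ℝ) := Icc a b ×ˢ Icc (-w) w with hS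
  set τ : ℝ := Real.pi * r ^ 2 * lam with hτ
  have hτ0 : 0 < τ := by positivity
  have hmeas := hh_meas hf S
  have hVm : Measurable fun t => ENNReal.ofReal (V t) * hh f S t :=
    (hV.measurable.ennreal_ofReal).mul hmeas
  have hmass : ∫⁻ t in Icc T (2 * T), ENNReal.ofReal (V t) * hh f S t ≤
      ENNReal.ofReal ((b - a) * (2 * w) * D) := by
    have e1 : ∫⁻ t in Icc T (2 * T), ENNReal.ofReal (V t) * hh f S t =
        ∫⁻ p in S, ∫⁻ t in Icc T (2 * T), ENNReal.ofReal (V t * kk f (p.1, t + p.2)) := by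
      rw [← lintegral_lintegral_swap]
      · refine lintegral_congr fun t => ?_
        rw [hh, ← lintegral_const_mul' _ _ ENNReal.ofReal_ne_top]
        refine lintegral_congr fun p => ?_
        rw [ENNReal.ofReal_mul (hV0 t)]
      · apply Measurable.aemeasurable
        apply Measurable.ennreal_ofReal
        apply Continuous.measurable
        exact (hV.comp continuous_fst).mul (hk.comp (by fun_prop))
    rw [e1]
    have e2 : ∀ p ∈ S, ∫⁻ t in Icc T (2 * T),
        ENNReal.ofReal (V t * kk f (p.1, t + p.2)) ≤ ENNReal.ofReal D := by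
      rintro ⟨x, y⟩ ⟨⟨hx1, hx2⟩, hy⟩
      simp only at hx1 hx2 hy ⊢
      have hy' : |y| ≤ w := abs_le.2 hy
      have h3 := hmean x y hx1 hx2 hy'
      rw [← ofReal_integral_eq_lintegral_ofReal]
      · apply ENNReal.ofReal_le_ofReal
        refine le_trans (le_of_eq ?_) h3
        rw [intervalIntegral.integral_of_le (by linarith), integral_Icc_eq_integral_Ioc]
        refine setIntegral_congr_fun measurableSet_Ioc fun t ht => ?_
        have h4 := (abs_le.1 hy').1
        have h5 := ht.1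
        rw [kk_eq f (by linarith)]
      · have : Continuous (fun t : ℝ => V t * kk f (x, t + y)) := hV.mul (hk.comp (by fun_prop))
        exact this.integrableOn_Icc
      · exact Eventually.of_forall fun t => mul_nonneg (hV0 t) (kk_nonneg _ _)
    refine (setLIntegral_mono' (measurableSet_Icc.prod measurableSet_Icc) e2).trans ?_
    rw [setLIntegral_const, Measure.volume_eq_prod, Measure.prod_prod, Real.volume_Icc,
      Real.volume_Icc, ← ENNReal.ofReal_mul (by linarith), ← ENNReal.ofReal_mul hD]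
    apply ENNReal.ofReal_le_ofReal
    rw [show w - -w = 2 * w by ring]
    exact le_of_eq (by ring)
  refine ⟨{t | ENNReal.ofReal τ < ENNReal.ofReal (V t) * hh f S t},
    measurableSet_lt measurable_const hVm, ?_, ?_⟩
  · set E : Set ℝ := {t | ENNReal.ofReal τ < ENNReal.ofReal (V t) * hh f S t} with hE
    have h1 : ENNReal.ofReal τ * volume (E ∩ Icc T (2 * T)) ≤
        ENNReal.ofReal ((b - a) * (2 * w) * D) := by
      refine le_trans ?_ hmass
      have h2 := mul_meas_ge_le_lintegral₀ (μ := volume.restrict (Icc T (2 * T)))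
        hVm.aemeasurable (ENNReal.ofReal τ)
      refine le_trans ?_ h2
      refine mul_le_mul' le_rfl ?_
      rw [Measure.restrict_apply' measurableSet_Icc]
      exact measure_mono (inter_subset_inter_left _ fun t ht => by
        rw [hE, mem_setOf_eq] at ht
        rw [mem_setOf_eq]
        exact ht.le)
    rw [ENNReal.ofReal_div_of_pos hτ0, ENNReal.le_div_iff_mul_le (Or.inl ?_)
      (Or.inl ENNReal.ofReal_ne_top), mul_comm]
    · exact h1
    · simpa using hτ0
  · intro t ht hE s hs1 hs2 hs3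
    have hE' : ENNReal.ofReal (V t) * hh f S t ≤ ENNReal.ofReal τ := not_lt.1 hE
    have h1 := submean hf (a := a) (b := b) (w := w) (r := r) (t := t) (s := s) hr
      (by linarith [ht.1]) hs1 hs2 hs3
    have h2 : ENNReal.ofReal (V t) * ENNReal.ofReal (Real.pi * r ^ 2 * ‖f s‖ ^ 2) ≤
        ENNReal.ofReal τ := le_trans (by gcongr) hE'
    rw [← ENNReal.ofReal_mul (hV0 t), ENNReal.ofReal_le_ofReal_iff hτ0.le, hτ] at h2
    have h3 : 0 < Real.pi * r ^ 2 := by positivity
    have h4 : Real.pi * r ^ 2 * (V t * ‖f s‖ ^ 2) ≤ Real.pi * r ^ 2 * lam := by linarith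
    exact le_of_mul_le_mul_left h4 h3

end

end Pool.Agent.Helper75.Xi
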