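import Pool.Agent.Helper75.Xi.Ant3
import Pool.Agent.Helper75.Xi.Ant4

set_option autoImplicit false
set_option maxHeartbeats 1000000

open Filter Topology MeasureTheory Complex
open Pool.Agent.Q97.UM
open Pool.Agent.Q16.UM (dq_diff)

namespace Pool.Agent.Helper75.Xi

noncomputable section

/-- the mollifier -/
def Mo (P : ℝ → ℝ) (ϑ T : ℝ) (s : ℂ) : ℂ := dq (YY ϑ T) (et P (YY ϑ T)) s

lemma Mo_diff (P : ℝ → ℝ) (ϑ T : ℝ) : Differentiable ℂ (Mo P ϑ T) := dq_diff _ _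

/-- the good event at the scale `X` -/
structure Ev (P : ℝ → ℝ) (ϑ ε T X x t : ℝ) : Prop where
  F : ∀ s : ℂ, 1 / 2 + x / 2 ≤ s.re → s.re ≤ 1 / 2 + 9 / 4 * x → |s.im - t| ≤ 450 * x →
    ‖riemannZeta s * Mo P ϑ T s ^ 2 - 1‖ ≤ 1 / 2
  V : ∀ s : ℂ, 1 / 2 + x / 2 ≤ s.re → s.re ≤ 1 / 2 + 9 / 4 * x → |s.im - t| ≤ 450 * x →
    ‖riemannZeta (1 / 2 + x + t * I)‖ * ‖Mo P ϑ T s‖ ^ 2 ≤ Real.exp (ε * X)
  U : ∀ s : ℂ, 1 / 2 ≤ s.re → s.re ≤ 1 / 2 + 9 / 4 * x → |s.im - t| ≤ 450 * x →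
    ‖riemannZeta s‖ * ‖Mo P ϑ T (1 / 2 + x + t * I)‖ ^ 2 ≤ Real.exp (ε * X)

lemma EE_le {c ε ϑ X ω d ℓ : ℝ} (hc : 0 < c) (hϑ : 0 ≤ ϑ) (h1 : 8 * ϑ ≤ ε)
    (h2 : 400 * c * ϑ ≤ ε) (hX : 0 ≤ X) (hℓ : 0 ≤ ℓ) (hω : |ω| * ℓ ≤ ϑ * X)
    (hd : |d| * ℓ ≤ 50 * ϑ * X) : EE c ω d ℓ ≤ Real.exp (4 * c) * Real.exp (ε * X) := by
  unfold EE
  rw [← Real.exp_add]
  apply Real.exp_le_exp.2
  have hA : 0 ≤ |d| * ℓ := by positivity
  have h3 : (|d| * ℓ) ^ (2 / 3 : ℝ) ≤ |d| * ℓ + 1 := by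
    rcases le_total (|d| * ℓ) 1 with h | h
    · have := Real.rpow_le_one hA h (by norm_num : (0 : ℝ) ≤ 2 / 3)
      linarith
    · have := Real.rpow_le_rpow_of_exponent_le h (by norm_num : (2 / 3 : ℝ) ≤ 1)
      rw [Real.rpow_one] at this
      linarith
  have h4 : c * (|d| * ℓ) ^ (2 / 3 : ℝ) ≤ c * (50 * ϑ * X + 1) := by
    refine mul_le_mul_of_nonneg_left ?_ hc.le
    linarith
  have h5 := mul_le_mul_of_nonneg_right h1 hX
  have h6 := mul_le_mul_of_nonneg_right h2 hX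
  nlinarith

lemma sq_exp_le {X ε : ℝ} (hX : 0 ≤ X) (hε : 0 < ε) :
    X ^ 2 * Real.exp (-(ε * X)) ≤ 8 / ε ^ 2 * Real.exp (-(ε / 2 * X)) := by
  have h1 : (ε / 2 * X) ^ 2 / 2 ≤ Real.exp (ε / 2 * X) := by
    have := Real.quadratic_le_exp_of_nonneg (x := ε / 2 * X) (by positivity)
    have h0 : 0 ≤ ε / 2 * X := by positivity
    linarith
  have h2 : X ^ 2 ≤ 8 / ε ^ 2 * Real.exp (ε / 2 * X) := by
    rw [div_mul_eq_mul_div, le_div_iff₀ (by positivity)]
    nlinarith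
  calc X ^ 2 * Real.exp (-(ε * X)) ≤ (8 / ε ^ 2 * Real.exp (ε / 2 * X)) * Real.exp (-(ε * X)) := by
        gcongr
    _ = 8 / ε ^ 2 * Real.exp (-(ε / 2 * X)) := by
        rw [mul_assoc, ← Real.exp_add]; congr 2; ring

/-- volume bookkeeping -/
lemma vol_le {T L X x r w a b K κ lam : ℝ} (hT : 0 < T) (hL : 0 < L) (hX : 1 ≤ X) (hx : x = 2 * X / L)
    (hr : r = 1 / (2 * L)) (hw : w = 450 * x + r) (hab0 : a ≤ b) (hab : b - a ≤ 3 * x) (hK : 0 ≤ K)
    (hκ : 0 < κ) {D : ℝ} (hD : D ≤ K * T * Real.exp (-(κ * X)) * lam) (hD0 : 0 ≤ D) (hlam : 0 < lam) :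
    (b - a) * (2 * w) * D / (Real.pi * r ^ 2 * lam) ≤ (200000 * K / κ ^ 2) * Real.exp (-(κ / 2 * X)) * T := by
  have hx0 : 0 < x := by rw [hx]; positivity
  have hr0 : 0 < r := by rw [hr]; positivity
  have hrx : r ≤ x := by
    rw [hr, hx, div_le_div_iff₀ (by positivity) hL]
    nlinarith
  have hw2 : 2 * w ≤ 902 * x := by rw [hw]; linarith
  have hw0 : 0 ≤ w := by rw [hw]; positivity
  have hpi := Real.pi_gt_three
  have hba : 0 ≤ b - a := by linarith
  rw [div_le_iff₀ (by positivity)]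
  have h1 := sq_exp_le (X := X) (by linarith) hκ
  have e1 : x ^ 2 = 16 * r ^ 2 * X ^ 2 := by
    rw [hx, hr]; field_simp; ring
  calc (b - a) * (2 * w) * D ≤ (3 * x) * (902 * x) * (K * T * Real.exp (-(κ * X)) * lam) := by
        gcongr
    _ = 2706 * x ^ 2 * (K * T * Real.exp (-(κ * X)) * lam) := by ring
    _ = 2706 * 16 * r ^ 2 * (K * T * lam) * (X ^ 2 * Real.exp (-(κ * X))) := by rw [e1]; ring
    _ ≤ 2706 * 16 * r ^ 2 * (K * T * lam) * (8 / κ ^ 2 * Real.exp (-(κ / 2 * X))) := by gcongr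
    _ = (2706 * 16 * 8) * (K / κ ^ 2 * Real.exp (-(κ / 2 * X)) * T * (r ^ 2 * lam)) := by ring
    _ ≤ (200000 * Real.pi) * (K / κ ^ 2 * Real.exp (-(κ / 2 * X)) * T * (r ^ 2 * lam)) := by
        refine mul_le_mul_of_nonneg_right ?_ (by positivity)
        linarith
    _ = _ := by ring

/-- geometry of the windows -/
structure Geo (T L X x r w : ℝ) : Prop where
  hL : L = Real.log T
  L1 : 100 ≤ L
  X1 : 1 ≤ X
  XL : X ≤ L / 2
  hx : x = 2 * X / L
  hr : r = 1 / (2 * L)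
  hw : w = 450 * x + r
  hT : w + 10 ≤ T / 8

lemma Geo.x0 {T L X x r w : ℝ} (h : Geo T L X x r w) : 0 < x := by
  have := h.L1; have := h.X1
  rw [h.hx]; positivity

lemma Geo.x1 {T L X x r w : ℝ} (h : Geo T L X x r w) : x ≤ 1 := by
  have := h.L1; have := h.XL
  rw [h.hx, div_le_one (by linarith)]; linarith

lemma Geo.r0 {T L X x r w : ℝ} (h : Geo T L X x r w) : 0 < r := by
  have := h.L1
  rw [h.hr]; positivity

lemma Geo.r1 {T L X x r w : ℝ} (h : Geo T L X x r w) : r ≤ x / 4 := by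
  have h1 := h.L1; have h2 := h.X1
  rw [h.hr, h.hx, div_le_div_iff₀ (by positivity) (by norm_num)]
  rw [show 2 * X / L * (2 * L) = 4 * X by field_simp; ring]
  linarith

lemma Geo.r2 {T L X x r w : ℝ} (h : Geo T L X x r w) : r ≤ 1 / 200 := by
  have h1 := h.L1
  rw [h.hr]
  exact one_div_le_one_div_of_le (by norm_num) (by linarith)

lemma Geo.w0 {T L X x r w : ℝ} (h : Geo T L X x r w) : 0 < w := by
  have := h.x0; have := h.r0
  rw [h.hw]; positivity

/-- the part F -/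
lemma part_F {P q : ℝ → ℝ} {c C₀ ϑ C : ℝ} (hG : Gev P q c C₀) (hϑ : 0 < ϑ) (hϑ4 : ϑ ≤ 1 / 4)
    (hC : 0 ≤ C) (hR : R2K P (ϑ / 20) C) : ∃ c' K : ℝ, 0 < c' ∧ 0 ≤ K ∧ ∀ᶠ T : ℝ in atTop,
      ∀ L X x r w : ℝ, Geo T L X x r w → ∃ E : Set ℝ, MeasurableSet E ∧
        volume (E ∩ Set.Icc T (2 * T)) ≤ ENNReal.ofReal (K * Real.exp (-(c' * X)) * T) ∧
        ∀ t ∈ Set.Icc T (2 * T), t ∉ E → ∀ s : ℂ, 1 / 2 + x / 2 ≤ s.re → s.re ≤ 1 / 2 + 9 / 4 * x →
          |s.im - t| ≤ 450 * x → ‖riemannZeta s * Mo P ϑ T s ^ 2 - 1‖ ≤ 1 / 2 := by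
  obtain ⟨c₁, C₁, hc₁, hC₁, hcvb⟩ := Pool.Agent.Q16.UM.cvb P q c C₀ (ϑ / 20) C hG (by positivity)
    (by linarith) hC hR Pool.Agent.Q208.UM.t_AL Pool.Agent.Q84.UM.t_DPM Pool.Agent.Q84.UM.t_MVL
    Pool.Agent.Q277.UM.TL.t_TL
  refine ⟨c₁ / 2, 200000 * (4 * C₁ * Real.exp (c₁ / 2)) / c₁ ^ 2, by positivity, by positivity, ?_⟩
  filter_upwards [hcvb, eventually_ge_atTop (1 : ℝ)] with T hT hT1
  intro L X x r w hg
  have hx0 := hg.x0
  have hx1 := hg.x1
  have hr0 := hg.r0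
  have hr1 := hg.r1
  have hr2 := hg.r2
  have hw0 := hg.w0
  have hL0 : 0 < L := by linarith [hg.L1]
  have hL := hg.hL
  set f : ℂ → ℂ := fun s => riemannZeta s * Mo P ϑ T s ^ 2 - 1 with hf
  have hfd : DifferentiableOn ℂ f {s : ℂ | s ≠ 1} := by
    intro s hs
    have h1 : DifferentiableAt ℂ riemannZeta s := differentiableAt_riemannZeta hs
    exact ((h1.mul ((Mo_diff P ϑ T s).pow 2)).sub_const 1).differentiableWithinAt
  set a : ℝ := 1 / 2 + x / 2 - r with ha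
  set b : ℝ := 1 / 2 + 9 / 4 * x + r with hb
  set D : ℝ := C₁ * T * Real.exp (-(c₁ * (x / 2 - r) * L)) with hD
  have hDb : D = 4 * C₁ * Real.exp (c₁ / 2) * T * Real.exp (-(c₁ * X)) * (1 / 4) := by
    have e1 : -(c₁ * (x / 2 - r) * L) = c₁ / 2 + -(c₁ * X) := by
      rw [hg.hx, hg.hr]; field_simp; ring
    rw [hD, e1, Real.exp_add]; ring
  obtain ⟨E, hE1, hE2, hE3⟩ := sup_gen hfd (V := fun _ => 1) continuous_const (fun _ => zero_le_one)
    (T := T) (a := a) (b := b) (w := w) (D := D) (r := r) (lam := 1 / 4) (by linarith [hg.hT])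
    hw0 (by linarith) hr0 (by positivity) (by norm_num) (by
      intro σ y h1 h2 h3
      have h4 := hT 1 (by rw [Nat.cast_one]; exact Real.one_le_rpow hT1 (by positivity)) b1 σ y
        (by linarith) (by linarith) (by linarith [hg.hT])
      simp only [dp_b1, N2_b1, norm_one, one_pow, one_mul, mul_one] at h4
      simp only [one_mul]
      refine le_trans (le_of_eq ?_) (h4.trans ?_)
      · rfl
      · rw [hD, ← hL]
        refine mul_le_mul_of_nonneg_left (Real.exp_le_exp.2 ?_) (by positivity)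
        have h5 : c₁ * (x / 2 - r) * L ≤ c₁ * (σ - 1 / 2) * L := by
          have : x / 2 - r ≤ σ - 1 / 2 := by linarith
          gcongr
        linarith)
  refine ⟨E, hE1, hE2.trans (ENNReal.ofReal_le_ofReal ?_), ?_⟩
  · exact vol_le (by linarith) hL0 hg.X1 hg.hx hg.hr hg.hw (by linarith) (by linarith)
      (by positivity) hc₁ hDb.le (by positivity) (by norm_num)
  · intro t ht htE s hs1 hs2 hs3
    have h1 := hE3 t ht htE s (by linarith) (by linarith) (by rw [hg.hw]; linarith)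
    rw [one_mul] at h1
    have h2 := norm_nonneg (f s)
    show ‖f s‖ ≤ 1 / 2
    nlinarith

/-- the bound of `strip` at a fixed height -/
def SB (P : ℝ → ℝ) (ϑ c K T : ℝ) : Prop := ∀ σ ω d y : ℝ, 1 / 2 ≤ σ → σ ≤ 3 → |ω| ≤ 5 / 2 → |y| ≤ T / 8 →
  ∫ t in T..(2 * T), ‖riemannZeta (σ + (t + y : ℝ) * I)‖ ^ 2 *
    ‖dq (YY ϑ T) (et P (YY ϑ T)) (σ + ω + (t + y + d : ℝ) * I)‖ ^ 4 ≤
  K * T * EE c ω d (Real.log (YY ϑ T))

/-- the part V -/
lemma part_V {P : ℝ → ℝ} {c ϑ ε K T L X x r w : ℝ} (hc : 0 < c) (hϑ : 0 < ϑ) (h8 : 8 * ϑ ≤ ε)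
    (h400 : 400 * c * ϑ ≤ ε) (hK : 0 ≤ K) (hSB : SB P ϑ c K T) (hY0 : 0 ≤ Real.log (YY ϑ T))
    (hY : Real.log (YY ϑ T) ≤ ϑ / 20 * Real.log T) (hg : Geo T L X x r w) :
    ∃ E : Set ℝ, MeasurableSet E ∧
        volume (E ∩ Set.Icc T (2 * T)) ≤ ENNReal.ofReal
          ((200000 * (K * Real.exp (4 * c)) / ε ^ 2) * Real.exp (-(ε / 2 * X)) * T) ∧
        ∀ t ∈ Set.Icc T (2 * T), t ∉ E → ∀ s : ℂ, 1 / 2 + x / 2 ≤ s.re → s.re ≤ 1 / 2 + 9 / 4 * x →
          |s.im - t| ≤ 450 * x →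
          ‖riemannZeta (1 / 2 + x + t * I)‖ * ‖Mo P ϑ T s‖ ^ 2 ≤ Real.exp (ε * X) := by
  have hε : 0 < ε := by linarith
  have hx0 := hg.x0
  have hx1 := hg.x1
  have hr0 := hg.r0
  have hr1 := hg.r1
  have hr2 := hg.r2
  have hw0 := hg.w0
  have hL0 : 0 < L := by linarith [hg.L1]
  have hL := hg.hL
  have hTw := hg.hT
  set ℓ := Real.log (YY ϑ T) with hℓ
  set f : ℂ → ℂ := fun s => Mo P ϑ T s ^ 2 with hf
  have hfd : DifferentiableOn ℂ f {s : ℂ | s ≠ 1} := ((Mo_diff P ϑ T).pow 2).differentiableOn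
  set V : ℝ → ℝ := fun t => ‖riemannZeta (1 / 2 + x + ((max t 8 : ℝ) : ℂ) * I)‖ ^ 2 with hV
  have hVc : Continuous V := by
    rw [hV]
    have h1 : Continuous (fun t : ℝ => (1 / 2 + x + ((max t 8 : ℝ) : ℂ) * I : ℂ)) := by fun_prop
    refine Continuous.pow (Continuous.norm ?_) 2
    rw [continuous_iff_continuousAt]
    intro t
    refine ContinuousAt.comp (f := fun t : ℝ => (1 / 2 + x + ((max t 8 : ℝ) : ℂ) * I : ℂ))
      (differentiableAt_riemannZeta ?_).continuousAt h1.continuousAt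
    intro h
    have := congrArg Complex.im h
    simp at this
    have h3 := le_max_right t (8 : ℝ)
    linarith
  set a : ℝ := 1 / 2 + x / 2 - r with ha
  set b : ℝ := 1 / 2 + 9 / 4 * x + r with hb
  set D : ℝ := K * Real.exp (4 * c) * T * Real.exp (-(ε * X)) * Real.exp (2 * ε * X) with hD
  have hDe : D = K * T * (Real.exp (4 * c) * Real.exp (ε * X)) := by
    have e1 : Real.exp (-(ε * X)) * Real.exp (2 * ε * X) = Real.exp (ε * X) := by
      rw [← Real.exp_add]; congr 1; ring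
    rw [hD, mul_assoc (K * Real.exp (4 * c) * T), e1]; ring
  have hT0 : 0 < T := by linarith
  obtain ⟨E, hE1, hE2, hE3⟩ := sup_gen hfd hVc (fun _ => by positivity)
    (T := T) (a := a) (b := b) (w := w) (D := D) (r := r) (lam := Real.exp (2 * ε * X))
    (by linarith) hw0 (by linarith) hr0 (by positivity) (Real.exp_pos _) (by
      intro σ y h1 h2 h3
      have hω : |σ - 1 / 2 - x| ≤ 3 / 2 * x := by rw [abs_le]; constructor <;> linarith
      have h4 := hSB (1 / 2 + x) (σ - 1 / 2 - x) y 0 (by linarith) (by linarith)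
        (by linarith) (by rw [abs_zero]; linarith)
      have h5 : EE c (σ - 1 / 2 - x) y ℓ ≤ Real.exp (4 * c) * Real.exp (ε * X) := by
        refine EE_le hc hϑ.le h8 h400 (by linarith [hg.X1]) hY0 ?_ ?_
        · calc |σ - 1 / 2 - x| * ℓ ≤ (3 / 2 * x) * (ϑ / 20 * Real.log T) := by gcongr
            _ = 3 / 20 * ϑ * X := by rw [← hL, hg.hx]; field_simp
            _ ≤ ϑ * X := by nlinarith [hg.X1, mul_pos hϑ (by linarith [hg.X1] : 0 < X)]
        · have hyw : |y| ≤ 451 * x := by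
            refine h3.trans ?_
            rw [hg.hw]; linarith
          calc |y| * ℓ ≤ (451 * x) * (ϑ / 20 * Real.log T) := by gcongr
            _ = 451 / 10 * (ϑ * X) := by rw [← hL, hg.hx]; field_simp; ring
            _ ≤ 50 * ϑ * X := by nlinarith [hg.X1, mul_pos hϑ (by linarith [hg.X1] : 0 < X)]
      rw [hDe]
      refine le_trans (le_of_eq ?_) (h4.trans (by gcongr))
      refine intervalIntegral.integral_congr fun t ht => ?_
      rw [Set.uIcc_of_le (by linarith)] at ht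
      simp only [hV, hf, Mo]
      rw [max_eq_left (by linarith [ht.1])]
      have e1 : (((1 / 2 + x : ℝ) : ℂ) + (t + 0 : ℝ) * I) = 1 / 2 + x + t * I := by push_cast; ring
      have e2 : (((1 / 2 + x : ℝ) : ℂ) + ((σ - 1 / 2 - x : ℝ) : ℂ) + (t + 0 + y : ℝ) * I) =
          σ + (t + y : ℝ) * I := by push_cast; ring
      rw [e1, e2, norm_pow]
      ring)
  refine ⟨E, hE1, hE2.trans (ENNReal.ofReal_le_ofReal ?_), ?_⟩
  · exact vol_le hT0 hL0 hg.X1 hg.hx hg.hr hg.hw (by linarith) (by linarith)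
      (by positivity) hε le_rfl (by positivity) (Real.exp_pos _)
  · intro t ht htE s hs1 hs2 hs3
    have h1 := hE3 t ht htE s (by linarith) (by linarith) (by rw [hg.hw]; linarith)
    simp only [hV, hf] at h1
    rw [max_eq_left (by linarith [ht.1])] at h1
    have e3 : Real.exp (2 * ε * X) = Real.exp (ε * X) ^ 2 := by
      rw [← Real.exp_nat_mul]; congr 1; push_cast; ring
    rw [e3, norm_pow, ← mul_pow] at h1
    exact le_of_sq_le_sq h1 (Real.exp_pos _).le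

/-- the part U -/
lemma part_U {P : ℝ → ℝ} {c ϑ ε K CF T L X x r w : ℝ} (hc : 0 < c) (hϑ : 0 < ϑ) (h8 : 8 * ϑ ≤ ε)
    (h400 : 400 * c * ϑ ≤ ε) (hK : 0 ≤ K) (hCF : 1 ≤ CF)
    (hFE : ∀ a t : ℝ, 0 ≤ a → a ≤ 1 / 4 → CF ≤ t →
      ‖riemannZeta (((1 / 2 - a : ℝ) : ℂ) + t * I)‖ ≤ CF * t ^ a * ‖riemannZeta (((1 / 2 + a : ℝ) : ℂ) + t * I)‖)
    (hTF : 2 * CF ≤ T) (hT3 : 4 ≤ T) (hSB : SB P ϑ c K T) (hY0 : 0 ≤ Real.log (YY ϑ T))
    (hY : Real.log (YY ϑ T) ≤ ϑ / 20 * Real.log T) (hg : Geo T L X x r w) :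
    ∃ E : Set ℝ, MeasurableSet E ∧
        volume (E ∩ Set.Icc T (2 * T)) ≤ ENNReal.ofReal
          ((200000 * (CF ^ 2 * Real.exp 2 * (K * Real.exp (4 * c))) / ε ^ 2) * Real.exp (-(ε / 2 * X)) * T) ∧
        ∀ t ∈ Set.Icc T (2 * T), t ∉ E → ∀ s : ℂ, 1 / 2 ≤ s.re → s.re ≤ 1 / 2 + 9 / 4 * x →
          |s.im - t| ≤ 450 * x →
          ‖riemannZeta s‖ * ‖Mo P ϑ T (1 / 2 + x + t * I)‖ ^ 2 ≤ Real.exp (ε * X) := by
  have hε : 0 < ε := by linarith
  have hx0 := hg.x0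
  have hx1 := hg.x1
  have hr0 := hg.r0
  have hr1 := hg.r1
  have hr2 := hg.r2
  have hw0 := hg.w0
  have hL0 : 0 < L := by linarith [hg.L1]
  have hL := hg.hL
  have hTw := hg.hT
  have hT0 : 0 < T := by linarith
  set ℓ := Real.log (YY ϑ T) with hℓ
  have hfd : DifferentiableOn ℂ riemannZeta {s : ℂ | s ≠ 1} := fun s hs =>
    (differentiableAt_riemannZeta hs).differentiableWithinAt
  set V : ℝ → ℝ := fun t => ‖Mo P ϑ T (1 / 2 + x + t * I)‖ ^ 4 with hV
  have hVc : Continuous V := by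
    rw [hV]
    have h1 : Continuous (Mo P ϑ T) := (Mo_diff P ϑ T).continuous
    fun_prop
  set a : ℝ := 1 / 2 - r with ha
  set b : ℝ := 1 / 2 + 9 / 4 * x + r with hb
  set K1 : ℝ := CF ^ 2 * Real.exp 2 * (K * Real.exp (4 * c)) with hK1
  have hK10 : 0 ≤ K1 := by positivity
  set D : ℝ := K1 * T * Real.exp (-(ε * X)) * Real.exp (2 * ε * X) with hD
  have hDe : D = CF ^ 2 * Real.exp 2 * (K * T * (Real.exp (4 * c) * Real.exp (ε * X))) := by
    have e1 : Real.exp (-(ε * X)) * Real.exp (2 * ε * X) = Real.exp (ε * X) := by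
      rw [← Real.exp_add]; congr 1; ring
    rw [hD, mul_assoc (K1 * T), e1, hK1]; ring
  have hone : 1 ≤ CF ^ 2 * Real.exp 2 := by
    have h1 : 1 ≤ CF ^ 2 := one_le_pow₀ hCF
    have h2 : 1 ≤ Real.exp 2 := Real.one_le_exp (by norm_num)
    nlinarith
  have hright : ∀ σ y : ℝ, 1 / 2 ≤ σ → σ ≤ b → |y| ≤ w →
      ∫ t in T..(2 * T), V t * ‖riemannZeta (σ + (t + y : ℝ) * I)‖ ^ 2 ≤
        K * T * (Real.exp (4 * c) * Real.exp (ε * X)) := by
    intro σ y h1 h2 h3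
    have hω : |1 / 2 + x - σ| ≤ 3 / 2 * x := by rw [abs_le]; constructor <;> linarith
    have h4 := hSB σ (1 / 2 + x - σ) (-y) y h1 (by linarith) (by linarith) (by linarith)
    have h5 : EE c (1 / 2 + x - σ) (-y) ℓ ≤ Real.exp (4 * c) * Real.exp (ε * X) := by
      refine EE_le hc hϑ.le h8 h400 (by linarith [hg.X1]) hY0 ?_ ?_
      · calc |1 / 2 + x - σ| * ℓ ≤ (3 / 2 * x) * (ϑ / 20 * Real.log T) := by gcongr
          _ = 3 / 20 * ϑ * X := by rw [← hL, hg.hx]; field_simp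
          _ ≤ ϑ * X := by nlinarith [hg.X1, mul_pos hϑ (by linarith [hg.X1] : 0 < X)]
      · have hyw : |y| ≤ 451 * x := by
          refine h3.trans ?_
          rw [hg.hw]; linarith
        rw [abs_neg]
        calc |y| * ℓ ≤ (451 * x) * (ϑ / 20 * Real.log T) := by gcongr
          _ = 451 / 10 * (ϑ * X) := by rw [← hL, hg.hx]; field_simp; ring
          _ ≤ 50 * ϑ * X := by nlinarith [hg.X1, mul_pos hϑ (by linarith [hg.X1] : 0 < X)]
    refine le_trans (le_of_eq ?_) (h4.trans (by gcongr))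
    refine intervalIntegral.integral_congr fun t _ => ?_
    simp only [hV, Mo]
    have e2 : ((σ : ℂ) + ((1 / 2 + x - σ : ℝ) : ℂ) + (t + y + -y : ℝ) * I) =
        1 / 2 + x + t * I := by push_cast; ring
    rw [e2]
    ring
  obtain ⟨E, hE1, hE2, hE3⟩ := sup_gen hfd hVc (fun _ => by positivity)
    (T := T) (a := a) (b := b) (w := w) (D := D) (r := r) (lam := Real.exp (2 * ε * X))
    (by linarith) hw0 (by linarith) hr0 (by positivity) (Real.exp_pos _) (by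
      intro σ y h1 h2 h3
      rw [hDe]
      have hQ0 : 0 ≤ K * T * (Real.exp (4 * c) * Real.exp (ε * X)) := by positivity
      rcases le_total (1 / 2) σ with hσ | hσ
      · refine (hright σ y hσ h2 h3).trans ?_
        exact le_mul_of_one_le_left hQ0 hone
      · have h4 := hright (1 - σ) y (by linarith) (by linarith) h3
        have hpt : ∀ t ∈ Set.Icc T (2 * T), V t * ‖riemannZeta (σ + (t + y : ℝ) * I)‖ ^ 2 ≤
            CF ^ 2 * Real.exp 2 * (V t * ‖riemannZeta (((1 - σ : ℝ) : ℂ) + (t + y : ℝ) * I)‖ ^ 2) := by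
          intro t ht
          have hyw := abs_le.1 h3
          have h5 := hFE (1 / 2 - σ) (t + y) (by linarith) (by linarith) (by linarith [ht.1])
          rw [show (1 / 2 - (1 / 2 - σ) : ℝ) = σ by ring,
            show (1 / 2 + (1 / 2 - σ) : ℝ) = 1 - σ by ring] at h5
          have hpos : 0 < t + y := by linarith [ht.1]
          have h6 : ((t + y) ^ (1 / 2 - σ)) ^ 2 ≤ Real.exp 2 := by
            have h7 : (t + y) ^ (1 / 2 - σ) ≤ Real.exp 1 := by
              rw [Real.rpow_def_of_pos hpos]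
              apply Real.exp_le_exp.2
              have h8 : Real.log (t + y) ≤ 2 * L := by
                have h9 : t + y ≤ T ^ 2 := by nlinarith [ht.2]
                calc Real.log (t + y) ≤ Real.log (T ^ 2) := Real.log_le_log hpos h9
                  _ = 2 * L := by rw [Real.log_pow, hL]; push_cast; ring
              have h10 : 1 / 2 - σ ≤ r := by linarith
              calc Real.log (t + y) * (1 / 2 - σ) ≤ (2 * L) * r := by
                    gcongr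
                _ = 1 := by rw [hg.hr]; field_simp
            calc ((t + y) ^ (1 / 2 - σ)) ^ 2 ≤ (Real.exp 1) ^ 2 := by gcongr
              _ = Real.exp 2 := by rw [← Real.exp_nat_mul]; norm_num
          have h7 : ‖riemannZeta (σ + (t + y : ℝ) * I)‖ ^ 2 ≤
              CF ^ 2 * Real.exp 2 * ‖riemannZeta (((1 - σ : ℝ) : ℂ) + (t + y : ℝ) * I)‖ ^ 2 := by
            calc ‖riemannZeta (σ + (t + y : ℝ) * I)‖ ^ 2 ≤
                (CF * (t + y) ^ (1 / 2 - σ) * ‖riemannZeta (((1 - σ : ℝ) : ℂ) + (t + y : ℝ) * I)‖) ^ 2 := by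
                  gcongr
              _ = CF ^ 2 * ((t + y) ^ (1 / 2 - σ)) ^ 2 *
                  ‖riemannZeta (((1 - σ : ℝ) : ℂ) + (t + y : ℝ) * I)‖ ^ 2 := by ring
              _ ≤ _ := by gcongr
          have hV0 : 0 ≤ V t := by positivity
          calc _ ≤ V t * (CF ^ 2 * Real.exp 2 *
                ‖riemannZeta (((1 - σ : ℝ) : ℂ) + (t + y : ℝ) * I)‖ ^ 2) := by gcongr
            _ = _ := by ring
        have hci : ∀ ρ : ℝ, IntervalIntegrable
            (fun t : ℝ => V t * ‖riemannZeta (ρ + (t + y : ℝ) * I)‖ ^ 2) volume T (2 * T) := by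
          intro ρ
          apply ContinuousOn.intervalIntegrable
          intro t ht
          rw [Set.uIcc_of_le (by linarith)] at ht
          have hyw := abs_le.1 h3
          have hne : (ρ + (t + y : ℝ) * I : ℂ) ≠ 1 := by
            intro h
            have := congrArg Complex.im h
            simp at this
            linarith [ht.1]
          have h3 : ContinuousAt (fun t : ℝ => riemannZeta (ρ + (t + y : ℝ) * I)) t :=
            ContinuousAt.comp (f := fun t : ℝ => (ρ + (t + y : ℝ) * I : ℂ))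
              (differentiableAt_riemannZeta hne).continuousAt (by fun_prop)
          exact (hVc.continuousAt.mul (h3.norm.pow 2)).continuousWithinAt
        have hint := intervalIntegral.integral_mono_on (by linarith : T ≤ 2 * T)
          (hci σ) ((hci (1 - σ)).const_mul (CF ^ 2 * Real.exp 2)) hpt
        rw [intervalIntegral.integral_const_mul] at hint
        refine hint.trans ?_
        gcongr)
  refine ⟨E, hE1, hE2.trans (ENNReal.ofReal_le_ofReal ?_), ?_⟩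
  · exact vol_le hT0 hL0 hg.X1 hg.hx hg.hr hg.hw (by linarith) (by linarith)
      hK10 hε le_rfl (by positivity) (Real.exp_pos _)
  · intro t ht htE s hs1 hs2 hs3
    have h1 := hE3 t ht htE s (by linarith) (by linarith) (by rw [hg.hw]; linarith)
    simp only [hV] at h1
    have e3 : Real.exp (2 * ε * X) = Real.exp (ε * X) ^ 2 := by
      rw [← Real.exp_nat_mul]; congr 1; push_cast; ring
    have e4 : ‖Mo P ϑ T (1 / 2 + x + t * I)‖ ^ 4 * ‖riemannZeta s‖ ^ 2 =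
        (‖riemannZeta s‖ * ‖Mo P ϑ T (1 / 2 + x + t * I)‖ ^ 2) ^ 2 := by ring
    rw [e3, e4] at h1
    exact le_of_sq_le_sq h1 (Real.exp_pos _).le

end

end Pool.Agent.Helper75.Xi
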