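import Pool.Agent.Helper75.Xi.Ant5

set_option autoImplicit false
set_option maxHeartbeats 1000000

open Filter Topology MeasureTheory Complex
open Pool.Agent.Q97.UM

namespace Pool.Agent.Helper75.Xi

noncomputable section

lemma wc_zero (P : ℝ → ℝ) : wc P 0 = P := by
  funext u
  unfold wc
  simp

lemma geo_mk {T X : ℝ} (hL : 100 ≤ Real.log T) (hTw : 462 ≤ T / 8) (hX1 : 1 ≤ X)
    (hX2 : X ≤ Real.log T / 2) :
    Geo T (Real.log T) X (2 * X / Real.log T) (1 / (2 * Real.log T))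
      (450 * (2 * X / Real.log T) + 1 / (2 * Real.log T)) := by
  refine ⟨rfl, hL, hX1, hX2, rfl, rfl, rfl, ?_⟩
  have h1 : 2 * X / Real.log T ≤ 1 := by
    rw [div_le_one (by linarith)]; linarith
  have h2 : 1 / (2 * Real.log T) ≤ 1 / 200 :=
    one_div_le_one_div_of_le (by norm_num) (by linarith)
  linarith

/-- the events hold outside exponentially small sets -/
theorem ev_bound : ∃ P : ℝ → ℝ, ∀ ε : ℝ, 0 < ε → ∃ ϑ c' C' : ℝ, 0 < c' ∧ 0 ≤ C' ∧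
    ∀ᶠ T : ℝ in atTop, ∀ X : ℝ, 1 ≤ X → X ≤ Real.log T / 2 → ∃ E : Set ℝ, MeasurableSet E ∧
      volume (E ∩ Set.Icc T (2 * T)) ≤ ENNReal.ofReal (C' * Real.exp (-(c' * X)) * T) ∧
      ∀ t ∈ Set.Icc T (2 * T), t ∉ E → Ev P ϑ ε T X (2 * X / Real.log T) t := by
  obtain ⟨P, q, c, C₀, D, hG, hD, hM⟩ := windows
  obtain ⟨ϑ₀, C, T₁, hϑ₀, hϑ₀4, hC, hTS⟩ := ts_small
  obtain ⟨CF, hCF, hFE⟩ := Pool.Agent.Q277.UM.t_FE
  refine ⟨P, ?_⟩
  intro ε hε
  have hc := hG.cpos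
  obtain ⟨ϑ, hϑ, h1, h8, h400⟩ : ∃ ϑ : ℝ, 0 < ϑ ∧ ϑ ≤ ϑ₀ ∧ 8 * ϑ ≤ ε ∧ 400 * c * ϑ ≤ ε := by
    refine ⟨min ϑ₀ (min (ε / 8) (ε / (400 * c))), by positivity, min_le_left _ _, ?_, ?_⟩
    · have h2 : min ϑ₀ (min (ε / 8) (ε / (400 * c))) ≤ ε / 8 :=
        (min_le_right _ _).trans (min_le_left _ _)
      linarith
    · have h2 : min ϑ₀ (min (ε / 8) (ε / (400 * c))) ≤ ε / (400 * c) :=
        (min_le_right _ _).trans (min_le_right _ _)
      rw [le_div_iff₀ (by positivity)] at h2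
      linarith
  have hϑ4 : ϑ ≤ 1 / 4 := h1.trans hϑ₀4
  have hTSϑ := hTS ϑ hϑ h1
  have hM' : ∀ κ : ℝ, Moll (til P κ) (D * Real.exp (4 * |κ|)) := by
    intro κ
    have h2 := (hM κ 0).1
    rw [wc_zero, abs_zero, Real.zero_rpow (by norm_num), mul_zero, mul_zero, Real.exp_zero,
      mul_one] at h2
    exact h2
  have hR := r2k hG hD hM' hϑ hϑ4 hC hTSϑ
  obtain ⟨c₁, K₁, hc₁, hK₁, hF⟩ := part_F hG hϑ hϑ4 (by positivity) hR
  obtain ⟨K, hK, hS⟩ := strip hG hD hM hϑ hϑ4 hC hTSϑ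
  have hcm : 0 < min c₁ (ε / 2) := lt_min hc₁ (by positivity)
  refine ⟨ϑ, min c₁ (ε / 2), K₁ + 200000 * (K * Real.exp (4 * c)) / ε ^ 2 +
    200000 * (CF ^ 2 * Real.exp 2 * (K * Real.exp (4 * c))) / ε ^ 2, hcm, by positivity, ?_⟩
  have hlog : Tendsto Real.log atTop atTop := Real.tendsto_log_atTop
  filter_upwards [hF, hS, sizes hϑ hϑ4, hlog.eventually_ge_atTop 100,
    eventually_ge_atTop (8 * 462 : ℝ), eventually_ge_atTop (2 * CF)] with T hFT hST hsz hL100 hT8 hTCF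
  intro X hX1 hX2
  have hT0 : 0 < T := by linarith
  obtain ⟨hT2, hY, hY3, hY6, hY5, hY4, hYT, hNs⟩ := hsz
  have hg := geo_mk hL100 (by linarith) hX1 hX2
  have hY0 : 0 ≤ Real.log (YY ϑ T) := Real.log_nonneg (by exact_mod_cast (by omega : 1 ≤ YY ϑ T))
  have hSB : SB P ϑ c K T := hST
  obtain ⟨E1, hE1m, hE1v, hE1⟩ := hFT _ _ _ _ _ hg
  obtain ⟨E2, hE2m, hE2v, hE2⟩ := part_V hc hϑ h8 h400 hK hSB hY0 hY6 hg
  obtain ⟨E3, hE3m, hE3v, hE3⟩ := part_U hc hϑ h8 h400 hK hCF hFE hTCF (by linarith) hSB hY0 hY6 hg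
  refine ⟨E1 ∪ E2 ∪ E3, (hE1m.union hE2m).union hE3m, ?_, ?_⟩
  · have hX0 : 0 ≤ X := by linarith
    have m1 : Real.exp (-(c₁ * X)) ≤ Real.exp (-(min c₁ (ε / 2) * X)) := by
      apply Real.exp_le_exp.2
      have := mul_le_mul_of_nonneg_right (min_le_left c₁ (ε / 2)) hX0
      linarith
    have m2 : Real.exp (-(ε / 2 * X)) ≤ Real.exp (-(min c₁ (ε / 2) * X)) := by
      apply Real.exp_le_exp.2
      have := mul_le_mul_of_nonneg_right (min_le_right c₁ (ε / 2)) hX0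
      linarith
    rw [Set.union_inter_distrib_right, Set.union_inter_distrib_right]
    refine (measure_union_le _ _).trans ?_
    refine (add_le_add (measure_union_le _ _) le_rfl).trans ?_
    refine (add_le_add (add_le_add hE1v hE2v) hE3v).trans ?_
    rw [← ENNReal.ofReal_add (by positivity) (by positivity), ← ENNReal.ofReal_add (by positivity)
      (by positivity)]
    apply ENNReal.ofReal_le_ofReal
    have n1 : K₁ * Real.exp (-(c₁ * X)) * T ≤ K₁ * Real.exp (-(min c₁ (ε / 2) * X)) * T := by gcongr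
    have n2 : 200000 * (K * Real.exp (4 * c)) / ε ^ 2 * Real.exp (-(ε / 2 * X)) * T ≤
      200000 * (K * Real.exp (4 * c)) / ε ^ 2 * Real.exp (-(min c₁ (ε / 2) * X)) * T := by gcongr
    have n3 : 200000 * (CF ^ 2 * Real.exp 2 * (K * Real.exp (4 * c))) / ε ^ 2 *
        Real.exp (-(ε / 2 * X)) * T ≤ 200000 * (CF ^ 2 * Real.exp 2 * (K * Real.exp (4 * c))) / ε ^ 2 *
        Real.exp (-(min c₁ (ε / 2) * X)) * T := by gcongr
    linarith
  · intro t ht htE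
    simp only [Set.mem_union, not_or] at htE
    exact ⟨hE1 t ht htE.1.1, hE2 t ht htE.1.2, hE3 t ht htE.2⟩

end

end Pool.Agent.Helper75.Xi
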