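import Pool.Agent.Helper75.Xi.Ant6
import Pool.Graph.R_seed8.H370R2.Local

set_option autoImplicit false
set_option maxHeartbeats 1000000

open Filter Topology MeasureTheory Complex Metric

namespace Pool.Agent.Helper75.Xi

noncomputable section

lemma half_le {z w : ℂ} (h : ‖z * w ^ 2 - 1‖ ≤ 1 / 2) :
    z ≠ 0 ∧ 1 ≤ 2 * (‖z‖ * ‖w‖ ^ 2) := by
  have h1 : ‖(1 : ℂ)‖ ≤ ‖z * w ^ 2‖ + ‖z * w ^ 2 - 1‖ := by
    calc ‖(1 : ℂ)‖ = ‖z * w ^ 2 - (z * w ^ 2 - 1)‖ := by congr 1; ring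
      _ ≤ _ := norm_sub_le _ _
  rw [norm_one, norm_mul, norm_pow] at h1
  refine ⟨?_, by linarith⟩
  rintro rfl
  rw [norm_zero] at h1
  linarith

/-- upper bound relative to the reference point -/
lemma Ev.up {P : ℝ → ℝ} {ϑ ε T X x t : ℝ} (h : Ev P ϑ ε T X x t) (hx : 0 < x) {s : ℂ}
    (h1 : 1 / 2 ≤ s.re) (h2 : s.re ≤ 1 / 2 + 9 / 4 * x) (h3 : |s.im - t| ≤ 450 * x) :
    ‖riemannZeta s‖ ≤ 2 * Real.exp (ε * X) * ‖riemannZeta (1 / 2 + x + t * I)‖ := by
  have e1 : (1 / 2 + x + t * I : ℂ).re = 1 / 2 + x := by simp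
  have e2 : (1 / 2 + x + t * I : ℂ).im = t := by simp
  have hF := h.F (1 / 2 + x + t * I) (by rw [e1]; linarith) (by rw [e1]; linarith)
    (by rw [e2, sub_self, abs_zero]; positivity)
  obtain ⟨-, h4⟩ := half_le hF
  have h5 := h.U s h1 h2 h3
  set a := ‖riemannZeta s‖
  set b := ‖Mo P ϑ T (1 / 2 + x + t * I)‖ ^ 2
  set d := ‖riemannZeta (1 / 2 + x + t * I)‖
  have ha : 0 ≤ a := norm_nonneg _
  have hd : 0 ≤ d := norm_nonneg _
  calc a = a * 1 := (mul_one a).symm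
    _ ≤ a * (2 * (d * b)) := by gcongr
    _ = 2 * (a * b) * d := by ring
    _ ≤ 2 * Real.exp (ε * X) * d := by gcongr

/-- lower bound relative to the reference point -/
lemma Ev.low {P : ℝ → ℝ} {ϑ ε T X x t : ℝ} (h : Ev P ϑ ε T X x t) {s : ℂ}
    (h1 : 1 / 2 + x / 2 ≤ s.re) (h2 : s.re ≤ 1 / 2 + 9 / 4 * x) (h3 : |s.im - t| ≤ 450 * x) :
    riemannZeta s ≠ 0 ∧
    ‖riemannZeta (1 / 2 + x + t * I)‖ ≤ 2 * Real.exp (ε * X) * ‖riemannZeta s‖ := by
  obtain ⟨h4, h5⟩ := half_le (h.F s h1 h2 h3)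
  refine ⟨h4, ?_⟩
  have h6 := h.V s h1 h2 h3
  set a := ‖riemannZeta s‖
  set b := ‖Mo P ϑ T s‖ ^ 2
  set d := ‖riemannZeta (1 / 2 + x + t * I)‖
  have ha : 0 ≤ a := norm_nonneg _
  have hd : 0 ≤ d := norm_nonneg _
  calc d = d * 1 := (mul_one d).symm
    _ ≤ d * (2 * (a * b)) := by gcongr
    _ = 2 * (d * b) * a := by ring
    _ ≤ 2 * Real.exp (ε * X) * a := by gcongr

/-- the logarithmic derivative on the scale `x` -/
lemma Ev.ld {P : ℝ → ℝ} {ϑ ε T X x t : ℝ} (h : Ev P ϑ ε T X x t) (hx : 0 < x) (hX : 0 ≤ X)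
    (hε : 0 ≤ ε) (ht : 450 * x + 1 ≤ t) {s : ℂ}
    (h1 : 1 / 2 + x ≤ s.re) (h2 : s.re ≤ 1 / 2 + 2 * x) (h3 : |s.im - t| ≤ 400 * x) :
    riemannZeta s ≠ 0 ∧ ‖logDeriv riemannZeta s‖ ≤ 20 * (2 * (ε * X) + 3) / x := by
  have h0 := h.low (s := s) (by linarith) (by linarith) (by linarith)
  refine ⟨h0.1, ?_⟩
  have hgeo : ∀ z ∈ closedBall s (x / 4), 1 / 2 + x / 2 ≤ z.re ∧ z.re ≤ 1 / 2 + 9 / 4 * x ∧
      |z.im - t| ≤ 450 * x ∧ z ≠ 1 := by
    intro z hz
    rw [mem_closedBall, dist_eq_norm] at hz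
    have a1 := (Complex.abs_re_le_norm (z - s)).trans hz
    have a2 := (Complex.abs_im_le_norm (z - s)).trans hz
    rw [Complex.sub_re] at a1
    rw [Complex.sub_im] at a2
    rw [abs_le] at a1 a2 h3
    refine ⟨by linarith, by linarith, ?_, ?_⟩
    · rw [abs_le]; constructor <;> linarith
    · rintro rfl
      rw [Complex.one_im] at a2
      linarith
  have hlog2 : Real.log 2 ≤ 1 := by linarith [Real.log_two_lt_d9]
  have hlog20 : 0 ≤ Real.log 2 := Real.log_nonneg (by norm_num)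
  have hB : 0 ≤ 2 * (ε * X) + 2 * Real.log 2 := by positivity
  have hb := H370.Loc.logDeriv_zero_free (g := riemannZeta) (c := s) (r := x / 4) (r1 := x / 8)
    (r2 := x / 400) (B := 2 * (ε * X) + 2 * Real.log 2) (by positivity) (by linarith) (by linarith) hB
    (by
      intro z hz
      obtain ⟨a1, a2, a3, a4⟩ := hgeo z hz
      have hd : DifferentiableOn ℂ riemannZeta {z : ℂ | z ≠ 1} := fun w hw =>
        (differentiableAt_riemannZeta hw).differentiableWithinAt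
      exact hd.analyticAt (isOpen_ne.mem_nhds a4))
    (by
      intro z hz
      obtain ⟨a1, a2, a3, a4⟩ := hgeo z hz
      exact (h.low a1 a2 a3).1)
    (by
      intro z hz
      obtain ⟨a1, a2, a3, a4⟩ := hgeo z hz
      have b1 := h.up hx (s := z) (by linarith) a2 a3
      refine b1.trans ?_
      calc 2 * Real.exp (ε * X) * ‖riemannZeta (1 / 2 + x + t * I)‖ ≤
          2 * Real.exp (ε * X) * (2 * Real.exp (ε * X) * ‖riemannZeta s‖) := by
            gcongr; exact h0.2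
        _ = (2 * Real.exp (ε * X)) ^ 2 * ‖riemannZeta s‖ := by ring
        _ = _ := by
          congr 1
          rw [Real.exp_add, mul_pow, ← Real.exp_nat_mul, mul_comm (2 ^ 2 : ℝ)]
          congr 1
          have e4 : Real.exp (2 * Real.log 2) = Real.exp (Real.log 2) ^ 2 := by
            rw [← Real.exp_nat_mul]; norm_num
          rw [e4, Real.exp_log (by norm_num)])
    (z := s) (mem_closedBall_self (by positivity))
  refine hb.trans ?_
  have e : 2 * (2 * (ε * X) + 2 * Real.log 2 + 1) * (x / 8) / (x / 4 - x / 8) / (x / 8 - x / 400) =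
      800 / 49 * (2 * (ε * X) + 2 * Real.log 2 + 1) / x := by
    field_simp
    ring
  rw [e]
  have hεX : 0 ≤ ε * X := by positivity
  refine div_le_div_of_nonneg_right ?_ hx.le
  nlinarith

end

end Pool.Agent.Helper75.Xi
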