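import Pool.Agent.Helper75.Xi.Sad2

set_option autoImplicit false
set_option maxHeartbeats 1000000

open Complex Filter Topology Metric MeasureTheory intervalIntegral

namespace Pool.Agent.Helper75.Xi

open Pool.Agent.Helper75.Jen

/-- the cone where the function behaves like `exp (-i z)` -/
def Kc (M H : ℝ) : Set ℂ := {p : ℂ | M / 8 ≤ p.im ∧ p.im ≤ H ∧ |p.re| ≤ 200 * p.im}

structure Cone (G : ℂ → ℂ) (M H ε : ℝ) : Prop where
  ne : ∀ p ∈ Kc M H, G p ≠ 0
  ld : ∀ p ∈ Kc M H, ‖logDeriv G p + I‖ ≤ ε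

lemma Kc_convex (M H : ℝ) : Convex ℝ (Kc M H) := by
  intro p hp q hq a b ha hb hab
  obtain ⟨p1, p2, p3⟩ := hp
  obtain ⟨q1, q2, q3⟩ := hq
  rw [abs_le] at p3 q3
  refine ⟨?_, ?_, ?_⟩
  · simp only [add_im, real_smul, im_ofReal_mul]
    nlinarith
  · simp only [add_im, real_smul, im_ofReal_mul]
    nlinarith
  · rw [abs_le]
    simp only [add_im, add_re, real_smul, im_ofReal_mul, re_ofReal_mul]
    constructor <;> nlinarith

lemma hasDerivAt_log_norm {g : ℝ → ℂ} {g' : ℂ} {t : ℝ} (h : HasDerivAt g g' t) (h0 : g t ≠ 0) :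
    HasDerivAt (fun t => Real.log ‖g t‖) ((g' / g t).re) t := by
  have h1 := h.norm_sq
  have hn : 0 < ‖g t‖ := norm_pos_iff.2 h0
  have h2 := (h1.log (by positivity)).const_mul (1 / 2 : ℝ)
  have e : (fun t => Real.log ‖g t‖) = fun t => 1 / 2 * Real.log (‖g t‖ ^ 2) := by
    funext s
    rw [Real.log_pow]
    push_cast
    ring
  rw [e]
  refine h2.congr_deriv ?_
  have e2 : inner ℝ (g t) g' = (g' * starRingEnd ℂ (g t)).re := by
    rw [Complex.inner]
  rw [e2]
  have e3 : g' / g t = g' * starRingEnd ℂ (g t) * (((‖g t‖ ^ 2)⁻¹ : ℝ) : ℂ) := by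
    have e4 : starRingEnd ℂ (g t) * g t = ((‖g t‖ ^ 2 : ℝ) : ℂ) := by
      rw [mul_comm, Complex.mul_conj, Complex.normSq_eq_norm_sq]
    have e5 : ((‖g t‖ ^ 2 : ℝ) : ℂ) ≠ 0 := by exact_mod_cast (by positivity : ‖g t‖ ^ 2 ≠ 0)
    rw [div_eq_iff h0, ofReal_inv]
    field_simp
    rw [← e4]
    ring
  rw [e3, Complex.re_mul_ofReal]
  field_simp

/-- comparison along segments in the cone -/
lemma cone_le {G : ℂ → ℂ} (hG : Differentiable ℂ G) {M H ε : ℝ} (h : Cone G M H ε) {p q : ℂ}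
    (hp : p ∈ Kc M H) (hq : q ∈ Kc M H) :
    ‖G p‖ ≤ ‖G q‖ * Real.exp (p.im - q.im + ε * ‖p - q‖) := by
  have hseg : ∀ t ∈ Set.Icc (0 : ℝ) 1, q + t * (p - q) ∈ Kc M H := by
    intro t ht
    have := Kc_convex M H hq hp (a := 1 - t) (b := t) (by linarith [ht.2]) ht.1 (by ring)
    have e : q + t * (p - q) = (1 - t) • q + t • p := by
      simp only [real_smul]
      push_cast
      ring
    rw [e]
    exact this
  set f : ℝ → ℝ := fun t => Real.log ‖G (q + t * (p - q))‖ with hf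
  have hder : ∀ t ∈ Set.Icc (0 : ℝ) 1, HasDerivAt f
      ((deriv G (q + t * (p - q)) * (p - q) / G (q + t * (p - q))).re) t := by
    intro t ht
    refine hasDerivAt_log_norm ?_ (h.ne _ (hseg t ht))
    have h1 : HasDerivAt (fun t : ℝ => q + t * (p - q)) (p - q) t := by
      have := (((Complex.ofRealCLM.hasDerivAt (x := t)).mul_const (p - q))).const_add q
      simpa using this
    have h2 := (hG (q + t * (p - q))).hasDerivAt.scomp t h1
    refine h2.congr_deriv ?_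
    rw [smul_eq_mul]; ring
  have hb : ∀ t ∈ Set.Icc (0 : ℝ) 1,
      (deriv G (q + t * (p - q)) * (p - q) / G (q + t * (p - q))).re ≤
        p.im - q.im + ε * ‖p - q‖ := by
    intro t ht
    have h1 := h.ld _ (hseg t ht)
    have e : deriv G (q + t * (p - q)) * (p - q) / G (q + t * (p - q)) =
        (logDeriv G (q + t * (p - q)) + I) * (p - q) - I * (p - q) := by
      rw [logDeriv_apply]; ring
    rw [e, sub_re]
    have h2 : (I * (p - q)).re = -(p.im - q.im) := by simp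
    rw [h2]
    have h3 := (Complex.re_le_norm ((logDeriv G (q + t * (p - q)) + I) * (p - q)))
    rw [norm_mul] at h3
    have h4 : ‖logDeriv G (q + t * (p - q)) + I‖ * ‖p - q‖ ≤ ε * ‖p - q‖ := by gcongr
    linarith
  have hmv : f 1 - f 0 ≤ (p.im - q.im + ε * ‖p - q‖) * (1 - 0) := by
    refine (convex_Icc (0 : ℝ) 1).image_sub_le_mul_sub_of_deriv_le
      (fun t ht => (hder t ht).continuousAt.continuousWithinAt)
      (fun t ht => ?_) (fun t ht => ?_) 0 (by simp) 1 (by simp) (by norm_num)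
    · rw [interior_Icc] at ht
      exact (hder t ⟨ht.1.le, ht.2.le⟩).differentiableAt.differentiableWithinAt
    · rw [interior_Icc] at ht
      rw [(hder t ⟨ht.1.le, ht.2.le⟩).deriv]
      exact hb t ⟨ht.1.le, ht.2.le⟩
  have e1 : f 1 = Real.log ‖G p‖ := by rw [hf]; simp
  have e0 : f 0 = Real.log ‖G q‖ := by rw [hf]; simp
  rw [e1, e0] at hmv
  have hp0 : 0 < ‖G p‖ := norm_pos_iff.2 (h.ne p hp)
  have hq0 : 0 < ‖G q‖ := norm_pos_iff.2 (h.ne q hq)
  calc ‖G p‖ = Real.exp (Real.log ‖G p‖) := (Real.exp_log hp0).symm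
    _ ≤ Real.exp (Real.log ‖G q‖ + (p.im - q.im + ε * ‖p - q‖)) :=
        Real.exp_le_exp.2 (by linarith)
    _ = _ := by rw [Real.exp_add, Real.exp_log hq0]

/-- the logarithmic derivative is Lipschitz well inside the cone -/
lemma cone_lip {G : ℂ → ℂ} (hG : Differentiable ℂ G) {M H ε r R : ℝ} {c : ℂ} (h : Cone G M H ε)
    (hε : 0 ≤ ε) (hr : 0 < r) (hin : ∀ u ∈ ball c (R + r), u ∈ Kc M H) :
    ∀ u ∈ ball c R, ∀ u' ∈ ball c R, ‖logDeriv G u - logDeriv G u'‖ ≤ ε / (r / 2) * ‖u - u'‖ := by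
  have hd : ∀ u ∈ ball c (R + r), DifferentiableAt ℂ (logDeriv G) u := by
    intro u hu
    have h1 : AnalyticAt ℂ G u := hG.analyticAt u
    exact (h1.deriv.div h1 (h.ne u (hin u hu))).differentiableAt
  have hder : ∀ u ∈ ball c R, ‖deriv (logDeriv G) u‖ ≤ ε / (r / 2) := by
    intro u hu
    have hsub : ∀ w, ‖w - u‖ ≤ r / 2 → w ∈ ball c (R + r) := by
      intro w hw
      rw [mem_ball, dist_eq_norm] at hu ⊢
      calc ‖w - c‖ = ‖(w - u) + (u - c)‖ := by congr 1; ring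
        _ ≤ ‖w - u‖ + ‖u - c‖ := norm_add_le _ _
        _ < R + r := by linarith
    have e : deriv (logDeriv G) u = deriv (fun w => logDeriv G w + I) u := by
      rw [deriv_add_const]
    rw [e]
    refine Complex.norm_deriv_le_of_forall_mem_sphere_norm_le (by positivity) ?_ ?_
    · apply DifferentiableOn.diffContOnCl
      intro w hw
      rw [closure_ball _ (by positivity), mem_closedBall, dist_eq_norm] at hw
      exact ((hd w (hsub w hw)).add_const I).differentiableWithinAt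
    · intro w hw
      rw [mem_sphere, dist_eq_norm] at hw
      exact h.ld w (hin w (hsub w hw.le))
  intro u hu u' hu'
  have := (convex_ball c R).norm_image_sub_le_of_norm_deriv_le (𝕜 := ℂ) (f := logDeriv G)
    (fun w hw => hd w (ball_subset_ball (by linarith) hw)) hder hu' hu
  exact this

/-- the saddle point -/
lemma exists_v {G : ℂ → ℂ} {m ε : ℝ} (hm : 0 < m) (hε : 0 < ε) (hε1 : ε ≤ 1 / 1000) {z0 : ℂ}
    (hld : ∀ v : ℂ, ‖v - m * I‖ ≤ m / 10 → ‖logDeriv G (z0 + v) + I‖ ≤ ε)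
    (hlip : ∀ v v' : ℂ, ‖v - m * I‖ ≤ m / 10 → ‖v' - m * I‖ ≤ m / 10 →
      ‖logDeriv G (z0 + v) - logDeriv G (z0 + v')‖ ≤ 1 / (4 * m) * ‖v - v'‖) :
    ∃ v : ℂ, v * logDeriv G (z0 + v) = m ∧ ‖v - m * I‖ ≤ 2 * ε * m := by
  set R0 := 2 * ε * m with hR0
  have hR0pos : 0 ≤ R0 := by positivity
  have hR0le : R0 ≤ m / 10 := by rw [hR0]; nlinarith
  set P : ℂ → ℂ := fun v => logDeriv G (z0 + v) with hP
  have hPn : ∀ v : ℂ, ‖v - m * I‖ ≤ R0 → 999 / 1000 ≤ ‖P v‖ := by
    intro v hv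
    have h1 := hld v (hv.trans hR0le)
    have h2 : ‖(-I : ℂ)‖ - ‖P v‖ ≤ ‖-I - P v‖ := norm_sub_norm_le _ _
    have h3 : ‖-I - P v‖ = ‖P v + I‖ := by
      rw [← norm_neg]; congr 1; ring
    rw [h3, norm_neg, norm_I] at h2
    have : ‖P v + I‖ ≤ ε := h1
    linarith
  have hPne : ∀ v : ℂ, ‖v - m * I‖ ≤ R0 → P v ≠ 0 := by
    intro v hv h0
    have := hPn v hv
    rw [h0, norm_zero] at this
    linarith
  set T : ℂ → ℂ := fun v => (m : ℂ) / P v with hT
  have hTmap : Set.MapsTo T (closedBall (m * I : ℂ) R0) (closedBall (m * I : ℂ) R0) := by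
    intro v hv
    rw [mem_closedBall, dist_eq_norm] at hv ⊢
    have h0 := hPne v hv
    have e : T v - m * I = -(m * I * (P v + I)) / P v := by
      rw [hT]
      simp only
      field_simp
      have : I ^ 2 = -1 := I_sq
      linear_combination (m : ℂ) * this
    rw [e, norm_div, norm_neg, norm_mul, norm_mul, norm_I, mul_one, Complex.norm_real,
      Real.norm_of_nonneg hm.le, div_le_iff₀ (norm_pos_iff.2 h0)]
    have h1 := hld v (hv.trans hR0le)
    have h2 := hPn v hv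
    calc m * ‖P v + I‖ ≤ m * ε := by gcongr
      _ ≤ R0 * (1 / 2) := by rw [hR0]; linarith
      _ ≤ R0 * ‖P v‖ := by gcongr; linarith
  have hlipT : ∀ v ∈ closedBall (m * I : ℂ) R0, ∀ v' ∈ closedBall (m * I : ℂ) R0,
      dist (T v) (T v') ≤ 1 / 2 * dist v v' := by
    intro v hv v' hv'
    rw [mem_closedBall, dist_eq_norm] at hv hv'
    rw [dist_eq_norm, dist_eq_norm, hT]
    simp only
    have e : (m : ℂ) / P v - m / P v' = m * (P v' - P v) / (P v * P v') := by
      have := hPne v hv; have := hPne v' hv'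
      field_simp
    rw [e, norm_div, norm_mul, norm_mul, Complex.norm_real, Real.norm_of_nonneg hm.le]
    have h1 := hlip v' v (hv'.trans hR0le) (hv.trans hR0le)
    have h1' : ‖P v' - P v‖ ≤ 1 / (4 * m) * ‖v - v'‖ := by
      rw [norm_sub_rev v v']; exact h1
    have h2 := hPn v hv
    have h3 := hPn v' hv'
    have h4 : (1 / 2 : ℝ) ≤ ‖P v‖ * ‖P v'‖ := by nlinarith
    rw [div_le_iff₀ (by linarith)]
    calc m * ‖P v' - P v‖ ≤ m * (1 / (4 * m) * ‖v - v'‖) := by gcongr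
      _ = 1 / 4 * ‖v - v'‖ := by field_simp
      _ = 1 / 2 * ‖v - v'‖ * (1 / 2) := by ring
      _ ≤ 1 / 2 * ‖v - v'‖ * (‖P v‖ * ‖P v'‖) := by gcongr
  have hcontr : ContractingWith (1 / 2) (hTmap.restrict T _ _) := by
    refine ⟨by norm_num, ?_⟩
    apply LipschitzWith.of_dist_le_mul
    intro a b
    have := hlipT a.1 a.2 b.1 b.2
    rw [Subtype.dist_eq, Subtype.dist_eq]
    simpa using this
  obtain ⟨v, hv, hfix, -⟩ := hcontr.exists_fixedPoint' isClosed_closedBall.isComplete hTmap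
    (mem_closedBall_self hR0pos) (edist_ne_top _ _)
  have hvR : ‖v - m * I‖ ≤ R0 := by rwa [mem_closedBall, dist_eq_norm] at hv
  have hPv := hPne v hvR
  have hfix' : (m : ℂ) / P v = v := hfix
  refine ⟨v, ?_, hvR⟩
  rw [div_eq_iff hPv] at hfix'
  exact hfix'.symm

end Pool.Agent.Helper75.Xi
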