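import Pool.Agent.Helper75.Xi.Det

set_option autoImplicit false
set_option maxHeartbeats 1000000

open Complex Filter Topology Metric MeasureTheory intervalIntegral

namespace Pool.Agent.Helper75.Xi

open Pool.Agent.Helper75.Jen

/-- the small parameter -/
noncomputable def ee : ℝ := 1 / 10 ^ 6

lemma ee_pos : 0 < ee := by unfold ee; norm_num

/-- all data of the saddle point over `z0` -/
structure SData (G : ℂ → ℂ) (M H : ℝ) (m : ℕ) (z0 v : ℂ) : Prop where
  eq : v * logDeriv G (z0 + v) = m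
  near : ‖v - m * I‖ ≤ 2 * ee * m
  inK : ∀ u, ‖u - (z0 + m * I)‖ < 3 / 4 * m → u ∈ Kc M H
  lip : ∀ u ∈ ball (z0 + v) (6 / 10 * m), ∀ u' ∈ ball (z0 + v) (6 / 10 * m),
    ‖logDeriv G u - logDeriv G u'‖ ≤ (2 / 10 ^ 5) / m * ‖u - u'‖

lemma sdata {G : ℂ → ℂ} (hG : Differentiable ℂ G) {M H : ℝ} (h : Cone G M H ee) {m : ℕ}
    (hm : (10 : ℝ) ^ 9 ≤ m) {z0 : ℂ} (h1 : |z0.re| ≤ 1) (h2 : M / 8 ≤ z0.im + m / 4)
    (h3 : 0 ≤ z0.im) (h4 : z0.im + 2 * m ≤ H) : ∃ v, SData G M H m z0 v := by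
  have hm0 : (0 : ℝ) < m := by linarith
  have he := ee_pos
  have heq : ee = 1 / 10 ^ 6 := rfl
  have hin : ∀ u, ‖u - (z0 + m * I)‖ < 3 / 4 * m → u ∈ Kc M H := by
    intro u hu
    have a1 := (Complex.abs_re_le_norm (u - (z0 + m * I))).trans hu.le
    have a2 := (Complex.abs_im_le_norm (u - (z0 + m * I))).trans hu.le
    simp only [sub_re, add_re, mul_re, natCast_re, natCast_im, I_re, I_im, mul_zero, zero_mul,
      sub_zero, add_zero, sub_im, add_im, mul_im, mul_one, zero_add] at a1 a2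
    rw [abs_le] at a1 a2 h1
    refine ⟨by linarith [a2.1], by linarith [a2.2], ?_⟩
    rw [abs_le]
    constructor <;> linarith [a2.1, a1.1, a1.2, h1.1, h1.2]
  have hlip0 := cone_lip hG h he.le (c := z0 + m * I) (R := 65 / 100 * m) (r := m / 10)
    (by positivity) (fun u hu => hin u (by
      rw [mem_ball, dist_eq_norm] at hu
      linarith))
  have hconst : ee / (m / 10 / 2) = (2 / 10 ^ 5) / m := by
    rw [heq]; field_simp
  rw [hconst] at hlip0
  have hmem : ∀ v : ℂ, ‖v - m * I‖ ≤ m / 10 → z0 + v ∈ ball (z0 + m * I) (65 / 100 * m) := by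
    intro v hv
    rw [mem_ball, dist_eq_norm, show z0 + v - (z0 + m * I) = v - m * I by ring]
    linarith
  obtain ⟨v, hv1, hv2⟩ := exists_v (G := G) (m := (m : ℝ)) (ε := ee) hm0 he (by rw [heq]; norm_num)
    (z0 := z0) (fun v hv => by
      refine h.ld _ (hin _ ?_)
      rw [show z0 + v - (z0 + m * I) = v - m * I by ring]
      push_cast at hv
      linarith)
    (fun v v' hv hv' => by
      push_cast at hv hv'
      refine (hlip0 _ (hmem v hv) _ (hmem v' hv')).trans ?_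
      rw [show z0 + v - (z0 + v') = v - v' by ring]
      refine mul_le_mul_of_nonneg_right ?_ (norm_nonneg _)
      rw [div_le_div_iff₀ hm0 (by positivity)]
      linarith)
  push_cast at hv1 hv2
  refine ⟨v, hv1, hv2, hin, ?_⟩
  have hsub : ball (z0 + v) (6 / 10 * m) ⊆ ball (z0 + m * I) (65 / 100 * m) := by
    intro u hu
    rw [mem_ball, dist_eq_norm] at hu ⊢
    have : u - (z0 + m * I) = (u - (z0 + v)) + (v - m * I) := by ring
    rw [this]
    refine (norm_add_le _ _).trans_lt ?_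
    have : 2 * ee * m ≤ 5 / 100 * m := by rw [heq]; nlinarith
    linarith
  intro u hu u' hu'
  exact hlip0 u (hsub hu) u' (hsub hu')

section geom

variable {m : ℝ} {v : ℂ}

lemma v_im (h : ‖v - m * I‖ ≤ 2 * ee * m) : m * (1 - 2 * ee) ≤ v.im ∧ v.im ≤ m * (1 + 2 * ee) := by
  have a2 := (Complex.abs_im_le_norm (v - m * I)).trans h
  simp only [sub_im, im_ofReal_mul, I_im, mul_one] at a2
  rw [abs_le] at a2
  constructor <;> linarith [a2.1, a2.2]

lemma v_re (h : ‖v - m * I‖ ≤ 2 * ee * m) : |v.re| ≤ 2 * ee * m := by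
  have a2 := (Complex.abs_re_le_norm (v - m * I)).trans h
  simpa only [sub_re, re_ofReal_mul, I_re, mul_zero, sub_zero] using a2

lemma v_norm (hm : 0 < m) (h : ‖v - m * I‖ ≤ 2 * ee * m) :
    m * (1 - 2 * ee) ≤ ‖v‖ ∧ ‖v‖ ≤ m * (1 + 2 * ee) := by
  have e : ‖(m * I : ℂ)‖ = m := by rw [norm_mul, norm_I, mul_one, norm_real, Real.norm_of_nonneg hm.le]
  constructor
  · have := norm_sub_norm_le (m * I : ℂ) v
    rw [e, norm_sub_rev] at this
    linarith
  · have : v = (v - m * I) + m * I := by ring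
    rw [this]
    refine (norm_add_le _ _).trans ?_
    rw [e]; linarith

lemma v_dir (hm : 0 < m) (h : ‖v - m * I‖ ≤ 2 * ee * m) : 98 / 100 * ‖v‖ ≤ v.im := by
  have h1 := (v_im h).1
  have h2 := (v_norm hm h).2
  have heq : ee = 1 / 10 ^ 6 := rfl
  rw [heq] at h1 h2
  norm_num at h1 h2 ⊢
  linarith

/-- the gain on the circle -/
lemma gain (hm : 0 < m) (h : ‖v - m * I‖ ≤ 2 * ee * m) {φ : ℝ} (hφ : |φ - arg v| ≤ Real.pi) :
    ‖v‖ * Real.sin φ - v.im ≤ -(199 / 1000) * m * (φ - arg v) ^ 2 + m / 10 ^ 5 ∧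
    v.im * Real.cos (φ - arg v) - m / 10 ^ 5 ≤ ‖v‖ * Real.sin φ := by
  have hn := v_norm hm h
  have hi := v_im h
  have hr := v_re h
  have heq : ee = 1 / 10 ^ 6 := rfl
  rw [heq] at hn hi hr
  have hv0 : 0 < ‖v‖ := lt_of_lt_of_le (by norm_num; positivity) hn.1
  set θ := φ - arg v with hθ
  have e1 : ‖v‖ * Real.sin φ = v.im * Real.cos θ + v.re * Real.sin θ := by
    have e2 : φ = arg v + θ := by rw [hθ]; ring
    rw [e2, Real.sin_add]
    have e3 : ‖v‖ * Real.sin (arg v) = v.im := by rw [Complex.sin_arg]; field_simp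
    have e4 : ‖v‖ * Real.cos (arg v) = v.re := by
      rw [Complex.cos_arg (norm_pos_iff.1 hv0)]; field_simp
    rw [← e3, ← e4]
    ring
  have hs : |v.re * Real.sin θ| ≤ m / 10 ^ 5 := by
    rw [abs_mul]
    have := Real.abs_sin_le_one θ
    calc |v.re| * |Real.sin θ| ≤ (2 * (1 / 10 ^ 6) * m) * 1 := by gcongr
      _ ≤ m / 10 ^ 5 := by norm_num; linarith
  rw [abs_le] at hs
  constructor
  · rw [e1]
    have h1 := Real.cos_le_one_sub_mul_cos_sq hφ
    have hpi2 : Real.pi ^ 2 ≤ 9.9 := by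
      have := Real.pi_lt_d4
      nlinarith [Real.pi_pos]
    have h3 : 2 / 9.9 ≤ 2 / Real.pi ^ 2 := by gcongr
    have h5 : Real.cos θ - 1 ≤ -(2 / 9.9) * θ ^ 2 := by
      have := mul_le_mul_of_nonneg_right h3 (sq_nonneg θ)
      linarith
    have h6 : v.im * (Real.cos θ - 1) ≤ v.im * (-(2 / 9.9) * θ ^ 2) := by
      refine mul_le_mul_of_nonneg_left h5 ?_
      norm_num at hi
      linarith
    have h7 : 199 / 1000 * m ≤ v.im * (2 / 9.9) := by
      norm_num at hi ⊢
      linarith [hi.1]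
    have h8 := mul_le_mul_of_nonneg_right h7 (sq_nonneg θ)
    linarith [hs.2]
  · rw [e1]
    linarith [hs.1]

end geom

end Pool.Agent.Helper75.Xi
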