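import Pool.Agent.Helper75.Xi.Det2

set_option autoImplicit false
set_option maxHeartbeats 1000000

open Complex Filter Topology Metric MeasureTheory intervalIntegral

namespace Pool.Agent.Helper75.Xi

open Pool.Agent.Helper75.Jen

/-- the saddle point theorem in the present setting -/
lemma apply_saddle {G : ℂ → ℂ} (hG : Differentiable ℂ G) {M H : ℝ} (h : Cone G M H ee) {m : ℕ}
    (hm : (10 : ℝ) ^ 9 ≤ m) {z z0 v : ℂ} (hD : SData G M H m z0 v) (hz : ‖z - z0‖ ≤ 2)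
    (hoff : ∀ φ ∈ Set.Icc (0 : ℝ) Real.pi, 1 / 2 < |φ - arg v| →
      ‖G (z + ‖v‖ * cexp (φ * I))‖ ≤ ‖G (z + v)‖ * Real.exp (-(3 / 20) * m * (φ - arg v) ^ 2)) :
    (∀ φ ∈ Set.Icc (0 : ℝ) Real.pi, ‖G (z + ‖v‖ * cexp (φ * I))‖ ≤
      11 / 10 * ‖G (z + v)‖ * Real.exp (-(3 / 20) * m * (φ - arg v) ^ 2)) ∧
    ‖G (z + v)‖ / Real.sqrt m ≤ ‖AA G m ‖v‖ z‖ ∧ 0 < ‖G (z + v)‖ ∧
    0 < (I * AA (deriv G) m ‖v‖ z * starRingEnd ℂ (AA G m ‖v‖ z)).re := by
  have hm0 : (0 : ℝ) < m := by linarith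
  have hn := v_norm hm0 hD.near
  have heq : ee = 1 / 10 ^ 6 := rfl
  rw [heq] at hn
  have hv1 : ‖v‖ ≤ 101 / 100 * m := by norm_num at hn; linarith
  have hv0 := norm_nonneg v
  refine saddle2 hG hm (L := (2 / 10 ^ 5) / m) (Y := 2) (R := 6 / 10 * m) (by positivity) ?_ hD.lip
    hD.eq (v_dir hm0 hD.near) hz ?_ ?_ ?_ hoff
  · intro u hu
    refine h.ne u (hD.inK u ?_)
    rw [mem_ball, dist_eq_norm] at hu
    have e : u - (z0 + m * I) = (u - (z0 + v)) + (v - m * I) := by ring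
    rw [e]
    refine (norm_add_le _ _).trans_lt ?_
    have := hD.near
    rw [heq] at this
    norm_num at this
    linarith
  · linarith
  · calc ‖v‖ ^ 2 * (2 / 10 ^ 5 / (m : ℝ)) ≤ (101 / 100 * (m : ℝ)) ^ 2 * (2 / 10 ^ 5 / (m : ℝ)) := by
          gcongr
      _ = (101 / 100) ^ 2 * (2 / 10 ^ 5) * (m : ℝ) := by field_simp
      _ ≤ 1 / 10000 * (m : ℝ) := mul_le_mul_of_nonneg_right (by norm_num) hm0.le
  · calc ‖v‖ * (2 / 10 ^ 5 / (m : ℝ)) * 2 ≤ (101 / 100 * (m : ℝ)) * (2 / 10 ^ 5 / (m : ℝ)) * 2 := by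
          gcongr
      _ = (101 / 100) * (2 / 10 ^ 5) * 2 := by field_simp
      _ ≤ 1 / 200 := by norm_num

lemma ball_half {m : ℕ} {B K φ1 : ℝ} {f : ℝ → ℂ} (hm : (10 : ℝ) ^ 9 ≤ m) (hB : 0 ≤ B)
    (hf : ∀ φ ∈ Set.Icc (0 : ℝ) Real.pi, ‖f φ‖ ≤ B * Real.exp (-(3 / 20) * m * (φ - φ1) ^ 2))
    (hK : K = ‖∫ φ in (0 : ℝ)..Real.pi, f φ‖) : K ≤ 5 * B / Real.sqrt m := by
  have hm0 : (0 : ℝ) < m := by linarith
  rw [hK]
  refine (intervalIntegral.norm_integral_le_of_norm_le Real.pi_pos.le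
      (Eventually.of_forall fun φ hφ => hf φ (Set.Ioc_subset_Icc_self hφ))
      (Continuous.intervalIntegrable (by fun_prop) _ _)).trans ?_
  rw [intervalIntegral.integral_const_mul]
  have e : ∀ φ : ℝ, -(3 / 20) * (m : ℝ) * (φ - φ1) ^ 2 = -(3 / 20 * (m : ℝ)) * (φ - φ1) ^ 2 := by
    intro φ; ring
  simp only [e]
  have hG2 := gauss_le (3 / 20 * (m : ℝ)) φ1 (by positivity)
  have h5 : Real.sqrt (Real.pi / (3 / 20 * m)) ≤ 5 / Real.sqrt m := by
    rw [Real.sqrt_div' _ (by positivity), Real.sqrt_mul (by norm_num),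
      div_le_div_iff₀ (by positivity) (by positivity)]
    have h1 : Real.sqrt Real.pi ≤ 5 * Real.sqrt (3 / 20) := by
      apply Real.sqrt_le_iff.2
      constructor
      · positivity
      · rw [mul_pow, Real.sq_sqrt (by norm_num)]
        have := Real.pi_lt_d2
        nlinarith
    have h2 := Real.sqrt_nonneg m
    nlinarith
  calc B * ∫ φ in (0 : ℝ)..Real.pi, Real.exp (-(3 / 20 * (m : ℝ)) * (φ - φ1) ^ 2)
      ≤ B * (5 / Real.sqrt m) := by gcongr; exact hG2.trans h5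
    _ = _ := by ring

/-- nonvanishing from the saddle point -/
lemma nonvan {G : ℂ → ℂ} (hG : Differentiable ℂ G)
    (hsym : ∀ z, G (starRingEnd ℂ z) = starRingEnd ℂ (G z)) {m : ℕ}
    (hm : (10 : ℝ) ^ 9 ≤ m) {z v : ℂ} (hv : 0 < ‖v‖)
    (hA : ‖G (z + v)‖ / Real.sqrt m ≤ ‖AA G m ‖v‖ z‖)
    (hlow : ∀ φ ∈ Set.Icc (0 : ℝ) Real.pi, ‖G (starRingEnd ℂ z + ‖v‖ * cexp (φ * I))‖ ≤
      1 / 12 * ‖G (z + v)‖ * Real.exp (-(3 / 20) * m * (φ - arg v) ^ 2)) :
    ‖G (z + v)‖ / (2 * Real.sqrt m) ≤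
      ‖iteratedDeriv m G z‖ * (2 * Real.pi * ‖v‖ ^ m / m.factorial) := by
  have hm0 : (0 : ℝ) < m := by linarith
  have hs : 0 < Real.sqrt m := Real.sqrt_pos.2 hm0
  have hc := cauchy_form hG hsym m hv z
  have h1 : ‖AA G m ‖v‖ (starRingEnd ℂ z)‖ ≤ 5 * (1 / 12 * ‖G (z + v)‖) / Real.sqrt m := by
    refine ball_half (f := Ic G m ‖v‖ (starRingEnd ℂ z)) (φ1 := arg v) hm (by positivity) ?_ rfl
    intro φ hφ
    have e : ‖Ic G m ‖v‖ (starRingEnd ℂ z) φ‖ = ‖G (starRingEnd ℂ z + ‖v‖ * cexp (φ * I))‖ := by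
      unfold Ic
      rw [norm_mul, show (-(m * φ * I) : ℂ) = ((-(m * φ) : ℝ) : ℂ) * I by push_cast; ring,
        Complex.norm_exp_ofReal_mul_I, mul_one]
    rw [e]
    exact hlow φ hφ
  have h2 : ‖AA G m ‖v‖ z‖ - ‖AA G m ‖v‖ (starRingEnd ℂ z)‖ ≤
      ‖iteratedDeriv m G z‖ * (2 * Real.pi * ‖v‖ ^ m / m.factorial) := by
    have h3 : ‖AA G m ‖v‖ z + starRingEnd ℂ (AA G m ‖v‖ (starRingEnd ℂ z))‖ =
        ‖iteratedDeriv m G z‖ * (2 * Real.pi * ‖v‖ ^ m / m.factorial) := by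
      rw [← hc, norm_mul]
      congr 1
      rw [norm_div, norm_mul, norm_mul, norm_pow, Complex.norm_ofNat, Complex.norm_real,
        Complex.norm_real, Real.norm_of_nonneg Real.pi_pos.le, Real.norm_of_nonneg hv.le,
        Complex.norm_natCast]
    rw [← h3]
    have h4 := norm_sub_le (AA G m ‖v‖ z + starRingEnd ℂ (AA G m ‖v‖ (starRingEnd ℂ z)))
      (starRingEnd ℂ (AA G m ‖v‖ (starRingEnd ℂ z)))
    rw [add_sub_cancel_right, Complex.norm_conj] at h4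
    linarith
  have h5 : ‖G (z + v)‖ / (2 * Real.sqrt m) ≤ ‖G (z + v)‖ / Real.sqrt m -
      5 * (1 / 12 * ‖G (z + v)‖) / Real.sqrt m := by
    have e : ‖G (z + v)‖ / Real.sqrt m - 5 * (1 / 12 * ‖G (z + v)‖) / Real.sqrt m -
        ‖G (z + v)‖ / (2 * Real.sqrt m) = 1 / 12 * (‖G (z + v)‖ / Real.sqrt m) := by
      field_simp; ring
    have : 0 ≤ ‖G (z + v)‖ / Real.sqrt m := by positivity
    linarith
  linarith

/-- points on the circle -/
lemma circ_re_im (z : ℂ) (ρ φ : ℝ) : (z + ρ * cexp (φ * I)).re = z.re + ρ * Real.cos φ ∧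
    (z + ρ * cexp (φ * I)).im = z.im + ρ * Real.sin φ := by
  constructor
  · rw [add_re, re_ofReal_mul, Complex.exp_ofReal_mul_I_re]
  · rw [add_im, im_ofReal_mul, Complex.exp_ofReal_mul_I_im]

lemma conj_norm {G : ℂ → ℂ} (hsym : ∀ z, G (starRingEnd ℂ z) = starRingEnd ℂ (G z)) (z : ℂ) :
    ‖G (starRingEnd ℂ z)‖ = ‖G z‖ := by rw [hsym, Complex.norm_conj]

/-- far from the real line -/
lemma far {G : ℂ → ℂ} (hG : Differentiable ℂ G)
    (hsym : ∀ z, G (starRingEnd ℂ z) = starRingEnd ℂ (G z)) {M H : ℝ} (h : Cone G M H ee) {m : ℕ}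
    (hm : (10 : ℝ) ^ 9 ≤ m) (hmM : m ≤ M) {z : ℂ} (h1 : |z.re| ≤ 1) (h2 : 2 * M ≤ z.im)
    (h3 : z.im + 2 * M ≤ H) :
    ∃ v : ℂ, ‖v - m * I‖ ≤ 2 * ee * m ∧ 0 < ‖G (z + v)‖ ∧ ‖G (z + v)‖ / (2 * Real.sqrt m) ≤
      ‖iteratedDeriv m G z‖ * (2 * Real.pi * ‖v‖ ^ m / m.factorial) := by
  have hm0 : (0 : ℝ) < m := by linarith
  obtain ⟨v, hD⟩ := sdata hG h hm h1 (by linarith) (by linarith) (by linarith)
  have heq : ee = 1 / 10 ^ 6 := rfl
  have hn := v_norm hm0 hD.near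
  have hi := v_im hD.near
  have hr := v_re hD.near
  rw [heq] at hn hi hr
  norm_num at hn hi hr
  have hv1 : ‖v‖ ≤ 101 / 100 * m := by linarith
  have hv0 : 99 / 100 * m ≤ ‖v‖ := by linarith
  have hvpos : 0 < ‖v‖ := by linarith
  -- every point near `z` is in the cone
  have hK : ∀ p : ℂ, ‖p - z‖ ≤ 101 / 100 * m → p ∈ Kc M H := by
    intro p hp
    have a1 := (Complex.abs_re_le_norm (p - z)).trans hp
    have a2 := (Complex.abs_im_le_norm (p - z)).trans hp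
    rw [sub_re, abs_le] at a1
    rw [sub_im, abs_le] at a2
    rw [abs_le] at h1
    refine ⟨by linarith [a2.1], by linarith [a2.2], ?_⟩
    rw [abs_le]
    constructor <;> linarith [a2.1, a1.1, a1.2, h1.1, h1.2]
  have hq : z + v ∈ Kc M H := hK _ (by rw [add_sub_cancel_left]; exact hv1)
  have hcirc : ∀ φ : ℝ, ‖(z + ‖v‖ * cexp (φ * I)) - z‖ = ‖v‖ := by
    intro φ
    rw [add_sub_cancel_left, norm_mul, Complex.norm_exp_ofReal_mul_I, mul_one, Complex.norm_real,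
      norm_norm]
  have hdist : ∀ p : ℂ, ‖p - z‖ ≤ 101 / 100 * m → ee * ‖p - (z + v)‖ ≤ m / 10 ^ 5 := by
    intro p hp
    have : ‖p - (z + v)‖ ≤ 202 / 100 * m := by
      have e : p - (z + v) = (p - z) - v := by ring
      rw [e]
      exact (norm_sub_le _ _).trans (by linarith)
    rw [heq]
    norm_num at this ⊢
    linarith
  obtain ⟨b1, b2, b3, -⟩ := apply_saddle hG h hm hD (z := z) (by simp) (by
    intro φ hφ hoff
    have hp := hK _ ((hcirc φ).le.trans hv1)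
    have h5 := cone_le hG h hp hq
    refine h5.trans (mul_le_mul_of_nonneg_left (Real.exp_le_exp.2 ?_) (norm_nonneg _))
    have h6 := hdist _ ((hcirc φ).le.trans hv1)
    rw [(circ_re_im z ‖v‖ φ).2, add_im]
    have hpi : |φ - arg v| ≤ Real.pi := by
      have a1 := Complex.arg_nonneg_iff.2 (show 0 ≤ v.im by linarith)
      have a2 := Complex.arg_le_pi v
      rw [abs_le]; constructor <;> linarith [hφ.1, hφ.2]
    have h7 := (gain hm0 hD.near hpi).1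
    have h8 : 1 / 4 ≤ (φ - arg v) ^ 2 := by rw [← sq_abs]; nlinarith
    nlinarith)
  refine ⟨v, hD.near, b3, nonvan hG hsym hm hvpos b2 ?_⟩
  intro φ hφ
  have e1 : starRingEnd ℂ z + ‖v‖ * cexp (φ * I) =
      starRingEnd ℂ (z + ‖v‖ * cexp ((-φ : ℝ) * I)) := by
    rw [map_add, map_mul, Complex.conj_ofReal, ← Complex.exp_conj, map_mul, Complex.conj_ofReal,
      Complex.conj_I]
    congr 3
    push_cast; ring
  rw [e1, conj_norm hsym]
  have hp := hK _ ((hcirc (-φ)).le.trans hv1)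
  have h5 := cone_le hG h hp hq
  have h6 := hdist _ ((hcirc (-φ)).le.trans hv1)
  rw [(circ_re_im z ‖v‖ (-φ)).2, add_im, Real.sin_neg] at h5
  have hpi : |φ - arg v| ≤ Real.pi := by
    have a1 := Complex.arg_nonneg_iff.2 (show 0 ≤ v.im by linarith)
    have a2 := Complex.arg_le_pi v
    rw [abs_le]; constructor <;> linarith [hφ.1, hφ.2]
  have hsinn : 0 ≤ Real.sin φ := Real.sin_nonneg_of_mem_Icc hφ
  have h9 : Real.exp (-3) ≤ 1 / 12 := by
    rw [Real.exp_neg, inv_le_comm₀ (Real.exp_pos _) (by norm_num)]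
    have : (2.7 : ℝ) ≤ Real.exp 1 := by linarith [Real.exp_one_gt_d9]
    have h10 : Real.exp 3 = Real.exp 1 ^ 3 := by rw [← Real.exp_nat_mul]; norm_num
    rw [h10]
    calc (1 / 12 : ℝ)⁻¹ ≤ 2.7 ^ 3 := by norm_num
      _ ≤ _ := by gcongr
  -- angle range: |φ - arg v| ≤ 2
  have harg : |φ - arg v| ≤ 2 := by
    have a0 : ‖v‖ * Real.cos (arg v) = v.re := by
      rw [Complex.cos_arg (norm_pos_iff.1 hvpos)]; field_simp
    have a3 : |Real.cos (arg v)| ≤ 1 / 1000 := by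
      have : |v.re| = ‖v‖ * |Real.cos (arg v)| := by rw [← a0, abs_mul, abs_norm]
      rw [this] at hr
      by_contra hcon
      push Not at hcon
      nlinarith
    have b1 := Complex.arg_nonneg_iff.2 (show 0 ≤ v.im by linarith)
    have b2 := Complex.arg_le_pi v
    rw [abs_le] at a3
    have c1 : 1.2 ≤ arg v := by
      by_contra hcon
      push Not at hcon
      have := Real.cos_lt_cos_of_nonneg_of_le_pi b1 (by linarith [Real.pi_gt_three]) hcon
      have c2 := Real.one_sub_sq_div_two_le_cos (x := 1.2)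
      norm_num at c2
      linarith
    have c3 : arg v ≤ Real.pi - 1.2 := by
      by_contra hcon
      push Not at hcon
      have := Real.cos_lt_cos_of_nonneg_of_le_pi (by linarith [Real.pi_gt_three]) b2 hcon
      rw [Real.cos_pi_sub] at this
      have c2 := Real.one_sub_sq_div_two_le_cos (x := 1.2)
      norm_num at c2
      linarith
    have := Real.pi_lt_d2
    rw [abs_le]
    constructor <;> linarith [hφ.1, hφ.2]
  calc ‖G (z + ‖v‖ * cexp ((-φ : ℝ) * I))‖ ≤ ‖G (z + v)‖ * Real.exp (-3 + -(3 / 20) * m * (φ - arg v) ^ 2) := by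
        refine h5.trans (mul_le_mul_of_nonneg_left (Real.exp_le_exp.2 ?_) (norm_nonneg _))
        have h8 : (φ - arg v) ^ 2 ≤ 4 := by rw [← sq_abs]; nlinarith [abs_nonneg (φ - arg v)]
        have h11 : 0 ≤ ‖v‖ * Real.sin φ := by positivity
        nlinarith
    _ = Real.exp (-3) * (‖G (z + v)‖ * Real.exp (-(3 / 20) * m * (φ - arg v) ^ 2)) := by
        rw [Real.exp_add]; ring
    _ ≤ 1 / 12 * (‖G (z + v)‖ * Real.exp (-(3 / 20) * m * (φ - arg v) ^ 2)) := by gcongr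
    _ = _ := by ring

end Pool.Agent.Helper75.Xi
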