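import Pool.Agent.Helper75.Xi.Det3

set_option autoImplicit false
set_option maxHeartbeats 1000000

open Complex Filter Topology Metric MeasureTheory intervalIntegral

namespace Pool.Agent.Helper75.Xi

open Pool.Agent.Helper75.Jen

/-- upper bound below the cone -/
def Low (G : ℂ → ℂ) (M κ : ℝ) : Prop := ∀ p : ℂ, 0 ≤ p.im → p.im ≤ M / 8 → |p.re| ≤ 20 * M →
  ‖G p‖ ≤ ‖G ((M / 8 : ℝ) * I)‖ * Real.exp (p.im - M / 8 + κ * M)

lemma norm_le_re_im (s : ℂ) : ‖s‖ ≤ |s.re| + |s.im| := Complex.norm_le_abs_re_add_abs_im s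

lemma ref_mem {M H : ℝ} (hM : 0 ≤ M) (hH : M ≤ H) : ((M / 8 : ℝ) * I : ℂ) ∈ Kc M H := by
  refine ⟨?_, ?_, ?_⟩
  · rw [im_ofReal_mul, I_im, mul_one]
  · rw [im_ofReal_mul, I_im, mul_one]; linarith
  · rw [im_ofReal_mul, I_im, mul_one, re_ofReal_mul, I_re, mul_zero, abs_zero]; linarith

/-- comparison of any point near the real line with a point in the cone -/
lemma cmp {G : ℂ → ℂ} (hG : Differentiable ℂ G)
    (hsym : ∀ z, G (starRingEnd ℂ z) = starRingEnd ℂ (G z)) {M H κ D : ℝ} (h : Cone G M H ee)
    (hlow : Low G M κ) (hM : 0 < M) (hH : M ≤ H) (hκ : 0 ≤ κ)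
    {p q : ℂ} (hp1 : |p.re| ≤ 20 * M) (hp2 : |p.im| ≤ H) (hq : q ∈ Kc M H)
    (hD : |p.re| + |q.re| + |p.im| + q.im ≤ D) (hD1 : M ≤ D) :
    ‖G p‖ ≤ ‖G q‖ * Real.exp (|p.im| - q.im + κ * M + ee * (2 * D)) := by
  have he := ee_pos
  have hq0 : 0 < q.im := by linarith [hq.1]
  obtain ⟨p', hp', hre, him⟩ : ∃ p' : ℂ, ‖G p'‖ = ‖G p‖ ∧ p'.re = p.re ∧ p'.im = |p.im| := by
    rcases le_total 0 p.im with h0 | h0
    · exact ⟨p, rfl, rfl, (abs_of_nonneg h0).symm⟩
    · refine ⟨starRingEnd ℂ p, conj_norm hsym p, Complex.conj_re p, ?_⟩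
      rw [Complex.conj_im, abs_of_nonpos h0]
  rw [← hp']
  have hdist : ‖p' - q‖ ≤ D := by
    refine (norm_le_re_im _).trans ?_
    rw [sub_re, sub_im, hre, him]
    have a1 := abs_sub p.re q.re
    have a2 := abs_sub |p.im| q.im
    rw [abs_abs, abs_of_pos hq0] at a2
    linarith
  by_cases hc : M / 8 ≤ |p.im|
  · have hpK : p' ∈ Kc M H := by
      refine ⟨by rw [him]; exact hc, by rw [him]; exact hp2, ?_⟩
      rw [hre, him]
      linarith
    refine (cone_le hG h hpK hq).trans (mul_le_mul_of_nonneg_left (Real.exp_le_exp.2 ?_)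
      (norm_nonneg _))
    rw [him]
    have a1 : ee * ‖p' - q‖ ≤ ee * D := by gcongr
    have a2 : 0 ≤ κ * M := by positivity
    have a3 : 0 ≤ ee * D := by
      have : 0 ≤ D := by linarith
      positivity
    linarith
  · push Not at hc
    have h1 := hlow p' (by rw [him]; exact abs_nonneg _) (by rw [him]; exact hc.le)
      (by rw [hre]; exact hp1)
    have hrK := ref_mem (M := M) (H := H) hM.le hH
    have h2 := cone_le hG h hrK hq
    have hd2 : ‖((M / 8 : ℝ) * I : ℂ) - q‖ ≤ 2 * D := by
      refine (norm_sub_le _ _).trans ?_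
      rw [norm_mul, norm_I, mul_one, norm_real, Real.norm_of_nonneg (by positivity)]
      have := norm_le_re_im q
      rw [abs_of_pos hq0] at this
      have a1 := abs_nonneg p.re
      have a2 := abs_nonneg p.im
      linarith
    have a1 : ee * ‖((M / 8 : ℝ) * I : ℂ) - q‖ ≤ ee * (2 * D) := by gcongr
    have a3 : ((M / 8 : ℝ) * I : ℂ).im = M / 8 := by rw [im_ofReal_mul, I_im, mul_one]
    rw [a3] at h2
    calc ‖G p'‖ ≤ ‖G ((M / 8 : ℝ) * I)‖ * Real.exp (p'.im - M / 8 + κ * M) := h1
      _ ≤ (‖G q‖ * Real.exp (M / 8 - q.im + ee * (2 * D))) * Real.exp (p'.im - M / 8 + κ * M) := by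
          gcongr
          exact h2.trans (by gcongr)
      _ = ‖G q‖ * Real.exp (|p.im| - q.im + κ * M + ee * (2 * D)) := by
          rw [mul_assoc, ← Real.exp_add, him]
          congr 2
          ring

lemma iter_conj {G : ℂ → ℂ} (hG : Differentiable ℂ G)
    (hsym : ∀ z, G (starRingEnd ℂ z) = starRingEnd ℂ (G z)) (m : ℕ) :
    Differentiable ℂ (iteratedDeriv m G) ∧ ∀ z, iteratedDeriv m G (starRingEnd ℂ z) =
      starRingEnd ℂ (iteratedDeriv m G z) := by
  induction m with
  | zero => simpa using ⟨hG, hsym⟩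
  | succ k ih =>
    obtain ⟨ih1, ih2⟩ := ih
    rw [iteratedDeriv_succ]
    refine ⟨fun z => ((ih1.analyticAt z).deriv).differentiableAt, ?_⟩
    intro z
    have h1 : HasDerivAt (starRingEnd ℂ ∘ iteratedDeriv k G ∘ starRingEnd ℂ)
      (starRingEnd ℂ (deriv (iteratedDeriv k G) z)) (starRingEnd ℂ z) :=
      (ih1 z).hasDerivAt.conj_conj
    have h2 : (starRingEnd ℂ ∘ iteratedDeriv k G ∘ starRingEnd ℂ) = iteratedDeriv k G := by
      funext w
      simp only [Function.comp_apply]
      rw [ih2, Complex.conj_conj]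
    rw [h2] at h1
    exact h1.deriv

/-- the zeros near the centre of a good window are real and simple -/
theorem det_main {G : ℂ → ℂ} (hG : Differentiable ℂ G)
    (hsym : ∀ z, G (starRingEnd ℂ z) = starRingEnd ℂ (G z)) {m : ℕ} {H : ℝ}
    (hm : (10 : ℝ) ^ 9 ≤ m) (hH : 8 * m ≤ H) (h : Cone G m H ee) (hlow : Low G m (1 / 1000))
    {z : ℂ} (h1 : |z.re| ≤ 1) (h2 : |z.im| + 2 * m ≤ H) (hz : iteratedDeriv m G z = 0) :
    z.im = 0 ∧ iteratedDeriv (m + 1) G z ≠ 0 := by
  have hm0 : (0 : ℝ) < m := by linarith
  have heq : ee = 1 / 10 ^ 6 := rfl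
  -- reduction to the upper half plane
  suffices key : ∀ z : ℂ, |z.re| ≤ 1 → 0 ≤ z.im → z.im + 2 * m ≤ H → iteratedDeriv m G z = 0 →
      z.im = 0 ∧ iteratedDeriv (m + 1) G z ≠ 0 by
    rcases le_total 0 z.im with h0 | h0
    · exact key z h1 h0 (by rwa [abs_of_nonneg h0] at h2) hz
    · have h3 := (iter_conj hG hsym m).2 z
      rw [hz, map_zero] at h3
      have h4 := key (starRingEnd ℂ z) (by rwa [Complex.conj_re]) (by rw [Complex.conj_im]; linarith)
        (by rw [Complex.conj_im]; rwa [abs_of_nonpos h0] at h2) h3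
      rw [Complex.conj_im] at h4
      refine ⟨by linarith [h4.1], ?_⟩
      have h5 := (iter_conj hG hsym (m + 1)).2 z
      intro h6
      rw [h6, map_zero] at h5
      exact h4.2 h5
  clear h1 h2 hz z
  intro z h1 h0 h2 hz
  by_cases hc1 : z.im ≤ 2
  · -- near the real line
    set z0 : ℂ := (z.re : ℂ) with hz0
    obtain ⟨v, hD⟩ := sdata hG h hm (z0 := z0) (by rw [hz0, ofReal_re]; exact h1)
      (by rw [hz0, ofReal_im]; linarith) (by rw [hz0, ofReal_im])
      (by rw [hz0, ofReal_im]; linarith)
    have hn := v_norm hm0 hD.near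
    have hi := v_im hD.near
    have hr := v_re hD.near
    rw [heq] at hn hi hr
    norm_num at hn hi hr
    have hv1 : ‖v‖ ≤ 101 / 100 * m := by linarith
    have hvpos : 0 < ‖v‖ := by linarith
    have hpos : ∀ y : ℝ, |y| ≤ 2 → 0 < (I * AA (deriv G) m ‖v‖ ⟨z.re, y⟩ *
        starRingEnd ℂ (AA G m ‖v‖ ⟨z.re, y⟩)).re := by
      intro y hy
      have hzz : ‖(⟨z.re, y⟩ : ℂ) - z0‖ ≤ 2 := by
        have : (⟨z.re, y⟩ : ℂ) - z0 = y * I := by apply Complex.ext <;> simp [hz0]
        rw [this, norm_mul, norm_I, mul_one, norm_real]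
        exact hy
      refine (apply_saddle hG h hm hD hzz ?_).2.2.2
      intro φ hφ hoff
      set w : ℂ := ⟨z.re, y⟩ with hw
      have hwre : w.re = z.re := rfl
      have hwim : w.im = y := rfl
      obtain ⟨c1, c2⟩ := circ_re_im w ‖v‖ φ
      have hpi : |φ - arg v| ≤ Real.pi := by
        have a1 := Complex.arg_nonneg_iff.2 (show 0 ≤ v.im by linarith)
        have a2 := Complex.arg_le_pi v
        rw [abs_le]; constructor <;> linarith [hφ.1, hφ.2]
      have h7 := (gain hm0 hD.near hpi).1
      have h8 : 1 / 4 ≤ (φ - arg v) ^ 2 := by rw [← sq_abs]; nlinarith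
      have hsinn : 0 ≤ Real.sin φ := Real.sin_nonneg_of_mem_Icc hφ
      have hs1 := Real.sin_le_one φ
      have hco : |‖v‖ * Real.cos φ| ≤ ‖v‖ := by
        rw [abs_mul, abs_norm]
        have := Real.abs_cos_le_one φ
        nlinarith
      have hy' := abs_le.1 hy
      have hp1 : |(w + ‖v‖ * cexp (φ * I)).re| ≤ 3 / 2 * m := by
        rw [c1, hwre]
        refine (abs_add_le _ _).trans ?_
        linarith
      have hvs : 0 ≤ ‖v‖ * Real.sin φ := by positivity
      have hvs2 : ‖v‖ * Real.sin φ ≤ ‖v‖ := by nlinarith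
      have hp2 : |(w + ‖v‖ * cexp (φ * I)).im| ≤ ‖v‖ * Real.sin φ + 2 := by
        rw [c2, hwim]
        rw [abs_le]; constructor <;> linarith [hy'.1, hy'.2]
      have hqK : w + v ∈ Kc m H := by
        refine hD.inK _ ?_
        have : w + v - (z0 + m * I) = (w - z0) + (v - m * I) := by ring
        rw [this]
        refine (norm_add_le _ _).trans_lt ?_
        have := hD.near
        rw [heq] at this
        norm_num at this
        linarith
      have hqre : |(w + v).re| ≤ m := by
        rw [add_re, hwre]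
        refine (abs_add_le _ _).trans ?_
        linarith
      have hqim : (w + v).im = y + v.im := by rw [add_im]
      have hcmp := cmp (D := 6 * m) hG hsym h hlow hm0 (by linarith) (by norm_num)
        (p := w + ‖v‖ * cexp (φ * I)) (q := w + v) (by linarith) (by linarith) hqK
        (by rw [hqim]; linarith) (by linarith)
      refine hcmp.trans (mul_le_mul_of_nonneg_left (Real.exp_le_exp.2 ?_) (norm_nonneg _))
      rw [hqim, heq]
      nlinarith
    have hze : (⟨z.re, z.im⟩ : ℂ) = z := by apply Complex.ext <;> rfl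
    have := zeros_of_pos hG hsym m hvpos hpos (y := z.im) (by rw [abs_of_nonneg h0]; exact hc1)
      (by rw [hze]; exact hz)
    rw [hze] at this
    exact this
  · push Not at hc1
    exfalso
    by_cases hc2 : 2 * m ≤ z.im
    · obtain ⟨v, hv, hb, hb2⟩ := far hG hsym h hm le_rfl h1 hc2 h2
      rw [hz, norm_zero, zero_mul] at hb2
      have : 0 < ‖G (z + v)‖ / (2 * Real.sqrt m) := by positivity
      linarith
    · push Not at hc2
      obtain ⟨v, hD⟩ := sdata hG h hm h1 (by linarith) h0 h2
      have hn := v_norm hm0 hD.near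
      have hi := v_im hD.near
      have hr := v_re hD.near
      rw [heq] at hn hi hr
      norm_num at hn hi hr
      have hv1 : ‖v‖ ≤ 101 / 100 * m := by linarith
      have hvpos : 0 < ‖v‖ := by linarith
      have hqK : z + v ∈ Kc m H := by
        refine hD.inK _ ?_
        have : z + v - (z + m * I) = v - m * I := by ring
        rw [this]
        have := hD.near
        rw [heq] at this
        norm_num at this
        linarith
      have hqre : |(z + v).re| ≤ m := by
        rw [add_re]
        refine (abs_add_le _ _).trans ?_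
        linarith
      have hqim : (z + v).im = z.im + v.im := by rw [add_im]
      have harg : ∀ φ ∈ Set.Icc (0 : ℝ) Real.pi, |φ - arg v| ≤ Real.pi := by
        intro φ hφ
        have a1 := Complex.arg_nonneg_iff.2 (show 0 ≤ v.im by linarith)
        have a2 := Complex.arg_le_pi v
        rw [abs_le]; constructor <;> linarith [hφ.1, hφ.2]
      have hco : ∀ φ : ℝ, |‖v‖ * Real.cos φ| ≤ ‖v‖ := by
        intro φ
        rw [abs_mul, abs_norm]
        have := Real.abs_cos_le_one φ
        nlinarith
      have hvs : ∀ φ ∈ Set.Icc (0 : ℝ) Real.pi, 0 ≤ ‖v‖ * Real.sin φ ∧ ‖v‖ * Real.sin φ ≤ ‖v‖ := by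
        intro φ hφ
        have hsinn : 0 ≤ Real.sin φ := Real.sin_nonneg_of_mem_Icc hφ
        have hs1 := Real.sin_le_one φ
        constructor
        · positivity
        · nlinarith
      obtain ⟨b1, b2, b3, -⟩ := apply_saddle hG h hm hD (z := z) (by simp) (by
        intro φ hφ hoff
        obtain ⟨c1, c2⟩ := circ_re_im z ‖v‖ φ
        have h7 := (gain hm0 hD.near (harg φ hφ)).1
        have h8 : 1 / 4 ≤ (φ - arg v) ^ 2 := by rw [← sq_abs]; nlinarith
        have hp1 : |(z + ‖v‖ * cexp (φ * I)).re| ≤ 3 / 2 * m := by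
          rw [c1]
          refine (abs_add_le _ _).trans ?_
          linarith [hco φ]
        have hp2 : |(z + ‖v‖ * cexp (φ * I)).im| = z.im + ‖v‖ * Real.sin φ := by
          rw [c2]
          exact abs_of_nonneg (by linarith [(hvs φ hφ).1])
        have hcmp := cmp (D := 9 * m) hG hsym h hlow hm0 (by linarith) (by norm_num)
          (p := z + ‖v‖ * cexp (φ * I)) (q := z + v) (by linarith)
          (by linarith [(hvs φ hφ).2]) hqK
          (by rw [hqim]; linarith [(hvs φ hφ).2]) (by linarith)
        refine hcmp.trans (mul_le_mul_of_nonneg_left (Real.exp_le_exp.2 ?_) (norm_nonneg _))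
        rw [hqim, heq, hp2]
        nlinarith)
      have hfin := nonvan hG hsym hm hvpos b2 (by
        intro φ hφ
        obtain ⟨c1, c2⟩ := circ_re_im (starRingEnd ℂ z) ‖v‖ φ
        rw [Complex.conj_re] at c1
        rw [Complex.conj_im] at c2
        have h7 := gain hm0 hD.near (harg φ hφ)
        have hvsφ := hvs φ hφ
        set p : ℂ := starRingEnd ℂ z + ‖v‖ * cexp (φ * I) with hp
        have hcoφ := hco φ
        have hp1 : |p.re| ≤ 3 / 2 * m := by
          rw [c1]
          refine (abs_add_le _ _).trans ?_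
          linarith
        by_cases hA : |φ - arg v| ≤ 1 / 2 ∧ z.im ≤ m / 10
        · -- straight down
          obtain ⟨hA1, hA2⟩ := hA
          have hcos : 8 / 10 ≤ Real.cos (φ - arg v) := by
            have := Real.one_sub_sq_div_two_le_cos (x := φ - arg v)
            have h8 : (φ - arg v) ^ 2 ≤ 1 / 4 := by
              rw [← sq_abs]; nlinarith [abs_nonneg (φ - arg v)]
            linarith
          have hsv : 7 / 10 * m ≤ ‖v‖ * Real.sin φ := by
            have := h7.2
            nlinarith
          have hpK : p ∈ Kc m H := by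
            refine ⟨by rw [c2]; linarith, by rw [c2]; linarith, ?_⟩
            rw [c2]; linarith
          obtain ⟨d1, d2⟩ := circ_re_im z ‖v‖ φ
          set p2 : ℂ := z + ‖v‖ * cexp (φ * I) with hp2
          have hp2K : p2 ∈ Kc m H := by
            refine ⟨by rw [d2]; linarith, by rw [d2]; linarith, ?_⟩
            rw [d2, d1, ← c1]; linarith
          have h9 := cone_le hG h hpK hp2K
          have e1 : p - p2 = -(2 * z.im : ℝ) * I := by
            rw [hp, hp2]
            apply Complex.ext
            · simp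
            · simp; ring
          have e2 : ‖p - p2‖ = 2 * z.im := by
            rw [e1, norm_mul, norm_I, mul_one, norm_neg, norm_real, Real.norm_of_nonneg (by linarith)]
          rw [e2, c2, d2] at h9
          have h10 := b1 φ hφ
          have h11 : Real.exp (-z.im + ‖v‖ * Real.sin φ - (z.im + ‖v‖ * Real.sin φ) + ee * (2 * z.im)) ≤
              1 / 20 := by
            have h12 : -z.im + ‖v‖ * Real.sin φ - (z.im + ‖v‖ * Real.sin φ) + ee * (2 * z.im) ≤ -3.9 := by
              rw [heq]; nlinarith
            refine (Real.exp_le_exp.2 h12).trans ?_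
            rw [Real.exp_neg, inv_le_comm₀ (Real.exp_pos _) (by norm_num)]
            have h13 : (2.7 : ℝ) ≤ Real.exp 1 := by linarith [Real.exp_one_gt_d9]
            have h14 : Real.exp 3.9 = Real.exp 1 ^ 3 * Real.exp 0.9 := by
              rw [← Real.exp_nat_mul, ← Real.exp_add]; norm_num
            have h15 : (1.9 : ℝ) ≤ Real.exp 0.9 := by linarith [Real.add_one_le_exp (0.9 : ℝ)]
            rw [h14]
            calc (1 / 20 : ℝ)⁻¹ ≤ 2.7 ^ 3 * 1.9 := by norm_num
              _ ≤ _ := by gcongr
          calc ‖G p‖ ≤ ‖G p2‖ * Real.exp (-z.im + ‖v‖ * Real.sin φ - (z.im + ‖v‖ * Real.sin φ) +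
                ee * (2 * z.im)) := h9
            _ ≤ (11 / 10 * ‖G (z + v)‖ * Real.exp (-(3 / 20) * m * (φ - arg v) ^ 2)) * (1 / 20) := by
                gcongr
            _ = (11 / 200) * (‖G (z + v)‖ * Real.exp (-(3 / 20) * m * (φ - arg v) ^ 2)) := by ring
            _ ≤ (1 / 12) * (‖G (z + v)‖ * Real.exp (-(3 / 20) * m * (φ - arg v) ^ 2)) :=
                mul_le_mul_of_nonneg_right (by norm_num) (by positivity)
            _ = _ := by ring
        · -- far away
          have hp2 : |p.im| ≤ z.im + ‖v‖ := by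
            rw [c2, abs_le]; constructor <;> linarith [hvsφ.1, hvsφ.2]
          have hcmp := cmp (D := 9 * m) hG hsym h hlow hm0 (by linarith) (by norm_num)
            (p := p) (q := z + v) (by linarith) (by linarith) hqK
            (by rw [hqim]; linarith) (by linarith)
          have h9 : Real.exp (-3) ≤ 1 / 12 := by
            rw [Real.exp_neg, inv_le_comm₀ (Real.exp_pos _) (by norm_num)]
            have : (2.7 : ℝ) ≤ Real.exp 1 := by linarith [Real.exp_one_gt_d9]
            have h10 : Real.exp 3 = Real.exp 1 ^ 3 := by rw [← Real.exp_nat_mul]; norm_num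
            rw [h10]
            calc (1 / 12 : ℝ)⁻¹ ≤ 2.7 ^ 3 := by norm_num
              _ ≤ _ := by gcongr
          have hexp : |p.im| - (z + v).im + 1 / 1000 * m + ee * (2 * (9 * m)) ≤
              -3 + -(3 / 20) * m * (φ - arg v) ^ 2 := by
            rw [hqim, heq, c2]
            have h8 := h7.1
            by_cases hB : |φ - arg v| ≤ 1 / 2
            · have hzz : m / 10 < z.im := by
                by_contra hcon
                push Not at hcon
                exact hA ⟨hB, hcon⟩
              have hcos : 8 / 10 ≤ Real.cos (φ - arg v) := by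
                have := Real.one_sub_sq_div_two_le_cos (x := φ - arg v)
                have h8 : (φ - arg v) ^ 2 ≤ 1 / 4 := by
                  rw [← sq_abs]; nlinarith [abs_nonneg (φ - arg v)]
                linarith
              have hsv : 7 / 10 * m ≤ ‖v‖ * Real.sin φ := by
                have := h7.2
                nlinarith
              have hsq : 0 ≤ m * (φ - arg v) ^ 2 := by positivity
              rcases le_total 0 (-z.im + ‖v‖ * Real.sin φ) with h12 | h12
              · rw [abs_of_nonneg h12]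
                nlinarith
              · rw [abs_of_nonpos h12]
                nlinarith
            · push Not at hB
              have h13 : 1 / 4 ≤ (φ - arg v) ^ 2 := by rw [← sq_abs]; nlinarith
              have hsq : m * (1 / 4) ≤ m * (φ - arg v) ^ 2 := by gcongr
              rcases le_total 0 (-z.im + ‖v‖ * Real.sin φ) with h12 | h12
              · rw [abs_of_nonneg h12]
                nlinarith
              · rw [abs_of_nonpos h12]
                nlinarith [hvsφ.1]
          calc ‖G p‖ ≤ ‖G (z + v)‖ * Real.exp (-3 + -(3 / 20) * m * (φ - arg v) ^ 2) :=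
                hcmp.trans (mul_le_mul_of_nonneg_left (Real.exp_le_exp.2 hexp) (norm_nonneg _))
            _ = Real.exp (-3) * (‖G (z + v)‖ * Real.exp (-(3 / 20) * m * (φ - arg v) ^ 2)) := by
                rw [Real.exp_add]; ring
            _ ≤ 1 / 12 * (‖G (z + v)‖ * Real.exp (-(3 / 20) * m * (φ - arg v) ^ 2)) := by gcongr
            _ = _ := by ring)
      rw [hz, norm_zero, zero_mul] at hfin
      have : 0 < ‖G (z + v)‖ / (2 * Real.sqrt m) := by positivity
      linarith

end Pool.Agent.Helper75.Xi
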