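import Pool.Agent.Helper75.Xi.Det4
import Pool.Graph.R_pool_sql_team_22c7b01f.H21.XiZeros

set_option autoImplicit false
set_option maxHeartbeats 1000000

open Complex Filter Topology Metric MeasureTheory
open scoped ENNReal

namespace Pool.Agent.Helper75.Xi

open Pool.Agent.Helper75.Jen
open Pool.Agent.H21.Xi (cnt zeros_upper)

lemma cnt_le_of_zeros {f : ℂ → ℂ} (hf : Differentiable ℂ f) {S T : Set ℂ}
    (h : ∀ z ∈ S, f z = 0 → z ∈ T) : cnt f S ≤ cnt f T := by
  classical
  unfold cnt
  rw [tsum_subtype S (fun z => ((analyticOrderAt f z : ℕ∞) : ℝ≥0∞)),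
    tsum_subtype T (fun z => ((analyticOrderAt f z : ℕ∞) : ℝ≥0∞))]
  refine ENNReal.tsum_le_tsum fun z => ?_
  by_cases hz : z ∈ S
  · by_cases h0 : f z = 0
    · rw [Set.indicator_of_mem hz, Set.indicator_of_mem (h z hz h0)]
    · rw [Set.indicator_of_mem hz, (hf.analyticAt z).analyticOrderAt_eq_zero.2 h0]
      simp
  · rw [Set.indicator_of_notMem hz]
    exact bot_le

lemma cnt_const_mul {f : ℂ → ℂ} (hf : Differentiable ℂ f) {a : ℂ} (ha : a ≠ 0) (S : Set ℂ) :
    cnt (fun z => a * f z) S = cnt f S := by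
  unfold cnt
  congr 1
  funext z
  have h1 : AnalyticAt ℂ (fun _ : ℂ => a) (z : ℂ) := analyticAt_const
  have h2 : AnalyticAt ℂ f (z : ℂ) := hf.analyticAt z
  have h3 := analyticOrderAt_mul h1 h2
  have h4 : analyticOrderAt (fun _ : ℂ => a) (z : ℂ) = 0 :=
    h1.analyticOrderAt_eq_zero.2 ha
  rw [h4, zero_add] at h3
  have h5 : (fun z => a * f z) = (fun _ : ℂ => a) * f := rfl
  rw [h5, h3]

/-- the number of zeros of the derivative in a window -/
theorem det_count {G : ℂ → ℂ} (hG : Differentiable ℂ G)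
    (hsym : ∀ z, G (starRingEnd ℂ z) = starRingEnd ℂ (G z)) {m : ℕ} {M H κ : ℝ}
    (hm : (10 : ℝ) ^ 9 ≤ m) (hmM : m ≤ M) (hH : 20 * M ≤ H) (hκ : 0 ≤ κ) (h : Cone G M H ee)
    (hlow : Low G M κ) :
    cnt (iteratedDeriv m G) {z : ℂ | |z.re| ≤ 1 ∧ |z.im| ≤ H - 2 * M} ≤
      ENNReal.ofReal ((50 + 2 * κ) * M) := by
  have hm0 : (0 : ℝ) < m := by linarith
  have hM0 : 0 < M := by linarith
  have heq : ee = 1 / 10 ^ 6 := rfl
  have hdiff := (iter_conj hG hsym m).1
  set c : ℂ := (2 * M : ℝ) * I with hc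
  have hcre : c.re = 0 := by rw [hc, re_ofReal_mul, I_re, mul_zero]
  have hcim : c.im = 2 * M := by rw [hc, im_ofReal_mul, I_im, mul_one]
  obtain ⟨v, hv, hb, hlow2⟩ := far hG hsym h hm hmM (z := c) (by rw [hcre]; simp)
    (by rw [hcim]) (by rw [hcim]; linarith)
  have hn := v_norm hm0 hv
  have hi := v_im hv
  have hr := v_re hv
  rw [heq] at hn hi hr
  norm_num at hn hi hr
  have hv1 : ‖v‖ ≤ 101 / 100 * m := by linarith
  have hvpos : 0 < ‖v‖ := by linarith
  have hqK : c + v ∈ Kc M H := by
    refine ⟨by rw [add_im, hcim]; linarith, by rw [add_im, hcim]; linarith, ?_⟩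
    rw [add_re, add_im, hcre, hcim, zero_add]
    linarith
  have hs : 0 < Real.sqrt m := Real.sqrt_pos.2 hm0
  set g0 := ‖G (c + v)‖ with hg0
  set A : ℝ := 2 * Real.pi * ‖v‖ ^ m / m.factorial with hA
  have hfac : (0 : ℝ) < m.factorial := by exact_mod_cast m.factorial_pos
  have hA0 : 0 < A := by positivity
  set a : ℝ := A * (Real.sqrt m / g0) with ha
  have ha0 : 0 < a := by positivity
  -- upper bound
  have hup : ∀ s ∈ closedBall c (15 * M), ‖iteratedDeriv m G s‖ * A ≤
      2 * Real.pi * (g0 * Real.exp ((20 + κ) * M)) := by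
    intro s hs
    rw [mem_closedBall, dist_eq_norm] at hs
    have hsph : ∀ u ∈ sphere s ‖v‖, ‖G u‖ ≤ g0 * Real.exp ((20 + κ) * M) := by
      intro u hu
      rw [mem_sphere, dist_eq_norm] at hu
      have huc : ‖u - c‖ ≤ 17 * M := by
        have : u - c = (u - s) + (s - c) := by ring
        rw [this]
        refine (norm_add_le _ _).trans ?_
        rw [hu]; linarith
      have a1 := (Complex.abs_re_le_norm (u - c)).trans huc
      have a2 := (Complex.abs_im_le_norm (u - c)).trans huc
      rw [sub_re, hcre, sub_zero] at a1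
      rw [sub_im, hcim] at a2
      have a3 : |u.im| ≤ 19 * M := by
        rw [abs_le] at a2 ⊢
        constructor <;> linarith [a2.1, a2.2]
      have hqre : |(c + v).re| ≤ m := by
        rw [add_re, hcre, zero_add]; linarith
      have hqim : (c + v).im = 2 * M + v.im := by rw [add_im, hcim]
      have hcmp := cmp (D := 50 * M) hG hsym h hlow hM0 (by linarith) hκ (p := u) (q := c + v)
        (by linarith) (by linarith) hqK (by rw [hqim]; linarith) (by linarith)
      refine hcmp.trans (mul_le_mul_of_nonneg_left (Real.exp_le_exp.2 ?_) (norm_nonneg _))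
      rw [hqim, heq]
      nlinarith
    have h1 := Complex.norm_iteratedDeriv_le_of_forall_mem_sphere_norm_le (c := s) (R := ‖v‖)
      (C := g0 * Real.exp ((20 + κ) * M)) m hvpos hG.diffContOnCl hsph
    calc ‖iteratedDeriv m G s‖ * A ≤
        (m.factorial * (g0 * Real.exp ((20 + κ) * M)) / ‖v‖ ^ m) * A := by gcongr
      _ = 2 * Real.pi * (g0 * Real.exp ((20 + κ) * M)) := by
          rw [hA]; field_simp
  have hcnt1 : cnt (iteratedDeriv m G) {z : ℂ | |z.re| ≤ 1 ∧ |z.im| ≤ H - 2 * M} ≤
      cnt (iteratedDeriv m G) (closedBall c (5 * M)) := by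
    refine cnt_le_of_zeros hdiff ?_
    rintro z ⟨h1, h2⟩ hz
    have hzim : |z.im| < 2 * M := by
      by_contra hcon
      push Not at hcon
      have key : ∀ w : ℂ, |w.re| ≤ 1 → 2 * M ≤ w.im → w.im ≤ H - 2 * M →
          iteratedDeriv m G w ≠ 0 := by
        intro w w1 w2 w3 w4
        obtain ⟨v', -, hb', hl'⟩ := far hG hsym h hm hmM w1 w2 (by linarith)
        rw [w4, norm_zero, zero_mul] at hl'
        have : 0 < ‖G (w + v')‖ / (2 * Real.sqrt m) := by positivity
        linarith
      rcases le_total 0 z.im with h0 | h0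
      · rw [abs_of_nonneg h0] at hcon h2
        exact key z h1 hcon h2 hz
      · rw [abs_of_nonpos h0] at hcon h2
        refine key (starRingEnd ℂ z) (by rwa [Complex.conj_re]) (by rwa [Complex.conj_im])
          (by rwa [Complex.conj_im]) ?_
        rw [(iter_conj hG hsym m).2 z, hz, map_zero]
    rw [mem_closedBall, dist_eq_norm]
    refine (norm_le_re_im _).trans ?_
    rw [sub_re, sub_im, hcre, hcim, sub_zero]
    have : |z.im - 2 * M| ≤ 4 * M := by
      rw [abs_lt] at hzim
      rw [abs_le]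
      constructor <;> linarith [hzim.1, hzim.2]
    linarith
  refine hcnt1.trans ?_
  have haC : (a : ℂ) ≠ 0 := by exact_mod_cast ha0.ne'
  rw [← cnt_const_mul hdiff haC]
  have hsq : Real.sqrt m ≤ Real.exp M := by
    have h1 : Real.sqrt m ≤ m := by
      rw [Real.sqrt_le_left hm0.le]; nlinarith
    have h2 := Real.add_one_le_exp M
    linarith
  have h3 := zeros_upper (fun z => (a : ℂ) * iteratedDeriv m G z) (hdiff.const_mul _) c (5 * M)
    ((23 + κ) * M) (by positivity) (by
      rw [norm_mul, norm_real, Real.norm_of_nonneg ha0.le, ha]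
      have h4 : g0 / (2 * Real.sqrt m) * (Real.sqrt m / g0) = 1 / 2 := by
        field_simp
      rw [← h4]
      calc g0 / (2 * Real.sqrt m) * (Real.sqrt m / g0) ≤
          (‖iteratedDeriv m G c‖ * A) * (Real.sqrt m / g0) := by gcongr
        _ = _ := by ring) (by
      intro s hs2
      rw [norm_mul, norm_real, Real.norm_of_nonneg ha0.le, ha]
      have h5 := hup s (by rw [show 15 * M = 3 * (5 * M) by ring]; exact hs2)
      calc A * (Real.sqrt m / g0) * ‖iteratedDeriv m G s‖ =
          (‖iteratedDeriv m G s‖ * A) * (Real.sqrt m / g0) := by ring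
        _ ≤ (2 * Real.pi * (g0 * Real.exp ((20 + κ) * M))) * (Real.sqrt m / g0) := by gcongr
        _ = (2 * Real.pi) * Real.sqrt m * Real.exp ((20 + κ) * M) := by field_simp
        _ ≤ Real.exp M * Real.exp M * Real.exp ((20 + κ) * M) := by
            have h6 : 2 * Real.pi ≤ Real.exp M := by
              have := Real.add_one_le_exp M
              have := Real.pi_lt_d2
              linarith
            gcongr
        _ = Real.exp ((22 + κ) * M) := by rw [← Real.exp_add, ← Real.exp_add]; congr 1; ring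
        _ ≤ Real.exp ((23 + κ) * M) := Real.exp_le_exp.2 (by nlinarith))
  refine h3.trans (ENNReal.ofReal_le_ofReal ?_)
  nlinarith

end Pool.Agent.Helper75.Xi
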