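import Pool.Agent.Helper75.Xi.Gen

set_option autoImplicit false
set_option maxHeartbeats 1000000

open Filter Topology MeasureTheory Complex Metric
open Pool.Agent.Helper75.Jen (fx Gx LB)

namespace Pool.Agent.Helper75.Xi

noncomputable section

variable {C1 C0 T P t : ℝ}

/-- the scale in the original variable -/
lemma Env.x_eq (h : Env C1 C0 T P) (X : ℝ) : 2 * X / Real.log T = X / P := by
  have h1 := h.P9
  have h2 : Real.log T = 2 * P := by rw [h.hP]; ring
  rw [h2]
  have : P ≠ 0 := by linarith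
  field_simp

lemma Env.cone_ev (h : Env C1 C0 T P) (ht : t ∈ Set.Icc T (2 * T)) {M H : ℝ}
    (hM : 10 ^ 12 ≤ M) (hH : 200 * (H / P) ≤ T / 8) {Pw : ℝ → ℝ} {ϑ : ℝ}
    (hev : ∀ i : ℕ, 2 ^ i * (M / 8) ≤ 3 / 4 * P →
      Ev Pw ϑ (1 / 10 ^ 8) T (2 ^ i * (M / 8)) (2 * (2 ^ i * (M / 8)) / Real.log T) t) :
    Cone (Gp t P) M H ee := by
  have hP9 := h.P9
  have hP0 : 0 < P := by linarith
  have hM0 : 0 < M := by linarith
  have hT18 := h.T18
  refine h.cone ht hM0 hH ?_
  intro s h1 h2 h3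
  set a := s.re - 1 / 2 with ha
  have hx0 : 0 < M / (8 * P) := by positivity
  have hy1 : 1 ≤ a / (M / (8 * P)) := by
    rw [le_div_iff₀ hx0]; linarith
  obtain ⟨n, hn1, hn2⟩ := exists_nat_pow_near hy1 (by norm_num : (1 : ℝ) < 2)
  rw [le_div_iff₀ hx0] at hn1
  rw [div_lt_iff₀ hx0, pow_succ] at hn2
  have e1 : (2 : ℝ) ^ n * (M / 8) / P = 2 ^ n * (M / (8 * P)) := by field_simp
  have hXP : 2 ^ n * (M / 8) ≤ 3 / 4 * P := by
    have : 2 ^ n * (M / 8) / P ≤ 3 / 4 := by rw [e1]; linarith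
    rwa [div_le_iff₀ hP0] at this
  have hX8 : M / 8 ≤ 2 ^ n * (M / 8) := le_mul_of_one_le_left (by positivity) (one_le_pow₀ (by norm_num))
  have hev := hev n hXP
  rw [h.x_eq] at hev
  set X := 2 ^ n * (M / 8) with hX
  have hX0 : 0 < X := by positivity
  have hxx : 0 < X / P := by positivity
  have hx1 : X / P ≤ 1 := by rw [div_le_one hP0]; linarith
  obtain ⟨k1, k2⟩ := hev.ld hxx hX0.le (by norm_num) (by linarith [ht.1]) (s := s)
    (by rw [e1]; linarith) (by rw [e1]; linarith) (by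
      refine h2.trans ?_
      rw [e1]; linarith)
  refine ⟨k1, k2.trans ?_⟩
  rw [div_le_iff₀ hxx]
  have e3 : 5 / 10 ^ 7 * P * (X / P) = 5 / 10 ^ 7 * X := by field_simp
  rw [e3]
  linarith

lemma Env.low_ev (h : Env C1 C0 T P) (ht : t ∈ Set.Icc T (2 * T)) {M : ℝ}
    (hM : 10 ^ 12 ≤ M) (hMP : M / 8 ≤ 3 / 4 * P) {Pw : ℝ → ℝ} {ϑ : ℝ}
    (hev : Ev Pw ϑ (1 / 10 ^ 8) T (M / 8) (2 * (M / 8) / Real.log T) t) :
    Low (Gp t P) M (1 / 1000) := by
  have hP9 := h.P9
  have hP0 : 0 < P := by linarith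
  have hM0 : 0 < M := by linarith
  have hT18 := h.T18
  have hMP6 : M / P ≤ 6 := by rw [div_le_iff₀ hP0]; linarith
  have hMP0 : 0 < M / P := by positivity
  rw [h.x_eq] at hev
  have e1 : M / 8 / P = M / (8 * P) := by field_simp
  have e2 : M / (8 * P) = M / P / 8 := by field_simp
  rw [e1] at hev
  have hx0 : 0 < M / (8 * P) := by positivity
  refine h.low ht hM0 (A := 2 * Real.exp (1 / 10 ^ 8 * (M / 8))) (by linarith) (by positivity) ?_ ?_
  · intro s h1 h2 h3
    have := hev.up hx0 (s := s) h1 (by linarith) (by linarith)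
    exact this
  · rw [Real.log_mul (by norm_num) (Real.exp_ne_zero _), Real.log_exp]
    have := Real.log_two_lt_d9
    linarith

lemma Env.ref (h : Env C1 C0 T P) {M : ℝ} (hMP : 3 / 4 * P < M / 8) :
    1 ≤ C0 * ‖riemannZeta (1 / 2 + (M / (8 * P) : ℝ) + t * I)‖ := by
  have hP9 := h.P9
  have hP0 : 0 < P := by linarith
  have hx : 3 / 4 ≤ M / (8 * P) := by
    rw [le_div_iff₀ (by positivity)]; linarith
  have e : (1 / 2 + (M / (8 * P) : ℝ) + t * I : ℂ).re = 1 / 2 + M / (8 * P) := by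
    rw [add_re, add_re, ofReal_re, re_ofReal_mul, I_re]
    norm_num
  exact (h.zr.2 _ (by rw [e]; linarith)).2.2.2

lemma Env.low_w (h : Env C1 C0 T P) (ht : t ∈ Set.Icc T (2 * T)) {M : ℝ}
    (hM : 10 ^ 12 ≤ M) (hMP : 3 / 4 * P < M / 8) (hM2 : M ≤ 20000 * P)
    (hW : ∀ s : ℂ, 1 / 2 ≤ s.re → s.re ≤ 2 → |s.im - t| ≤ 400000 →
        ‖riemannZeta s‖ ≤ Real.exp (1 / 500 * Real.log T)) :
    Low (Gp t P) M (1 / 1000) := by
  have hP9 := h.P9
  have hP0 : 0 < P := by linarith
  have hM0 : 0 < M := by linarith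
  have hT18 := h.T18
  have hC1 := h.lb.1
  have hC0 := h.zr.1
  have hPP := h.P0
  have hlogT : Real.log T = 2 * P := by rw [h.hP]; ring
  have hMPu : M / P ≤ 20000 := by rw [div_le_iff₀ hP0]; linarith
  have hr := h.ref (t := t) hMP
  set R := ‖riemannZeta (1 / 2 + (M / (8 * P) : ℝ) + t * I)‖ with hR
  have hR0 : 0 ≤ R := norm_nonneg _
  refine h.low ht hM0 (A := C0 * Real.exp (1 / 500 * (2 * P)) * C0) (by linarith) (by positivity) ?_ ?_
  · intro s h1 h2 h3
    have hb : ‖riemannZeta s‖ ≤ C0 * Real.exp (1 / 500 * (2 * P)) := by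
      rcases le_total s.re 2 with h4 | h4
      · have h5 := hW s h1 h4 (by linarith)
        rw [hlogT] at h5
        refine h5.trans ?_
        exact le_mul_of_one_le_left (Real.exp_pos _).le hC0
      · have h5 := (h.zr.2 s (by linarith)).2.2.1
        refine h5.trans ?_
        exact le_mul_of_one_le_right (by linarith) (Real.one_le_exp (by positivity))
    calc ‖riemannZeta s‖ ≤ C0 * Real.exp (1 / 500 * (2 * P)) * 1 := by rw [mul_one]; exact hb
      _ ≤ C0 * Real.exp (1 / 500 * (2 * P)) * (C0 * R) := by gcongr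
      _ = _ := by ring
  · have e : Real.log (C0 * Real.exp (1 / 500 * (2 * P)) * C0) = 2 * Real.log C0 + 1 / 500 * (2 * P) := by
      rw [Real.log_mul (by positivity) (by positivity), Real.log_mul (by positivity)
        (Real.exp_ne_zero _), Real.log_exp]
      ring
    rw [e]
    have h6 : Real.log C0 ≤ C0 := by
      have := Real.log_le_sub_one_of_pos (show 0 < C0 by linarith)
      linarith
    have h7 : C0 ≤ P / 10 ^ 9 := by
      rw [le_div_iff₀ (by norm_num)]; nlinarith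
    linarith

lemma Env.low_det (h : Env C1 C0 T P) (ht : t ∈ Set.Icc T (2 * T)) {M : ℝ}
    (hM : 10000 * P ≤ M) (hM2 : 20 * (M / P) ≤ T / 8) :
    Low (Gp t P) M (1 / 1000) := by
  have hP9 := h.P9
  have hP0 : 0 < P := by linarith
  have hM0 : 0 < M := by linarith
  have hT18 := h.T18
  have hT0 := h.T0
  have hC1 := h.lb.1
  have hC0 := h.zr.1
  have hPP := h.P0
  have hlogT : Real.log T = 2 * P := by rw [h.hP]; ring
  have hr := h.ref (t := t) (M := M) (by linarith)
  set R := ‖riemannZeta (1 / 2 + (M / (8 * P) : ℝ) + t * I)‖ with hR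
  have hR0 : 0 ≤ R := norm_nonneg _
  have e2 : M / (8 * P) = M / P / 8 := by field_simp
  have hMP0 : 0 < M / P := by positivity
  refine h.low ht hM0 (A := 96 * T ^ 2 * C0) hM2 (by positivity) ?_ ?_
  · intro s h1 h2 h3
    have h3' := abs_le.1 h3
    have him : T / 2 ≤ s.im := by linarith [ht.1]
    have hb : ‖riemannZeta s‖ ≤ 96 * T ^ 2 := by
      have h4 := Pool.Agent.H306R2.zeta_norm_le (s := s) h1 (by
        have := Complex.abs_im_le_norm (s - 1)
        rw [sub_im, one_im, sub_zero] at this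
        have h5 := le_abs_self s.im
        linarith)
      have h5 : ‖s‖ + 1 ≤ 4 * T := by
        have := Complex.norm_le_abs_re_add_abs_im s
        rw [abs_of_nonneg (by linarith : 0 ≤ s.re), abs_of_nonneg (by linarith : 0 ≤ s.im)] at this
        linarith [ht.2]
      have h6 : 0 ≤ ‖s‖ + 1 := by positivity
      calc ‖riemannZeta s‖ ≤ 6 * (‖s‖ + 1) ^ 2 := h4
        _ ≤ 6 * (4 * T) ^ 2 := by gcongr
        _ = _ := by ring
    calc ‖riemannZeta s‖ ≤ 96 * T ^ 2 * 1 := by rw [mul_one]; exact hb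
      _ ≤ 96 * T ^ 2 * (C0 * R) := by gcongr
      _ = _ := by ring
  · have e : Real.log (96 * T ^ 2 * C0) = Real.log (96 * C0) + 4 * P := by
      rw [show 96 * T ^ 2 * C0 = (96 * C0) * T ^ 2 by ring,
        Real.log_mul (by positivity) (by positivity), Real.log_pow, hlogT]
      push_cast; ring
    rw [e]
    have h6 : Real.log (96 * C0) ≤ 96 * C0 := by
      have := Real.log_le_sub_one_of_pos (show 0 < 96 * C0 by linarith)
      linarith
    have h7 : C0 ≤ P / 10 ^ 9 := by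
      rw [le_div_iff₀ (by norm_num)]; nlinarith
    linarith

/-- large scales need no event at all -/
lemma Env.cone_det (h : Env C1 C0 T P) (ht : t ∈ Set.Icc T (2 * T)) {M H : ℝ}
    (hMP : 3 / 4 * P < M / 8) (hH : 200 * (H / P) ≤ T / 8) :
    Cone (Gp t P) M H ee := by
  have hP9 := h.P9
  have hP0 : 0 < P := by linarith
  have hM0 : 0 < M := by linarith
  refine h.cone ht hM0 hH ?_
  intro s h1 h2 h3
  exfalso
  have hx : 3 / 4 ≤ M / (8 * P) := by
    rw [le_div_iff₀ (by positivity)]; linarith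
  linarith

end

end Pool.Agent.Helper75.Xi
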