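import Pool.Agent.Helper75.Xi.Gen2

set_option autoImplicit false
set_option maxHeartbeats 1000000

open Filter Topology MeasureTheory Complex Metric
open Pool.Agent.Helper75.Jen (fx Gx LB)

namespace Pool.Agent.Helper75.Xi

noncomputable section

/-- a geometric sum -/
lemma geo_sum {a : ℝ} (ha : 0 < a) (N : ℕ) {κ : ℝ} (hκ : 0 < κ) (hκa : κ ≤ a) :
    ∑ i ∈ Finset.range N, Real.exp (-(2 ^ i * a)) ≤
      Real.exp (-a) * (1 / (1 - Real.exp (-κ))) := by
  have hr0 : 0 < Real.exp (-κ) := Real.exp_pos _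
  have hr1 : Real.exp (-κ) < 1 := by
    rw [Real.exp_lt_one_iff]; linarith
  have h1 : ∀ i ∈ Finset.range N, Real.exp (-(2 ^ i * a)) ≤ Real.exp (-a) * Real.exp (-κ) ^ i := by
    intro i _
    rw [← Real.exp_nat_mul, ← Real.exp_add]
    apply Real.exp_le_exp.2
    have h2 : ((i : ℝ) + 1) ≤ 2 ^ i := by
      exact_mod_cast Nat.lt_two_pow_self (n := i)
    have h3 : ((i : ℝ) + 1) * a ≤ 2 ^ i * a := by gcongr
    have h4 : (i : ℝ) * κ ≤ i * a := by gcongr
    linarith
  refine (Finset.sum_le_sum h1).trans ?_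
  rw [← Finset.mul_sum]
  refine mul_le_mul_of_nonneg_left ?_ (Real.exp_pos _).le
  have h5 := (summable_geometric_of_lt_one hr0.le hr1).sum_le_tsum (Finset.range N)
    (fun i _ => by positivity)
  rw [tsum_geometric_of_lt_one hr0.le hr1] at h5
  rw [one_div]
  exact h5

/-- all heights outside a small set are good at the scale `M` -/
theorem good_sets {C1 C0 : ℝ} (hLB : LB C1) (hZR : 1 ≤ C0 ∧ ∀ s : ℂ, 5 / 4 ≤ s.re →
    riemannZeta s ≠ 0 ∧ ‖logDeriv riemannZeta s‖ ≤ C0 ∧ ‖riemannZeta s‖ ≤ C0 ∧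
      1 ≤ C0 * ‖riemannZeta s‖) :
    ∃ C c : ℝ, 0 ≤ C ∧ 0 < c ∧ ∀ᶠ T : ℝ in atTop, ∀ P : ℝ, P = Real.log T / 2 → Env C1 C0 T P ∧
      ∀ M : ℝ, 10 ^ 12 ≤ M → M < 10000 * P → ∃ E : Set ℝ, MeasurableSet E ∧
        volume (E ∩ Set.Icc T (2 * T)) ≤ ENNReal.ofReal (C * Real.exp (-(c * M)) * T) ∧
        ∀ t ∈ Set.Icc T (2 * T), t ∉ E → Cone (Gp t P) M (400000 * P) ee ∧
          Low (Gp t P) M (1 / 1000) := by
  obtain ⟨Pw, hPw⟩ := ev_bound
  obtain ⟨ϑ, c', C', hc', hC', hev⟩ := hPw (1 / 10 ^ 8) (by norm_num)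
  obtain ⟨CW, hCW, hW⟩ := w_bound
  have hκ0 : 0 < c' / 8 := by positivity
  have hg1 : Real.exp (-(c' / 8)) < 1 := by
    rw [Real.exp_lt_one_iff]; linarith
  have hg2 : 0 < 1 / (1 - Real.exp (-(c' / 8))) := by
    apply one_div_pos.2; linarith
  refine ⟨C' * (1 / (1 - Real.exp (-(c' / 8)))) + CW, min (c' / 8) (1 / (5 * 10 ^ 6)),
    by positivity, lt_min hκ0 (by norm_num), ?_⟩
  have hlog : Tendsto Real.log atTop atTop := Real.tendsto_log_atTop
  filter_upwards [hev, hW, hlog.eventually_ge_atTop (2 * (10 ^ 9 * (C1 + C0))),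
    eventually_gt_atTop (0 : ℝ)] with T hevT hWT hlogT hT0
  intro P hP
  have henv : Env C1 C0 T P := ⟨hT0, hP, by rw [hP]; linarith, hLB, hZR⟩
  refine ⟨henv, ?_⟩
  intro M hM hMP
  have hP9 := henv.P9
  have hP0 : 0 < P := by linarith
  have hM0 : 0 < M := by linarith
  have hTP := henv.TP
  have hT18 := henv.T18
  set cm := min (c' / 8) (1 / (5 * 10 ^ 6)) with hcm
  have hcm1 : cm ≤ c' / 8 := min_le_left _ _
  have hcm2 : cm ≤ 1 / (5 * 10 ^ 6) := min_le_right _ _
  -- the scales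
  set X : ℕ → ℝ := fun i => 2 ^ i * (M / 8) with hX
  have hX1 : ∀ i, 1 ≤ X i := by
    intro i
    have h1 : (1 : ℝ) ≤ 2 ^ i := one_le_pow₀ (by norm_num)
    have h2 : M / 8 ≤ 2 ^ i * (M / 8) := le_mul_of_one_le_left (by positivity) h1
    simp only [hX]
    linarith
  have hA : ∀ i : ℕ, ∃ A : Set ℝ, MeasurableSet A ∧ (X i ≤ 3 / 4 * P →
      volume (A ∩ Set.Icc T (2 * T)) ≤ ENNReal.ofReal (C' * Real.exp (-(c' * X i)) * T) ∧
      ∀ t ∈ Set.Icc T (2 * T), t ∉ A → Ev Pw ϑ (1 / 10 ^ 8) T (X i) (2 * X i / Real.log T) t) := by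
    intro i
    by_cases h : X i ≤ 3 / 4 * P
    · obtain ⟨A, h1, h2, h3⟩ := hevT (X i) (hX1 i) (by linarith)
      exact ⟨A, h1, fun _ => ⟨h2, h3⟩⟩
    · exact ⟨∅, MeasurableSet.empty, fun h' => absurd h' h⟩
  choose A hAm hAe using hA
  obtain ⟨W, hWm, hWv, hWe⟩ := hWT
  set R : ℕ := ⌈P⌉₊ with hR
  have hbig : ∀ i : ℕ, X i ≤ 3 / 4 * P → i < R := by
    intro i hi
    by_contra hcon
    push Not at hcon
    have h1 : P ≤ i := (Nat.le_ceil P).trans (by exact_mod_cast hcon)
    have h2 : ((i : ℝ) + 1) ≤ 2 ^ i := by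
      exact_mod_cast Nat.lt_two_pow_self (n := i)
    have h3 : (2 : ℝ) ^ i * 1 ≤ 2 ^ i * (M / 8) := by
      gcongr; linarith
    simp only [hX] at hi
    linarith
  set Bd : Set ℝ := ⋃ i ∈ (Finset.range R).filter (fun i => X i ≤ 3 / 4 * P), A i with hBd
  refine ⟨Bd ∪ W, ?_, ?_, ?_⟩
  · exact (Finset.measurableSet_biUnion _ (fun i _ => hAm i)).union hWm
  · rw [Set.union_inter_distrib_right]
    refine (measure_union_le _ _).trans ?_
    have h1 : volume (Bd ∩ Set.Icc T (2 * T)) ≤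
        ENNReal.ofReal (C' * (1 / (1 - Real.exp (-(c' / 8)))) * Real.exp (-(cm * M)) * T) := by
      rw [hBd, Set.iUnion₂_inter]
      refine (measure_biUnion_finset_le _ _).trans ?_
      have h2 : ∀ i ∈ (Finset.range R).filter (fun i => X i ≤ 3 / 4 * P),
          volume (A i ∩ Set.Icc T (2 * T)) ≤ ENNReal.ofReal (C' * Real.exp (-(c' * X i)) * T) := by
        intro i hi
        exact (hAe i (Finset.mem_filter.1 hi).2).1
      refine (Finset.sum_le_sum h2).trans ?_
      rw [← ENNReal.ofReal_sum_of_nonneg (fun i _ => by positivity)]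
      apply ENNReal.ofReal_le_ofReal
      calc ∑ i ∈ (Finset.range R).filter (fun i => X i ≤ 3 / 4 * P), C' * Real.exp (-(c' * X i)) * T ≤
          ∑ i ∈ Finset.range R, C' * Real.exp (-(c' * X i)) * T :=
            Finset.sum_le_sum_of_subset_of_nonneg (Finset.filter_subset _ _)
              (fun i _ _ => by positivity)
        _ = C' * T * ∑ i ∈ Finset.range R, Real.exp (-(2 ^ i * (c' * (M / 8)))) := by
            rw [Finset.mul_sum]
            refine Finset.sum_congr rfl fun i _ => ?_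
            simp only [hX]
            rw [show c' * (2 ^ i * (M / 8)) = 2 ^ i * (c' * (M / 8)) by ring]
            ring
        _ ≤ C' * T * (Real.exp (-(c' * (M / 8))) * (1 / (1 - Real.exp (-(c' / 8))))) := by
            refine mul_le_mul_of_nonneg_left ?_ (by positivity)
            refine geo_sum (by positivity) R hκ0 ?_
            nlinarith
        _ ≤ C' * T * (Real.exp (-(cm * M)) * (1 / (1 - Real.exp (-(c' / 8))))) := by
            have h6 : Real.exp (-(c' * (M / 8))) ≤ Real.exp (-(cm * M)) := by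
              apply Real.exp_le_exp.2
              nlinarith
            gcongr
        _ = _ := by ring
    have h3 : volume (W ∩ Set.Icc T (2 * T)) ≤
        ENNReal.ofReal (CW * Real.exp (-(cm * M)) * T) := by
      refine hWv.trans (ENNReal.ofReal_le_ofReal ?_)
      have h4 : Real.log T = 2 * P := by rw [hP]; ring
      have h5 : cm * M ≤ 1 / (5 * 10 ^ 6) * (10000 * P) := by gcongr
      have h6 : Real.exp (-(1 / 1000 * Real.log T)) ≤ Real.exp (-(cm * M)) := by
        apply Real.exp_le_exp.2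
        rw [h4]
        linarith
      gcongr
    refine (add_le_add h1 h3).trans ?_
    rw [← ENNReal.ofReal_add (by positivity) (by positivity)]
    apply ENNReal.ofReal_le_ofReal
    linarith
  · intro t ht htE
    rw [Set.mem_union, not_or] at htE
    have hH : 200 * (400000 * P / P) ≤ T / 8 := by
      rw [mul_div_cancel_right₀ _ hP0.ne']
      linarith
    have hevi : ∀ i : ℕ, X i ≤ 3 / 4 * P →
        Ev Pw ϑ (1 / 10 ^ 8) T (X i) (2 * X i / Real.log T) t := by
      intro i hi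
      refine (hAe i hi).2 t ht ?_
      intro hmem
      apply htE.1
      rw [hBd]
      simp only [Set.mem_iUnion, Finset.mem_filter, Finset.mem_range]
      exact ⟨i, ⟨hbig i hi, hi⟩, hmem⟩
    refine ⟨henv.cone_ev ht hM hH hevi, ?_⟩
    rcases le_or_gt (M / 8) (3 / 4 * P) with h1 | h1
    · have h2 := hevi 0 (by simp only [hX, pow_zero, one_mul]; exact h1)
      simp only [hX, pow_zero, one_mul] at h2
      exact henv.low_ev ht hM h1 h2
    · exact henv.low_w ht hM h1 (by linarith) (hWe t ht htE.2)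

end

end Pool.Agent.Helper75.Xi
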