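import Pool.Agent.Helper75.Jen.XiG
import Pool.Agent.Helper75.Jen.Ver
import Pool.Graph.R_seed8.H370R2.Digamma
import Pool.Graph.R_seed8.H382R2.Digamma

set_option autoImplicit false
set_option maxHeartbeats 1000000

open Complex Filter Topology Metric
open Pool.Agent.Helper75.Jen

namespace Pool.Agent.Helper75.Xi

/-- the digamma function in the right half plane -/
lemma dig_right : ∃ K : ℝ, 1 ≤ K ∧ ∀ s : ℂ, 0 < s.re → 1 ≤ ‖s‖ →
    ‖logDeriv Complex.Gamma s - Real.log ‖s‖‖ ≤ K := by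
  have hlog3 : 0 ≤ Real.log 3 := Real.log_nonneg (by norm_num)
  have hZ := SG.Dig.Z2_nonneg
  have hpi := Real.pi_pos
  refine ⟨Real.log 3 + Real.pi + 2 + SG.Dig.Z2, by linarith, ?_⟩
  intro s hs h1
  have hpos : 0 < ‖s‖ := by linarith
  have hn2 : 1 ≤ ‖s + 1‖ := by
    refine le_trans ?_ (re_le_norm (s + 1))
    simp only [add_re, one_re]; linarith
  have hn3 : ‖s‖ ≤ ‖s + 2‖ := by
    have h2 : ‖s‖ ^ 2 ≤ ‖s + 2‖ ^ 2 := by
      rw [Complex.sq_norm, Complex.sq_norm, normSq_apply, normSq_apply]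
      simp only [add_re, re_ofNat, add_im, im_ofNat, add_zero]
      nlinarith
    exact le_of_sq_le_sq h2 (norm_nonneg _)
  have hn4 : ‖s + 2‖ ≤ 3 * ‖s‖ := by
    refine (norm_add_le s 2).trans ?_
    have : ‖(2 : ℂ)‖ = 2 := by norm_num
    rw [this]; linarith
  have b1 : ‖1 / s‖ ≤ 1 := by
    rw [norm_div, norm_one, div_le_iff₀ (by linarith)]
    linarith
  have b2 : ‖1 / (s + 1)‖ ≤ 1 := by
    rw [norm_div, norm_one, div_le_iff₀ (by linarith)]
    linarith
  have b3 : ‖log (s + 2) - Real.log ‖s‖‖ ≤ Real.log 3 + Real.pi := by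
    have e : log (s + 2) - Real.log ‖s‖ =
        ((Real.log (‖s + 2‖ / ‖s‖) : ℝ) : ℂ) + (arg (s + 2) : ℂ) * I := by
      rw [Real.log_div (by linarith) hpos.ne']
      rw [log]
      push_cast
      ring
    rw [e]
    refine (norm_add_le _ _).trans (add_le_add ?_ ?_)
    · rw [Complex.norm_real, Real.norm_eq_abs, abs_of_nonneg]
      · apply Real.log_le_log (div_pos (by linarith) hpos)
        rw [div_le_iff₀ hpos]
        linarith
      · apply Real.log_nonneg
        rw [le_div_iff₀ hpos]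
        linarith
    · rw [norm_mul, norm_I, mul_one, Complex.norm_real, Real.norm_eq_abs]
      exact abs_arg_le_pi _
  have e : logDeriv Complex.Gamma s - Real.log ‖s‖ =
      (log (s + 2) - Real.log ‖s‖) - 1 / s - 1 / (s + 1) + ∑' n, H370.DG.er n s := by
    rw [H370.DG.logDeriv_Gamma' hs]
    ring
  rw [e]
  calc _ ≤ ‖(log (s + 2) - Real.log ‖s‖) - 1 / s - 1 / (s + 1)‖ + ‖∑' n, H370.DG.er n s‖ :=
        norm_add_le _ _
    _ ≤ (‖(log (s + 2) - Real.log ‖s‖) - 1 / s‖ + ‖1 / (s + 1)‖) + ‖∑' n, H370.DG.er n s‖ := by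
        gcongr
        exact norm_sub_le _ _
    _ ≤ ((‖(log (s + 2) - Real.log ‖s‖)‖ + ‖1 / s‖) + ‖1 / (s + 1)‖) + ‖∑' n, H370.DG.er n s‖ := by
        gcongr
        exact norm_sub_le _ _
    _ ≤ ((Real.log 3 + Real.pi + 1) + 1) + SG.Dig.Z2 := by
        gcongr
        exact H370.DG.norm_tsum_er hs
    _ = _ := by ring

/-- the logarithmic derivative of the gamma part in the right half plane -/
lemma Gx_right {K : ℝ} (hK : ∀ s : ℂ, 0 < s.re → 1 ≤ ‖s‖ →
    ‖logDeriv Complex.Gamma s - Real.log ‖s‖‖ ≤ K) {w : ℂ} (h0 : 0 ≤ w.re) (h4 : 4 ≤ ‖w‖) :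
    Gx w ≠ 0 ∧ DifferentiableAt ℂ Gx w ∧
    ‖logDeriv Gx w - ((1 / 2 * Real.log ‖w‖ : ℝ) : ℂ)‖ ≤ K + 4 := by
  have hK0 : 0 ≤ K := by
    have := hK 1 (by norm_num) (by norm_num)
    exact (norm_nonneg _).trans this
  set s : ℂ := (1 / 2 + w) / 2 with hs
  have hs2 : s = ((1 / 2 : ℝ) : ℂ) * (((1 / 2 : ℝ) : ℂ) + w) := by rw [hs]; push_cast; ring
  have hsre : s.re = 1 / 4 + w.re / 2 := by
    rw [hs2, Complex.re_ofReal_mul, add_re, ofReal_re]
    ring
  have hspos : 0 < s.re := by rw [hsre]; linarith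
  have hsn1 : ‖s‖ ≤ ‖w‖ := by
    rw [hs2, norm_mul, Complex.norm_real]
    have := norm_add_le (((1 / 2 : ℝ) : ℂ)) w
    rw [Complex.norm_real] at this
    norm_num at this ⊢
    linarith
  have hsn2 : ‖w‖ / 4 ≤ ‖s‖ := by
    rw [hs2, norm_mul, Complex.norm_real]
    have := norm_sub_norm_le w (-((1 / 2 : ℝ) : ℂ))
    rw [norm_neg, Complex.norm_real, sub_neg_eq_add, add_comm w] at this
    norm_num at this ⊢
    linarith
  have hsn3 : 1 ≤ ‖s‖ := by linarith
  have hsne : ∀ n : ℕ, s ≠ -n := by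
    intro n hn
    rw [hn] at hspos
    simp at hspos
    have : (0 : ℝ) ≤ n := Nat.cast_nonneg n
    linarith
  have hΓ : Complex.Gamma s ≠ 0 := Complex.Gamma_ne_zero hsne
  have hpoly : (4 * w ^ 2 - 1 : ℂ) ≠ 0 := by
    intro h
    have h1 : 4 * w ^ 2 = 1 := by linear_combination h
    have h2 := congrArg (fun x => ‖x‖) h1
    simp only [norm_mul, norm_pow, norm_one] at h2
    norm_num at h2
    nlinarith
  have hd1 : HasDerivAt (fun w : ℂ => 4 * w ^ 2 - 1) (8 * w) w := by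
    have := ((hasDerivAt_pow 2 w).const_mul (4 : ℂ)).sub_const 1
    refine this.congr_deriv ?_
    push_cast
    ring
  have hpi0 : (Real.pi : ℂ) ≠ 0 := by exact_mod_cast Real.pi_pos.ne'
  have hd2 : HasDerivAt (fun w : ℂ => (Real.pi : ℂ) ^ (-(1 / 2 + w) / 2))
      ((Real.pi : ℂ) ^ (-(1 / 2 + w) / 2) * Complex.log Real.pi * (-1 / 2)) w := by
    have h1 : HasDerivAt (fun w : ℂ => -(1 / 2 + w) / 2) (-1 / 2) w := by
      have := (((hasDerivAt_id w).const_add (1 / 2 : ℂ)).neg).div_const 2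
      exact this
    exact h1.const_cpow (Or.inl hpi0)
  have hd3 : HasDerivAt (fun w : ℂ => Complex.Gamma ((1 / 2 + w) / 2))
      (deriv Complex.Gamma s * (1 / 2)) w := by
    have h1 : HasDerivAt (fun w : ℂ => (1 / 2 + w) / 2) (1 / 2) w := by
      exact ((hasDerivAt_id w).const_add (1 / 2 : ℂ)).div_const 2
    exact (Complex.differentiableAt_Gamma s hsne).hasDerivAt.comp w h1
  have hGx : Gx = fun w => (4 * w ^ 2 - 1) * ((Real.pi : ℂ) ^ (-(1 / 2 + w) / 2) *
      Complex.Gamma ((1 / 2 + w) / 2)) := by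
    funext w
    rw [Gx, Gammaℝ_def]
  have hpp : (Real.pi : ℂ) ^ (-(1 / 2 + w) / 2) ≠ 0 := by
    rw [Complex.cpow_def_of_ne_zero hpi0]
    exact Complex.exp_ne_zero _
  have hd := hd1.mul (hd2.mul hd3)
  have hne : Gx w ≠ 0 := by
    rw [hGx]
    exact mul_ne_zero hpoly (mul_ne_zero hpp hΓ)
  refine ⟨hne, ?_, ?_⟩
  · rw [hGx]
    exact hd.differentiableAt
  · have hl : logDeriv Gx w = 8 * w / (4 * w ^ 2 - 1) - Complex.log Real.pi / 2 +
        1 / 2 * logDeriv Complex.Gamma s := by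
      rw [logDeriv_apply, hGx]
      have h1 := hd.deriv
      have h2 : deriv (fun w : ℂ => (4 * w ^ 2 - 1) * ((Real.pi : ℂ) ^ (-(1 / 2 + w) / 2) *
        Complex.Gamma ((1 / 2 + w) / 2))) w = 8 * w * ((Real.pi : ℂ) ^ (-(1 / 2 + w) / 2) *
          Complex.Gamma s) + (4 * w ^ 2 - 1) *
          ((Real.pi : ℂ) ^ (-(1 / 2 + w) / 2) * Complex.log Real.pi * (-1 / 2) * Complex.Gamma s +
            (Real.pi : ℂ) ^ (-(1 / 2 + w) / 2) * (deriv Complex.Gamma s * (1 / 2))) := h1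
      rw [h2, logDeriv_apply]
      simp only
      rw [← hs]
      exact alg_aux hpoly hpp hΓ
    have h1 := hK s hspos hsn3
    have h2 : ‖8 * w / (4 * w ^ 2 - 1)‖ ≤ 1 := by
      rw [norm_div, div_le_one (norm_pos_iff.2 hpoly)]
      have h3 : ‖(4 : ℂ) * w ^ 2‖ - ‖(1 : ℂ)‖ ≤ ‖4 * w ^ 2 - 1‖ := norm_sub_norm_le _ _
      rw [norm_mul, norm_pow, norm_one] at h3
      rw [norm_mul]
      norm_num at h3 ⊢
      nlinarith
    have hlogpi : Real.log Real.pi ≤ 3 := by
      have := Real.log_le_sub_one_of_pos Real.pi_pos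
      have := Real.pi_lt_d2
      linarith
    have hlogpi0 : 0 ≤ Real.log Real.pi := Real.log_nonneg (by linarith [Real.pi_gt_three])
    have h4' : ‖Complex.log Real.pi / 2‖ ≤ 3 / 2 := by
      rw [← Complex.ofReal_log Real.pi_pos.le, norm_div, Complex.norm_real,
        Real.norm_of_nonneg hlogpi0]
      norm_num
      linarith
    have h5 : |Real.log ‖s‖ - Real.log ‖w‖| ≤ 2 := by
      have hw0 : 0 < ‖w‖ := by linarith
      have hlog4 : Real.log 4 ≤ 2 := by
        have : (4 : ℝ) = 2 ^ 2 := by norm_num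
        rw [this, Real.log_pow]
        have := Real.log_two_lt_d9
        push_cast
        linarith
      have a1 : Real.log ‖s‖ ≤ Real.log ‖w‖ := Real.log_le_log (by linarith) hsn1
      have a2 : Real.log (‖w‖ / 4) ≤ Real.log ‖s‖ := Real.log_le_log (by linarith) hsn2
      rw [Real.log_div hw0.ne' (by norm_num)] at a2
      rw [abs_le]
      constructor <;> linarith
    have e : logDeriv Gx w - ((1 / 2 * Real.log ‖w‖ : ℝ) : ℂ) =
        8 * w / (4 * w ^ 2 - 1) - Complex.log Real.pi / 2 +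
        (1 / 2 : ℝ) * (logDeriv Complex.Gamma s - Real.log ‖s‖) +
        ((1 / 2 * (Real.log ‖s‖ - Real.log ‖w‖) : ℝ) : ℂ) := by
      rw [hl]; push_cast; ring
    rw [e]
    refine (norm_add_le _ _).trans ?_
    refine (add_le_add (norm_add_le _ _) le_rfl).trans ?_
    refine (add_le_add (add_le_add (norm_sub_le _ _) le_rfl) le_rfl).trans ?_
    have e6 : ‖((1 / 2 : ℝ) : ℂ) * (logDeriv Complex.Gamma s - Real.log ‖s‖)‖ ≤ 1 / 2 * K := by
      rw [norm_mul, Complex.norm_real, Real.norm_of_nonneg (by norm_num)]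
      gcongr
    have e7 : ‖((1 / 2 * (Real.log ‖s‖ - Real.log ‖w‖) : ℝ) : ℂ)‖ ≤ 1 := by
      rw [Complex.norm_real, Real.norm_eq_abs, abs_mul, abs_of_pos (by norm_num : (0 : ℝ) < 1 / 2)]
      linarith
    linarith

/-- the gamma function on a vertical line -/
lemma Gamma_vert {K : ℝ} (hK : ∀ s : ℂ, 0 < s.re → 1 ≤ ‖s‖ →
    ‖logDeriv Complex.Gamma s - Real.log ‖s‖‖ ≤ K) {x y : ℝ} (hx : 1 ≤ x) (hy : 0 ≤ y) :
    Real.Gamma x * Real.exp (-(K * y)) ≤ ‖Complex.Gamma (x + y * I)‖ := by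
  set f : ℝ → ℂ := fun u => Complex.Gamma (x + u * I) with hf
  have hre : ∀ u : ℝ, ((x : ℂ) + u * I).re = x := by intro u; simp
  have hne : ∀ u : ℝ, ∀ n : ℕ, ((x : ℂ) + u * I) ≠ -n := by
    intro u n h
    have := congrArg Complex.re h
    rw [hre] at this
    simp at this
    have h2 : (0 : ℝ) ≤ n := Nat.cast_nonneg n
    linarith
  have hd : ∀ u : ℝ, HasDerivAt f (deriv Complex.Gamma (x + u * I) * I) u := by
    intro u
    have h1 : HasDerivAt (fun u : ℝ => ((x : ℂ) + u * I)) I u := by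
      have := ((Complex.ofRealCLM.hasDerivAt (x := u)).mul_const I).const_add (x : ℂ)
      simpa using this
    exact (Complex.differentiableAt_Gamma _ (hne u)).hasDerivAt.comp u h1
  set φ : ℝ → ℝ := fun u => ‖f u‖ ^ 2 * Real.exp (2 * K * u) with hφ
  have hd2 : ∀ u : ℝ, HasDerivAt φ (2 * inner ℝ (f u) (deriv Complex.Gamma (x + u * I) * I) *
      Real.exp (2 * K * u) + ‖f u‖ ^ 2 * (Real.exp (2 * K * u) * (2 * K))) u := by
    intro u
    have h1 := (hd u).norm_sq
    have h2 : HasDerivAt (fun u : ℝ => Real.exp (2 * K * u)) (Real.exp (2 * K * u) * (2 * K)) u := by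
      have := ((hasDerivAt_id u).const_mul (2 * K)).exp
      simpa using this
    exact h1.mul h2
  have hinner : ∀ u : ℝ, -(K * ‖f u‖ ^ 2) ≤ inner ℝ (f u) (deriv Complex.Gamma (x + u * I) * I) := by
    intro u
    have hfu : f u ≠ 0 := Complex.Gamma_ne_zero (hne u)
    have h1 : deriv Complex.Gamma (x + u * I) = logDeriv Complex.Gamma (x + u * I) * f u := by
      rw [logDeriv_apply]
      simp only [hf]
      have h3 : Complex.Gamma (x + u * I) ≠ 0 := hfu
      field_simp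
    have h2 := hK (x + u * I) (by rw [hre]; linarith) (by
      have := Complex.re_le_norm ((x : ℂ) + u * I)
      rw [hre] at this
      linarith)
    set L := logDeriv Complex.Gamma (x + u * I) with hL
    have h3 : |L.im| ≤ K := by
      refine le_trans ?_ h2
      have := Complex.abs_im_le_norm (L - Real.log ‖((x : ℂ) + u * I)‖)
      rw [sub_im, ofReal_im, sub_zero] at this
      exact this
    rw [h1, Complex.inner, mul_comm (L * f u * I)]
    have h4 : (starRingEnd ℂ (f u) * (L * f u * I)).re = -(L.im * ‖f u‖ ^ 2) := by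
      have e1 : starRingEnd ℂ (f u) * (L * f u * I) = L * I * ((‖f u‖ ^ 2 : ℝ) : ℂ) := by
        have e2 : starRingEnd ℂ (f u) * f u = ((‖f u‖ ^ 2 : ℝ) : ℂ) := by
          rw [mul_comm, Complex.mul_conj, Complex.normSq_eq_norm_sq]
        rw [← e2]; ring
      rw [e1, re_mul_ofReal, mul_re, I_re, I_im]
      ring
    rw [h4]
    have h5 : 0 ≤ ‖f u‖ ^ 2 := by positivity
    have := (abs_le.1 h3).2
    nlinarith
  have hmono : Monotone φ := by
    apply monotone_of_deriv_nonneg (fun u => (hd2 u).differentiableAt)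
    intro u
    rw [(hd2 u).deriv]
    have h1 := hinner u
    have h2 : 0 < Real.exp (2 * K * u) := Real.exp_pos _
    have e : 2 * inner ℝ (f u) (deriv Complex.Gamma (x + u * I) * I) * Real.exp (2 * K * u) +
        ‖f u‖ ^ 2 * (Real.exp (2 * K * u) * (2 * K)) =
        2 * Real.exp (2 * K * u) * (inner ℝ (f u) (deriv Complex.Gamma (x + u * I) * I) +
          K * ‖f u‖ ^ 2) := by ring
    rw [e]
    have : 0 ≤ inner ℝ (f u) (deriv Complex.Gamma (x + u * I) * I) + K * ‖f u‖ ^ 2 := by linarith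
    positivity
  have h1 := hmono hy
  simp only [hφ, hf] at h1
  have e1 : ((x : ℂ) + ((0 : ℝ) : ℂ) * I) = x := by simp
  rw [e1, mul_zero, Real.exp_zero, mul_one, Complex.Gamma_ofReal, Complex.norm_real,
    Real.norm_of_nonneg (Real.Gamma_pos_of_pos (by linarith)).le] at h1
  have h2 : Real.exp (2 * K * y) = Real.exp (K * y) ^ 2 := by
    rw [← Real.exp_nat_mul]; congr 1; push_cast; ring
  rw [h2, ← mul_pow] at h1
  have h3 := le_of_sq_le_sq h1 (by positivity)
  rw [Real.exp_neg, ← div_eq_mul_inv, div_le_iff₀ (Real.exp_pos _)]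
  exact h3

end Pool.Agent.Helper75.Xi
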