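import Pool.Agent.Helper75.Jen.Sad

set_option autoImplicit false
set_option maxHeartbeats 1000000

open Complex Filter Topology Metric MeasureTheory intervalIntegral

namespace Pool.Agent.Helper75.Xi

open Pool.Agent.Helper75.Jen

/-- the saddle point analysis, local version: the function itself is zero-free near the saddle point -/
theorem saddle2 {F : ℂ → ℂ} (hF : Differentiable ℂ F) {m : ℕ} (hm : (10 : ℝ) ^ 9 ≤ m)
    {R L Y : ℝ} {z z0 v : ℂ} (hL : 0 ≤ L)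
    (hG0 : ∀ u ∈ ball (z0 + v) R, F u ≠ 0)
    (hLip : ∀ u ∈ ball (z0 + v) R, ∀ u' ∈ ball (z0 + v) R,
      ‖logDeriv F u - logDeriv F u'‖ ≤ L * ‖u - u'‖)
    (hv : v * logDeriv F (z0 + v) = m) (him : 98 / 100 * ‖v‖ ≤ v.im)
    (hz : ‖z - z0‖ ≤ Y) (hR : Y + ‖v‖ / 2 < R)
    (he1 : ‖v‖ ^ 2 * L ≤ 1 / 10000 * m) (he2 : ‖v‖ * L * Y ≤ 1 / 200)
    (hoff : ∀ φ ∈ Set.Icc (0 : ℝ) Real.pi, 1 / 2 < |φ - arg v| →
      ‖F (z + ‖v‖ * cexp (φ * I))‖ ≤ ‖F (z + v)‖ * Real.exp (-(3 / 20) * m * (φ - arg v) ^ 2)) :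
    (∀ φ ∈ Set.Icc (0 : ℝ) Real.pi, ‖F (z + ‖v‖ * cexp (φ * I))‖ ≤
      11 / 10 * ‖F (z + v)‖ * Real.exp (-(3 / 20) * m * (φ - arg v) ^ 2)) ∧
    ‖F (z + v)‖ / Real.sqrt m ≤ ‖AA F m ‖v‖ z‖ ∧ 0 < ‖F (z + v)‖ ∧
    0 < (I * AA (deriv F) m ‖v‖ z * starRingEnd ℂ (AA F m ‖v‖ z)).re := by
  have hm0 : (0 : ℝ) < m := by linarith
  have hv0 : v ≠ 0 := by
    rintro rfl
    rw [zero_mul] at hv
    have : (m : ℝ) = 0 := by exact_mod_cast hv.symm
    linarith
  have hρ : 0 < ‖v‖ := norm_pos_iff.2 hv0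
  set ρ := ‖v‖ with hρdef
  set φ1 := arg v with hφ1
  have hY0 : 0 ≤ Y := (norm_nonneg _).trans hz
  have hvexp : v = ρ * cexp (φ1 * I) := by rw [hρdef, hφ1, Complex.norm_mul_exp_arg_mul_I]
  have hsin : 98 / 100 ≤ Real.sin φ1 := by
    rw [hφ1, Complex.sin_arg, le_div_iff₀ hρ]
    exact him
  have himpos : 0 < v.im := lt_of_lt_of_le (by positivity) him
  have hφ0 : 0 ≤ φ1 := Complex.arg_nonneg_iff.2 himpos.le
  obtain ⟨hφa, hφb⟩ := angle_pos hφ0 (Complex.arg_le_pi v) hsin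
  set u : ℝ → ℂ := fun φ => z + ρ * cexp (φ * I) with hu
  have hu1 : u φ1 = z + v := by
    rw [hu]
    simp only
    rw [← hvexp]
  have hudist : ∀ φ : ℝ, ‖u φ - (z0 + v)‖ ≤ Y + ρ * |φ - φ1| := by
    intro φ
    have e : u φ - (z0 + v) = (z - z0) + v * (cexp (I * ((φ - φ1 : ℝ) : ℂ)) - 1) := by
      rw [hu]
      simp only
      have e2 : (ρ : ℂ) * cexp (φ * I) = v * cexp (I * ((φ - φ1 : ℝ) : ℂ)) := by
        rw [hvexp, mul_assoc, ← Complex.exp_add]
        congr 2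
        push_cast; ring
      rw [e2]
      ring
    rw [e]
    refine (norm_add_le _ _).trans (add_le_add hz ?_)
    rw [norm_mul]
    refine mul_le_mul_of_nonneg_left ?_ hρ.le
    refine Real.norm_exp_I_mul_ofReal_sub_one_le.trans ?_
    rw [Real.norm_eq_abs]
  have hub : ∀ φ : ℝ, |φ - φ1| ≤ 1 / 2 → u φ ∈ ball (z0 + v) R := by
    intro φ hφ
    rw [mem_ball, dist_eq_norm]
    refine (hudist φ).trans_lt ?_
    have : ρ * |φ - φ1| ≤ ρ * (1 / 2) := by gcongr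
    linarith
  have hub1 : u φ1 ∈ ball (z0 + v) R := hub φ1 (by simp)
  have hRpos : 0 < R := by linarith
  have hxv : z0 + v ∈ ball (z0 + v) R := mem_ball_self hRpos
  obtain ⟨H, hH, hGH⟩ := exists_log hRpos hF.differentiableOn hG0
  -- the correction k
  set k : ℝ → ℂ := fun φ => H (u φ) - H (u φ1) - m * (cexp ((φ - φ1 : ℝ) * I) - 1) with hk
  have hk1 : k φ1 = 0 := by rw [hk]; simp
  have hkder : ∀ φ : ℝ, |φ - φ1| ≤ 1 / 2 → HasDerivAt k (I * (v * cexp ((φ - φ1 : ℝ) * I)) *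
      (logDeriv F (u φ) - logDeriv F (z0 + v))) φ := by
    intro φ hφ
    have h1 : HasDerivAt u (ρ * (cexp (φ * I) * I)) φ := by
      have h2 : HasDerivAt (fun φ : ℝ => (φ : ℂ) * I) I φ := by
        simpa using (Complex.ofRealCLM.hasDerivAt (x := φ)).mul_const I
      exact ((h2.cexp).const_mul (ρ : ℂ)).const_add z
    have h3 := (hH (u φ) (hub φ hφ)).scomp φ h1
    have h4 : HasDerivAt (fun φ : ℝ => cexp ((φ - φ1 : ℝ) * I)) (cexp ((φ - φ1 : ℝ) * I) * I) φ := by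
      have h5 : HasDerivAt (fun φ : ℝ => ((φ - φ1 : ℝ) : ℂ) * I) I φ := by
        have h6 : HasDerivAt (fun φ : ℝ => φ - φ1) 1 φ := (hasDerivAt_id φ).sub_const _
        have h7 := h6.ofReal_comp.mul_const I
        simpa using h7
      exact h5.cexp
    have h5 := (h3.sub_const (H (u φ1))).sub ((h4.sub_const 1).const_mul (m : ℂ))
    refine h5.congr_deriv ?_
    rw [smul_eq_mul, ← hv]
    have e : (ρ : ℂ) * (cexp (φ * I) * I) = I * (v * cexp ((φ - φ1 : ℝ) * I)) := by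
      rw [hvexp, mul_assoc (ρ : ℂ), ← Complex.exp_add]
      have : (φ1 * I + ((φ - φ1 : ℝ) : ℂ) * I) = φ * I := by push_cast; ring
      rw [this]; ring
    rw [e]
    ring
  have hkbd : ∀ φ : ℝ, |φ - φ1| ≤ 1 / 2 →
      ‖k φ‖ ≤ (1 / 200 + 1 / 10000 * m * |φ - φ1|) * |φ - φ1| := by
    intro φ hφ
    have hin : ∀ t ∈ Set.uIcc φ1 φ, |t - φ1| ≤ |φ - φ1| := by
      intro t ht
      rw [Set.mem_uIcc] at ht
      rcases ht with ⟨h3, h4⟩ | ⟨h3, h4⟩
      · rw [abs_of_nonneg (by linarith), abs_of_nonneg (by linarith)]; linarith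
      · rw [abs_of_nonpos (by linarith), abs_of_nonpos (by linarith)]; linarith
    have hseg : ∀ t ∈ Set.uIcc φ1 φ, ‖I * (v * cexp ((t - φ1 : ℝ) * I)) *
        (logDeriv F (u t) - logDeriv F (z0 + v))‖ ≤ 1 / 200 + 1 / 10000 * m * |φ - φ1| := by
      intro t ht
      rw [norm_mul, norm_mul, norm_mul, Complex.norm_I, Complex.norm_exp_ofReal_mul_I, one_mul,
        mul_one]
      have ht2 := hin t ht
      have h1 := hLip (u t) (hub t (ht2.trans hφ)) (z0 + v) hxv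
      have h2 : ‖u t - (z0 + v)‖ ≤ Y + ρ * |φ - φ1| := by
        refine (hudist t).trans ?_
        gcongr
      calc ‖v‖ * ‖logDeriv F (u t) - logDeriv F (z0 + v)‖ ≤ ρ * (L * (Y + ρ * |φ - φ1|)) := by
            refine mul_le_mul_of_nonneg_left (h1.trans ?_) hρ.le
            exact mul_le_mul_of_nonneg_left h2 hL
        _ = ρ * L * Y + ρ ^ 2 * L * |φ - φ1| := by ring
        _ ≤ 1 / 200 + 1 / 10000 * m * |φ - φ1| := by
            have := mul_le_mul_of_nonneg_right he1 (abs_nonneg (φ - φ1))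
            linarith
    have := (convex_uIcc φ1 φ).norm_image_sub_le_of_norm_hasDerivWithin_le
      (fun t ht => (hkder t ((hin t ht).trans hφ)).hasDerivWithinAt) hseg Set.left_mem_uIcc
      Set.right_mem_uIcc
    rw [hk1, sub_zero] at this
    exact this
  -- the value at the saddle
  set I1 : ℂ := F (u φ1) * cexp (-(m * φ1 * I)) with hI1
  set B : ℝ := ‖I1‖ with hB
  have hI1ne : I1 ≠ 0 := mul_ne_zero (hG0 _ hub1) (Complex.exp_ne_zero _)
  have hBpos : 0 < B := norm_pos_iff.2 hI1ne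
  have hrep : ∀ φ : ℝ, |φ - φ1| ≤ 1 / 2 → F (u φ) * cexp (-(m * φ * I)) =
      I1 * cexp (m * (cexp ((φ - φ1 : ℝ) * I) - 1 - ((φ - φ1 : ℝ) : ℂ) * I) + k φ) := by
    intro φ hφ
    rw [hGH (u φ1) hub1 (u φ) (hub φ hφ), hI1, mul_assoc (F (u φ1)), mul_assoc (F (u φ1)),
      ← Complex.exp_add, ← Complex.exp_add]
    congr 2
    rw [hk]
    push_cast
    ring
  have hnormI : ∀ φ : ℝ, ‖cexp (-(m * φ * I))‖ = 1 := by
    intro φ
    rw [show (-(m * φ * I) : ℂ) = ((-(m * φ) : ℝ) : ℂ) * I by push_cast; ring,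
      Complex.norm_exp_ofReal_mul_I]
  have hBF : B = ‖F (z + v)‖ := by
    rw [hB, hI1, norm_mul, hnormI, mul_one, hu1]
  have hGn : ∀ φ : ℝ, |φ - φ1| ≤ 1 / 2 →
      ‖F (u φ)‖ = B * Real.exp (m * (Real.cos (φ - φ1) - 1) + (k φ).re) := by
    intro φ hφ
    have h1 := congrArg (fun w => ‖w‖) (hrep φ hφ)
    simp only [norm_mul, hnormI, mul_one] at h1
    rw [h1, Complex.norm_exp]
    congr 2
    have e : (cexp ((φ - φ1 : ℝ) * I)).re = Real.cos (φ - φ1) := by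
      rw [Complex.exp_ofReal_mul_I_re]
    simp only [add_re, mul_re, sub_re, one_re, natCast_re, natCast_im, zero_mul, sub_zero, e,
      ofReal_re, ofReal_im, I_re, I_im, mul_zero, mul_one]
  have hpi2 : Real.pi ^ 2 ≤ 10 := by
    have := Real.pi_lt_d2
    nlinarith [Real.pi_pos]
  have hGup : ∀ φ : ℝ, |φ - φ1| ≤ 1 / 2 → ‖F (u φ)‖ ≤
      B * Real.exp (-(1999 / 10000) * m * (φ - φ1) ^ 2 + 2 / 100) := by
    intro φ hφ
    have hϑ : |φ - φ1| ≤ Real.pi := by linarith [Real.pi_gt_three]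
    rw [hGn φ hφ]
    refine mul_le_mul_of_nonneg_left (Real.exp_le_exp.2 ?_) hBpos.le
    have h1 := Real.cos_le_one_sub_mul_cos_sq hϑ
    have h2 : (k φ).re ≤ (1 / 200 + 1 / 10000 * m * |φ - φ1|) * |φ - φ1| :=
      (Complex.re_le_norm _).trans (hkbd φ hφ)
    have h3 : 1 / 5 ≤ 2 / Real.pi ^ 2 := by
      rw [div_le_div_iff₀ (by norm_num) (by positivity)]; linarith
    have h4 : m * (Real.cos (φ - φ1) - 1) ≤ -(1 / 5) * m * (φ - φ1) ^ 2 := by
      have h5 : Real.cos (φ - φ1) - 1 ≤ -(1 / 5) * (φ - φ1) ^ 2 := by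
        have := mul_le_mul_of_nonneg_right h3 (sq_nonneg (φ - φ1))
        linarith
      have := mul_le_mul_of_nonneg_left h5 hm0.le
      linarith
    have h6 : |φ - φ1| * |φ - φ1| = (φ - φ1) ^ 2 := by rw [← sq, sq_abs]
    have h7 : 1 / 200 * |φ - φ1| ≤ 2 / 100 := by linarith
    have h8 : (1 / 200 + 1 / 10000 * m * |φ - φ1|) * |φ - φ1| =
        1 / 200 * |φ - φ1| + 1 / 10000 * m * (φ - φ1) ^ 2 := by rw [← h6]; ring
    rw [h8] at h2
    linarith
  have hIcn : ∀ φ : ℝ, ‖Ic F m ρ z φ‖ = ‖F (u φ)‖ := by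
    intro φ
    unfold Ic
    rw [norm_mul, hnormI, mul_one]
  have he02 : Real.exp (2 / 100) ≤ 105 / 100 := by
    have := Real.exp_bound' (x := 2 / 100) (by norm_num) (by norm_num) (n := 3) (by norm_num)
    refine this.trans ?_
    norm_num [Finset.sum_range_succ, Nat.factorial]
  have hup : ∀ φ ∈ Set.Icc (0 : ℝ) Real.pi, ‖Ic F m ρ z φ‖ ≤
      11 / 10 * B * Real.exp (-(3 / 20) * m * (φ - φ1) ^ 2) := by
    intro φ hφ
    rw [hIcn]
    have hmq : 0 ≤ m * (φ - φ1) ^ 2 := by positivity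
    by_cases hc : |φ - φ1| ≤ 1 / 2
    · have g1 := hGup φ hc
      have g4 : Real.exp (-(1999 / 10000) * m * (φ - φ1) ^ 2 + 2 / 100) ≤
          105 / 100 * Real.exp (-(3 / 20) * m * (φ - φ1) ^ 2) := by
        rw [Real.exp_add, mul_comm]
        exact mul_le_mul he02 (Real.exp_le_exp.2 (by nlinarith)) (Real.exp_pos _).le (by norm_num)
      calc ‖F (u φ)‖ ≤ B * (105 / 100 * Real.exp (-(3 / 20) * m * (φ - φ1) ^ 2)) := by
            exact g1.trans (mul_le_mul_of_nonneg_left g4 hBpos.le)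
        _ = 105 / 100 * (B * Real.exp (-(3 / 20) * m * (φ - φ1) ^ 2)) := by ring
        _ ≤ 11 / 10 * (B * Real.exp (-(3 / 20) * m * (φ - φ1) ^ 2)) :=
            mul_le_mul_of_nonneg_right (by norm_num) (by positivity)
        _ = _ := by ring
    · push Not at hc
      have g2 := hoff φ hφ hc
      rw [← hBF] at g2
      calc ‖F (u φ)‖ ≤ B * Real.exp (-(3 / 20) * m * (φ - φ1) ^ 2) := g2
        _ ≤ _ := by
            have : 0 < B * Real.exp (-(3 / 20) * m * (φ - φ1) ^ 2) := by positivity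
            nlinarith
  have hs0 : 0 < Real.sqrt m := Real.sqrt_pos.2 hm0
  have hsm : Real.sqrt m ^ 2 = m := Real.sq_sqrt hm0.le
  have hs1 : (30000 : ℝ) ≤ Real.sqrt m := by
    apply Real.le_sqrt_of_sq_le
    linarith
  set c : ℂ := I1 / B with hc
  have hBne : (B : ℂ) ≠ 0 := by exact_mod_cast hBpos.ne'
  have hcn : ‖c‖ = 1 := by
    rw [hc, norm_div, Complex.norm_real, Real.norm_of_nonneg hBpos.le, div_self hBpos.ne']
  have hlow : ∀ φ : ℝ, |φ - φ1| ≤ 8 / Real.sqrt m →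
      9 / 10 * B * Real.exp (-(1 / 2) * m * (φ - φ1) ^ 2) ≤ (starRingEnd ℂ c * Ic F m ρ z φ).re := by
    intro φ hφ
    have h8 : 8 / Real.sqrt m ≤ 1 / 3000 := by
      rw [div_le_div_iff₀ hs0 (by norm_num)]; linarith
    have hφh : |φ - φ1| ≤ 1 / 2 := by linarith
    have hkb := hkbd φ hφh
    have hrepφ := hrep φ hφh
    set ϑ := φ - φ1 with hϑ
    have hϑ1 : |ϑ| ≤ 1 / 3000 := hφ.trans h8
    have hϑs : |ϑ| * Real.sqrt m ≤ 8 := by rwa [le_div_iff₀ hs0] at hφ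
    have hϑm : m * |ϑ| ^ 2 ≤ 64 := by
      have : (|ϑ| * Real.sqrt m) ^ 2 ≤ 8 ^ 2 := by gcongr
      rw [mul_pow, hsm] at this
      linarith
    set X : ℂ := m * (cexp (ϑ * I) - 1 - ϑ * I + ϑ ^ 2 / 2) + k φ with hX
    have hXn : ‖X‖ ≤ 1 / 30 := by
      have a1 := exp_third (ϑ := ϑ) (by linarith)
      have a2 := hkb
      rw [hX]
      refine (norm_add_le _ _).trans ?_
      rw [norm_mul, Complex.norm_natCast]
      have a3 : (m : ℝ) * ‖cexp (ϑ * I) - 1 - ϑ * I + ϑ ^ 2 / 2‖ ≤ m * |ϑ| ^ 3 := by gcongr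
      have a4 : (m : ℝ) * |ϑ| ^ 3 ≤ 64 * (8 / Real.sqrt m) := by
        calc (m : ℝ) * |ϑ| ^ 3 = m * |ϑ| ^ 2 * |ϑ| := by ring
          _ ≤ 64 * (8 / Real.sqrt m) := by
            refine mul_le_mul hϑm hφ (abs_nonneg _) (by norm_num)
      have a5 : 64 * (8 / Real.sqrt m) ≤ 1 / 57 := by
        have : 8 / Real.sqrt m ≤ 8 / 30000 := by gcongr
        have h9 : Real.sqrt m ≥ 31000 := by
          apply Real.le_sqrt_of_sq_le
          linarith
        have : 8 / Real.sqrt m ≤ 8 / 31000 := by gcongr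
        linarith
      have a6 : (1 / 200 + 1 / 10000 * m * |ϑ|) * |ϑ| ≤ 1 / 500 + 64 / 10000 := by
        have : (1 / 200 + 1 / 10000 * m * |ϑ|) * |ϑ| = 1 / 200 * |ϑ| + 1 / 10000 * (m * |ϑ| ^ 2) := by
          ring
        rw [this]
        linarith
      linarith
    have hfull : Ic F m ρ z φ = I1 * (Real.exp (-(1 / 2) * m * ϑ ^ 2) : ℂ) * cexp X := by
      have b1 : Ic F m ρ z φ = F (u φ) * cexp (-(m * φ * I)) := rfl
      rw [b1, hrepφ]
      have b2 : cexp (m * (cexp ((φ - φ1 : ℝ) * I) - 1 - ((φ - φ1 : ℝ) : ℂ) * I) + k φ) =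
          (Real.exp (-(1 / 2) * m * ϑ ^ 2) : ℂ) * cexp X := by
        rw [← hϑ, Complex.ofReal_exp, ← Complex.exp_add, hX]
        congr 1
        push_cast
        ring
      rw [b2]
      ring
    have hX2 := exp_small hXn
    have hre : 9 / 10 ≤ (cexp X).re := by
      have b6 := Complex.abs_re_le_norm (cexp X - 1)
      have b7 := (abs_le.1 (b6.trans hX2)).1
      rw [sub_re, one_re] at b7
      linarith
    have hcI : starRingEnd ℂ c * I1 = (B : ℂ) := by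
      rw [hc, map_div₀, Complex.conj_ofReal, div_mul_eq_mul_div, mul_comm (starRingEnd ℂ I1),
        Complex.mul_conj, Complex.normSq_eq_norm_sq, ← hB]
      push_cast
      field_simp
    rw [hfull]
    have b8 : starRingEnd ℂ c * (I1 * (Real.exp (-(1 / 2) * m * ϑ ^ 2) : ℂ) * cexp X) =
        ((B * Real.exp (-(1 / 2) * m * ϑ ^ 2) : ℝ) : ℂ) * cexp X := by
      push_cast
      rw [← hcI]
      ring
    rw [b8, Complex.re_ofReal_mul]
    have b9 : 0 ≤ B * Real.exp (-(1 / 2) * m * ϑ ^ 2) := by positivity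
    calc 9 / 10 * B * Real.exp (-(1 / 2) * m * ϑ ^ 2) =
        B * Real.exp (-(1 / 2) * m * ϑ ^ 2) * (9 / 10) := by ring
      _ ≤ _ := by gcongr
  obtain ⟨hA1, hA2⟩ := laplace (Ic_cont hF m ρ z) (by linarith) hBpos hcn hφa hφb hup hlow
  -- conclusion
  set A := AA F m ρ z with hA
  have hAeq : (∫ φ in (0 : ℝ)..Real.pi, Ic F m ρ z φ) = A := rfl
  rw [hAeq] at hA1 hA2
  set J1 := ∫ φ in (0 : ℝ)..Real.pi, Ic F m ρ z φ * cexp (-(φ * I)) with hJ1
  have hparts := AA_parts hF m (ρ := ρ) z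
  rw [← hJ1] at hparts
  set bd : ℂ := F (z - ρ) * cexp (-((m + 1) * Real.pi * I)) - F (z + ρ) with hbd
  have hbdn : ‖bd‖ ≤ 22 / 10 * B := by
    have c1 := hup 0 ⟨le_refl _, Real.pi_pos.le⟩
    have c2 := hup Real.pi ⟨Real.pi_pos.le, le_refl _⟩
    rw [hIcn] at c1 c2
    have c3 : u 0 = z + ρ := by rw [hu]; simp
    have c4 : u Real.pi = z - ρ := by
      rw [hu]; simp only; rw [Complex.exp_pi_mul_I]; ring
    rw [c3] at c1
    rw [c4] at c2
    have c5 : ∀ t : ℝ, Real.exp (-(3 / 20) * m * t ^ 2) ≤ 1 := by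
      intro t
      rw [Real.exp_le_one_iff]
      have : 0 ≤ m * t ^ 2 := by positivity
      nlinarith
    have c6 : ‖F (z + ρ)‖ ≤ 11 / 10 * B := by
      refine c1.trans ?_
      have := mul_le_mul_of_nonneg_left (c5 (0 - φ1)) (show 0 ≤ 11 / 10 * B by positivity)
      linarith
    have c7 : ‖F (z - ρ)‖ ≤ 11 / 10 * B := by
      refine c2.trans ?_
      have := mul_le_mul_of_nonneg_left (c5 (Real.pi - φ1)) (show 0 ≤ 11 / 10 * B by positivity)
      linarith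
    rw [hbd]
    refine (norm_sub_le _ _).trans ?_
    have c8 : ‖cexp (-((m + 1) * Real.pi * I))‖ = 1 := by
      rw [show (-((m + 1) * Real.pi * I) : ℂ) = ((-((m + 1) * Real.pi) : ℝ) : ℂ) * I by
        push_cast; ring, Complex.norm_exp_ofReal_mul_I]
    rw [norm_mul, c8, mul_one]
    linarith
  set δ : ℂ := J1 - cexp (-(φ1 * I)) * A with hδ
  have hApos : 0 < ‖A‖ := lt_of_lt_of_le (by positivity) hA1
  -- the main identity
  have hmain : (ρ : ℂ) * (I * AA (deriv F) m ρ z * starRingEnd ℂ A) =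
      ((m : ℂ) + 1) * (I * cexp (-(φ1 * I))) * ((‖A‖ ^ 2 : ℝ) : ℂ) +
        (bd + I * (m + 1) * δ) * starRingEnd ℂ A := by
    have d1 : A * starRingEnd ℂ A = ((‖A‖ ^ 2 : ℝ) : ℂ) := by
      rw [Complex.mul_conj, Complex.normSq_eq_norm_sq]
    rw [← d1, hδ]
    linear_combination (starRingEnd ℂ A) * hparts
  have hre1 : (((m : ℂ) + 1) * (I * cexp (-(φ1 * I))) * ((‖A‖ ^ 2 : ℝ) : ℂ)).re =
      (m + 1) * Real.sin φ1 * ‖A‖ ^ 2 := by
    have d2 : (I * cexp (-(φ1 * I))).re = Real.sin φ1 := by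
      rw [show (-(φ1 * I) : ℂ) = ((-φ1 : ℝ) : ℂ) * I by push_cast; ring]
      rw [Complex.mul_re, Complex.exp_ofReal_mul_I_im, Complex.exp_ofReal_mul_I_re]
      simp
    rw [mul_comm _ (((‖A‖ ^ 2 : ℝ) : ℂ)), Complex.re_ofReal_mul]
    have d3 : ((m : ℂ) + 1) = (((m : ℝ) + 1 : ℝ) : ℂ) := by push_cast; ring
    rw [d3, Complex.re_ofReal_mul, d2]
    ring
  have hre2 : -((22 / 10 * B + (m + 1) * (15 * B / m)) * ‖A‖) ≤
      ((bd + I * (m + 1) * δ) * starRingEnd ℂ A).re := by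
    have d4 := Complex.abs_re_le_norm ((bd + I * (m + 1) * δ) * starRingEnd ℂ A)
    have d5 : ‖(bd + I * (m + 1) * δ) * starRingEnd ℂ A‖ ≤
        (22 / 10 * B + (m + 1) * (15 * B / m)) * ‖A‖ := by
      rw [norm_mul, Complex.norm_conj]
      refine mul_le_mul_of_nonneg_right ?_ (norm_nonneg _)
      refine (norm_add_le _ _).trans (add_le_add hbdn ?_)
      rw [norm_mul, norm_mul, Complex.norm_I, one_mul]
      have d6 : ‖((m : ℂ) + 1)‖ = (m : ℝ) + 1 := by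
        have : ((m : ℂ) + 1) = (((m : ℝ) + 1 : ℝ) : ℂ) := by push_cast; ring
        rw [this, Complex.norm_real, Real.norm_of_nonneg (by positivity)]
      rw [d6]
      exact mul_le_mul_of_nonneg_left hA2 (by positivity)
    linarith [(abs_le.1 (d4.trans d5)).1]
  have hfin : 0 < (m + 1) * Real.sin φ1 * ‖A‖ ^ 2 -
      (22 / 10 * B + (m + 1) * (15 * B / m)) * ‖A‖ := by
    have d7 : (m + 1) * Real.sin φ1 * ‖A‖ ^ 2 - (22 / 10 * B + (m + 1) * (15 * B / m)) * ‖A‖ =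
        ‖A‖ * ((m + 1) * Real.sin φ1 * ‖A‖ - (22 / 10 * B + (m + 1) * (15 * B / m))) := by ring
    rw [d7]
    refine mul_pos hApos ?_
    have d8 : m * (98 / 100) * (B / Real.sqrt m) ≤ (m + 1) * Real.sin φ1 * ‖A‖ := by
      refine mul_le_mul (mul_le_mul (by linarith) hsin (by norm_num) (by positivity)) hA1
        (by positivity) (by positivity)
    have d9 : m * (98 / 100) * (B / Real.sqrt m) = 98 / 100 * B * Real.sqrt m := by
      nth_rewrite 1 [← hsm]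
      field_simp
    have d10 : ((m : ℝ) + 1) * (15 * B / m) ≤ 30 * B := by
      rw [mul_div_assoc', div_le_iff₀ hm0]
      nlinarith
    have d11 : 98 / 100 * B * 30000 ≤ 98 / 100 * B * Real.sqrt m := by gcongr
    linarith
  have hgoal : 0 < (ρ : ℝ) * (I * AA (deriv F) m ρ z * starRingEnd ℂ A).re := by
    rw [← Complex.re_ofReal_mul, hmain, add_re, hre1]
    linarith
  refine ⟨?_, ?_, ?_, pos_of_mul_pos_right hgoal hρ.le⟩
  · intro φ hφ
    have := hup φ hφ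
    rw [hIcn, hBF] at this
    exact this
  · rw [← hBF]; exact hA1
  · rw [← hBF]; exact hBpos

end Pool.Agent.Helper75.Xi
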